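import Pool.Agent.Helper73.EU.Tools

/-!
EU-01. The laws hold for Lipschitz tests.

PROOF. `exists_mollify`: let `φ` be a Lipschitz test with constant `K`. Let `η n` be a
`ContDiffBump (0 : ℝ × ℝ)` with `rOut = δ / (n + 1)`, `rIn = rOut / 2`, where `δ > 0` is such that
the closed `δ`-thickening of `tsupport φ` is contained in `Strip T` (compact in open:
`IsCompact.exists_cthickening_subset_open`). Put
`ψ n z = ∫ y, (η n).normed volume y * φ (z - y)` (= `((η n).normed volume) ⋆[lsmul ℝ ℝ, volume] φ`).
It is smooth (`HasCompactSupport.contDiff_convolution_left`), its support is contained in the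
closed thickening (compact), it is nonnegative if `φ` is. For a vector `v` the difference quotients
`h⁻¹ (ψ n (z + h v) - ψ n z) = ∫ y, (η n).normed y * h⁻¹ (φ (z - y + h v) - φ (z - y))` tend, `h → 0+`,
to `∫ y, (η n).normed y * lineDeriv ℝ φ (z - y) v`
(`LipschitzWith.integral_inv_smul_sub_mul_tendsto_integral_lineDeriv_mul`, after `y ↦ z - y`), so
`fderiv ℝ (ψ n) z v = ∫ y, (η n).normed y * lineDeriv ℝ φ (z - y) v`. Its absolute value is at most
`K ‖v‖`, and for almost every `z` it tends to `lineDeriv ℝ φ z v = fderiv ℝ φ z v`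
(`ContDiffBump.ae_convolution_tendsto_right_of_locallyIntegrable`, the line derivative is locally
integrable: `LipschitzWith.locallyIntegrable_lineDeriv`; Rademacher: `LipschitzWith.ae_differentiableAt`,
`DifferentiableAt.lineDeriv_eq_fderiv`).
Laws: dominated convergence, `∫ z in Strip T, (A z * dt (ψ n) z + B z * dx (ψ n) z)` tends to the same
with `φ`; bound `2 M K'` times the indicator of the compact set `S`.
-/

open MeasureTheory Set Filter Topology
open scoped ContDiff NNReal

namespace Helper73.EU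

/-- The bumps of the mollification. -/
private noncomputable def mkBump (δ : ℝ) (hδ : 0 < δ) (n : ℕ) : ContDiffBump (0 : ℝ × ℝ) :=
  ⟨δ / ((n : ℝ) + 1) / 2, δ / ((n : ℝ) + 1), by positivity, half_lt_self (by positivity)⟩

theorem exists_mollify {T : ℝ} {φ : ℝ × ℝ → ℝ} (hφ : IsLipTest T φ) :
    ∃ (ψ : ℕ → ℝ × ℝ → ℝ) (K : ℝ) (S : Set (ℝ × ℝ)), IsCompact S ∧ S ⊆ Strip T ∧
      (∀ n, IsTest T (ψ n)) ∧ (∀ n, tsupport (ψ n) ⊆ S) ∧
      (∀ n z, |dt (ψ n) z| ≤ K ∧ |dx (ψ n) z| ≤ K) ∧
      ((∀ z, 0 ≤ φ z) → ∀ n z, 0 ≤ ψ n z) ∧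
      ∀ᵐ z : ℝ × ℝ, Tendsto (fun n => dt (ψ n) z) atTop (𝓝 (dt φ z)) ∧
        Tendsto (fun n => dx (ψ n) z) atTop (𝓝 (dx φ z)) := by
  obtain ⟨K, hK⟩ := hφ.lip
  obtain ⟨δ, hδ, hδS⟩ := hφ.compact.isCompact.exists_cthickening_subset_open (isOpen_strip T)
    hφ.support
  set S : Set (ℝ × ℝ) := Metric.cthickening δ (tsupport φ) with hS
  have hSc : IsCompact S := hφ.compact.isCompact.cthickening
  have hφli : LocallyIntegrable φ (volume : Measure (ℝ × ℝ)) :=
    hK.continuous.locallyIntegrable
  let η : ℕ → ContDiffBump (0 : ℝ × ℝ) := fun n => mkBump δ hδ n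
  let ψ : ℕ → ℝ × ℝ → ℝ := fun n => convolution ((η n).normed volume) φ (ContinuousLinearMap.lsmul ℝ ℝ) volume
  have hrO : ∀ n, (η n).rOut ≤ δ := fun n => by
    show δ / ((n : ℝ) + 1) ≤ δ
    exact div_le_self hδ.le (by linarith [n.cast_nonneg (α := ℝ)])
  have hψ : ∀ n z, ψ n z = ∫ t, (η n).normed volume t * φ (z - t) := fun n z => by
    show (convolution _ _ _ _) z = _
    rw [convolution_lsmul]
    rfl
  have hψ' : ∀ n z, ψ n z = ∫ t, φ t * (η n).normed volume (z - t) := fun n z => by
    show (convolution _ _ _ _) z = _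
    rw [convolution_lsmul_swap]
    apply integral_congr_ae
    exact Eventually.of_forall fun t => by
      show (η n).normed volume (z - t) • φ t = φ t * (η n).normed volume (z - t)
      rw [smul_eq_mul, mul_comm]
  have hint : ∀ n z, Integrable (fun t => (η n).normed volume t * φ (z - t)) := fun n z => by
    apply Continuous.integrable_of_hasCompactSupport
    · exact ((η n).continuous_normed).mul (hK.continuous.comp (continuous_const.sub continuous_id))
    · exact ((η n).hasCompactSupport_normed).mul_right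
  have hlip : ∀ n, LipschitzWith K (ψ n) := by
    intro n
    apply LipschitzWith.of_dist_le_mul
    intro z z'
    rw [Real.dist_eq, hψ, hψ, ← integral_sub (hint n z) (hint n z')]
    have h1 : ∀ t, ‖(η n).normed volume t * φ (z - t) - (η n).normed volume t * φ (z' - t)‖ ≤
        (η n).normed volume t * (K * dist z z') := fun t => by
      rw [← mul_sub, norm_mul, Real.norm_eq_abs, Real.norm_eq_abs,
        abs_of_nonneg ((η n).nonneg_normed t)]
      apply mul_le_mul_of_nonneg_left _ ((η n).nonneg_normed t)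
      have := hK.dist_le_mul (z - t) (z' - t)
      rwa [Real.dist_eq, dist_sub_right] at this
    have h2 := norm_integral_le_of_norm_le (μ := (volume : Measure (ℝ × ℝ)))
      (f := fun t => (η n).normed volume t * φ (z - t) - (η n).normed volume t * φ (z' - t))
      (g := fun t => (η n).normed volume t * (K * dist z z'))
      (((η n).integrable_normed).mul_const _) (Eventually.of_forall h1)
    rw [integral_mul_const, (η n).integral_normed, one_mul] at h2
    exact h2
  have hsm : ∀ n, ContDiff ℝ ∞ (ψ n) := fun n =>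
    ((η n).hasCompactSupport_normed).contDiff_convolution_left _ (η n).contDiff_normed hφli
  have hsup : ∀ n, tsupport (ψ n) ⊆ S := by
    intro n
    apply closure_minimal _ hSc.isClosed
    intro z hz
    have hz' : ψ n z ≠ 0 := hz
    rw [hψ] at hz'
    obtain ⟨t, ht⟩ : ∃ t, (η n).normed volume t * φ (z - t) ≠ 0 := by
      by_contra hcon
      push Not at hcon
      exact hz' (by simp [hcon])
    have h1 : t ∈ Function.support ((η n).normed (volume : Measure (ℝ × ℝ))) :=
      fun h0 => ht (by rw [h0, zero_mul])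
    have h2 : z - t ∈ tsupport φ := subset_tsupport _ (fun h0 => ht (by rw [h0, mul_zero]))
    rw [(η n).support_normed_eq, mem_ball_zero_iff] at h1
    apply Metric.mem_cthickening_of_dist_le z (z - t) δ _ h2
    rw [dist_eq_norm, sub_sub_cancel]
    exact h1.le.trans (hrO n)
  have hderiv : ∀ n z v, fderiv ℝ (ψ n) z v =
      convolution ((η n).normed volume) (fun x => lineDeriv ℝ φ x v)
        (ContinuousLinearMap.lsmul ℝ ℝ) volume z := by
    intro n z v
    have hdiff : DifferentiableAt ℝ (ψ n) z := (hsm n).differentiable (by simp) z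
    have h1 : Tendsto (fun t : ℝ => t⁻¹ • (ψ n (z + t • v) - ψ n z)) (𝓝[>] 0)
        (𝓝 (fderiv ℝ (ψ n) z v)) := by
      have := (hdiff.hasFDerivAt.hasLineDerivAt v).tendsto_slope_zero_right
      exact this
    have hg : Integrable (fun x => (η n).normed volume (z - x)) (volume : Measure (ℝ × ℝ)) :=
      ((η n).integrable_normed).comp_sub_left z
    have h2 := hK.integral_inv_smul_sub_mul_tendsto_integral_lineDeriv_mul
      (μ := (volume : Measure (ℝ × ℝ))) hg v
    have h3 : ∀ t : ℝ, t⁻¹ • (ψ n (z + t • v) - ψ n z) =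
        ∫ x, (t⁻¹ • (φ (x + t • v) - φ x)) * (η n).normed volume (z - x) := by
      intro t
      have e1 : ψ n (z + t • v) = ∫ x, φ (x + t • v) * (η n).normed volume (z - x) := by
        rw [hψ', ← integral_add_right_eq_self _ (t • v)]
        apply integral_congr_ae
        exact Eventually.of_forall fun x => by
          show φ (x + t • v) * (η n).normed volume (z + t • v - (x + t • v)) = _
          rw [add_sub_add_right_eq_sub]
      have i1 : Integrable (fun x => φ (x + t • v) * (η n).normed volume (z - x))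
          (volume : Measure (ℝ × ℝ)) := by
        apply Continuous.integrable_of_hasCompactSupport
        · exact (hK.continuous.comp (continuous_id.add continuous_const)).mul
            ((η n).continuous_normed.comp (continuous_const.sub continuous_id))
        · exact (((η n).hasCompactSupport_normed).comp_homeomorph (Homeomorph.subLeft z)).mul_left
      have i2 : Integrable (fun x => φ x * (η n).normed volume (z - x))
          (volume : Measure (ℝ × ℝ)) := by
        apply Continuous.integrable_of_hasCompactSupport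
        · exact hK.continuous.mul
            ((η n).continuous_normed.comp (continuous_const.sub continuous_id))
        · exact (((η n).hasCompactSupport_normed).comp_homeomorph (Homeomorph.subLeft z)).mul_left
      rw [e1, hψ', ← integral_sub i1 i2, ← integral_smul]
      apply integral_congr_ae
      exact Eventually.of_forall fun x => by
        show t⁻¹ • (φ (x + t • v) * (η n).normed volume (z - x) -
          φ x * (η n).normed volume (z - x)) = (t⁻¹ • (φ (x + t • v) - φ x)) *
            (η n).normed volume (z - x)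
        simp only [smul_eq_mul]
        ring
    have h4 := tendsto_nhds_unique (h1.congr h3) h2
    rw [h4, convolution_lsmul_swap]
    apply integral_congr_ae
    exact Eventually.of_forall fun x => by
      show lineDeriv ℝ φ x v * (η n).normed volume (z - x) =
        (η n).normed volume (z - x) • lineDeriv ℝ φ x v
      rw [smul_eq_mul, mul_comm]
  have hconv : ∀ v : ℝ × ℝ, ∀ᵐ z : ℝ × ℝ,
      Tendsto (fun n => fderiv ℝ (ψ n) z v) atTop (𝓝 (fderiv ℝ φ z v)) := by
    intro v
    have hl : LocallyIntegrable (fun x => lineDeriv ℝ φ x v) (volume : Measure (ℝ × ℝ)) :=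
      hK.locallyIntegrable_lineDeriv v
    have ht0 : Tendsto (fun n => (η n).rOut) atTop (𝓝 0) := by
      have := (tendsto_const_div_atTop_nhds_zero_nat δ).comp (tendsto_add_atTop_nat 1)
      refine this.congr fun n => ?_
      show δ / ((n + 1 : ℕ) : ℝ) = δ / ((n : ℝ) + 1)
      push_cast
      rfl
    have hK2 : ∀ᶠ n in atTop, (η n).rOut ≤ 2 * (η n).rIn :=
      Eventually.of_forall fun n => by
        show δ / ((n : ℝ) + 1) ≤ 2 * (δ / ((n : ℝ) + 1) / 2)
        linarith
    filter_upwards [ContDiffBump.ae_convolution_tendsto_right_of_locallyIntegrable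
      (μ := (volume : Measure (ℝ × ℝ))) ht0 hK2 hl,
      hK.ae_differentiableAt (μ := (volume : Measure (ℝ × ℝ)))] with z hz hd
    rw [← hd.lineDeriv_eq_fderiv]
    exact hz.congr fun n => (hderiv n z v).symm
  refine ⟨ψ, K, S, hSc, hδS, fun n => ⟨hsm n, hSc.of_isClosed_subset (isClosed_tsupport _) (hsup n),
    (hsup n).trans hδS⟩, hsup, fun n z => ⟨abs_dt_le (hlip n) z, abs_dx_le (hlip n) z⟩, ?_, ?_⟩
  · intro h0 n z
    rw [hψ]
    exact integral_nonneg fun t => mul_nonneg ((η n).nonneg_normed t) (h0 _)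
  · filter_upwards [hconv (1, 0), hconv (0, 1)] with z h1 h2
    exact ⟨h1, h2⟩

private theorem tendsto_law {T M K : ℝ} {A B φ : ℝ × ℝ → ℝ} {ψ : ℕ → ℝ × ℝ → ℝ}
    {S : Set (ℝ × ℝ)} (hA : Measurable A) (hB : Measurable B)
    (hAM : ∀ᵐ z : ℝ × ℝ, z ∈ Strip T → |A z| ≤ M)
    (hBM : ∀ᵐ z : ℝ × ℝ, z ∈ Strip T → |B z| ≤ M) (hS : IsCompact S)
    (hsup : ∀ n, tsupport (ψ n) ⊆ S) (hb : ∀ n z, |dt (ψ n) z| ≤ K ∧ |dx (ψ n) z| ≤ K)
    (hc : ∀ᵐ z : ℝ × ℝ, Tendsto (fun n => dt (ψ n) z) atTop (𝓝 (dt φ z)) ∧
        Tendsto (fun n => dx (ψ n) z) atTop (𝓝 (dx φ z))) :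
    Tendsto (fun n => ∫ z in Strip T, (A z * dt (ψ n) z + B z * dx (ψ n) z)) atTop
      (𝓝 (∫ z in Strip T, (A z * dt φ z + B z * dx φ z))) := by
  apply tendsto_integral_of_dominated_convergence (S.indicator fun _ => |M| * K + |M| * K)
  · intro n
    exact ((hA.mul (measurable_dt _)).add (hB.mul (measurable_dx _))).aestronglyMeasurable
  · apply Integrable.integrableOn
    rw [integrable_indicator_iff hS.measurableSet]
    exact integrableOn_const hS.measure_lt_top.ne
  · intro n
    rw [ae_restrict_iff' (measurableSet_strip T)]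
    filter_upwards [hAM, hBM] with z h1 h2 hz
    by_cases hzS : z ∈ S
    · rw [indicator_of_mem hzS, Real.norm_eq_abs]
      refine (abs_add_le _ _).trans ?_
      rw [abs_mul, abs_mul]
      exact add_le_add
        (mul_le_mul ((h1 hz).trans (le_abs_self M)) (hb n z).1 (abs_nonneg _) (abs_nonneg _))
        (mul_le_mul ((h2 hz).trans (le_abs_self M)) (hb n z).2 (abs_nonneg _) (abs_nonneg _))
    · have h3 : z ∉ tsupport (ψ n) := fun h => hzS (hsup n h)
      rw [indicator_of_notMem hzS, dt_eq_zero_of_notMem h3, dx_eq_zero_of_notMem h3]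
      simp
  · apply ae_restrict_of_ae
    filter_upwards [hc] with z hz
    exact (hz.1.const_mul _).add (hz.2.const_mul _)

theorem Law.lip {T M : ℝ} {A B φ : ℝ × ℝ → ℝ} (h : Law T A B) (hA : Measurable A)
    (hB : Measurable B) (hAM : ∀ᵐ z : ℝ × ℝ, z ∈ Strip T → |A z| ≤ M)
    (hBM : ∀ᵐ z : ℝ × ℝ, z ∈ Strip T → |B z| ≤ M) (hφ : IsLipTest T φ) :
    ∫ z in Strip T, (A z * dt φ z + B z * dx φ z) = 0 := by
  obtain ⟨ψ, K, S, hS, hST, hψ, hsup, hb, h0, hc⟩ := exists_mollify hφ
  have h1 := tendsto_law hA hB hAM hBM hS hsup hb hc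
  have h2 : (fun n => ∫ z in Strip T, (A z * dt (ψ n) z + B z * dx (ψ n) z)) =
      fun _ => (0 : ℝ) := by
    funext n
    exact h (ψ n) (hψ n)
  rw [h2] at h1
  exact tendsto_nhds_unique h1 tendsto_const_nhds

theorem LawGe.lip {T M : ℝ} {A B φ : ℝ × ℝ → ℝ} (h : LawGe T A B) (hA : Measurable A)
    (hB : Measurable B) (hAM : ∀ᵐ z : ℝ × ℝ, z ∈ Strip T → |A z| ≤ M)
    (hBM : ∀ᵐ z : ℝ × ℝ, z ∈ Strip T → |B z| ≤ M) (hφ : IsLipTest T φ) (hφ0 : ∀ z, 0 ≤ φ z) :
    ∫ z in Strip T, (A z * dt φ z + B z * dx φ z) ≤ 0 := by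
  obtain ⟨ψ, K, S, hS, hST, hψ, hsup, hb, h0, hc⟩ := exists_mollify hφ
  have h1 := tendsto_law hA hB hAM hBM hS hsup hb hc
  exact le_of_tendsto' h1 fun n => h (ψ n) (hψ n) (h0 hφ0 n)

end Helper73.EU
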