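import Pool.Agent.Helper73.EU.Tools

/-!
EU-04. Elementary bounds in the box and the constants.
-/

open MeasureTheory Set Filter Topology
open scoped ContDiff NNReal

namespace Helper73.EU

/-- `h(x) = x - 1 - log x`. -/
noncomputable def hh (x : ℝ) : ℝ := x - 1 - Real.log x

/-- The relative energy of the state `(ρ, u, e)` with respect to `(r, w, z)`. -/
noncomputable def eta (γ ρ u e r w z : ℝ) : ℝ :=
  ρ * ((u - w) ^ 2 / 2 + z * hh (e / z) + (γ - 1) * z * hh (r / ρ))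

/-- The relative flux. -/
noncomputable def flux (γ ρ u e r w z : ℝ) : ℝ :=
  u * eta γ ρ u e r w z + (pr γ ρ e - pr γ r z) * (u - w)

/-- The relative pressure term `P (h(p/P) + γ h(v/V))`. -/
noncomputable def relP (γ ρ e r z : ℝ) : ℝ :=
  pr γ r z * (hh (pr γ ρ e / pr γ r z) + γ * hh (r / ρ))

/-- PROOF: `Real.log_le_sub_one_of_pos`. -/
theorem hh_nonneg {x : ℝ} (hx : 0 < x) : 0 ≤ hh x := by
  have := Real.log_le_sub_one_of_pos hx
  unfold hh; linarith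

/-- PROOF: `log x ≥ 1 - 1/x` (`Real.one_sub_inv_le_log_of_pos`), so `hh x ≤ (x-1)^2/x`. -/
theorem hh_le {x M : ℝ} (hM : 1 ≤ M) (hx : 1 / M ≤ x) : hh x ≤ M * (x - 1) ^ 2 := by
  have hM0 : 0 < M := lt_of_lt_of_le one_pos hM
  have hx0 : 0 < x := lt_of_lt_of_le (by positivity) hx
  have h1 := Real.one_sub_inv_le_log_of_pos hx0
  have h2 : x⁻¹ ≤ M := by
    rw [inv_le_comm₀ hx0 hM0, ← one_div]
    exact hx
  have h3 : hh x ≤ x⁻¹ * (x - 1) ^ 2 := by
    have h4 : x⁻¹ * (x - 1) ^ 2 = x - 1 - (1 - x⁻¹) := by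
      field_simp
    rw [h4]
    unfold hh
    linarith
  exact h3.trans (mul_le_mul_of_nonneg_right h2 (sq_nonneg _))

/-- PROOF: `log x = 2 log √x ≤ 2 (√x - 1)`, so `hh x ≥ (√x - 1)^2 = (x-1)^2/(√x+1)^2`, and
`(√x + 1)^2 ≤ 4 M`. -/
theorem le_hh {x M : ℝ} (hM : 1 ≤ M) (hx : 0 < x) (hxM : x ≤ M) :
    (x - 1) ^ 2 / (4 * M) ≤ hh x := by
  have hM0 : 0 < M := lt_of_lt_of_le one_pos hM
  obtain ⟨s, hs, rfl⟩ : ∃ s : ℝ, 0 < s ∧ s ^ 2 = x :=
    ⟨Real.sqrt x, Real.sqrt_pos.2 hx, Real.sq_sqrt hx.le⟩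
  have h1 := Real.log_le_sub_one_of_pos hs
  have h2 : Real.log (s ^ 2) = 2 * Real.log s := by
    rw [Real.log_pow]
    norm_num
  have h3 : (s - 1) ^ 2 ≤ hh (s ^ 2) := by
    unfold hh
    rw [h2]
    nlinarith
  refine le_trans ?_ h3
  rw [div_le_iff₀ (by positivity)]
  have h4 : (s + 1) ^ 2 ≤ 4 * M := by nlinarith [sq_nonneg (s - 1)]
  have h5 : (s ^ 2 - 1) ^ 2 = (s - 1) ^ 2 * (s + 1) ^ 2 := by ring
  rw [h5]
  exact mul_le_mul_of_nonneg_left h4 (sq_nonneg _)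

/-- The state is controlled by the relative energy. -/
theorem sq_bounds {γ a b : ℝ} (hγ : 1 < γ) (ha : 0 < a) (hab : a ≤ b) : ∃ A : ℝ, 0 < A ∧
    ∀ ρ u e r w z : ℝ, Box a b ρ u e → Box a b r w z →
      0 ≤ eta γ ρ u e r w z ∧ (ρ - r) ^ 2 ≤ A * eta γ ρ u e r w z ∧
      (u - w) ^ 2 ≤ A * eta γ ρ u e r w z ∧ (e - z) ^ 2 ≤ A * eta γ ρ u e r w z := by
  have hb : 0 < b := lt_of_lt_of_le ha hab
  obtain ⟨M, hMdef⟩ : ∃ M : ℝ, M = b / a := ⟨_, rfl⟩
  have hM : 1 ≤ M := by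
    rw [hMdef, le_div_iff₀ ha, one_mul]
    exact hab
  have hM0 : 0 < M := lt_of_lt_of_le one_pos hM
  have hγ0 : 0 < γ - 1 := by linarith
  refine ⟨2 / a + 4 * M * b / a + 4 * M * b ^ 2 / ((γ - 1) * a ^ 2), by positivity, ?_⟩
  rintro ρ u e r w z ⟨h1, h2, h3, h4, h5⟩ ⟨k1, k2, k3, k4, k5⟩
  have hρ : 0 < ρ := lt_of_lt_of_le ha h1
  have he : 0 < e := lt_of_lt_of_le ha h4
  have hr : 0 < r := lt_of_lt_of_le ha k1
  have hz : 0 < z := lt_of_lt_of_le ha k4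
  have hX : e / z ≤ M := by
    rw [hMdef]
    exact div_le_div₀ hb.le h5 ha k4
  have hY : r / ρ ≤ M := by
    rw [hMdef]
    exact div_le_div₀ hb.le k2 ha h1
  have e2 : 0 ≤ hh (e / z) := hh_nonneg (by positivity)
  have e3 : 0 ≤ hh (r / ρ) := hh_nonneg (by positivity)
  have l2 := le_hh hM (by positivity : 0 < e / z) hX
  have l3 := le_hh hM (by positivity : 0 < r / ρ) hY
  rw [div_le_iff₀ (by positivity)] at l2 l3
  have n1 : 0 ≤ (u - w) ^ 2 / 2 := by positivity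
  have n2 : 0 ≤ z * hh (e / z) := by positivity
  have n3 : 0 ≤ (γ - 1) * z * hh (r / ρ) := by positivity
  have hη : a * ((u - w) ^ 2 / 2 + z * hh (e / z) + (γ - 1) * z * hh (r / ρ)) ≤
      eta γ ρ u e r w z := by
    unfold eta
    exact mul_le_mul_of_nonneg_right h1 (by positivity)
  have hη0 : 0 ≤ eta γ ρ u e r w z := le_trans (by positivity) hη
  obtain ⟨η, hηdef⟩ : ∃ η, η = eta γ ρ u e r w z := ⟨_, rfl⟩
  rw [← hηdef] at hη hη0 ⊢
  have a1 : (u - w) ^ 2 ≤ 2 / a * η := by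
    have : a * ((u - w) ^ 2 / 2) ≤ η := by
      refine le_trans ?_ hη
      exact mul_le_mul_of_nonneg_left (by linarith) ha.le
    rw [div_mul_eq_mul_div, le_div_iff₀ ha]
    linarith
  have a2 : (e - z) ^ 2 ≤ 4 * M * b / a * η := by
    have h6 : (e - z) ^ 2 = z ^ 2 * (e / z - 1) ^ 2 := by
      field_simp
    have h7 : z ^ 2 * (e / z - 1) ^ 2 ≤ z ^ 2 * (hh (e / z) * (4 * M)) :=
      mul_le_mul_of_nonneg_left l2 (sq_nonneg z)
    have h8 : z ^ 2 * (hh (e / z) * (4 * M)) ≤ 4 * M * b * (z * hh (e / z)) := by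
      have : z * (4 * M * (z * hh (e / z))) ≤ b * (4 * M * (z * hh (e / z))) :=
        mul_le_mul_of_nonneg_right k5 (by positivity)
      linarith
    have h9 : a * (z * hh (e / z)) ≤ η := by
      refine le_trans ?_ hη
      exact mul_le_mul_of_nonneg_left (by linarith) ha.le
    rw [div_mul_eq_mul_div, le_div_iff₀ ha]
    have h10 : 4 * M * b * (a * (z * hh (e / z))) ≤ 4 * M * b * η :=
      mul_le_mul_of_nonneg_left h9 (by positivity)
    have h11 : (e - z) ^ 2 * a ≤ 4 * M * b * (z * hh (e / z)) * a :=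
      mul_le_mul_of_nonneg_right ((h6.le.trans h7).trans h8) ha.le
    linarith
  have a3 : (ρ - r) ^ 2 ≤ 4 * M * b ^ 2 / ((γ - 1) * a ^ 2) * η := by
    have h6 : (ρ - r) ^ 2 = ρ ^ 2 * (r / ρ - 1) ^ 2 := by
      field_simp
      ring
    have h7 : ρ ^ 2 * (r / ρ - 1) ^ 2 ≤ ρ ^ 2 * (hh (r / ρ) * (4 * M)) :=
      mul_le_mul_of_nonneg_left l3 (sq_nonneg ρ)
    have h8 : ρ ^ 2 * (hh (r / ρ) * (4 * M)) ≤ b ^ 2 * (hh (r / ρ) * (4 * M)) :=
      mul_le_mul_of_nonneg_right (pow_le_pow_left₀ hρ.le h2 2) (by positivity)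
    have h9 : a * ((γ - 1) * a * hh (r / ρ)) ≤ η := by
      refine le_trans ?_ hη
      have : (γ - 1) * a * hh (r / ρ) ≤ (γ - 1) * z * hh (r / ρ) := by gcongr
      exact mul_le_mul_of_nonneg_left (by linarith) ha.le
    rw [div_mul_eq_mul_div, le_div_iff₀ (by positivity)]
    have h10 : 4 * M * b ^ 2 * (a * ((γ - 1) * a * hh (r / ρ))) ≤ 4 * M * b ^ 2 * η :=
      mul_le_mul_of_nonneg_left h9 (by positivity)
    have h11 : (ρ - r) ^ 2 * ((γ - 1) * a ^ 2) ≤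
        b ^ 2 * (hh (r / ρ) * (4 * M)) * ((γ - 1) * a ^ 2) :=
      mul_le_mul_of_nonneg_right ((h6.le.trans h7).trans h8) (by positivity)
    linarith
  have p1 : 0 ≤ 2 / a * η := by positivity
  have p2 : 0 ≤ 4 * M * b / a * η := by positivity
  have p3 : 0 ≤ 4 * M * b ^ 2 / ((γ - 1) * a ^ 2) * η := by positivity
  refine ⟨hη0, ?_, ?_, ?_⟩
  · rw [add_mul, add_mul]
    linarith
  · rw [add_mul, add_mul]
    linarith
  · rw [add_mul, add_mul]
    linarith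

theorem eta_upper {γ a b : ℝ} (hγ : 1 < γ) (ha : 0 < a) (hab : a ≤ b) : ∃ C : ℝ, 0 < C ∧
    ∀ ρ u e r w z : ℝ, Box a b ρ u e → Box a b r w z →
      eta γ ρ u e r w z ≤ C * (|ρ - r| + |u - w| + |e - z|) := by
  have hb : 0 < b := lt_of_lt_of_le ha hab
  obtain ⟨M, hMdef⟩ : ∃ M : ℝ, M = b / a := ⟨_, rfl⟩
  have hM : 1 ≤ M := by
    rw [hMdef, le_div_iff₀ ha, one_mul]
    exact hab
  have hM0 : 0 < M := lt_of_lt_of_le one_pos hM
  have hγ0 : 0 < γ - 1 := by linarith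
  have hMinv : 1 / M = a / b := by rw [hMdef, one_div_div]
  refine ⟨b * (b + M * b / a + (γ - 1) * b * M * b / a ^ 2), by positivity, ?_⟩
  rintro ρ u e r w z ⟨h1, h2, h3, h4, h5⟩ ⟨k1, k2, k3, k4, k5⟩
  have hρ : 0 < ρ := lt_of_lt_of_le ha h1
  have he : 0 < e := lt_of_lt_of_le ha h4
  have hr : 0 < r := lt_of_lt_of_le ha k1
  have hz : 0 < z := lt_of_lt_of_le ha k4
  have hX : 1 / M ≤ e / z := by
    rw [hMinv]
    exact div_le_div₀ he.le h4 hz k5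
  have hY : 1 / M ≤ r / ρ := by
    rw [hMinv]
    exact div_le_div₀ hr.le k1 hρ h2
  have l2 := hh_le hM hX
  have l3 := hh_le hM hY
  have e2 : 0 ≤ hh (e / z) := hh_nonneg (by positivity)
  have e3 : 0 ≤ hh (r / ρ) := hh_nonneg (by positivity)
  have d1 : (u - w) ^ 2 / 2 ≤ b * |u - w| := by
    have h6 : |u - w| ≤ 2 * b := by
      have := abs_sub u w
      linarith
    rw [← sq_abs]
    nlinarith [abs_nonneg (u - w)]
  have s2 : (e - z) ^ 2 ≤ b * |e - z| := by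
    have h6 : |e - z| ≤ b := by
      rw [abs_le]
      constructor <;> linarith
    rw [← sq_abs]
    nlinarith [abs_nonneg (e - z)]
  have s3 : (ρ - r) ^ 2 ≤ b * |ρ - r| := by
    have h6 : |ρ - r| ≤ b := by
      rw [abs_le]
      constructor <;> linarith
    rw [← sq_abs]
    nlinarith [abs_nonneg (ρ - r)]
  have d2 : z * hh (e / z) ≤ M * b / a * |e - z| := by
    have h6 : z * (M * (e / z - 1) ^ 2) = M * (e - z) ^ 2 / z := by
      field_simp
    have h7 : z * hh (e / z) ≤ M * (e - z) ^ 2 / z := by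
      rw [← h6]
      exact mul_le_mul_of_nonneg_left l2 hz.le
    have h8 : M * (e - z) ^ 2 / z ≤ M * (b * |e - z|) / a := by gcongr
    refine (h7.trans h8).trans (le_of_eq ?_)
    ring
  have d3 : (γ - 1) * z * hh (r / ρ) ≤ (γ - 1) * b * M * b / a ^ 2 * |ρ - r| := by
    have h6 : (γ - 1) * z * (M * (r / ρ - 1) ^ 2) = (γ - 1) * z * (M * (ρ - r) ^ 2 / ρ ^ 2) := by
      field_simp
      ring
    have h7 : (γ - 1) * z * hh (r / ρ) ≤ (γ - 1) * z * (M * (ρ - r) ^ 2 / ρ ^ 2) := by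
      rw [← h6]
      exact mul_le_mul_of_nonneg_left l3 (by positivity)
    have h8 : (γ - 1) * z * (M * (ρ - r) ^ 2 / ρ ^ 2) ≤
        (γ - 1) * b * (M * (b * |ρ - r|) / a ^ 2) := by gcongr
    refine (h7.trans h8).trans (le_of_eq ?_)
    ring
  have t1 := abs_nonneg (ρ - r)
  have t2 := abs_nonneg (u - w)
  have t3 := abs_nonneg (e - z)
  have h9 : eta γ ρ u e r w z ≤ b * (b * |u - w| + M * b / a * |e - z| +
      (γ - 1) * b * M * b / a ^ 2 * |ρ - r|) := by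
    unfold eta
    have h10 : 0 ≤ (u - w) ^ 2 / 2 + z * hh (e / z) + (γ - 1) * z * hh (r / ρ) := by positivity
    exact mul_le_mul h2 (by linarith) h10 hb.le
  refine h9.trans ?_
  rw [mul_assoc b (b + M * b / a + (γ - 1) * b * M * b / a ^ 2)]
  refine mul_le_mul_of_nonneg_left ?_ hb.le
  obtain ⟨c1, hc1⟩ : ∃ c, c = M * b / a := ⟨_, rfl⟩
  obtain ⟨c2, hc2⟩ : ∃ c, c = (γ - 1) * b * M * b / a ^ 2 := ⟨_, rfl⟩
  have q1 : 0 ≤ c1 := by rw [hc1]; positivity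
  have q2 : 0 ≤ c2 := by rw [hc2]; positivity
  rw [← hc1, ← hc2]
  nlinarith [mul_nonneg hb.le t1, mul_nonneg hb.le t3, mul_nonneg q1 t1, mul_nonneg q1 t2,
    mul_nonneg q2 t2, mul_nonneg q2 t3]

/-- All the bounds, with one constant depending on `γ, a, b` only. PROOF: `hh_le`, `le_hh` with
`M = (b/a)^2` (at least one) for the ratios `e/z`, `r/ρ`, `p/P = (ρ e)/(r z)`, all in `[1/M, M]`;
`p/P - 1 = (ρ/r)(e/z) - 1` is controlled by `(e/z - 1)`, `(r/ρ - 1)`: `(ρ/r) (e/z - r/ρ)`. For `|flux|`: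
`|(p - P)(u - w)| ≤ ((p-P)^2 + (u-w)^2)/2`. For the first estimate use that `|ρ - r| ≤ b` etc., so
`(ρ - r)^2 ≤ b |ρ - r|`. -/
theorem exists_const {γ a b : ℝ} (hγ : 1 < γ) (ha : 0 < a) : ∃ C : ℝ, 0 < C ∧
    ∀ ρ u e r w z : ℝ, Box a b ρ u e → Box a b r w z →
      0 ≤ eta γ ρ u e r w z ∧
      eta γ ρ u e r w z ≤ C * (|ρ - r| + |u - w| + |e - z|) ∧
      |flux γ ρ u e r w z| ≤ C * eta γ ρ u e r w z ∧
      0 ≤ relP γ ρ e r z ∧ ρ / r * relP γ ρ e r z ≤ C * eta γ ρ u e r w z ∧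
      (ρ - r) ^ 2 + (u - w) ^ 2 + (e - z) ^ 2 ≤ C * eta γ ρ u e r w z := by
  rcases lt_or_ge b a with hba | hab
  · refine ⟨1, one_pos, ?_⟩
    rintro ρ u e r w z ⟨h1, h2, -⟩ -
    exact absurd (h1.trans h2) (not_le.2 hba)
  have hb : 0 < b := lt_of_lt_of_le ha hab
  have hγ0 : 0 < γ - 1 := by linarith
  obtain ⟨A, hA, hA'⟩ := sq_bounds hγ ha hab
  obtain ⟨C₁, hC₁, hC₁'⟩ := eta_upper hγ ha hab
  obtain ⟨M, hMdef⟩ : ∃ M : ℝ, M = (b * b) / (a * a) := ⟨_, rfl⟩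
  have hM : 1 ≤ M := by
    rw [hMdef, le_div_iff₀ (by positivity), one_mul]
    exact mul_le_mul hab hab ha.le hb.le
  have hM0 : 0 < M := lt_of_lt_of_le one_pos hM
  have hMinv : 1 / M = (a * a) / (b * b) := by rw [hMdef, one_div_div]
  have hMinv' : 1 / M ≤ a / b := by
    rw [hMinv, mul_div_mul_comm]
    have h1 : a / b ≤ 1 := (div_le_one hb).2 hab
    have h2 : 0 ≤ a / b := by positivity
    nlinarith
  obtain ⟨C₂, hC₂def⟩ : ∃ C, C = b + 2 * (γ - 1) ^ 2 * b ^ 2 * A + A / 2 := ⟨_, rfl⟩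
  obtain ⟨C₃, hC₃def⟩ : ∃ C, C = b / a * ((γ - 1) * b ^ 2 *
    (M * (4 * b ^ 2 * A / a ^ 4) + γ * (M * (A / a ^ 2)))) := ⟨_, rfl⟩
  have hC₂ : 0 < C₂ := by rw [hC₂def]; positivity
  have hC₃ : 0 < C₃ := by
    have : 0 < γ := by linarith
    rw [hC₃def]; positivity
  refine ⟨C₁ + C₂ + C₃ + 3 * A, by positivity, ?_⟩
  intro ρ u e r w z hB hB'
  obtain ⟨hη, g1, g2, g3⟩ := hA' ρ u e r w z hB hB'
  have hup := hC₁' ρ u e r w z hB hB'
  obtain ⟨h1, h2, h3, h4, h5⟩ := hB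
  obtain ⟨k1, k2, k3, k4, k5⟩ := hB'
  have hρ : 0 < ρ := lt_of_lt_of_le ha h1
  have he : 0 < e := lt_of_lt_of_le ha h4
  have hr : 0 < r := lt_of_lt_of_le ha k1
  have hz : 0 < z := lt_of_lt_of_le ha k4
  obtain ⟨η, hηdef⟩ : ∃ η, η = eta γ ρ u e r w z := ⟨_, rfl⟩
  have hflux : |flux γ ρ u e r w z| ≤ C₂ * η := by
    unfold flux
    rw [← hηdef]
    rw [← hηdef] at hη g1 g2 g3
    have t1 : |u * η| ≤ b * η := by
      rw [abs_mul, abs_of_nonneg hη]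
      exact mul_le_mul_of_nonneg_right h3 hη
    have t2 : pr γ ρ e - pr γ r z = (γ - 1) * (ρ * (e - z) + z * (ρ - r)) := by
      unfold pr
      ring
    have t3 : (pr γ ρ e - pr γ r z) ^ 2 ≤ 4 * (γ - 1) ^ 2 * b ^ 2 * (A * η) := by
      rw [t2, mul_pow]
      have t4 : (ρ * (e - z) + z * (ρ - r)) ^ 2 ≤
          2 * (ρ ^ 2 * (e - z) ^ 2 + z ^ 2 * (ρ - r) ^ 2) := by
        nlinarith [sq_nonneg (ρ * (e - z) - z * (ρ - r))]
      have t5 : ρ ^ 2 * (e - z) ^ 2 ≤ b ^ 2 * (A * η) :=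
        mul_le_mul (pow_le_pow_left₀ hρ.le h2 2) g3 (sq_nonneg _) (sq_nonneg _)
      have t6 : z ^ 2 * (ρ - r) ^ 2 ≤ b ^ 2 * (A * η) :=
        mul_le_mul (pow_le_pow_left₀ hz.le k5 2) g1 (sq_nonneg _) (sq_nonneg _)
      have t7 : (ρ * (e - z) + z * (ρ - r)) ^ 2 ≤ 4 * (b ^ 2 * (A * η)) := by linarith
      have t8 := mul_le_mul_of_nonneg_left t7 (sq_nonneg (γ - 1))
      linarith
    have t4 : |(pr γ ρ e - pr γ r z) * (u - w)| ≤
        ((pr γ ρ e - pr γ r z) ^ 2 + (u - w) ^ 2) / 2 := by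
      rw [abs_le]
      constructor
      · nlinarith [sq_nonneg ((pr γ ρ e - pr γ r z) + (u - w))]
      · nlinarith [sq_nonneg ((pr γ ρ e - pr γ r z) - (u - w))]
    have t5 := abs_add_le (u * η) ((pr γ ρ e - pr γ r z) * (u - w))
    rw [hC₂def]
    have t6 : (b + 2 * (γ - 1) ^ 2 * b ^ 2 * A + A / 2) * η =
        b * η + 4 * (γ - 1) ^ 2 * b ^ 2 * (A * η) / 2 + A * η / 2 := by ring
    rw [t6]
    linarith
  have hQ : pr γ ρ e / pr γ r z = (ρ * e) / (r * z) := by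
    unfold pr
    field_simp
  have hQpos : 0 < pr γ ρ e / pr γ r z := by
    rw [hQ]
    positivity
  have hP : 0 < pr γ r z := by
    unfold pr
    positivity
  have hγp : 0 < γ := by linarith
  have hrel : 0 ≤ relP γ ρ e r z := by
    unfold relP
    have e1 := hh_nonneg hQpos
    have e2 : 0 ≤ hh (r / ρ) := hh_nonneg (by positivity)
    positivity
  have hrel2 : ρ / r * relP γ ρ e r z ≤ C₃ * η := by
    rw [← hηdef] at hη g1 g2 g3
    have hQM : 1 / M ≤ pr γ ρ e / pr γ r z := by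
      rw [hQ, hMinv]
      exact div_le_div₀ (by positivity) (mul_le_mul h1 h4 ha.le hρ.le) (by positivity)
        (mul_le_mul k2 k5 hz.le hb.le)
    have hYM : 1 / M ≤ r / ρ := hMinv'.trans (div_le_div₀ hr.le k1 hρ h2)
    have l2 := hh_le hM hQM
    have l3 := hh_le hM hYM
    have m2 : (pr γ ρ e / pr γ r z - 1) ^ 2 ≤ 4 * b ^ 2 * A / a ^ 4 * η := by
      have t2 : (pr γ ρ e / pr γ r z - 1) ^ 2 =
          (ρ * (e - z) + z * (ρ - r)) ^ 2 / (r * z) ^ 2 := by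
        rw [hQ]
        field_simp
        ring
      have t4 : (ρ * (e - z) + z * (ρ - r)) ^ 2 ≤
          2 * (ρ ^ 2 * (e - z) ^ 2 + z ^ 2 * (ρ - r) ^ 2) := by
        nlinarith [sq_nonneg (ρ * (e - z) - z * (ρ - r))]
      have t5 : ρ ^ 2 * (e - z) ^ 2 ≤ b ^ 2 * (A * η) :=
        mul_le_mul (pow_le_pow_left₀ hρ.le h2 2) g3 (sq_nonneg _) (sq_nonneg _)
      have t6 : z ^ 2 * (ρ - r) ^ 2 ≤ b ^ 2 * (A * η) :=
        mul_le_mul (pow_le_pow_left₀ hz.le k5 2) g1 (sq_nonneg _) (sq_nonneg _)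
      have t7 : (ρ * (e - z) + z * (ρ - r)) ^ 2 ≤ 4 * (b ^ 2 * (A * η)) := by linarith
      have t8 : a ^ 4 ≤ (r * z) ^ 2 := by
        have : a * a ≤ r * z := mul_le_mul k1 k4 ha.le hr.le
        have h6 := pow_le_pow_left₀ (by positivity : 0 ≤ a * a) this 2
        calc a ^ 4 = (a * a) ^ 2 := by ring
          _ ≤ _ := h6
      rw [t2]
      refine (div_le_div₀ (by positivity) t7 (by positivity) t8).trans (le_of_eq ?_)
      ring
    have m3 : (r / ρ - 1) ^ 2 ≤ A / a ^ 2 * η := by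
      have t2 : (r / ρ - 1) ^ 2 = (ρ - r) ^ 2 / ρ ^ 2 := by
        field_simp
        ring
      rw [t2]
      refine (div_le_div₀ (by positivity) g1 (by positivity)
        (pow_le_pow_left₀ ha.le h1 2)).trans (le_of_eq ?_)
      ring
    have n2 : hh (pr γ ρ e / pr γ r z) ≤ M * (4 * b ^ 2 * A / a ^ 4 * η) :=
      l2.trans (mul_le_mul_of_nonneg_left m2 hM0.le)
    have n3 : hh (r / ρ) ≤ M * (A / a ^ 2 * η) :=
      l3.trans (mul_le_mul_of_nonneg_left m3 hM0.le)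
    have e1 := hh_nonneg hQpos
    have e2 : 0 ≤ hh (r / ρ) := hh_nonneg (by positivity)
    have hPb : pr γ r z ≤ (γ - 1) * b ^ 2 := by
      unfold pr
      have : r * z ≤ b * b := mul_le_mul k2 k5 hz.le hb.le
      have := mul_le_mul_of_nonneg_left this hγ0.le
      linarith
    have hρr : ρ / r ≤ b / a := div_le_div₀ hb.le h2 ha k1
    have f1 : relP γ ρ e r z ≤ (γ - 1) * b ^ 2 *
        (M * (4 * b ^ 2 * A / a ^ 4 * η) + γ * (M * (A / a ^ 2 * η))) := by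
      unfold relP
      refine mul_le_mul hPb ?_ (by positivity) (by positivity)
      have := mul_le_mul_of_nonneg_left n3 hγp.le
      linarith
    have f2 : ρ / r * relP γ ρ e r z ≤ b / a * ((γ - 1) * b ^ 2 *
        (M * (4 * b ^ 2 * A / a ^ 4 * η) + γ * (M * (A / a ^ 2 * η)))) :=
      mul_le_mul hρr f1 hrel (by positivity)
    refine f2.trans (le_of_eq ?_)
    rw [hC₃def]
    ring
  rw [← hηdef] at hη g1 g2 g3 hup ⊢
  have p1 : 0 ≤ C₁ * η := by positivity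
  have p2 : 0 ≤ C₂ * η := by positivity
  have p3 : 0 ≤ C₃ * η := by positivity
  have p4 : 0 ≤ 3 * A * η := by positivity
  have hexp : (C₁ + C₂ + C₃ + 3 * A) * η = C₁ * η + C₂ * η + C₃ * η + 3 * A * η := by ring
  have hD : 0 ≤ |ρ - r| + |u - w| + |e - z| := by positivity
  refine ⟨hη, ?_, ?_, hrel, ?_, ?_⟩
  · refine hup.trans (mul_le_mul_of_nonneg_right ?_ hD)
    linarith
  · rw [hexp]
    linarith
  · rw [hexp]
    linarith
  · rw [hexp]
    linarith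

/-- Bounds of all the densities and fluxes appearing in the laws. PROOF: `log` is continuous and the
arguments are between positive constants. -/
theorem exists_bound {γ a b : ℝ} (hγ : 1 < γ) (ha : 0 < a) : ∃ M : ℝ, 0 < M ∧
    ∀ ρ u e : ℝ, Box a b ρ u e →
      |ρ| ≤ M ∧ |ρ * u| ≤ M ∧ |ρ * u ^ 2 + pr γ ρ e| ≤ M ∧ |ρ * en u e| ≤ M ∧
      |ρ * en u e * u + pr γ ρ e * u| ≤ M ∧ |ent γ ρ e| ≤ M ∧ |ρ * ent γ ρ e| ≤ M ∧
      |ρ * u * ent γ ρ e| ≤ M := by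
  rcases lt_or_ge b a with hba | hab
  · refine ⟨1, one_pos, ?_⟩
    rintro ρ u e ⟨h1, h2, -⟩
    exact absurd (h1.trans h2) (not_le.2 hba)
  have hb : 0 < b := lt_of_lt_of_le ha hab
  have hγ0 : 0 < γ - 1 := by linarith
  obtain ⟨L, hL⟩ : ∃ L, L = |Real.log ((γ - 1) * a * a * b ^ (-γ))| +
    |Real.log ((γ - 1) * b * b * a ^ (-γ))| := ⟨_, rfl⟩
  have hL0 : 0 ≤ L := by rw [hL]; positivity
  refine ⟨b + b * b + (b * b ^ 2 + (γ - 1) * b * b) + b * (b + b ^ 2 / 2) +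
    (b * (b + b ^ 2 / 2) * b + (γ - 1) * b * b * b) + L + b * L + b * b * L, by positivity, ?_⟩
  rintro ρ u e ⟨h1, h2, h3, h4, h5⟩
  have hρ : 0 < ρ := lt_of_lt_of_le ha h1
  have he : 0 < e := lt_of_lt_of_le ha h4
  have hρa : |ρ| ≤ b := by rwa [abs_of_pos hρ]
  have hu2 : u ^ 2 ≤ b ^ 2 := by
    rw [← sq_abs u]
    exact pow_le_pow_left₀ (abs_nonneg u) h3 2
  have hpr0 : 0 < pr γ ρ e := by unfold pr; positivity
  have hpr : pr γ ρ e ≤ (γ - 1) * b * b := by unfold pr; gcongr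
  have hpr' : (γ - 1) * a * a ≤ pr γ ρ e := by unfold pr; gcongr
  have hen0 : 0 < en u e := by unfold en; positivity
  have hen : en u e ≤ b + b ^ 2 / 2 := by unfold en; linarith
  have hpw1 : ρ ^ (-γ) ≤ a ^ (-γ) :=
    Real.rpow_le_rpow_of_nonpos ha h1 (by linarith)
  have hpw2 : b ^ (-γ) ≤ ρ ^ (-γ) :=
    Real.rpow_le_rpow_of_nonpos hρ h2 (by linarith)
  have hb' : 0 < b ^ (-γ) := Real.rpow_pos_of_pos hb _
  have hρ' : 0 < ρ ^ (-γ) := Real.rpow_pos_of_pos hρ _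
  have ha' : 0 < a ^ (-γ) := Real.rpow_pos_of_pos ha _
  have hent : |ent γ ρ e| ≤ L := by
    unfold ent
    have l1 : Real.log ((γ - 1) * a * a * b ^ (-γ)) ≤ Real.log (pr γ ρ e * ρ ^ (-γ)) :=
      Real.log_le_log (by positivity) (mul_le_mul hpr' hpw2 hb'.le hpr0.le)
    have l2 : Real.log (pr γ ρ e * ρ ^ (-γ)) ≤ Real.log ((γ - 1) * b * b * a ^ (-γ)) :=
      Real.log_le_log (by positivity) (mul_le_mul hpr hpw1 hρ'.le (by positivity))
    have l3 := neg_abs_le (Real.log ((γ - 1) * a * a * b ^ (-γ)))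
    have l4 := le_abs_self (Real.log ((γ - 1) * b * b * a ^ (-γ)))
    have l5 := abs_nonneg (Real.log ((γ - 1) * a * a * b ^ (-γ)))
    have l6 := abs_nonneg (Real.log ((γ - 1) * b * b * a ^ (-γ)))
    rw [hL, abs_le]
    constructor <;> linarith
  have q2 : |ρ * u| ≤ b * b := by
    rw [abs_mul]
    exact mul_le_mul hρa h3 (abs_nonneg _) hb.le
  have q3 : |ρ * u ^ 2 + pr γ ρ e| ≤ b * b ^ 2 + (γ - 1) * b * b := by
    rw [abs_of_nonneg (by positivity)]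
    have : ρ * u ^ 2 ≤ b * b ^ 2 := mul_le_mul h2 hu2 (sq_nonneg _) hb.le
    linarith
  have q4 : |ρ * en u e| ≤ b * (b + b ^ 2 / 2) := by
    rw [abs_of_nonneg (by positivity)]
    exact mul_le_mul h2 hen hen0.le hb.le
  have q5 : |ρ * en u e * u + pr γ ρ e * u| ≤
      b * (b + b ^ 2 / 2) * b + (γ - 1) * b * b * b := by
    refine (abs_add_le _ _).trans (add_le_add ?_ ?_)
    · rw [abs_mul]
      exact mul_le_mul q4 h3 (abs_nonneg _) (by positivity)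
    · rw [abs_mul, abs_of_pos hpr0]
      exact mul_le_mul hpr h3 (abs_nonneg _) (by positivity)
  have q7 : |ρ * ent γ ρ e| ≤ b * L := by
    rw [abs_mul]
    exact mul_le_mul hρa hent (abs_nonneg _) hb.le
  have q8 : |ρ * u * ent γ ρ e| ≤ b * b * L := by
    rw [abs_mul]
    exact mul_le_mul q2 hent (abs_nonneg _) (by positivity)
  have r1 : 0 ≤ b * b := by positivity
  have r2 : 0 ≤ b * b ^ 2 + (γ - 1) * b * b := by positivity
  have r3 : 0 ≤ b * (b + b ^ 2 / 2) := by positivity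
  have r4 : 0 ≤ b * (b + b ^ 2 / 2) * b + (γ - 1) * b * b * b := by positivity
  have r5 : 0 ≤ b * L := by positivity
  have r6 : 0 ≤ b * b * L := by positivity
  refine ⟨?_, ?_, ?_, ?_, ?_, ?_, ?_, ?_⟩ <;> linarith

theorem measurable_pr {γ : ℝ} {ρ e : ℝ × ℝ → ℝ} (hρ : Measurable ρ) (he : Measurable e) :
    Measurable (fun z => pr γ (ρ z) (e z)) := by
  unfold pr; fun_prop

theorem measurable_ent {γ : ℝ} {ρ e : ℝ × ℝ → ℝ} (hρ : Measurable ρ) (he : Measurable e) :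
    Measurable (fun z => ent γ (ρ z) (e z)) := by
  unfold ent pr; fun_prop

theorem measurable_en {u e : ℝ × ℝ → ℝ} (hu : Measurable u) (he : Measurable e) :
    Measurable (fun z => en (u z) (e z)) := by
  unfold en; fun_prop

end Helper73.EU
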