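import Mathlib

/-!
EU-08. The composition lemma.

PROOF. Let `ε > 0`. `map_le`: a measurable `α` with `A (y - x) ≤ α y - α x` (`x ≤ y`) is
`AntilipschitzWith (1/A)`, so `volume (α ⁻¹' s) ≤ (1/A) volume s`
(`AntilipschitzWith.hausdorffMeasure_preimage_le`, `hausdorffMeasure_real`), hence
`∫⁻ x in Ioo (-R) R, f (α x) ≤ (1/A) ∫⁻ y in Icc (-M) M, f y` for measurable `f ≥ 0` when
`|α x| ≤ M` on `Ioo (-R) R` (`lintegral_map`, `Measure.map` bounded by `(1/A) • volume`).
The function `g 1_{[-M, M]}` is integrable; choose `k` continuous with compact support and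
`∫ |g 1_{[-M, M]} - k| ≤ A ε/5` (`MeasureTheory.Integrable.exists_hasCompactSupport_integral_sub_le`);
`k` is uniformly continuous: `δ` with `|k y - k y'| ≤ ε/(5 (2R + 1))` if `|y - y'| ≤ δ`. Then
`∫ |g(α) - g(β)| ≤ ∫ |g(α) - k(α)| + ∫ |k(α) - k(β)| + ∫ |k(β) - g(β)| ≤ 3 ε/5 < ε`.
-/

open MeasureTheory Set Filter Topology
open scoped NNReal ENNReal

namespace Helper73.EU

/-- Preimages under expanding maps. -/
private theorem vol_preimage_le {A : ℝ} {α : ℝ → ℝ} (hA : 0 < A)
    (hα : ∀ x y, x ≤ y → A * (y - x) ≤ α y - α x) (s : Set ℝ) :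
    volume (α ⁻¹' s) ≤ ENNReal.ofReal (1 / A) * volume s := by
  have h1 : AntilipschitzWith (Real.toNNReal (1 / A)) α := by
    apply AntilipschitzWith.of_le_mul_dist
    intro x y
    rw [Real.coe_toNNReal _ (by positivity), Real.dist_eq, Real.dist_eq, div_mul_eq_mul_div,
      one_mul, le_div_iff₀ hA, mul_comm]
    rcases le_total x y with h | h
    · have h2 := hα x y h
      have h3 : 0 ≤ A * (y - x) := mul_nonneg hA.le (sub_nonneg.2 h)
      rw [abs_of_nonpos (sub_nonpos.2 h), abs_of_nonpos (by linarith)]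
      linarith
    · have h2 := hα y x h
      have h3 : 0 ≤ A * (x - y) := mul_nonneg hA.le (sub_nonneg.2 h)
      rw [abs_of_nonneg (sub_nonneg.2 h), abs_of_nonneg (by linarith)]
      linarith
  have h2 := h1.hausdorffMeasure_preimage_le (d := 1) zero_le_one s
  rw [hausdorffMeasure_real, ENNReal.rpow_one] at h2
  exact h2

private theorem expanding_monotone {A : ℝ} {α : ℝ → ℝ} (hA : 0 < A)
    (hα : ∀ x y, x ≤ y → A * (y - x) ≤ α y - α x) : Monotone α := by
  intro x y h
  have h2 := hα x y h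
  have h3 : 0 ≤ A * (y - x) := mul_nonneg hA.le (sub_nonneg.2 h)
  linarith

/-- Preimages of null sets under expanding maps are null (as a.e. statement). -/
theorem ae_comp_of_expanding {A : ℝ} {α : ℝ → ℝ} {P : ℝ → Prop} (hA : 0 < A)
    (hα : ∀ x y, x ≤ y → A * (y - x) ≤ α y - α x) (hP : ∀ᵐ y, P y) : ∀ᵐ x, P (α x) := by
  rw [ae_iff] at hP ⊢
  have h1 := vol_preimage_le hA hα {y | ¬ P y}
  rw [hP, mul_zero] at h1
  exact le_antisymm h1 bot_le

/-- Change of variables inequality. -/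
theorem integral_comp_le {A R M : ℝ} {f α : ℝ → ℝ} (hA : 0 < A) (hf : Measurable f)
    (hf0 : ∀ y, 0 ≤ f y) (hfi : IntegrableOn f (Icc (-M) M))
    (hα : ∀ x y, x ≤ y → A * (y - x) ≤ α y - α x) (hαM : ∀ x ∈ Ioo (-R) R, |α x| ≤ M) :
    IntegrableOn (fun x => f (α x)) (Ioo (-R) R) ∧
      ∫ x in Ioo (-R) R, f (α x) ≤ 1 / A * ∫ y in Icc (-M) M, f y := by
  have hαm : Measurable α := (expanding_monotone hA hα).measurable
  have hm : Measure.map α volume ≤ ENNReal.ofReal (1 / A) • volume := by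
    rw [Measure.le_iff]
    intro s hs
    rw [Measure.map_apply hαm hs, Measure.smul_apply, smul_eq_mul]
    exact vol_preimage_le hA hα s
  have hfm : Measurable (fun y => ENNReal.ofReal (f y)) := hf.ennreal_ofReal
  have h1 : ∫⁻ x in Ioo (-R) R, ENNReal.ofReal (f (α x)) ≤
      ENNReal.ofReal (1 / A) * ∫⁻ y in Icc (-M) M, ENNReal.ofReal (f y) := by
    calc ∫⁻ x in Ioo (-R) R, ENNReal.ofReal (f (α x))
        = ∫⁻ x, (Ioo (-R) R).indicator (fun x => ENNReal.ofReal (f (α x))) x :=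
          (lintegral_indicator measurableSet_Ioo _).symm
      _ ≤ ∫⁻ x, (Icc (-M) M).indicator (fun y => ENNReal.ofReal (f y)) (α x) := by
          apply lintegral_mono
          intro x
          by_cases hx : x ∈ Ioo (-R) R
          · have h2 : α x ∈ Icc (-M) M := abs_le.1 (hαM x hx)
            show (Ioo (-R) R).indicator (fun x => ENNReal.ofReal (f (α x))) x ≤
              (Icc (-M) M).indicator (fun y => ENNReal.ofReal (f y)) (α x)
            rw [indicator_of_mem hx, indicator_of_mem h2]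
          · rw [indicator_of_notMem hx]
            exact bot_le
      _ = ∫⁻ y, (Icc (-M) M).indicator (fun y => ENNReal.ofReal (f y)) y ∂(Measure.map α volume) :=
          (lintegral_map (hfm.indicator measurableSet_Icc) hαm).symm
      _ ≤ ∫⁻ y, (Icc (-M) M).indicator (fun y => ENNReal.ofReal (f y)) y
            ∂(ENNReal.ofReal (1 / A) • volume) := lintegral_mono' hm le_rfl
      _ = ENNReal.ofReal (1 / A) * ∫⁻ y in Icc (-M) M, ENNReal.ofReal (f y) := by
          rw [lintegral_smul_measure, lintegral_indicator measurableSet_Icc, smul_eq_mul]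
  have h2 : ∫⁻ y in Icc (-M) M, ENNReal.ofReal (f y) = ENNReal.ofReal (∫ y in Icc (-M) M, f y) :=
    (ofReal_integral_eq_lintegral_ofReal hfi (Eventually.of_forall hf0)).symm
  have hi : IntegrableOn (fun x => f (α x)) (Ioo (-R) R) := by
    refine ⟨(hf.comp hαm).aestronglyMeasurable, ?_⟩
    rw [hasFiniteIntegral_iff_ofReal (Eventually.of_forall fun x => hf0 (α x))]
    refine h1.trans_lt ?_
    rw [h2, ← ENNReal.ofReal_mul (by positivity)]
    exact ENNReal.ofReal_lt_top
  refine ⟨hi, ?_⟩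
  have h3 : ENNReal.ofReal (∫ x in Ioo (-R) R, f (α x)) ≤
      ENNReal.ofReal (1 / A * ∫ y in Icc (-M) M, f y) := by
    rw [ofReal_integral_eq_lintegral_ofReal hi (Eventually.of_forall fun x => hf0 (α x)),
      ENNReal.ofReal_mul (by positivity), ← h2]
    exact h1
  exact (ENNReal.ofReal_le_ofReal_iff (mul_nonneg (by positivity)
    (integral_nonneg hf0))).1 h3

theorem exists_comp {g : ℝ → ℝ} {B A R M ε : ℝ} (hg : Measurable g) (hB : ∀ y, |g y| ≤ B)
    (hA : 0 < A) (hε : 0 < ε) : ∃ δ : ℝ, 0 < δ ∧ ∀ α β : ℝ → ℝ,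
      (∀ x y, x ≤ y → A * (y - x) ≤ α y - α x) → (∀ x y, x ≤ y → A * (y - x) ≤ β y - β x) →
      (∀ x ∈ Ioo (-R) R, |α x| ≤ M) → (∀ x ∈ Ioo (-R) R, |β x| ≤ M) →
      (∀ x ∈ Ioo (-R) R, |α x - β x| ≤ δ) →
      ∫ x in Ioo (-R) R, |g (α x) - g (β x)| < ε := by
  rcases le_or_gt R 0 with hR | hR
  · refine ⟨1, one_pos, fun α β _ _ _ _ _ => ?_⟩
    rw [Ioo_eq_empty (by linarith), Measure.restrict_empty, integral_zero_measure]
    exact hε
  set G : ℝ → ℝ := (Icc (-M) M).indicator g with hG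
  have hGm : Measurable G := hg.indicator measurableSet_Icc
  have hgI : IntegrableOn g (Icc (-M) M) := by
    refine Measure.integrableOn_of_bounded (M := B) ?_ hg.aestronglyMeasurable ?_
    · exact measure_Icc_lt_top.ne
    · exact Eventually.of_forall fun y => hB y
  have hGi : Integrable G := (integrable_indicator_iff measurableSet_Icc).2 hgI
  obtain ⟨k, hkc, hk1, hk2, hk3⟩ :=
    hGi.exists_hasCompactSupport_integral_sub_le (ε := A * (ε / 5)) (by positivity)
  have hku : UniformContinuous k := hkc.uniformContinuous_of_continuous hk2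
  have hη : 0 < ε / (5 * (2 * R + 1)) := by positivity
  obtain ⟨δ, hδ, hδk⟩ := Metric.uniformContinuous_iff.1 hku _ hη
  refine ⟨δ / 2, half_pos hδ, fun α β hα hβ hαM hβM hαβ => ?_⟩
  have hαm : Measurable α := (expanding_monotone hA hα).measurable
  have hβm : Measurable β := (expanding_monotone hA hβ).measurable
  have hkm : Measurable k := hk2.measurable
  have hfm : Measurable (fun y => |G y - k y|) := (hGm.sub hkm).abs
  have hfi : Integrable (fun y => |G y - k y|) := (hGi.sub hk3).abs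
  have hsmall : ∀ φ : ℝ → ℝ, (∀ x y, x ≤ y → A * (y - x) ≤ φ y - φ x) →
      (∀ x ∈ Ioo (-R) R, |φ x| ≤ M) → IntegrableOn (fun x => |G (φ x) - k (φ x)|) (Ioo (-R) R) ∧
        ∫ x in Ioo (-R) R, |G (φ x) - k (φ x)| ≤ ε / 5 := by
    intro φ hφ hφM
    obtain ⟨h1, h2⟩ := integral_comp_le hA hfm (fun y => abs_nonneg _) hfi.integrableOn hφ hφM
    refine ⟨h1, h2.trans ?_⟩
    have h3 : ∫ y in Icc (-M) M, |G y - k y| ≤ A * (ε / 5) := by
      refine (setIntegral_le_integral hfi (Eventually.of_forall fun y => abs_nonneg _)).trans ?_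
      exact hk1
    calc 1 / A * ∫ y in Icc (-M) M, |G y - k y| ≤ 1 / A * (A * (ε / 5)) :=
          mul_le_mul_of_nonneg_left h3 (by positivity)
      _ = ε / 5 := by field_simp
  obtain ⟨ha1, ha2⟩ := hsmall α hα hαM
  obtain ⟨hb1, hb2⟩ := hsmall β hβ hβM
  have hvol : volume.real (Ioo (-R) R) = 2 * R := by
    rw [Real.volume_real_Ioo_of_le (by linarith)]
    ring
  have hconst : IntegrableOn (fun _ : ℝ => ε / (5 * (2 * R + 1))) (Ioo (-R) R) :=
    integrableOn_const measure_Ioo_lt_top.ne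
  have hle : ∫ x in Ioo (-R) R, |g (α x) - g (β x)| ≤
      ∫ x in Ioo (-R) R, (|G (α x) - k (α x)| + ε / (5 * (2 * R + 1)) + |G (β x) - k (β x)|) := by
    refine integral_mono_of_nonneg (Eventually.of_forall fun x => abs_nonneg _)
      ((ha1.add hconst).add hb1) ?_
    refine (ae_restrict_iff' measurableSet_Ioo).2 (Eventually.of_forall fun x hx => ?_)
    have h1 : G (α x) = g (α x) :=
      indicator_of_mem (show α x ∈ Icc (-M) M from abs_le.1 (hαM x hx)) _
    have h2 : G (β x) = g (β x) :=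
      indicator_of_mem (show β x ∈ Icc (-M) M from abs_le.1 (hβM x hx)) _
    have h3 : |k (α x) - k (β x)| < ε / (5 * (2 * R + 1)) := by
      have h4 : dist (α x) (β x) < δ := by
        rw [Real.dist_eq]
        linarith [hαβ x hx]
      have h5 := hδk h4
      rwa [Real.dist_eq] at h5
    show |g (α x) - g (β x)| ≤ |G (α x) - k (α x)| + ε / (5 * (2 * R + 1)) + |G (β x) - k (β x)|
    rw [h1, h2]
    have h6 : g (α x) - g (β x) =
        (g (α x) - k (α x)) + (k (α x) - k (β x)) - (g (β x) - k (β x)) := by ring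
    calc |g (α x) - g (β x)|
        = |(g (α x) - k (α x)) + (k (α x) - k (β x)) - (g (β x) - k (β x))| := by rw [← h6]
      _ ≤ |(g (α x) - k (α x)) + (k (α x) - k (β x))| + |g (β x) - k (β x)| := abs_sub _ _
      _ ≤ |g (α x) - k (α x)| + |k (α x) - k (β x)| + |g (β x) - k (β x)| := by
          gcongr
          exact abs_add_le _ _
      _ ≤ _ := by
          gcongr
  refine hle.trans_lt ?_
  have h7 : ∫ x in Ioo (-R) R, (|G (α x) - k (α x)| + ε / (5 * (2 * R + 1)) +
      |G (β x) - k (β x)|) = (∫ x in Ioo (-R) R, |G (α x) - k (α x)|) +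
      2 * R * (ε / (5 * (2 * R + 1))) + ∫ x in Ioo (-R) R, |G (β x) - k (β x)| := by
    have h9 : ∫ x in Ioo (-R) R, (|G (α x) - k (α x)| + ε / (5 * (2 * R + 1)) +
        |G (β x) - k (β x)|) = (∫ x in Ioo (-R) R, (|G (α x) - k (α x)| +
        ε / (5 * (2 * R + 1)))) + ∫ x in Ioo (-R) R, |G (β x) - k (β x)| :=
      integral_add (ha1.add hconst) hb1
    have h10 : ∫ x in Ioo (-R) R, (|G (α x) - k (α x)| + ε / (5 * (2 * R + 1))) =
        (∫ x in Ioo (-R) R, |G (α x) - k (α x)|) + ∫ _ in Ioo (-R) R, ε / (5 * (2 * R + 1)) :=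
      integral_add ha1 hconst
    rw [h9, h10, setIntegral_const, hvol, smul_eq_mul]
  rw [h7]
  have h8 : 2 * R * (ε / (5 * (2 * R + 1))) ≤ ε / 5 := by
    rw [mul_div_assoc', div_le_div_iff₀ (by positivity) (by norm_num)]
    nlinarith
  linarith

/-- The same for a function bounded almost everywhere. PROOF: change `g` on a null set `N`; the
preimages of `N` under `α`, `β` are null. -/
theorem exists_comp_ae {g : ℝ → ℝ} {B A R M ε : ℝ} (hg : Measurable g) (hB : ∀ᵐ y, |g y| ≤ B)
    (hA : 0 < A) (hε : 0 < ε) : ∃ δ : ℝ, 0 < δ ∧ ∀ α β : ℝ → ℝ,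
      (∀ x y, x ≤ y → A * (y - x) ≤ α y - α x) → (∀ x y, x ≤ y → A * (y - x) ≤ β y - β x) →
      (∀ x ∈ Ioo (-R) R, |α x| ≤ M) → (∀ x ∈ Ioo (-R) R, |β x| ≤ M) →
      (∀ x ∈ Ioo (-R) R, |α x - β x| ≤ δ) →
      ∫ x in Ioo (-R) R, |g (α x) - g (β x)| < ε := by
  have hs : MeasurableSet {y | |g y| ≤ B} := measurableSet_le hg.abs measurable_const
  set g' : ℝ → ℝ := {y | |g y| ≤ B}.indicator g with hg'
  have hg'm : Measurable g' := hg.indicator hs
  have hg'B : ∀ y, |g' y| ≤ max B 0 := by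
    intro y
    by_cases hy : y ∈ {y | |g y| ≤ B}
    · rw [hg', indicator_of_mem hy]
      exact le_max_of_le_left hy
    · rw [hg', indicator_of_notMem hy, abs_zero]
      exact le_max_right _ _
  have hae : ∀ᵐ y, g y = g' y := by
    filter_upwards [hB] with y hy
    rw [hg', indicator_of_mem (show y ∈ {y | |g y| ≤ B} from hy)]
  obtain ⟨δ, hδ, h⟩ := exists_comp (R := R) (M := M) hg'm hg'B hA hε
  refine ⟨δ, hδ, fun α β hα hβ hαM hβM hαβ => ?_⟩
  have h1 := ae_comp_of_expanding hA hα hae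
  have h2 := ae_comp_of_expanding hA hβ hae
  have h3 : ∫ x in Ioo (-R) R, |g (α x) - g (β x)| = ∫ x in Ioo (-R) R, |g' (α x) - g' (β x)| := by
    apply integral_congr_ae
    filter_upwards [ae_restrict_of_ae h1, ae_restrict_of_ae h2] with x hx1 hx2
    rw [hx1, hx2]
  rw [h3]
  exact h α β hα hβ hαM hβM hαβ

/-- A Lipschitz function which is small in `L¹` is small. PROOF: `ε > 0`; if `|f x0| ≥ ε`, then
`|f x| ≥ ε/2` for `|x - x0| ≤ ε/(2 (K+1))`, and an interval of length `min R (ε/(2 (K+1)))` of such `x` is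
in `(-R, R)`; so the integral is at least `ε/2 * min R (ε/(2 (K+1)))`, take `μ` = this number. -/
theorem exists_sup_le {K R ε : ℝ} (hK : 0 ≤ K) (hR : 0 < R) (hε : 0 < ε) : ∃ μ : ℝ, 0 < μ ∧
    ∀ f : ℝ → ℝ, (∀ x y, |f x - f y| ≤ K * |x - y|) → ∫ x in Ioo (-R) R, |f x| < μ →
      ∀ x ∈ Ioo (-R) R, |f x| < ε := by
  set l : ℝ := min R (ε / (2 * (K + 1))) with hl
  have hl0 : 0 < l := lt_min hR (by positivity)
  have hlR : l ≤ R := min_le_left _ _
  have hlK : K * l ≤ ε / 2 := by
    have h1 : l ≤ ε / (2 * (K + 1)) := min_le_right _ _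
    calc K * l ≤ K * (ε / (2 * (K + 1))) := mul_le_mul_of_nonneg_left h1 hK
      _ ≤ ε / 2 := by
        rw [mul_div_assoc', div_le_div_iff₀ (by positivity) (by norm_num)]
        nlinarith
  refine ⟨l * (ε / 2), by positivity, fun f hf hint x0 hx0 => ?_⟩
  by_contra hcon
  push Not at hcon
  have hfc : Continuous f := by
    have h1 : LipschitzWith (Real.toNNReal K) f := by
      apply LipschitzWith.of_dist_le_mul
      intro x y
      rw [Real.coe_toNNReal _ hK, Real.dist_eq, Real.dist_eq]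
      exact hf x y
    exact h1.continuous
  have hfi : IntegrableOn (fun x => |f x|) (Ioo (-R) R) :=
    (hfc.abs.integrableOn_Icc (a := -R) (b := R)).mono_set Ioo_subset_Icc_self
  obtain ⟨c, hc1, hc2⟩ : ∃ c : ℝ, Ioo c (c + l) ⊆ Ioo (-R) R ∧
      ∀ x ∈ Ioo c (c + l), |x - x0| ≤ l := by
    rcases le_or_gt x0 0 with h | h
    · refine ⟨x0, ?_, ?_⟩
      · apply Ioo_subset_Ioo hx0.1.le
        linarith
      · intro x hx
        rw [abs_le]
        constructor <;> linarith [hx.1, hx.2]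
    · refine ⟨x0 - l, ?_, ?_⟩
      · apply Ioo_subset_Ioo
        · linarith
        · linarith [hx0.2]
      · intro x hx
        rw [abs_le]
        constructor <;> linarith [hx.1, hx.2]
  have h1 : l * (ε / 2) ≤ ∫ x in Ioo c (c + l), |f x| := by
    have h2 : ∫ x in Ioo c (c + l), (ε / 2) = l * (ε / 2) := by
      rw [setIntegral_const, Real.volume_real_Ioo_of_le (by linarith), smul_eq_mul]
      ring
    rw [← h2]
    refine setIntegral_mono_on (integrableOn_const measure_Ioo_lt_top.ne) (hfi.mono_set hc1)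
      measurableSet_Ioo ?_
    intro x hx
    have h3 := hf x0 x
    have h4 := hc2 x hx
    rw [abs_sub_comm] at h4
    have h5 : K * |x0 - x| ≤ K * l := mul_le_mul_of_nonneg_left h4 hK
    have h6 : |f x0| ≤ |f x0 - f x| + |f x| := by
      have h7 := abs_add_le (f x0 - f x) (f x)
      rwa [sub_add_cancel] at h7
    linarith
  have h2 : ∫ x in Ioo c (c + l), |f x| ≤ ∫ x in Ioo (-R) R, |f x| :=
    setIntegral_mono_set hfi (Eventually.of_forall fun x => abs_nonneg _)
      (Eventually.of_forall hc1)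
  linarith

end Helper73.EU
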