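import Pool.Agent.Helper73.EU.Xi

/-!
Project EU: the distance `dist1` on bounded measurable states.
-/

open MeasureTheory Set Filter Topology
open scoped ContDiff NNReal

namespace Helper73.EU

theorem integrableOn_Ioo_of_ae {f : ℝ → ℝ} {M R : ℝ} (hf : Measurable f)
    (h : ∀ᵐ x : ℝ, |f x| ≤ M) : IntegrableOn f (Ioo (-R) R) := by
  apply Measure.integrableOn_of_bounded (M := M) (by simp) hf.aestronglyMeasurable
  exact ae_restrict_of_ae (by simpa [Real.norm_eq_abs] using h)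

theorem IsSol.le {γ T a b : ℝ} {ρ u e : ℝ × ℝ → ℝ} (hT : 0 < T) (h : IsSol γ T a b ρ u e) :
    a ≤ b := by
  by_contra hab
  have h1 : ∀ᵐ z : ℝ × ℝ, z ∉ Strip T := by
    filter_upwards [h.box] with z hz hzT
    have := hz hzT
    exact hab (this.1.trans this.2.1)
  have h2 : volume (Strip T) = 0 := by
    rw [← compl_mem_ae_iff]; exact h1
  have h3 : (Strip T).Nonempty := ⟨(T / 2, 0), by constructor <;> simp <;> linarith⟩
  exact (isOpen_strip T).measure_ne_zero volume h3 h2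

theorem integrableOn_dist {a b R : ℝ} {ρ u e ρ' u' e' : ℝ → ℝ} (h : IsDatum a b ρ u e)
    (h' : IsDatum a b ρ' u' e') :
    IntegrableOn (fun x => |ρ x - ρ' x| + |u x - u' x| + |e x - e' x|) (Ioo (-R) R) := by
  apply integrableOn_Ioo_of_ae (M := 4 * |b| + 2 * |a| + 2 * |b|)
  · have := h.meas_ρ; have := h.meas_u; have := h.meas_e
    have := h'.meas_ρ; have := h'.meas_u; have := h'.meas_e
    fun_prop
  · filter_upwards [h.box, h'.box] with x hx hx'
    obtain ⟨h1, h2, h3, h4, h5⟩ := hx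
    obtain ⟨h1', h2', h3', h4', h5'⟩ := hx'
    have hb : b ≤ |b| := le_abs_self b
    have ha : -|a| ≤ a := neg_abs_le a
    have e1 : |ρ x - ρ' x| ≤ |b| + |a| := by rw [abs_le]; constructor <;> linarith
    have e2 : |u x - u' x| ≤ 2 * |b| := by
      have := abs_sub (u x) (u' x); linarith
    have e3 : |e x - e' x| ≤ |b| + |a| := by rw [abs_le]; constructor <;> linarith
    rw [abs_of_nonneg (by positivity)]
    have : 0 ≤ |b| := abs_nonneg b
    linarith

theorem dist1_comm {R : ℝ} {ρ u e ρ' u' e' : ℝ → ℝ} :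
    dist1 R ρ u e ρ' u' e' = dist1 R ρ' u' e' ρ u e := by
  unfold dist1
  congr 1
  funext x
  rw [abs_sub_comm (ρ x), abs_sub_comm (u x), abs_sub_comm (e x)]

theorem dist1_nonneg {R : ℝ} {ρ u e ρ' u' e' : ℝ → ℝ} : 0 ≤ dist1 R ρ u e ρ' u' e' := by
  unfold dist1
  exact integral_nonneg fun x => by positivity

theorem dist1_triangle {a b R : ℝ} {ρ u e ρ' u' e' ρ'' u'' e'' : ℝ → ℝ}
    (h : IsDatum a b ρ u e) (h' : IsDatum a b ρ' u' e') (h'' : IsDatum a b ρ'' u'' e'') :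
    dist1 R ρ u e ρ'' u'' e'' ≤ dist1 R ρ u e ρ' u' e' + dist1 R ρ' u' e' ρ'' u'' e'' := by
  unfold dist1
  rw [← integral_add (integrableOn_dist h h') (integrableOn_dist h' h'')]
  apply integral_mono (integrableOn_dist h h'')
    ((integrableOn_dist h h').add (integrableOn_dist h' h''))
  intro x
  have e1 := abs_sub_le (ρ x) (ρ' x) (ρ'' x)
  have e2 := abs_sub_le (u x) (u' x) (u'' x)
  have e3 := abs_sub_le (e x) (e' x) (e'' x)
  simp only [Pi.add_apply]
  linarith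

theorem dist1_mono {a b R R' : ℝ} {ρ u e ρ' u' e' : ℝ → ℝ} (hR : R ≤ R')
    (h : IsDatum a b ρ u e) (h' : IsDatum a b ρ' u' e') :
    dist1 R ρ u e ρ' u' e' ≤ dist1 R' ρ u e ρ' u' e' := by
  unfold dist1
  apply setIntegral_mono_set (integrableOn_dist h h')
  · exact Eventually.of_forall fun x => by positivity
  · exact (Ioo_subset_Ioo (by linarith) hR).eventuallyLE

theorem IsSol.datum {γ T a b : ℝ} {ρ u e : ℝ × ℝ → ℝ} (h : IsSol γ T a b ρ u e) :
    ∀ᵐ t : ℝ, t ∈ Ioo 0 T → IsDatum a b (sl ρ t) (sl u t) (sl e t) := by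
  filter_upwards [ae_slice h.box] with t ht htT
  exact ⟨h.meas_ρ.comp measurable_prodMk_left, h.meas_u.comp measurable_prodMk_left,
    h.meas_e.comp measurable_prodMk_left, ht htT⟩

theorem IsSol.datum_xi {γ T a b : ℝ} {ρ m Φ r w z Φb ξ : ℝ × ℝ → ℝ} (ha : 0 < a)
    (hV : IsSol γ T a b r w z) (hΦ : IsPot T a b ρ m Φ)
    (hΦb : IsPot T a b r (fun ζ => r ζ * w ζ) Φb) (hξ : IsXi Φ Φb ξ) :
    ∀ᵐ t : ℝ, t ∈ Ioo 0 T → IsDatum a b (fun x => r (t, ξ (t, x)))
      (fun x => w (t, ξ (t, x))) (fun x => z (t, ξ (t, x))) := by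
  obtain ⟨K, hK⟩ := hξ.lip
  filter_upwards [ae_slice (hξ.ae_comp ha hΦ hΦb hV.box)] with t ht htT
  have hm : Measurable (fun x : ℝ => (t, ξ (t, x))) :=
    measurable_const.prodMk (hK.continuous.measurable.comp measurable_prodMk_left)
  exact ⟨hV.meas_ρ.comp hm, hV.meas_u.comp hm, hV.meas_e.comp hm, ht htT⟩

end Helper73.EU
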