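import Pool.Agent.Helper73.EU.Rep
import Pool.Agent.Helper73.EU.Comp
import Pool.Agent.Helper73.EU.Dist

/-!
EU-09. Equicontinuity of the base under changes of variable near the identity.

PROOF. Let `Φb` be a potential of `(r, r w)` (`exists_isPot`, with `M` from `exists_bound`), `K` its Lipschitz
constant, `c` the weight (`exists_weight`). May assume `A ≤ 1` (replace `A` by `min A 1`; the identity
has slope 1). Constants: let `R1 = R + 1` (all `δ ≤ 1`, so `|α x| ≤ R1` on `(-R, R)`).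
(small t) Write `V = (r, w, z)`. `exists_comp_ae` for `g = r₀, w₀, z₀` (with `β = id`, `M = R1`) gives `δ1`
such that `∫ |g (α x) - g x| < ε/12` for each of the three. By `Attains` with radius `R1 + 1` and
`ε' = min A 1 * ε/12` there is `τ` such that for a.e. `t < τ`: `dist1 (R1 + 1) (V t) V₀ < ε'`. Then
`dist1 R (V (t, α)) (V t) ≤ dist1 R (V (t, α)) (V₀ ∘ α) + dist1 R (V₀ ∘ α) V₀ + dist1 R V₀ (V t)
 ≤ (1/A) dist1 (R1 + 1) (V t) V₀ + 3 ε/12 + ε/12 < ε` (`integral_comp_le`; note the interval `Icc (-R1) R1`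
is contained in `Ioo (-(R1+1)) (R1+1)`).
(large t) Let `τ ≤ t ≤ T'`, `τ > 0` as above. `w` and `q` are Lipschitz on the compact set
`[τ, T'] × [-R1, R1]` (`LocallyLipschitzOn.exists_lipschitzOnWith_of_compact`), with constant `K1`, so
`|w (t, α x) - w (t, x)| ≤ K1 δ`, the same for `q`, and for `q^(1/γ)` (locally Lipschitz, `locLip_comp`).
For a.e. `t`: for a.e. `x`, `r (t, x) = q^(1/γ) / c (Φb (t, x))` (`ae_slice`), and the same at `(t, α x)` for a.e. `x`
(`ae_comp_of_expanding`). The functions `α1 = Φb (t, α ·)`, `β1 = Φb (t, ·)` have slopes at least `a A`, `a`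
and `|α1 - β1| ≤ b δ` on `(-R, R)` (`lo`, `hi`), values bounded by `K (T + R1)`. `exists_comp` for
`g = 1/c` (measurable, bounded by `1/c₀`) gives `δ2` with `∫ |1/c(α1) - 1/c(β1)| < ε''` if `b δ ≤ δ2`. So
`∫ |r (t, α x) - r (t, x)| ≤ θ1 ε'' + (1/c₀) 2R K1 δ`, and `z = q / ((γ - 1) r)`, `r ≥ a`, gives
`|z (t, α x) - z (t, x)| ≤ C (|q - q| + |r - r|)`. Choose `ε''` and `δ` small.
-/

open MeasureTheory Set Filter Topology
open scoped ContDiff NNReal

namespace Helper73.EU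

theorem monotone_of_slope {A : ℝ} {α : ℝ → ℝ} (hA : 0 < A)
    (hα : ∀ x y, x ≤ y → A * (y - x) ≤ α y - α x) : Monotone α := by
  intro x y hxy
  have h1 := hα x y hxy
  have h2 : 0 ≤ A * (y - x) := mul_nonneg hA.le (by linarith)
  linarith

theorem IsDatum.comp_slope {a b A : ℝ} {ρ u e α : ℝ → ℝ} (h : IsDatum a b ρ u e) (hA : 0 < A)
    (hα : ∀ x y, x ≤ y → A * (y - x) ≤ α y - α x) :
    IsDatum a b (fun x => ρ (α x)) (fun x => u (α x)) (fun x => e (α x)) := by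
  have hm : Measurable α := (monotone_of_slope hA hα).measurable
  exact ⟨h.meas_ρ.comp hm, h.meas_u.comp hm, h.meas_e.comp hm,
    ae_comp_of_expanding hA hα h.box⟩

theorem mod_small {γ T a b L : ℝ} {r w z : ℝ × ℝ → ℝ} {r₀ w₀ z₀ : ℝ → ℝ}
    (ha : 0 < a) (hV : IsBase γ T a b L r w z r₀ w₀ z₀)
    {A R ε : ℝ} (hA : 0 < A) (hA1 : A ≤ 1) (hR : 0 < R) (hε : 0 < ε) :
    ∃ τ δ : ℝ, 0 < τ ∧ 0 < δ ∧ ∀ᵐ t : ℝ, t ∈ Ioo 0 T → t < τ → ∀ α : ℝ → ℝ,
      (∀ x y, x ≤ y → A * (y - x) ≤ α y - α x) → (∀ x ∈ Ioo (-R) R, |α x - x| ≤ δ) →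
      dist1 R (fun x => r (t, α x)) (fun x => w (t, α x)) (fun x => z (t, α x))
        (sl r t) (sl w t) (sl z t) < ε := by
  have hr : ∀ᵐ y, |r₀ y| ≤ b := by
    filter_upwards [hV.datum.box] with y hy
    obtain ⟨h1, h2, h3, h4, h5⟩ := hy
    rw [abs_le]; constructor <;> linarith
  have hw : ∀ᵐ y, |w₀ y| ≤ b := by
    filter_upwards [hV.datum.box] with y hy
    exact hy.2.2.1
  have hz : ∀ᵐ y, |z₀ y| ≤ b := by
    filter_upwards [hV.datum.box] with y hy
    obtain ⟨h1, h2, h3, h4, h5⟩ := hy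
    rw [abs_le]; constructor <;> linarith
  have hε12 : 0 < ε / 12 := by positivity
  obtain ⟨δr, hδr, Hr⟩ := exists_comp_ae (R := R) (M := R + 1) hV.datum.meas_ρ hr hA hε12
  obtain ⟨δw, hδw, Hw⟩ := exists_comp_ae (R := R) (M := R + 1) hV.datum.meas_u hw hA hε12
  obtain ⟨δz, hδz, Hz⟩ := exists_comp_ae (R := R) (M := R + 1) hV.datum.meas_e hz hA hε12
  obtain ⟨τ, hτ, hτT, Hτ⟩ := hV.attains (R + 2) (A * (ε / 12)) (by linarith) (by positivity)
  refine ⟨τ, min (min δr (min δw δz)) 1, hτ, lt_min (lt_min hδr (lt_min hδw hδz)) one_pos, ?_⟩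
  filter_upwards [Hτ, hV.sol.datum] with t h1 h2 htT htτ α hα hδ
  have hd := h1 ⟨htT.1, htτ⟩
  have hD := h2 htT
  have hDα := hD.comp_slope hA hα
  have h0α := hV.datum.comp_slope hA hα
  have hδ1 : ∀ x ∈ Ioo (-R) R, |α x - x| ≤ 1 := fun x hx => (hδ x hx).trans (min_le_right _ _)
  have hδ2 : ∀ x ∈ Ioo (-R) R, |α x - x| ≤ min δr (min δw δz) :=
    fun x hx => (hδ x hx).trans (min_le_left _ _)
  have hαM : ∀ x ∈ Ioo (-R) R, |α x| ≤ R + 1 := by
    intro x hx
    have e1 := abs_le.1 (hδ1 x hx)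
    rw [abs_le]; constructor <;> linarith [hx.1, hx.2, e1.1, e1.2]
  have hidM : ∀ x ∈ Ioo (-R) R, |x| ≤ R + 1 := by
    intro x hx
    rw [abs_le]; constructor <;> linarith [hx.1, hx.2]
  have hid : ∀ x y : ℝ, x ≤ y → A * (y - x) ≤ y - x := by
    intro x y hxy
    nlinarith
  -- first piece
  set F : ℝ → ℝ := fun y => |sl r t y - r₀ y| + |sl w t y - w₀ y| + |sl z t y - z₀ y| with hF
  have hFm : Measurable F := by
    have m1 := hD.meas_ρ; have m2 := hD.meas_u; have m3 := hD.meas_e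
    have m4 := hV.datum.meas_ρ; have m5 := hV.datum.meas_u; have m6 := hV.datum.meas_e
    rw [hF]
    fun_prop
  have hF0 : ∀ y, 0 ≤ F y := fun y => by rw [hF]; positivity
  have hFi2 : IntegrableOn F (Ioo (-(R + 2)) (R + 2)) := integrableOn_dist hD hV.datum
  have hsub : Icc (-(R + 1)) (R + 1) ⊆ Ioo (-(R + 2)) (R + 2) := by
    intro x hx
    exact ⟨by linarith [hx.1], by linarith [hx.2]⟩
  have hFi : IntegrableOn F (Icc (-(R + 1)) (R + 1)) := hFi2.mono_set hsub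
  have p1 : dist1 R (fun x => r (t, α x)) (fun x => w (t, α x)) (fun x => z (t, α x))
      (fun x => r₀ (α x)) (fun x => w₀ (α x)) (fun x => z₀ (α x)) < ε / 12 := by
    have e1 := (integral_comp_le hA hFm hF0 hFi hα hαM).2
    have e2 : ∫ y in Icc (-(R + 1)) (R + 1), F y ≤ ∫ y in Ioo (-(R + 2)) (R + 2), F y :=
      setIntegral_mono_set hFi2 (Eventually.of_forall hF0) hsub.eventuallyLE
    have e3 : ∫ y in Ioo (-(R + 2)) (R + 2), F y < A * (ε / 12) := hd
    have e4 : 1 / A * ∫ y in Icc (-(R + 1)) (R + 1), F y < 1 / A * (A * (ε / 12)) :=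
      mul_lt_mul_of_pos_left (e2.trans_lt e3) (by positivity)
    have e5 : 1 / A * (A * (ε / 12)) = ε / 12 := by field_simp
    rw [e5] at e4
    exact e1.trans_lt e4
  -- second piece
  have p2 : dist1 R (fun x => r₀ (α x)) (fun x => w₀ (α x)) (fun x => z₀ (α x)) r₀ w₀ z₀
      < ε / 4 := by
    have q1 := Hr α (fun x => x) hα hid hαM hidM (fun x hx => (hδ2 x hx).trans (min_le_left _ _))
    have q2 := Hw α (fun x => x) hα hid hαM hidM
      (fun x hx => (hδ2 x hx).trans ((min_le_right _ _).trans (min_le_left _ _)))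
    have q3 := Hz α (fun x => x) hα hid hαM hidM
      (fun x hx => (hδ2 x hx).trans ((min_le_right _ _).trans (min_le_right _ _)))
    have aux : ∀ g : ℝ → ℝ, Measurable g → Measurable (fun x => g (α x)) →
        (∀ᵐ y, |g y| ≤ b) → IntegrableOn (fun x => |g (α x) - g x|) (Ioo (-R) R) := by
      intro g hg hgα hgb
      have hgb2 := ae_comp_of_expanding hA hα hgb
      apply integrableOn_Ioo_of_ae (M := 2 * b)
      · exact (hgα.sub hg).norm
      · filter_upwards [hgb, hgb2] with x hx hx2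
        rw [abs_abs]
        have := abs_sub (g (α x)) (g x)
        linarith
    have i1 := aux r₀ hV.datum.meas_ρ h0α.meas_ρ hr
    have i2 := aux w₀ hV.datum.meas_u h0α.meas_u hw
    have i3 := aux z₀ hV.datum.meas_e h0α.meas_e hz
    have key : dist1 R (fun x => r₀ (α x)) (fun x => w₀ (α x)) (fun x => z₀ (α x)) r₀ w₀ z₀ =
        (∫ x in Ioo (-R) R, |r₀ (α x) - r₀ x|) + (∫ x in Ioo (-R) R, |w₀ (α x) - w₀ x|) +
          ∫ x in Ioo (-R) R, |z₀ (α x) - z₀ x| := by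
      have i12 : IntegrableOn (fun x => |r₀ (α x) - r₀ x| + |w₀ (α x) - w₀ x|) (Ioo (-R) R) :=
        i1.add i2
      rw [← integral_add i1 i2, ← integral_add i12 i3]
      rfl
    rw [key]
    linarith
  -- third piece
  have p3 : dist1 R r₀ w₀ z₀ (sl r t) (sl w t) (sl z t) < ε / 12 := by
    rw [dist1_comm]
    have e1 := dist1_mono (show R ≤ R + 2 by linarith) hD hV.datum
    have e2 : A * (ε / 12) ≤ ε / 12 := by nlinarith
    linarith
  have t1 := dist1_triangle (R := R) hDα h0α hD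
  have t2 := dist1_triangle (R := R) h0α hV.datum hD
  have p1' : dist1 R (fun x => sl r t (α x)) (fun x => sl w t (α x)) (fun x => sl z t (α x))
      (fun x => r₀ (α x)) (fun x => w₀ (α x)) (fun x => z₀ (α x)) < ε / 12 := p1
  show dist1 R (fun x => sl r t (α x)) (fun x => sl w t (α x)) (fun x => sl z t (α x))
      (sl r t) (sl w t) (sl z t) < ε
  linarith

theorem mod_large {γ T a b L : ℝ} {r w z : ℝ × ℝ → ℝ} {r₀ w₀ z₀ : ℝ → ℝ}
    (hγ : 1 < γ) (hT : 0 < T) (ha : 0 < a) (hV : IsBase γ T a b L r w z r₀ w₀ z₀)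
    {A R τ T' ε : ℝ} (hA : 0 < A) (hA1 : A ≤ 1) (hR : 0 < R) (hτ : 0 < τ) (hTT : T' < T)
    (hε : 0 < ε) :
    ∃ δ : ℝ, 0 < δ ∧ ∀ᵐ t : ℝ, t ∈ Ioo 0 T → τ ≤ t → t ≤ T' → ∀ α : ℝ → ℝ,
      (∀ x y, x ≤ y → A * (y - x) ≤ α y - α x) → (∀ x ∈ Ioo (-R) R, |α x - x| ≤ δ) →
      dist1 R (fun x => r (t, α x)) (fun x => w (t, α x)) (fun x => z (t, α x))
        (sl r t) (sl w t) (sl z t) < ε := by
  have hab : a ≤ b := hV.sol.le hT
  have hb0 : 0 < b := ha.trans_le hab
  have hq : LocallyLipschitzOn (Strip T) (qq γ r z) := hV.lip_q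
  have hbb := base_bounds hγ ha hV.sol hV.lip_w hq
  have hg1 : 0 < γ - 1 := by linarith
  have hqpos : ∀ ζ ∈ Strip T, 0 < qq γ r z ζ := fun ζ hζ =>
    lt_of_lt_of_le (by positivity) (hbb ζ hζ).2.1
  set θ : ℝ × ℝ → ℝ := fun ζ => (qq γ r z ζ) ^ (1 / γ) with hθdef
  have hθ : LocallyLipschitzOn (Strip T) θ :=
    locLip_comp (g := fun x => x ^ (1 / γ)) hq
      (fun ζ hζ => Real.contDiffAt_rpow_const_of_ne (hqpos ζ hζ).ne')
  obtain ⟨M, hM, HM⟩ := exists_bound (b := b) hγ ha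
  obtain ⟨Φb, hΦb⟩ := exists_isPot (M := M) hT ha hV.sol.meas_ρ
    (hV.sol.meas_ρ.mul hV.sol.meas_u) (by
      filter_upwards [hV.sol.box] with ζ hζ hζT
      have h1 := hζ hζT
      exact ⟨h1.1, h1.2.1, (HM _ _ _ h1).2.1⟩) hV.sol.mass
  obtain ⟨c, c₀, c₁, hcm, hc0, hcb, hcr⟩ := exists_weight hγ hT ha hV.sol hV.lip_w hq hΦb
  obtain ⟨K, hK⟩ := hΦb.lip
  have hS : IsCompact (Icc τ T' ×ˢ Icc (-(R + 1)) (R + 1)) := isCompact_Icc.prod isCompact_Icc
  have hST : Icc τ T' ×ˢ Icc (-(R + 1)) (R + 1) ⊆ Strip T := by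
    intro ζ hζ
    exact ⟨lt_of_lt_of_le hτ hζ.1.1, lt_of_le_of_lt hζ.1.2 hTT⟩
  obtain ⟨Kw, hKw⟩ := (hV.lip_w.mono hST).exists_lipschitzOnWith_of_compact hS
  obtain ⟨Kq, hKq⟩ := (hq.mono hST).exists_lipschitzOnWith_of_compact hS
  obtain ⟨Kt, hKt⟩ := (hθ.mono hST).exists_lipschitzOnWith_of_compact hS
  have hGm : Measurable (fun y => (c y)⁻¹) := hcm.inv
  have hGB : ∀ y, |(c y)⁻¹| ≤ c₀⁻¹ := by
    intro y
    have h1 := hcb y
    rw [abs_of_pos (inv_pos.2 (hc0.trans_le h1.1))]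
    exact inv_anti₀ hc0 h1.1
  set θ1 : ℝ := ((γ - 1) * b * b) ^ (1 / γ) with hθ1
  have hθ10 : 0 ≤ θ1 := by positivity
  set C1 : ℝ := 1 + b / a with hC1
  have hC10 : 0 < C1 := by positivity
  set κ : ℝ := (γ - 1) * a with hκ
  have hκ0 : 0 < κ := by positivity
  set C2 : ℝ := C1 * (c₀⁻¹ * Kt) + Kw + Kq / κ with hC2
  have hC20 : 0 ≤ C2 := by positivity
  have hε2 : 0 < ε / (2 * (C1 * θ1 + 1)) := by positivity
  obtain ⟨δ2, hδ2, H2⟩ := exists_comp (R := R) (M := K * (T + (R + 1))) hGm hGB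
    (mul_pos ha hA) hε2
  set δ : ℝ := min (min 1 (δ2 / b)) (ε / (4 * R * (C2 + 1))) with hδdef
  have hδ0 : 0 < δ := lt_min (lt_min one_pos (by positivity)) (by positivity)
  refine ⟨δ, hδ0, ?_⟩
  filter_upwards [hV.sol.datum, ae_slice hcr] with t hD1 hW1 htT hτt htT' α hα hδα
  have hD := hD1 htT
  have hw1 := hW1 htT
  have hDα := hD.comp_slope hA hα
  have hw2 := ae_comp_of_expanding hA hα hw1
  have hδa : δ ≤ 1 := (min_le_left _ _).trans (min_le_left _ _)
  have hδb : δ ≤ δ2 / b := (min_le_left _ _).trans (min_le_right _ _)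
  have hδc : δ ≤ ε / (4 * R * (C2 + 1)) := min_le_right _ _
  have hαM : ∀ x ∈ Ioo (-R) R, |α x| ≤ R + 1 := by
    intro x hx
    have e1 := abs_le.1 ((hδα x hx).trans hδa)
    rw [abs_le]; constructor <;> linarith [hx.1, hx.2, e1.1, e1.2]
  have hmem : ∀ x ∈ Ioo (-R) R, (t, x) ∈ Icc τ T' ×ˢ Icc (-(R + 1)) (R + 1) := by
    intro x hx
    exact ⟨⟨hτt, htT'⟩, ⟨by linarith [hx.1], by linarith [hx.2]⟩⟩
  have hmemα : ∀ x ∈ Ioo (-R) R, (t, α x) ∈ Icc τ T' ×ˢ Icc (-(R + 1)) (R + 1) := by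
    intro x hx
    have := abs_le.1 (hαM x hx)
    exact ⟨⟨hτt, htT'⟩, ⟨this.1, this.2⟩⟩
  have hlip : ∀ (f : ℝ × ℝ → ℝ) (Kf : ℝ≥0),
      LipschitzOnWith Kf f (Icc τ T' ×ˢ Icc (-(R + 1)) (R + 1)) →
      ∀ x ∈ Ioo (-R) R, |f (t, α x) - f (t, x)| ≤ Kf * δ := by
    intro f Kf hf x hx
    have e1 := hf.dist_le_mul _ (hmemα x hx) _ (hmem x hx)
    rw [dist_prod_same_left, Real.dist_eq, Real.dist_eq] at e1
    exact e1.trans (mul_le_mul_of_nonneg_left (hδα x hx) Kf.2)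
  -- the potentials
  have hmono := monotone_of_slope hA hα
  have hs1 : ∀ x y, x ≤ y → a * A * (y - x) ≤ Φb (t, α y) - Φb (t, α x) := by
    intro x y hxy
    have e1 := hΦb.lo t (α x) (α y) (hmono hxy)
    have e2 := mul_le_mul_of_nonneg_left (hα x y hxy) ha.le
    linarith
  have hs2 : ∀ x y, x ≤ y → a * A * (y - x) ≤ Φb (t, y) - Φb (t, x) := by
    intro x y hxy
    have e1 := hΦb.lo t x y hxy
    have e2 : a * A * (y - x) ≤ a * (y - x) := by
      have : 0 ≤ a * (y - x) := mul_nonneg ha.le (by linarith)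
      nlinarith
    linarith
  have hval : ∀ x, |x| ≤ R + 1 → |Φb (t, x)| ≤ K * (T + (R + 1)) := by
    intro x hx
    have e1 := hK.dist_le_mul (t, x) (0, 0)
    rw [hΦb.zero, Real.dist_eq, sub_zero] at e1
    refine e1.trans (mul_le_mul_of_nonneg_left ?_ K.2)
    rw [Prod.dist_eq]
    simp only [Real.dist_eq, sub_zero]
    apply max_le
    · rw [abs_of_pos htT.1]
      linarith [htT.2]
    · linarith
  have hclose : ∀ x ∈ Ioo (-R) R, |Φb (t, α x) - Φb (t, x)| ≤ δ2 := by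
    intro x hx
    have hbd : b * |α x - x| ≤ δ2 := by
      have := (hδα x hx).trans hδb
      rw [le_div_iff₀ hb0] at this
      linarith
    refine le_trans ?_ hbd
    rcases le_total x (α x) with h | h
    · have e1 := hΦb.lo t _ _ h
      have e2 := hΦb.hi t _ _ h
      have e3 : 0 ≤ a * (α x - x) := mul_nonneg ha.le (by linarith)
      rw [abs_of_nonneg (by linarith : 0 ≤ Φb (t, α x) - Φb (t, x)),
        abs_of_nonneg (by linarith : 0 ≤ α x - x)]
      exact e2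
    · have e1 := hΦb.lo t _ _ h
      have e2 := hΦb.hi t _ _ h
      have e3 : 0 ≤ a * (x - α x) := mul_nonneg ha.le (by linarith)
      rw [abs_sub_comm, abs_sub_comm (α x) x, abs_of_nonneg (by linarith : 0 ≤ Φb (t, x) - Φb (t, α x)),
        abs_of_nonneg (by linarith : 0 ≤ x - α x)]
      exact e2
  have hmain := H2 (fun x => Φb (t, α x)) (fun x => Φb (t, x)) hs1 hs2
    (fun x hx => hval _ (hαM x hx))
    (fun x hx => hval _ (by rw [abs_le]; constructor <;> linarith [hx.1, hx.2])) hclose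
  -- integrability
  have hmeasα : Measurable α := hmono.measurable
  have hΦc : Measurable Φb := hK.continuous.measurable
  have hG1 : Measurable (fun x => (c (Φb (t, α x)))⁻¹) :=
    hGm.comp (hΦc.comp (measurable_const.prodMk hmeasα))
  have hG2 : Measurable (fun x => (c (Φb (t, x)))⁻¹) :=
    hGm.comp (hΦc.comp (measurable_const.prodMk measurable_id))
  have hint : IntegrableOn (fun x => |(c (Φb (t, α x)))⁻¹ - (c (Φb (t, x)))⁻¹|) (Ioo (-R) R) := by
    apply integrableOn_Ioo_of_ae (M := 2 * c₀⁻¹)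
    · exact (hG1.sub hG2).norm
    · refine Eventually.of_forall fun x => ?_
      rw [abs_abs]
      have e1 := abs_sub (c (Φb (t, α x)))⁻¹ (c (Φb (t, x)))⁻¹
      have e2 := hGB (Φb (t, α x))
      have e3 := hGB (Φb (t, x))
      linarith
  have hint2 : IntegrableOn (fun x => C1 * θ1 * |(c (Φb (t, α x)))⁻¹ - (c (Φb (t, x)))⁻¹| + C2 * δ)
      (Ioo (-R) R) := by
    apply Integrable.add (hint.const_mul _)
    exact integrableOn_const (by simp)
  have hle : dist1 R (fun x => r (t, α x)) (fun x => w (t, α x)) (fun x => z (t, α x))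
        (sl r t) (sl w t) (sl z t) ≤
      ∫ x in Ioo (-R) R, (C1 * θ1 * |(c (Φb (t, α x)))⁻¹ - (c (Φb (t, x)))⁻¹| + C2 * δ) := by
    unfold dist1
    apply integral_mono_of_nonneg (Eventually.of_forall fun x => by positivity) hint2
    have hbox1 := hD.box
    have hbox2 := hDα.box
    rw [EventuallyLE, ae_restrict_iff' measurableSet_Ioo]
    filter_upwards [hw1, hw2, hbox1, hbox2] with x e1 e2 b1 b2 hx
    simp only [sl] at b1 b2 ⊢
    have f1 := hlip w Kw hKw x hx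
    have f2 := hlip (qq γ r z) Kq hKq x hx
    have f3 := hlip θ Kt hKt x hx
    have hcp1 : 0 < c (Φb (t, x)) := hc0.trans_le (hcb _).1
    have hcp2 : 0 < c (Φb (t, α x)) := hc0.trans_le (hcb _).1
    have r1 : r (t, x) = (c (Φb (t, x)))⁻¹ * θ (t, x) := by
      rw [hθdef]; simp only; rw [← e1]; field_simp
    have r2 : r (t, α x) = (c (Φb (t, α x)))⁻¹ * θ (t, α x) := by
      rw [hθdef]; simp only; rw [← e2]; field_simp
    have hθα : |θ (t, α x)| ≤ θ1 := by
      have g1 := hST (hmemα x hx)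
      have g2 := hqpos _ g1
      rw [hθdef]; simp only
      rw [abs_of_nonneg (Real.rpow_nonneg g2.le _)]
      exact Real.rpow_le_rpow g2.le (hbb _ g1).2.2 (by positivity)
    have g3 := hGB (Φb (t, x))
    have dr : |r (t, α x) - r (t, x)| ≤
        θ1 * |(c (Φb (t, α x)))⁻¹ - (c (Φb (t, x)))⁻¹| + c₀⁻¹ * (Kt * δ) := by
      have : r (t, α x) - r (t, x) = ((c (Φb (t, α x)))⁻¹ - (c (Φb (t, x)))⁻¹) * θ (t, α x) +
          (c (Φb (t, x)))⁻¹ * (θ (t, α x) - θ (t, x)) := by rw [r1, r2]; ring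
      rw [this]
      refine (abs_add_le _ _).trans ?_
      rw [abs_mul, abs_mul, mul_comm θ1]
      exact add_le_add (mul_le_mul_of_nonneg_left hθα (abs_nonneg _))
        (mul_le_mul g3 f3 (abs_nonneg _) (by positivity))
    have dz : |z (t, α x) - z (t, x)| ≤ Kq * δ / κ + b / a * |r (t, α x) - r (t, x)| := by
      have i1 : κ * (r (t, α x) / a * (z (t, α x) - z (t, x))) =
          (qq γ r z (t, α x) - qq γ r z (t, x)) -
            (γ - 1) * z (t, x) * (r (t, α x) - r (t, x)) := by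
        simp only [qq, pr, hκ]
        field_simp
        ring
      obtain ⟨b11, b12, b13, b14, b15⟩ := b1
      obtain ⟨b21, b22, b23, b24, b25⟩ := b2
      have i2 : κ * |z (t, α x) - z (t, x)| ≤
          |κ * (r (t, α x) / a * (z (t, α x) - z (t, x)))| := by
        rw [abs_mul, abs_of_pos hκ0, abs_mul]
        apply mul_le_mul_of_nonneg_left _ hκ0.le
        have : 1 ≤ |r (t, α x) / a| := by
          rw [abs_of_pos (div_pos (ha.trans_le b21) ha), le_div_iff₀ ha]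
          linarith
        exact le_mul_of_one_le_left (abs_nonneg _) this
      have i3 : |κ * (r (t, α x) / a * (z (t, α x) - z (t, x)))| ≤
          Kq * δ + (γ - 1) * b * |r (t, α x) - r (t, x)| := by
        rw [i1]
        refine (abs_sub _ _).trans ?_
        apply add_le_add f2
        rw [abs_mul, abs_mul, abs_of_pos hg1, abs_of_pos (ha.trans_le b14)]
        apply mul_le_mul_of_nonneg_right _ (abs_nonneg _)
        exact mul_le_mul_of_nonneg_left b15 hg1.le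
      have i4 := i2.trans i3
      have i5 : |z (t, α x) - z (t, x)| ≤
          (Kq * δ + (γ - 1) * b * |r (t, α x) - r (t, x)|) / κ := by
        rw [le_div_iff₀ hκ0]; linarith
      refine i5.trans (le_of_eq ?_)
      rw [add_div]
      congr 1
      rw [hκ]; field_simp
    have hba : 0 ≤ b / a := by positivity
    have fin : |r (t, α x) - r (t, x)| + |w (t, α x) - w (t, x)| + |z (t, α x) - z (t, x)| ≤
        C1 * (θ1 * |(c (Φb (t, α x)))⁻¹ - (c (Φb (t, x)))⁻¹| + c₀⁻¹ * (Kt * δ)) +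
          Kw * δ + Kq * δ / κ := by
      have j1 := mul_le_mul_of_nonneg_left dr hC10.le
      have j2 : C1 * |r (t, α x) - r (t, x)| =
        |r (t, α x) - r (t, x)| + b / a * |r (t, α x) - r (t, x)| := by rw [hC1]; ring
      linarith
    refine fin.trans (le_of_eq ?_)
    rw [hC2]
    ring
  refine hle.trans_lt ?_
  rw [integral_add (hint.const_mul _) (integrableOn_const (by simp)), integral_const_mul,
    setIntegral_const, Real.volume_real_Ioo_of_le (by linarith), smul_eq_mul]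
  have k1 : C1 * θ1 * ∫ x in Ioo (-R) R, |(c (Φb (t, α x)))⁻¹ - (c (Φb (t, x)))⁻¹| ≤
      C1 * θ1 * (ε / (2 * (C1 * θ1 + 1))) :=
    mul_le_mul_of_nonneg_left hmain.le (by positivity)
  have k2 : C1 * θ1 * (ε / (2 * (C1 * θ1 + 1))) < ε / 2 := by
    have : 0 ≤ C1 * θ1 := by positivity
    rw [mul_div_assoc', div_lt_div_iff₀ (by positivity) (by norm_num)]
    nlinarith
  have k3 : (R - -R) * (C2 * δ) ≤ ε / 2 := by
    have h1 : δ * (4 * R * (C2 + 1)) ≤ ε := by
      rw [le_div_iff₀ (by positivity)] at hδc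
      exact hδc
    nlinarith [mul_nonneg hδ0.le hR.le]
  linarith

theorem base_modulus {γ T a b L : ℝ} {r w z : ℝ × ℝ → ℝ} {r₀ w₀ z₀ : ℝ → ℝ}
    (hγ : 1 < γ) (hT : 0 < T) (ha : 0 < a) (hV : IsBase γ T a b L r w z r₀ w₀ z₀)
    {A R T' ε : ℝ} (hA : 0 < A) (hR : 0 < R) (hT' : 0 < T') (hTT : T' < T) (hε : 0 < ε) :
    ∃ δ : ℝ, 0 < δ ∧ ∀ᵐ t : ℝ, t ∈ Ioo 0 T' → ∀ α : ℝ → ℝ,
      (∀ x y, x ≤ y → A * (y - x) ≤ α y - α x) → (∀ x ∈ Ioo (-R) R, |α x - x| ≤ δ) →
      dist1 R (fun x => r (t, α x)) (fun x => w (t, α x)) (fun x => z (t, α x))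
        (sl r t) (sl w t) (sl z t) < ε := by
  have hA' : 0 < min A 1 := lt_min hA one_pos
  obtain ⟨τ, δ1, hτ, hδ1, H1⟩ := mod_small ha hV hA' (min_le_right _ _) hR hε
  obtain ⟨δ2, hδ2, H2⟩ := mod_large hγ hT ha hV hA' (min_le_right _ _) hR hτ hTT hε
  refine ⟨min δ1 δ2, lt_min hδ1 hδ2, ?_⟩
  filter_upwards [H1, H2] with t h1 h2 ht α hα hδ
  have htT : t ∈ Ioo 0 T := ⟨ht.1, ht.2.trans hTT⟩
  have hα' : ∀ x y, x ≤ y → min A 1 * (y - x) ≤ α y - α x := by
    intro x y hxy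
    refine le_trans ?_ (hα x y hxy)
    exact mul_le_mul_of_nonneg_right (min_le_left _ _) (by linarith)
  rcases lt_or_ge t τ with h | h
  · exact h1 htT h α hα' (fun x hx => (hδ x hx).trans (min_le_left _ _))
  · exact h2 htT h ht.2.le α hα' (fun x hx => (hδ x hx).trans (min_le_right _ _))

end Helper73.EU
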