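import Pool.Agent.Helper73.EU.LipLaw
import Pool.Agent.Helper73.EU.Bounds

/-!
EU-06. The equations of the base solution hold almost everywhere.

PROOF. `q ζ = pr γ (r ζ) (z ζ)`. Let `φ` be a smooth test. `w`, `q` are continuous on the strip, so
`|w| ≤ b`, and `q` is between positive constants, everywhere on the strip (only the a.e. bounds are
needed below). Test functions `φ w`, `φ w^2/2`, `φ q`, `φ (q w)` are Lipschitz tests
(`IsLipTest.mul_loc`, `locLip_mul`), a.e. product rule (`ae_differentiableAt`, `dt_mul`, `dx_mul`).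
(M) momentum law with `φ`, minus mass law with the test `φ w`:
`∫ q φ_x - φ r (w_t + w w_x) = 0`; and `∫ dx (φ q) = 0` (`IsLipTest.integral_dx`), so
`∫ φ (r (w_t + w w_x) + q_x) = 0` for all `φ`, hence the first identity (`ae_zero_of_test`; the function
is locally integrable on the strip: near each point `w`, `q` agree with globally Lipschitz functions
(`exists_ext`), whose `dt`, `dx` are bounded).
(E) `ρ E = q/(γ-1) + r w^2/2`, energy law with `φ`, minus mass law with the test `φ w^2/2`: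
`∫ q/(γ-1) φ_t + γ/(γ-1) q w φ_x - φ r w (w_t + w w_x) = 0`. By the first identity the last term is
`+ φ w q_x`. Integrating by parts (`∫ dt (φ q) = 0`, `∫ dx (φ (q w)) = 0`):
`∫ φ (-(q_t)/(γ-1) - γ/(γ-1) (q w)_x + w q_x) = 0`, so `q_t + w q_x + γ q w_x = 0` a.e.
-/

open MeasureTheory Set Filter Topology
open scoped ContDiff NNReal

namespace Helper73.EU

/-- The pressure of the base. -/
noncomputable def qq (γ : ℝ) (r z : ℝ × ℝ → ℝ) : ℝ × ℝ → ℝ := fun ζ => pr γ (r ζ) (z ζ)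

/-- Locally bounded derivatives. -/
private theorem eu6_loc {T : ℝ} {g : ℝ × ℝ → ℝ} (hg : LocallyLipschitzOn (Strip T) g)
    {ζ : ℝ × ℝ} (hζ : ζ ∈ Strip T) : ∃ (O : Set (ℝ × ℝ)) (K : ℝ), IsOpen O ∧ ζ ∈ O ∧
      O ⊆ Strip T ∧ ∀ y ∈ O, |g y| ≤ K ∧ |dt g y| ≤ K ∧ |dx g y| ≤ K := by
  obtain ⟨g', K, hg', O, hO, hSO, hOT, hEq⟩ := exists_ext hg (isCompact_singleton (x := ζ))
    (singleton_subset_iff.2 hζ)
  refine ⟨O ∩ Metric.ball ζ 1, max (|g ζ| + K) K, hO.inter Metric.isOpen_ball,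
    ⟨hSO rfl, Metric.mem_ball_self one_pos⟩, fun y hy => hOT hy.1, ?_⟩
  intro y hy
  refine ⟨?_, ?_, ?_⟩
  · refine le_trans ?_ (le_max_left _ _)
    have h1 := hg'.dist_le_mul y ζ
    rw [hEq y hy.1, hEq ζ (hSO rfl), Real.dist_eq] at h1
    have h2 : dist y ζ ≤ 1 := (Metric.mem_ball.1 hy.2).le
    have h3 : (K : ℝ) * dist y ζ ≤ K * 1 := mul_le_mul_of_nonneg_left h2 K.2
    have h4 := abs_sub_abs_le_abs_sub (g y) (g ζ)
    linarith
  · rw [← dt_congr hO hEq hy.1]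
    exact (abs_dt_le hg' y).trans (le_max_right _ _)
  · rw [← dx_congr hO hEq hy.1]
    exact (abs_dx_le hg' y).trans (le_max_right _ _)

/-- A measurable locally bounded function is locally integrable. -/
private theorem eu6_int {T : ℝ} {F : ℝ × ℝ → ℝ} (hF : Measurable F)
    (h : ∀ ζ ∈ Strip T, ∃ (O : Set (ℝ × ℝ)) (K : ℝ), IsOpen O ∧ ζ ∈ O ∧
      ∀ᵐ y : ℝ × ℝ, y ∈ O → y ∈ Strip T → |F y| ≤ K) : LocallyIntegrableOn F (Strip T) := by
  intro ζ hζ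
  obtain ⟨O, K, hO, hζO, hK⟩ := h ζ hζ
  refine ⟨Strip T ∩ (O ∩ Metric.ball ζ 1), ?_, ?_⟩
  · exact inter_mem_nhdsWithin _ ((hO.inter Metric.isOpen_ball).mem_nhds
      ⟨hζO, Metric.mem_ball_self one_pos⟩)
  · apply Measure.integrableOn_of_bounded (M := K) _ hF.aestronglyMeasurable
    · rw [ae_restrict_iff' ((measurableSet_strip T).inter
        (hO.inter Metric.isOpen_ball).measurableSet)]
      filter_upwards [hK] with y hy hyS
      rw [Real.norm_eq_abs]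
      exact hy hyS.2.1 hyS.1
    · exact ((measure_mono (fun y hy => hy.2.2)).trans_lt measure_ball_lt_top).ne

/-- A closed condition which holds almost everywhere holds everywhere. -/
private theorem eu6_le {T c : ℝ} {g : ℝ × ℝ → ℝ} (hg : ContinuousOn g (Strip T))
    (h : ∀ᵐ ζ : ℝ × ℝ, ζ ∈ Strip T → g ζ ≤ c) : ∀ ζ ∈ Strip T, g ζ ≤ c := by
  intro ζ hζ
  by_contra hcon
  push Not at hcon
  have hO : IsOpen (Strip T ∩ g ⁻¹' Ioi c) := hg.isOpen_inter_preimage (isOpen_strip T) isOpen_Ioi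
  have hpos := hO.measure_pos (volume : Measure (ℝ × ℝ)) ⟨ζ, hζ, hcon⟩
  have hzero : volume (Strip T ∩ g ⁻¹' Ioi c) = 0 := by
    refine measure_mono_null ?_ (ae_iff.1 h)
    rintro y ⟨hy, hy2⟩ hy3
    exact absurd (hy3 hy) (not_le.2 hy2)
  exact hpos.ne' hzero

/-- The weak form of the momentum equation. -/
private theorem eu6_mom {γ T a b : ℝ} {r w z : ℝ × ℝ → ℝ} (hγ : 1 < γ) (ha : 0 < a)
    (hV : IsSol γ T a b r w z) (hw : LocallyLipschitzOn (Strip T) w)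
    (hq : LocallyLipschitzOn (Strip T) (qq γ r z)) (φ : ℝ × ℝ → ℝ) (hφ : IsTest T φ) :
    ∫ ζ in Strip T, (r ζ * (dt w ζ + w ζ * dx w ζ) + dx (qq γ r z) ζ) * φ ζ = 0 := by
  obtain ⟨M, hM, hbd⟩ := exists_bound (b := b) hγ ha
  have hbox : ∀ᵐ ζ : ℝ × ℝ, ζ ∈ Strip T → |r ζ| ≤ M ∧ |r ζ * w ζ| ≤ M ∧
      |r ζ * w ζ ^ 2 + pr γ (r ζ) (z ζ)| ≤ M := by
    filter_upwards [hV.box] with ζ hζ hζT
    obtain ⟨h1, h2, h3, _⟩ := hbd _ _ _ (hζ hζT)
    exact ⟨h1, h2, h3⟩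
  have hr := hV.meas_ρ
  have hwm := hV.meas_u
  have hzm := hV.meas_e
  have hpm : Measurable (fun ζ => pr γ (r ζ) (z ζ)) := measurable_pr hr hzm
  have hL := hφ.isLipTest
  have hφw : IsLipTest T (fun ζ => φ ζ * w ζ) := hL.mul_loc hw
  have hφq : IsLipTest T (fun ζ => φ ζ * qq γ r z ζ) := hL.mul_loc hq
  have e1 : ∀ᵐ ζ : ℝ × ℝ, ζ ∈ Strip T → |r ζ| ≤ M := by
    filter_upwards [hbox] with ζ hζ hζT using (hζ hζT).1
  have e2 : ∀ᵐ ζ : ℝ × ℝ, ζ ∈ Strip T → |r ζ * w ζ| ≤ M := by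
    filter_upwards [hbox] with ζ hζ hζT using (hζ hζT).2.1
  have e3 : ∀ᵐ ζ : ℝ × ℝ, ζ ∈ Strip T → |r ζ * w ζ ^ 2 + pr γ (r ζ) (z ζ)| ≤ M := by
    filter_upwards [hbox] with ζ hζ hζT using (hζ hζT).2.2
  -- the three integrals
  have I1 := hV.momentum φ hφ
  have I2 := hV.mass.lip hr (hr.mul hwm) e1 e2 hφw
  have I3 := hφq.integral_dx
  have J1 : IntegrableOn (fun ζ => r ζ * w ζ * dt φ ζ +
      (r ζ * w ζ ^ 2 + pr γ (r ζ) (z ζ)) * dx φ ζ) (Strip T) :=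
    (hL.integrableOn_dt (hr.mul hwm) e2).add
      (hL.integrableOn_dx ((hr.mul (hwm.pow_const 2)).add hpm) e3)
  have J2 : IntegrableOn (fun ζ => r ζ * dt (fun ζ => φ ζ * w ζ) ζ +
      r ζ * w ζ * dx (fun ζ => φ ζ * w ζ) ζ) (Strip T) :=
    (hφw.integrableOn_dt hr e1).add (hφw.integrableOn_dx (hr.mul hwm) e2)
  have J3 : IntegrableOn (fun ζ => dx (fun ζ => φ ζ * qq γ r z ζ) ζ) (Strip T) := by
    have h1 := hφq.integrableOn_dx (F := fun _ => (1 : ℝ)) (M := 1) measurable_const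
      (Eventually.of_forall fun ζ _ => by simp)
    simpa using h1
  have hsum := integral_add (J2.sub J1) J3
  have hsub := integral_sub J2 J1
  have hdφ : ∀ ζ, DifferentiableAt ℝ φ ζ := fun ζ =>
    (hφ.smooth.differentiable (by simp)).differentiableAt
  have key : ∫ ζ in Strip T, (r ζ * (dt w ζ + w ζ * dx w ζ) + dx (qq γ r z) ζ) * φ ζ =
      ∫ ζ in Strip T, ((r ζ * dt (fun ζ => φ ζ * w ζ) ζ +
      r ζ * w ζ * dx (fun ζ => φ ζ * w ζ) ζ) - (r ζ * w ζ * dt φ ζ +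
      (r ζ * w ζ ^ 2 + pr γ (r ζ) (z ζ)) * dx φ ζ)) + dx (fun ζ => φ ζ * qq γ r z ζ) ζ := by
    apply setIntegral_congr_ae (measurableSet_strip T)
    filter_upwards [ae_differentiableAt hw, ae_differentiableAt hq] with ζ h1 h2 hζ
    rw [dt_mul (hdφ ζ) (h1 hζ), dx_mul (hdφ ζ) (h1 hζ), dx_mul (hdφ ζ) (h2 hζ)]
    have hqz : qq γ r z ζ = pr γ (r ζ) (z ζ) := rfl
    rw [hqz]
    ring
  rw [key]
  simp only [Pi.sub_apply] at hsum
  rw [hsum, hsub, I1, I2, I3]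
  ring

/-- The weak form of the pressure equation. -/
private theorem eu6_ene {γ T a b : ℝ} {r w z : ℝ × ℝ → ℝ} (hγ : 1 < γ) (ha : 0 < a)
    (hV : IsSol γ T a b r w z) (hw : LocallyLipschitzOn (Strip T) w)
    (hq : LocallyLipschitzOn (Strip T) (qq γ r z))
    (hmom : ∀ᵐ ζ : ℝ × ℝ, ζ ∈ Strip T →
      r ζ * (dt w ζ + w ζ * dx w ζ) + dx (qq γ r z) ζ = 0)
    (φ : ℝ × ℝ → ℝ) (hφ : IsTest T φ) :
    ∫ ζ in Strip T, (dt (qq γ r z) ζ + w ζ * dx (qq γ r z) ζ + γ * qq γ r z ζ * dx w ζ) * φ ζ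
      = 0 := by
  obtain ⟨M, hM, hbd⟩ := exists_bound (b := b) hγ ha
  have hr := hV.meas_ρ
  have hwm := hV.meas_u
  have hzm := hV.meas_e
  have hpm : Measurable (fun ζ => pr γ (r ζ) (z ζ)) := measurable_pr hr hzm
  have hem : Measurable (fun ζ => en (w ζ) (z ζ)) := measurable_en hwm hzm
  have hL := hφ.isLipTest
  have hww : LocallyLipschitzOn (Strip T) (fun ζ => w ζ * w ζ) := locLip_mul hw hw
  have hqw : LocallyLipschitzOn (Strip T) (fun ζ => qq γ r z ζ * w ζ) := locLip_mul hq hw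
  have hφw : IsLipTest T (fun ζ => φ ζ * (w ζ * w ζ)) := hL.mul_loc hww
  have hφq : IsLipTest T (fun ζ => φ ζ * qq γ r z ζ) := hL.mul_loc hq
  have hφqw : IsLipTest T (fun ζ => φ ζ * (qq γ r z ζ * w ζ)) := hL.mul_loc hqw
  have e1 : ∀ᵐ ζ : ℝ × ℝ, ζ ∈ Strip T → |r ζ| ≤ M := by
    filter_upwards [hV.box] with ζ hζ hζT using (hbd _ _ _ (hζ hζT)).1
  have e2 : ∀ᵐ ζ : ℝ × ℝ, ζ ∈ Strip T → |r ζ * w ζ| ≤ M := by
    filter_upwards [hV.box] with ζ hζ hζT using (hbd _ _ _ (hζ hζT)).2.1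
  have e4 : ∀ᵐ ζ : ℝ × ℝ, ζ ∈ Strip T → |r ζ * en (w ζ) (z ζ)| ≤ M := by
    filter_upwards [hV.box] with ζ hζ hζT using (hbd _ _ _ (hζ hζT)).2.2.2.1
  have e5 : ∀ᵐ ζ : ℝ × ℝ, ζ ∈ Strip T →
      |r ζ * en (w ζ) (z ζ) * w ζ + pr γ (r ζ) (z ζ) * w ζ| ≤ M := by
    filter_upwards [hV.box] with ζ hζ hζT using (hbd _ _ _ (hζ hζT)).2.2.2.2.1
  have I1 := hV.energy φ hφ
  have I2 := hV.mass.lip hr (hr.mul hwm) e1 e2 hφw
  have I3 := hφq.integral_dt
  have I4 := hφqw.integral_dx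
  have J1 : IntegrableOn (fun ζ => r ζ * en (w ζ) (z ζ) * dt φ ζ +
      (r ζ * en (w ζ) (z ζ) * w ζ + pr γ (r ζ) (z ζ) * w ζ) * dx φ ζ) (Strip T) :=
    (hL.integrableOn_dt (hr.mul hem) e4).add
      (hL.integrableOn_dx (((hr.mul hem).mul hwm).add (hpm.mul hwm)) e5)
  have J2 : IntegrableOn (fun ζ => r ζ * dt (fun ζ => φ ζ * (w ζ * w ζ)) ζ +
      r ζ * w ζ * dx (fun ζ => φ ζ * (w ζ * w ζ)) ζ) (Strip T) :=
    (hφw.integrableOn_dt hr e1).add (hφw.integrableOn_dx (hr.mul hwm) e2)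
  have J3 : IntegrableOn (fun ζ => dt (fun ζ => φ ζ * qq γ r z ζ) ζ) (Strip T) := by
    have h1 := hφq.integrableOn_dt (F := fun _ => (1 : ℝ)) (M := 1) measurable_const
      (Eventually.of_forall fun ζ _ => by simp)
    simpa using h1
  have J4 : IntegrableOn (fun ζ => dx (fun ζ => φ ζ * (qq γ r z ζ * w ζ)) ζ) (Strip T) := by
    have h1 := hφqw.integrableOn_dx (F := fun _ => (1 : ℝ)) (M := 1) measurable_const
      (Eventually.of_forall fun ζ _ => by simp)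
    simpa using h1
  have hdφ : ∀ ζ, DifferentiableAt ℝ φ ζ := fun ζ =>
    (hφ.smooth.differentiable (by simp)).differentiableAt
  have key : ∫ ζ in Strip T,
      (dt (qq γ r z) ζ + w ζ * dx (qq γ r z) ζ + γ * qq γ r z ζ * dx w ζ) * φ ζ =
      ∫ ζ in Strip T, ((dt (fun ζ => φ ζ * qq γ r z ζ) ζ +
        γ * dx (fun ζ => φ ζ * (qq γ r z ζ * w ζ)) ζ) +
        (γ - 1) * ((1 / 2) * (r ζ * dt (fun ζ => φ ζ * (w ζ * w ζ)) ζ +
          r ζ * w ζ * dx (fun ζ => φ ζ * (w ζ * w ζ)) ζ) -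
          (r ζ * en (w ζ) (z ζ) * dt φ ζ +
          (r ζ * en (w ζ) (z ζ) * w ζ + pr γ (r ζ) (z ζ) * w ζ) * dx φ ζ))) := by
    apply setIntegral_congr_ae (measurableSet_strip T)
    filter_upwards [ae_differentiableAt hw, ae_differentiableAt hq, hmom] with ζ h1 h2 h3 hζ
    have d1 := h1 hζ
    have d2 := h2 hζ
    have dww : DifferentiableAt ℝ (fun ζ => w ζ * w ζ) ζ := d1.mul d1
    have dqw : DifferentiableAt ℝ (fun ζ => qq γ r z ζ * w ζ) ζ := d2.mul d1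
    rw [dt_mul (hdφ ζ) dww, dx_mul (hdφ ζ) dww, dt_mul d1 d1, dx_mul d1 d1,
      dt_mul (hdφ ζ) d2, dx_mul (hdφ ζ) dqw, dx_mul d2 d1]
    have hqz : qq γ r z ζ = (γ - 1) * r ζ * z ζ := rfl
    have hpz : pr γ (r ζ) (z ζ) = (γ - 1) * r ζ * z ζ := rfl
    have hez : en (w ζ) (z ζ) = z ζ + w ζ ^ 2 / 2 := rfl
    have h4 := h3 hζ
    rw [hqz, hpz, hez]
    linear_combination (-(γ - 1) * φ ζ * w ζ) * h4
  rw [key]
  have K1 := J3.add (J4.const_mul γ)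
  have K2 := ((J2.const_mul (1 / 2)).sub J1).const_mul (γ - 1)
  have s1 := integral_add K1 K2
  have s2 := integral_add J3 (J4.const_mul γ)
  have s3 := integral_sub (J2.const_mul (1 / 2)) J1
  simp only [Pi.add_apply, Pi.sub_apply] at s1 s2 s3
  rw [s1, s2, integral_const_mul, integral_const_mul, s3, integral_const_mul, I1, I2, I3, I4]
  ring

theorem base_pde {γ T a b : ℝ} {r w z : ℝ × ℝ → ℝ} (hγ : 1 < γ) (ha : 0 < a)
    (hV : IsSol γ T a b r w z) (hw : LocallyLipschitzOn (Strip T) w)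
    (hq : LocallyLipschitzOn (Strip T) (qq γ r z)) :
    ∀ᵐ ζ : ℝ × ℝ, ζ ∈ Strip T →
      r ζ * (dt w ζ + w ζ * dx w ζ) + dx (qq γ r z) ζ = 0 ∧
      dt (qq γ r z) ζ + w ζ * dx (qq γ r z) ζ + γ * qq γ r z ζ * dx w ζ = 0 := by
  have hmeas_w := measurable_dt w
  have hr := hV.meas_ρ
  have hwm := hV.meas_u
  have hzm := hV.meas_e
  have hqm : Measurable (qq γ r z) := measurable_pr hr hzm
  have hrb : ∀ᵐ ζ : ℝ × ℝ, ζ ∈ Strip T → |r ζ| ≤ |b| := by
    filter_upwards [hV.box] with ζ hζ hζT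
    obtain ⟨h1, h2, _⟩ := hζ hζT
    have h3 : 0 ≤ r ζ := ha.le.trans h1
    rw [abs_of_nonneg h3]
    exact h2.trans (le_abs_self b)
  have h1 : ∀ᵐ ζ : ℝ × ℝ, ζ ∈ Strip T →
      r ζ * (dt w ζ + w ζ * dx w ζ) + dx (qq γ r z) ζ = 0 := by
    refine ae_zero_of_test (eu6_int ?_ ?_) (eu6_mom hγ ha hV hw hq)
    · exact (hr.mul ((measurable_dt w).add (hwm.mul (measurable_dx w)))).add (measurable_dx _)
    · intro ζ hζ
      obtain ⟨O, K, hO, hζO, hOT, hK⟩ := eu6_loc hw hζ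
      obtain ⟨O', K', hO', hζO', hOT', hK'⟩ := eu6_loc hq hζ
      refine ⟨O ∩ O', |b| * (K + K * K) + K', hO.inter hO', ⟨hζO, hζO'⟩, ?_⟩
      filter_upwards [hrb] with y hy hyO hyT
      obtain ⟨g1, g2, g3⟩ := hK y hyO.1
      obtain ⟨g4, g5, g6⟩ := hK' y hyO.2
      have g7 := hy hyT
      have hK0 : 0 ≤ K := (abs_nonneg _).trans g1
      calc |r y * (dt w y + w y * dx w y) + dx (qq γ r z) y|
          ≤ |r y * (dt w y + w y * dx w y)| + |dx (qq γ r z) y| := abs_add_le _ _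
        _ ≤ |b| * (K + K * K) + K' := by
          refine add_le_add ?_ g6
          rw [abs_mul]
          refine mul_le_mul g7 ?_ (abs_nonneg _) (abs_nonneg _)
          refine (abs_add_le _ _).trans (add_le_add g2 ?_)
          rw [abs_mul]
          exact mul_le_mul g1 g3 (abs_nonneg _) hK0
  have h2 : ∀ᵐ ζ : ℝ × ℝ, ζ ∈ Strip T →
      dt (qq γ r z) ζ + w ζ * dx (qq γ r z) ζ + γ * qq γ r z ζ * dx w ζ = 0 := by
    refine ae_zero_of_test (eu6_int ?_ ?_) (eu6_ene hγ ha hV hw hq h1)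
    · exact ((measurable_dt _).add (hwm.mul (measurable_dx _))).add
        ((hqm.const_mul γ).mul (measurable_dx w))
    · intro ζ hζ
      obtain ⟨O, K, hO, hζO, hOT, hK⟩ := eu6_loc hw hζ
      obtain ⟨O', K', hO', hζO', hOT', hK'⟩ := eu6_loc hq hζ
      refine ⟨O ∩ O', K' + K * K' + |γ| * K' * K, hO.inter hO', ⟨hζO, hζO'⟩, ?_⟩
      refine Eventually.of_forall fun y hyO hyT => ?_
      obtain ⟨g1, g2, g3⟩ := hK y hyO.1
      obtain ⟨g4, g5, g6⟩ := hK' y hyO.2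
      have hK0 : 0 ≤ K := (abs_nonneg _).trans g1
      have hK0' : 0 ≤ K' := (abs_nonneg _).trans g4
      refine (abs_add_le _ _).trans (add_le_add ((abs_add_le _ _).trans (add_le_add g5 ?_)) ?_)
      · rw [abs_mul]
        exact mul_le_mul g1 g6 (abs_nonneg _) hK0
      · rw [abs_mul, abs_mul]
        exact mul_le_mul (mul_le_mul_of_nonneg_left g4 (abs_nonneg _)) g3 (abs_nonneg _)
          (mul_nonneg (abs_nonneg _) hK0')
  filter_upwards [h1, h2] with ζ g1 g2 hζ using ⟨g1 hζ, g2 hζ⟩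

/-- The pressure is between positive constants everywhere on the strip, the velocity is bounded by
`b` everywhere on the strip (continuity; a full measure set is dense in the open strip). -/
theorem base_bounds {γ T a b : ℝ} {r w z : ℝ × ℝ → ℝ} (hγ : 1 < γ) (ha : 0 < a)
    (hV : IsSol γ T a b r w z) (hw : LocallyLipschitzOn (Strip T) w)
    (hq : LocallyLipschitzOn (Strip T) (qq γ r z)) :
    ∀ ζ ∈ Strip T, |w ζ| ≤ b ∧ (γ - 1) * a * a ≤ qq γ r z ζ ∧ qq γ r z ζ ≤ (γ - 1) * b * b := by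
  have hwc : ContinuousOn w (Strip T) := hw.continuousOn
  have hqc : ContinuousOn (qq γ r z) (Strip T) := hq.continuousOn
  have hγ0 : 0 < γ - 1 := by linarith
  have key : ∀ᵐ ζ : ℝ × ℝ, ζ ∈ Strip T →
      (γ - 1) * a * a ≤ qq γ r z ζ ∧ qq γ r z ζ ≤ (γ - 1) * b * b := by
    filter_upwards [hV.box] with ζ hζ hζT
    obtain ⟨h1, h2, _, h4, h5⟩ := hζ hζT
    have h6 : a * a ≤ r ζ * z ζ := mul_le_mul h1 h4 ha.le (ha.le.trans h1)
    have h7 : r ζ * z ζ ≤ b * b := mul_le_mul h2 h5 (ha.le.trans h4) ((ha.le.trans h1).trans h2)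
    have hqz : qq γ r z ζ = (γ - 1) * (r ζ * z ζ) := by
      change (γ - 1) * r ζ * z ζ = _
      ring
    rw [hqz, mul_assoc, mul_assoc]
    exact ⟨mul_le_mul_of_nonneg_left h6 hγ0.le, mul_le_mul_of_nonneg_left h7 hγ0.le⟩
  intro ζ hζ
  refine ⟨?_, ?_, ?_⟩
  · refine eu6_le (g := fun ζ => |w ζ|) hwc.abs ?_ ζ hζ
    filter_upwards [hV.box] with ζ hζ hζT using (hζ hζT).2.2.1
  · have h := eu6_le (g := fun ζ => - qq γ r z ζ) (c := -((γ - 1) * a * a)) hqc.neg ?_ ζ hζ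
    · linarith
    · filter_upwards [key] with ζ hζ hζT
      linarith [(hζ hζT).1]
  · refine eu6_le hqc ?_ ζ hζ
    filter_upwards [key] with ζ hζ hζT using (hζ hζT).2

end Helper73.EU
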