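import Pool.Agent.Helper73.EU.Gron

/-!
EU-12b. From the differential inequality to the estimate on cones.

PROOF. Let `η, Q` be measurable with `0 ≤ η ≤ B`, `|Q| ≤ C η` a.e. on the strip and
`-(C') ∫ φ η ≤ ∫ (η dt φ + Q dx φ)` for every Lipschitz test `φ ≥ 0`. Let `R1 = R + C T` and
`ζ (t, x) = max 0 (min 1 (R1 + 1 - |x| - C t))`, Lipschitz on the plane; `ζ = 1` for `|x| ≤ R`, `t ≤ T`, `ζ = 0` for
`|x| ≥ R1 + 1`, `t ≥ 0`. At a point of differentiability `dt ζ ≤ -C |dx ζ|`: for `h > 0`,
`ζ (t + h, x) ≤ ζ (t, x ± C h)` (because `|x ± C h| ≤ |x| + C h`), difference quotients. So a.e.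
`η dt ζ + Q dx ζ ≤ 0`.
For `θ : ℝ → ℝ` Lipschitz, `θ ≥ 0`, with compact support in `(0, T)`, the function
`φ (t, x) = exp (-(C' t)) θ t ζ (t, x)` is a Lipschitz test, a.e.
`dt φ = exp (-(C' t)) (deriv θ t ζ - C' θ ζ + θ dt ζ)`, `dx φ = exp (..) θ dx ζ`, so
`∫ η exp(-(C' t)) deriv θ(t) ζ ≥ 0`, that is `∫ deriv θ(t) Z(t) dt ≥ 0`, `Z t = exp(-(C' t)) ∫ x, η ζ (t, x)`
(Fubini; for `t ∉ (0, T)` define `Z t = 0`). `gron` (Gron.lean): `Z t ≤ Z s` for a.e. `s < t`.
Finally `∫_{Ioo (-R) R} η (t, x) ≤ ∫ η ζ (t, x)` and `∫ η ζ (s, x) ≤ ∫_{Ioo (-(R1+1)) (R1+1)} η (s, x)`.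
-/

open MeasureTheory Set Filter Topology
open scoped ContDiff NNReal

namespace Helper73.EU

/-- The cut-off. -/
private noncomputable def eccut (P C : ℝ) (z : ℝ × ℝ) : ℝ := max 0 (min 1 (P + 1 - |z.2| - C * z.1))

private theorem eccut_nonneg (P C : ℝ) (z : ℝ × ℝ) : 0 ≤ eccut P C z := le_max_left _ _

private theorem eccut_le_one (P C : ℝ) (z : ℝ × ℝ) : eccut P C z ≤ 1 :=
  max_le zero_le_one (min_le_left _ _)

private theorem eccut_abs (P C : ℝ) (z : ℝ × ℝ) : |eccut P C z| ≤ 1 := by
  rw [abs_of_nonneg (eccut_nonneg P C z)]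
  exact eccut_le_one P C z

private theorem eccut_lip (P : ℝ) {C : ℝ} (hC : 0 ≤ C) (z z' : ℝ × ℝ) :
    |eccut P C z - eccut P C z'| ≤ (1 + C) * dist z z' := by
  have h1 : |z.2 - z'.2| ≤ dist z z' := by
    rw [← Real.dist_eq]; exact le_max_right _ _
  have h2 : |z.1 - z'.1| ≤ dist z z' := by
    rw [← Real.dist_eq]; exact le_max_left _ _
  have h3 : |max 0 (min 1 (P + 1 - |z.2| - C * z.1)) - max 0 (min 1 (P + 1 - |z'.2| - C * z'.1))| ≤
      |(P + 1 - |z.2| - C * z.1) - (P + 1 - |z'.2| - C * z'.1)| := by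
    have hl : LipschitzWith 1 (fun x : ℝ => max 0 (min 1 x)) :=
      (LipschitzWith.id.const_min 1).const_max 0
    have := hl.dist_le_mul (P + 1 - |z.2| - C * z.1) (P + 1 - |z'.2| - C * z'.1)
    rw [Real.dist_eq, Real.dist_eq, NNReal.coe_one, one_mul] at this
    exact this
  refine h3.trans ?_
  have h4 : (P + 1 - |z.2| - C * z.1) - (P + 1 - |z'.2| - C * z'.1) =
      -(|z.2| - |z'.2|) - C * (z.1 - z'.1) := by ring
  rw [h4]
  have h5 : |-(|z.2| - |z'.2|) - C * (z.1 - z'.1)| ≤ |(|z.2| - |z'.2|)| + |C * (z.1 - z'.1)| := by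
    refine (abs_sub _ _).trans ?_
    rw [abs_neg]
  refine h5.trans ?_
  rw [abs_mul, abs_of_nonneg hC]
  have h6 := abs_abs_sub_abs_le_abs_sub z.2 z'.2
  have h7 : C * |z.1 - z'.1| ≤ C * dist z z' := mul_le_mul_of_nonneg_left h2 hC
  linarith

private theorem eccut_lipschitz (P : ℝ) {C : ℝ} (hC : 0 ≤ C) :
    LipschitzWith (⟨1 + C, by linarith⟩ : ℝ≥0) (eccut P C) :=
  LipschitzWith.of_dist_le_mul fun z z' => by
    rw [Real.dist_eq]
    exact eccut_lip P hC z z'

private theorem eccut_mono (P : ℝ) {C : ℝ} (t x h s : ℝ) (hs : |s| ≤ C * h) :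
    eccut P C (t + h, x) ≤ eccut P C (t, x + s) := by
  unfold eccut
  apply max_le_max le_rfl
  apply min_le_min le_rfl
  simp only
  have h1 : |x + s| ≤ |x| + |s| := abs_add_le _ _
  nlinarith

/-- The directional derivatives of the cut-off. -/
private theorem eccut_deriv (P : ℝ) {C : ℝ} (hC : 0 ≤ C) {z : ℝ × ℝ}
    (hz : DifferentiableAt ℝ (eccut P C) z) (σ : ℝ) (hσ : |σ| ≤ 1) :
    dt (eccut P C) z ≤ C * σ * dx (eccut P C) z := by
  set f' := fderiv ℝ (eccut P C) z with hf'
  have hd : HasFDerivAt (eccut P C) f' z := hz.hasFDerivAt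
  have h1 : ∀ v : ℝ × ℝ, HasDerivAt (fun h : ℝ => eccut P C (z + h • v)) (f' v) 0 := by
    intro v
    have hl : HasDerivAt (fun h : ℝ => z + h • v) v 0 := by
      have h0 : HasDerivAt (fun h : ℝ => h • v) ((1 : ℝ) • v) 0 := (hasDerivAt_id (0 : ℝ)).smul_const v
      rw [one_smul] at h0
      exact h0.const_add z
    have hd' : HasFDerivAt (eccut P C) f' (z + (0 : ℝ) • v) := by
      rw [zero_smul, add_zero]; exact hd
    exact hd'.comp_hasDerivAt (0 : ℝ) hl
  have h2 := (h1 (1, 0)).sub (h1 (0, C * σ))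
  have h3 := h2.tendsto_slope_zero_right
  have h4 : f' (1, 0) - f' (0, C * σ) ≤ 0 := by
    refine le_of_tendsto h3 ?_
    filter_upwards [self_mem_nhdsWithin] with h hh
    have hh0 : 0 < h := hh
    have h5 : eccut P C (z + h • ((1 : ℝ), (0 : ℝ))) ≤ eccut P C (z + h • ((0 : ℝ), C * σ)) := by
      have e1 : z + h • ((1 : ℝ), (0 : ℝ)) = (z.1 + h, z.2) := by
        ext <;> simp
      have e2 : z + h • ((0 : ℝ), C * σ) = (z.1, z.2 + h * (C * σ)) := by
        ext <;> simp
      rw [e1, e2]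
      apply eccut_mono P
      rw [abs_mul, abs_mul, abs_of_pos hh0, abs_of_nonneg hC]
      have : C * |σ| ≤ C * 1 := mul_le_mul_of_nonneg_left hσ hC
      nlinarith
    simp only [Pi.sub_apply, zero_add, zero_smul, add_zero, sub_self, sub_zero, smul_eq_mul]
    have h6 : 0 ≤ h⁻¹ := inv_nonneg.2 hh0.le
    exact mul_nonpos_of_nonneg_of_nonpos h6 (by linarith)
  have h7 : f' (0, C * σ) = C * σ * f' (0, 1) := by
    have : ((0 : ℝ), C * σ) = (C * σ) • ((0 : ℝ), (1 : ℝ)) := by
      ext <;> simp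
    rw [this, map_smul, smul_eq_mul]
  change f' (1, 0) ≤ C * σ * f' (0, 1)
  rw [← h7]
  linarith

private theorem eccut_sign (P : ℝ) {C : ℝ} (hC : 0 ≤ C) {z : ℝ × ℝ}
    (hz : DifferentiableAt ℝ (eccut P C) z) {y q : ℝ} (hy : 0 ≤ y) (hq : |q| ≤ C * y) :
    y * dt (eccut P C) z + q * dx (eccut P C) z ≤ 0 := by
  have h1 := eccut_deriv P hC hz 1 (by simp)
  have h2 := eccut_deriv P hC hz (-1) (by simp)
  have h3 : dt (eccut P C) z ≤ -(C * |dx (eccut P C) z|) := by
    rcases abs_cases (dx (eccut P C) z) with ⟨h4, _⟩ | ⟨h4, _⟩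
    · rw [h4]; linarith
    · rw [h4]; linarith
  have h5 : q * dx (eccut P C) z ≤ |q| * |dx (eccut P C) z| := by
    rw [← abs_mul]; exact le_abs_self _
  have h6 : |q| * |dx (eccut P C) z| ≤ C * y * |dx (eccut P C) z| :=
    mul_le_mul_of_nonneg_right hq (abs_nonneg _)
  have h7 : y * dt (eccut P C) z ≤ y * -(C * |dx (eccut P C) z|) :=
    mul_le_mul_of_nonneg_left h3 hy
  linarith

private theorem eccut_zero (P : ℝ) {C t x : ℝ} (hC : 0 ≤ C) (ht : 0 ≤ t) (hx : P + 1 ≤ |x|) :
    eccut P C (t, x) = 0 := by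
  unfold eccut
  apply max_eq_left
  apply (min_le_right _ _).trans
  have := mul_nonneg hC ht
  simp only
  linarith

private theorem eccut_one {R C T t x : ℝ} (hC : 0 ≤ C) (ht : t ≤ T) (hx : |x| ≤ R) :
    eccut (R + C * T) C (t, x) = 1 := by
  unfold eccut
  have h1 : C * t ≤ C * T := mul_le_mul_of_nonneg_left ht hC
  simp only
  rw [min_eq_left (by linarith), max_eq_right zero_le_one]

/-- The test function. -/
private theorem eccut_test {T P C : ℝ} (hC : 0 ≤ C) {θ : ℝ → ℝ} {K : ℝ≥0}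
    (hθ : LipschitzWith K θ) {s t : ℝ} (hs : 0 < s) (ht : t < T)
    (h0 : ∀ x, x ∉ Icc s t → θ x = 0) : IsLipTest T (fun z => θ z.1 * eccut P C z) := by
  obtain ⟨M, hM⟩ : ∃ M : ℝ, ∀ x, |θ x| ≤ M := by
    obtain ⟨M, hM⟩ := (isCompact_Icc (a := s) (b := t)).exists_bound_of_continuousOn
      hθ.continuous.continuousOn
    refine ⟨max M 0, fun x => ?_⟩
    by_cases hx : x ∈ Icc s t
    · exact (hM x hx).trans (le_max_left _ _)
    · rw [h0 x hx, abs_zero]; exact le_max_right _ _
  have hM0 : 0 ≤ M := (abs_nonneg _).trans (hM 0)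
  have hsup : ∀ z : ℝ × ℝ, z ∉ Icc s t ×ˢ Icc (-(P + 1)) (P + 1) → θ z.1 * eccut P C z = 0 := by
    intro z hz
    by_cases h1 : z.1 ∈ Icc s t
    · have h2 : z.2 ∉ Icc (-(P + 1)) (P + 1) := fun h2 => hz ⟨h1, h2⟩
      have h3 : P + 1 ≤ |z.2| := by
        by_contra hcon
        push Not at hcon
        exact h2 ⟨(abs_lt.1 hcon).1.le, (abs_lt.1 hcon).2.le⟩
      have h4 : eccut P C z = 0 := eccut_zero P (t := z.1) (x := z.2) hC (hs.le.trans h1.1) h3
      rw [h4, mul_zero]
    · rw [h0 _ h1, zero_mul]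
  have hcl : IsClosed (Icc s t ×ˢ Icc (-(P + 1)) (P + 1)) := isClosed_Icc.prod isClosed_Icc
  have hsub : tsupport (fun z => θ z.1 * eccut P C z) ⊆ Icc s t ×ˢ Icc (-(P + 1)) (P + 1) := by
    apply closure_minimal _ hcl
    intro z hz
    by_contra hcon
    exact hz (hsup z hcon)
  refine ⟨⟨⟨K + M * (1 + C), by positivity⟩, LipschitzWith.of_dist_le_mul fun z z' => ?_⟩, ?_, ?_⟩
  · rw [Real.dist_eq]
    show |θ z.1 * eccut P C z - θ z'.1 * eccut P C z'| ≤ (K + M * (1 + C)) * dist z z'
    have e : θ z.1 * eccut P C z - θ z'.1 * eccut P C z' =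
        (θ z.1 - θ z'.1) * eccut P C z + θ z'.1 * (eccut P C z - eccut P C z') := by ring
    have h1 : |θ z.1 - θ z'.1| ≤ K * dist z z' := by
      have h2 := hθ.dist_le_mul z.1 z'.1
      rw [Real.dist_eq] at h2
      exact h2.trans (mul_le_mul_of_nonneg_left (le_max_left _ _) K.2)
    rw [e]
    refine (abs_add_le _ _).trans ?_
    rw [abs_mul, abs_mul]
    have h3 : |θ z.1 - θ z'.1| * |eccut P C z| ≤ (K * dist z z') * 1 :=
      mul_le_mul h1 (eccut_abs P C z) (abs_nonneg _) (by positivity)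
    have h4 : |θ z'.1| * |eccut P C z - eccut P C z'| ≤ M * ((1 + C) * dist z z') :=
      mul_le_mul (hM _) (eccut_lip P hC z z') (abs_nonneg _) hM0
    linarith
  · exact (isCompact_Icc.prod isCompact_Icc).of_isClosed_subset (isClosed_tsupport _) hsub
  · intro z hz
    have h1 := hsub hz
    exact ⟨lt_of_lt_of_le hs h1.1.1, lt_of_le_of_lt h1.1.2 ht⟩

theorem cone {T B C C' R : ℝ} {η Q : ℝ × ℝ → ℝ} (hT : 0 < T) (hC : 0 ≤ C) (hC' : 0 ≤ C')
    (hR : 0 < R) (hη : Measurable η) (hQ : Measurable Q)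
    (hηB : ∀ᵐ z : ℝ × ℝ, z ∈ Strip T → 0 ≤ η z ∧ η z ≤ B ∧ |Q z| ≤ C * η z)
    (hrel : ∀ φ, IsLipTest T φ → (∀ z, 0 ≤ φ z) →
      -C' * ∫ z in Strip T, φ z * η z ≤ ∫ z in Strip T, (η z * dt φ z + Q z * dx φ z)) :
    ∀ᵐ t : ℝ, t ∈ Ioo 0 T → ∀ᵐ s : ℝ, s ∈ Ioo 0 t →
      ∫ x in Ioo (-R) R, η (t, x) ≤
        Real.exp (C' * T) * ∫ x in Ioo (-(R + C * T + 1)) (R + C * T + 1), η (s, x) := by
  set P := R + C * T with hP
  have hCT : 0 ≤ C * T := mul_nonneg hC hT.le
  have hP0 : 0 < P := by rw [hP]; linarith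
  -- the truncated function
  set η' : ℝ × ℝ → ℝ := fun z => max 0 (min (η z) |B|) with hη'
  have hη'm : Measurable η' := measurable_const.max (hη.min measurable_const)
  have hη'0 : ∀ z, 0 ≤ η' z := fun z => le_max_left _ _
  have hη'B : ∀ z, η' z ≤ |B| := fun z => max_le (abs_nonneg _) (min_le_right _ _)
  have hηη : ∀ᵐ z : ℝ × ℝ, z ∈ Strip T → η' z = η z := by
    filter_upwards [hηB] with z hz hzT
    obtain ⟨h1, h2, _⟩ := hz hzT
    simp only [hη']
    rw [min_eq_left (h2.trans (le_abs_self B)), max_eq_right h1]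
  have hcm : Measurable (eccut P C) := (eccut_lipschitz P hC).continuous.measurable
  set Zf : ℝ → ℝ := fun t => ∫ x, η' (t, x) * eccut P C (t, x) with hZf
  set Z : ℝ → ℝ := fun t => (Ioo 0 T).indicator (fun t => Real.exp (-(C' * t)) * Zf t) t with hZ
  have hZfm : Measurable Zf := by
    have h1 : StronglyMeasurable (Function.uncurry fun t x : ℝ => η' (t, x) * eccut P C (t, x)) :=
      (hη'm.mul hcm).stronglyMeasurable
    exact h1.integral_prod_right.measurable
  have hZm : Measurable Z := by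
    apply Measurable.indicator _ measurableSet_Ioo
    exact (by fun_prop : Measurable fun t : ℝ => Real.exp (-(C' * t))).mul hZfm
  have hsl : ∀ t, 0 ≤ t → ∀ x, x ∉ Icc (-(P + 1)) (P + 1) → η' (t, x) * eccut P C (t, x) = 0 := by
    intro t ht x hx
    have h3 : P + 1 ≤ |x| := by
      by_contra hcon
      push Not at hcon
      exact hx ⟨(abs_lt.1 hcon).1.le, (abs_lt.1 hcon).2.le⟩
    rw [eccut_zero P hC ht h3, mul_zero]
  have hslI : ∀ t, 0 ≤ t → Integrable (fun x => η' (t, x) * eccut P C (t, x)) := by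
    intro t ht
    rw [← integrableOn_iff_integrable_of_support_subset (s := Icc (-(P + 1)) (P + 1))]
    · apply Measure.integrableOn_of_bounded (M := |B|) (by simp)
      · exact ((hη'm.mul hcm).comp (measurable_const.prodMk measurable_id)).aestronglyMeasurable
      · refine Eventually.of_forall fun x => ?_
        rw [Real.norm_eq_abs, abs_mul, abs_of_nonneg (hη'0 _)]
        calc η' (t, x) * |eccut P C (t, x)| ≤ |B| * 1 :=
              mul_le_mul (hη'B _) (eccut_abs P C _) (abs_nonneg _) (abs_nonneg _)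
          _ = |B| := mul_one _
    · intro x hx
      by_contra hcon
      exact hx (hsl t ht x hcon)
  have hZf0 : ∀ t, 0 ≤ Zf t := fun t =>
    integral_nonneg fun x => mul_nonneg (hη'0 _) (eccut_nonneg P C _)
  have hZfB : ∀ t, 0 ≤ t → Zf t ≤ |B| * (2 * (P + 1)) := by
    intro t ht
    have h1 : Zf t = ∫ x in Icc (-(P + 1)) (P + 1), η' (t, x) * eccut P C (t, x) :=
      (setIntegral_eq_integral_of_forall_compl_eq_zero fun x hx => hsl t ht x hx).symm
    rw [h1]
    have h2 : ∫ x in Icc (-(P + 1)) (P + 1), η' (t, x) * eccut P C (t, x) ≤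
        ∫ x in Icc (-(P + 1)) (P + 1), |B| := by
      apply setIntegral_mono (hslI t ht).integrableOn (by simp)
      intro x
      calc η' (t, x) * eccut P C (t, x) ≤ |B| * 1 :=
            mul_le_mul (hη'B _) (eccut_le_one P C _) (eccut_nonneg P C _) (abs_nonneg _)
        _ = |B| := mul_one _
    refine h2.trans (le_of_eq ?_)
    rw [setIntegral_const, smul_eq_mul]
    have : (volume : Measure ℝ).real (Icc (-(P + 1)) (P + 1)) = 2 * (P + 1) := by
      rw [Measure.real, Real.volume_Icc, ENNReal.toReal_ofReal (by linarith)]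
      ring
    rw [this]
    ring
  have hZB : ∀ t, |Z t| ≤ |B| * (2 * (P + 1)) := by
    intro t
    have hb0 : 0 ≤ |B| * (2 * (P + 1)) := by positivity
    by_cases ht : t ∈ Ioo 0 T
    · simp only [hZ, indicator_of_mem ht]
      rw [abs_mul, abs_of_nonneg (hZf0 t), abs_of_pos (Real.exp_pos _)]
      have h1 : Real.exp (-(C' * t)) ≤ 1 := by
        rw [Real.exp_le_one_iff]
        have := mul_nonneg hC' ht.1.le
        linarith
      calc Real.exp (-(C' * t)) * Zf t ≤ 1 * Zf t := mul_le_mul_of_nonneg_right h1 (hZf0 t)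
        _ ≤ _ := by rw [one_mul]; exact hZfB t ht.1.le
    · simp only [hZ, indicator_of_notMem ht, abs_zero]
      exact hb0
  have hmain := gron (T := T) hZm hZB ?_
  · -- conclusion
    filter_upwards [hmain, ae_slice hηη, ae_slice hηB] with t ht h1 h2 htT
    filter_upwards [ht htT, ae_slice hηη, ae_slice hηB] with s hs h3 h4 hst
    have hsT : s ∈ Ioo 0 T := ⟨hst.1, hst.2.trans htT.2⟩
    have hZts := hs hst
    have e1 := h1 htT
    have e2 := h2 htT
    have e3 := h3 hsT
    have e4 := h4 hsT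
    have f1 : ∫ x in Ioo (-R) R, η (t, x) ≤ Zf t := by
      have g1 : ∫ x in Ioo (-R) R, η (t, x) =
          ∫ x in Ioo (-R) R, η' (t, x) * eccut P C (t, x) := by
        apply setIntegral_congr_ae measurableSet_Ioo
        filter_upwards [e1] with x hx hxR
        rw [hx, hP, eccut_one hC htT.2.le (abs_lt.2 ⟨hxR.1, hxR.2⟩).le, mul_one]
      rw [g1]
      apply setIntegral_le_integral (hslI t htT.1.le)
      exact Eventually.of_forall fun x => mul_nonneg (hη'0 _) (eccut_nonneg P C _)
    have f2 : Zf s ≤ ∫ x in Ioo (-(R + C * T + 1)) (R + C * T + 1), η (s, x) := by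
      have g0 : Zf s = ∫ x in Ioo (-(R + C * T + 1)) (R + C * T + 1),
          η' (s, x) * eccut P C (s, x) := by
        symm
        apply setIntegral_eq_integral_of_forall_compl_eq_zero
        intro x hx
        have h3 : P + 1 ≤ |x| := by
          by_contra hcon
          push Not at hcon
          exact hx ⟨(abs_lt.1 hcon).1, (abs_lt.1 hcon).2⟩
        rw [eccut_zero P hC hst.1.le h3, mul_zero]
      rw [g0]
      apply setIntegral_mono_ae (hslI s hst.1.le).integrableOn
      · apply Measure.integrableOn_of_bounded (M := |B|) (by simp)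
        · exact (hη.comp (measurable_const.prodMk measurable_id)).aestronglyMeasurable
        · apply ae_restrict_of_ae
          filter_upwards [e4] with x hx
          rw [Real.norm_eq_abs, abs_of_nonneg hx.1]
          exact hx.2.1.trans (le_abs_self B)
      · filter_upwards [e3, e4] with x hx hx4
        rw [hx]
        calc η (s, x) * eccut P C (s, x) ≤ η (s, x) * 1 :=
              mul_le_mul_of_nonneg_left (eccut_le_one P C _) hx4.1
          _ = η (s, x) := mul_one _
    simp only [hZ, indicator_of_mem htT, indicator_of_mem hsT] at hZts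
    have f3 : Zf t = Real.exp (C' * t) * (Real.exp (-(C' * t)) * Zf t) := by
      rw [← mul_assoc, ← Real.exp_add, add_neg_cancel, Real.exp_zero, one_mul]
    have f4 : Real.exp (C' * t) ≤ Real.exp (C' * T) := by
      apply Real.exp_le_exp.2
      exact mul_le_mul_of_nonneg_left htT.2.le hC'
    have f5 : Real.exp (-(C' * s)) ≤ 1 := by
      rw [Real.exp_le_one_iff]
      have := mul_nonneg hC' hst.1.le
      linarith
    have f6 : Real.exp (-(C' * s)) * Zf s ≤ Zf s := by
      have := mul_le_mul_of_nonneg_right f5 (hZf0 s)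
      linarith
    calc ∫ x in Ioo (-R) R, η (t, x) ≤ Zf t := f1
      _ = Real.exp (C' * t) * (Real.exp (-(C' * t)) * Zf t) := f3
      _ ≤ Real.exp (C' * T) * (Real.exp (-(C' * t)) * Zf t) :=
          mul_le_mul_of_nonneg_right f4 (mul_nonneg (Real.exp_pos _).le (hZf0 t))
      _ ≤ Real.exp (C' * T) * Zf s :=
          mul_le_mul_of_nonneg_left (hZts.trans f6) (Real.exp_pos _).le
      _ ≤ _ := mul_le_mul_of_nonneg_left f2 (Real.exp_pos _).le
  · -- the differential inequality
    rintro θ ⟨K, hθ⟩ hθ0 ⟨s, t, hs, ht, hθs⟩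
    have hbase : IsLipTest T (fun z => θ z.1 * eccut P C z) := eccut_test hC hθ hs ht hθs
    have hexp : ContDiff ℝ 1 (fun z : ℝ × ℝ => Real.exp (-(C' * z.1))) := by fun_prop
    have hφ : IsLipTest T (fun z => (θ z.1 * eccut P C z) * Real.exp (-(C' * z.1))) :=
      hbase.mul_loc hexp.locallyLipschitz.locallyLipschitzOn
    have hφ0 : ∀ z : ℝ × ℝ, 0 ≤ (θ z.1 * eccut P C z) * Real.exp (-(C' * z.1)) := fun z =>
      mul_nonneg (mul_nonneg (hθ0 _) (eccut_nonneg P C z)) (Real.exp_pos _).le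
    have hrel' := hrel _ hφ hφ0
    have hηb : ∀ᵐ z : ℝ × ℝ, z ∈ Strip T → |η z| ≤ |B| := by
      filter_upwards [hηB] with z hz hzT
      rw [abs_of_nonneg (hz hzT).1]
      exact (hz hzT).2.1.trans (le_abs_self B)
    have hQb : ∀ᵐ z : ℝ × ℝ, z ∈ Strip T → |Q z| ≤ C * |B| := by
      filter_upwards [hηB] with z hz hzT
      exact (hz hzT).2.2.trans (mul_le_mul_of_nonneg_left
        ((hz hzT).2.1.trans (le_abs_self B)) hC)
    -- the derivative of `θ`
    have hdθ0 : ∀ x, x ∉ Icc s t → deriv θ x = 0 := by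
      intro x hx
      have : θ =ᶠ[𝓝 x] fun _ => 0 :=
        eventually_of_mem (isClosed_Icc.isOpen_compl.mem_nhds hx) fun y hy => hθs y hy
      rw [this.deriv_eq, deriv_const]
    have hdθK : ∀ x, |deriv θ x| ≤ K := fun x => by
      have := norm_deriv_le_of_lipschitz hθ (x₀ := x)
      rwa [Real.norm_eq_abs] at this
    set G : ℝ × ℝ → ℝ := fun z => deriv θ z.1 * Real.exp (-(C' * z.1)) * eccut P C z with hG
    have hGm : Measurable G := by
      have h1 : Measurable (fun z : ℝ × ℝ => deriv θ z.1) :=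
        (measurable_deriv θ).comp measurable_fst
      have h2 : Measurable (fun z : ℝ × ℝ => Real.exp (-(C' * z.1))) := hexp.continuous.measurable
      exact (h1.mul h2).mul hcm
    have hG0 : ∀ z : ℝ × ℝ, z ∉ Icc s t ×ˢ Icc (-(P + 1)) (P + 1) → G z = 0 := by
      intro z hz
      by_cases h1 : z.1 ∈ Icc s t
      · have h2 : z.2 ∉ Icc (-(P + 1)) (P + 1) := fun h2 => hz ⟨h1, h2⟩
        have h3 : P + 1 ≤ |z.2| := by
          by_contra hcon
          push Not at hcon
          exact h2 ⟨(abs_lt.1 hcon).1.le, (abs_lt.1 hcon).2.le⟩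
        have h4 : eccut P C z = 0 := eccut_zero P (t := z.1) (x := z.2) hC (hs.le.trans h1.1) h3
        simp only [hG]
        rw [h4, mul_zero]
      · simp only [hG]
        rw [hdθ0 _ h1, zero_mul, zero_mul]
    have hGK : ∀ z, |G z| ≤ K := by
      intro z
      by_cases h1 : z.1 ∈ Icc s t
      · simp only [hG]
        rw [abs_mul, abs_mul, abs_of_pos (Real.exp_pos _)]
        have h2 : Real.exp (-(C' * z.1)) ≤ 1 := by
          rw [Real.exp_le_one_iff]
          have := mul_nonneg hC' (hs.le.trans h1.1)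
          linarith
        calc |deriv θ z.1| * Real.exp (-(C' * z.1)) * |eccut P C z| ≤ K * 1 * 1 :=
              mul_le_mul (mul_le_mul (hdθK _) h2 (Real.exp_pos _).le K.2) (eccut_abs P C z)
                (abs_nonneg _) (by simp)
          _ = K := by ring
      · rw [hG0 z fun h2 => h1 h2.1, abs_zero]
        exact K.2
    have hGI : Integrable (fun z => η' z * G z) := by
      rw [← integrableOn_iff_integrable_of_support_subset
        (s := Icc s t ×ˢ Icc (-(P + 1)) (P + 1))]
      · apply Measure.integrableOn_of_bounded (M := |B| * K)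
          (isCompact_Icc.prod isCompact_Icc).measure_lt_top.ne
          (hη'm.mul hGm).aestronglyMeasurable
        refine Eventually.of_forall fun z => ?_
        rw [Pi.mul_apply, Real.norm_eq_abs, abs_mul, abs_of_nonneg (hη'0 _)]
        exact mul_le_mul (hη'B _) (hGK z) (abs_nonneg _) (abs_nonneg _)
      · intro z hz
        by_contra hcon
        apply hz
        simp only
        rw [hG0 z hcon, mul_zero]
    -- the main inequality
    have I1 := hφ.integrableOn_dt hη hηb
    have I2 := hφ.integrableOn_dx hQ hQb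
    have I3 := hφ.integrableOn_mul hη hηb
    have hle : ∫ z in Strip T, (η z * dt (fun z : ℝ × ℝ =>
        (θ z.1 * eccut P C z) * Real.exp (-(C' * z.1))) z +
        Q z * dx (fun z : ℝ × ℝ => (θ z.1 * eccut P C z) * Real.exp (-(C' * z.1))) z) ≤
        ∫ z in Strip T, (η' z * G z - C' *
          (η z * ((θ z.1 * eccut P C z) * Real.exp (-(C' * z.1))))) := by
      apply setIntegral_mono_ae_restrict (I1.add I2) (hGI.integrableOn.sub (I3.const_mul C'))
      rw [EventuallyLE, ae_restrict_iff' (measurableSet_strip T)]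
      have hθd : ∀ᵐ z : ℝ × ℝ, DifferentiableAt ℝ θ z.1 := by
        have h1 := hθ.ae_differentiableAt (μ := (volume : Measure ℝ))
        have h2 := (Measure.quasiMeasurePreserving_fst
          (μ := (volume : Measure ℝ)) (ν := (volume : Measure ℝ))).ae h1
        exact h2
      filter_upwards [hθd, (eccut_lipschitz P hC).ae_differentiableAt
        (μ := (volume : Measure (ℝ × ℝ))), hηη, hηB] with z d1 d2 d3 d4 hz
      obtain ⟨g1, g2, g3⟩ := d4 hz
      have hf1 : HasFDerivAt (fun z : ℝ × ℝ => θ z.1)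
          (deriv θ z.1 • (ContinuousLinearMap.fst ℝ ℝ ℝ)) z :=
        d1.hasDerivAt.comp_hasFDerivAt z hasFDerivAt_fst
      have k1 : dt (fun z : ℝ × ℝ => θ z.1) z = deriv θ z.1 := by
        unfold dt
        rw [hf1.fderiv]
        simp
      have k2 : dx (fun z : ℝ × ℝ => θ z.1) z = 0 := by
        unfold dx
        rw [hf1.fderiv]
        simp
      have hE : HasDerivAt (fun t : ℝ => Real.exp (-(C' * t)))
          (Real.exp (-(C' * z.1)) * (-C')) z.1 := by
        have h1 : HasDerivAt (fun t : ℝ => -(C' * t)) (-C') z.1 := by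
          have h0 : HasDerivAt (fun t : ℝ => -(C' * t)) (-(C' * 1)) z.1 :=
            ((hasDerivAt_id z.1).const_mul C').fun_neg
          rwa [mul_one] at h0
        exact h1.exp
      have hf2 : HasFDerivAt (fun z : ℝ × ℝ => Real.exp (-(C' * z.1)))
          ((Real.exp (-(C' * z.1)) * (-C')) • (ContinuousLinearMap.fst ℝ ℝ ℝ)) z :=
        hE.comp_hasFDerivAt z hasFDerivAt_fst
      have k3 : dt (fun z : ℝ × ℝ => Real.exp (-(C' * z.1))) z =
          Real.exp (-(C' * z.1)) * (-C') := by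
        unfold dt
        rw [hf2.fderiv]
        simp
      have k4 : dx (fun z : ℝ × ℝ => Real.exp (-(C' * z.1))) z = 0 := by
        unfold dx
        rw [hf2.fderiv]
        simp
      have k5 := dt_mul (hf1.differentiableAt) d2
      have k6 := dx_mul (hf1.differentiableAt) d2
      have hprod : DifferentiableAt ℝ (fun z : ℝ × ℝ => θ z.1 * eccut P C z) z :=
        hf1.differentiableAt.mul d2
      have k7 := dt_mul hprod (hf2.differentiableAt)
      have k8 := dx_mul hprod (hf2.differentiableAt)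
      have hsign := eccut_sign P hC d2 g1 g3
      simp only [Pi.add_apply, Pi.sub_apply]
      rw [k7, k8, k5, k6, k1, k2, k3, k4, d3 hz]
      simp only [hG]
      have hpos : 0 ≤ θ z.1 * Real.exp (-(C' * z.1)) :=
        mul_nonneg (hθ0 _) (Real.exp_pos _).le
      have hfin := mul_nonpos_of_nonneg_of_nonpos hpos hsign
      nlinarith
    have hsub := integral_sub hGI.integrableOn (I3.const_mul C')
    have e0 : ∫ z in Strip T, (θ z.1 * eccut P C z) * Real.exp (-(C' * z.1)) * η z =
        ∫ z in Strip T, η z * ((θ z.1 * eccut P C z) * Real.exp (-(C' * z.1))) := by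
      congr 1
      funext z
      ring
    rw [e0] at hrel'
    rw [hsub, integral_const_mul] at hle
    have hGpos : 0 ≤ ∫ z in Strip T, η' z * G z := by linarith
    -- Fubini
    have hfub : ∫ z in Strip T, η' z * G z = ∫ t, deriv θ t * Z t := by
      have h1 : IntegrableOn (fun z => η' z * G z) (Ioo 0 T ×ˢ univ)
          ((volume : Measure ℝ).prod (volume : Measure ℝ)) := hGI.integrableOn
      rw [strip_eq]
      have h2 : ∫ z in Ioo 0 T ×ˢ (univ : Set ℝ), η' z * G z =
          ∫ t in Ioo 0 T, ∫ x in (univ : Set ℝ), η' (t, x) * G (t, x) :=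
        setIntegral_prod (fun z => η' z * G z) h1
      rw [h2, ← integral_indicator measurableSet_Ioo]
      congr 1
      funext τ
      by_cases hτ : τ ∈ Ioo 0 T
      · simp only [hZ, indicator_of_mem hτ, Measure.restrict_univ, hZf]
        rw [← integral_const_mul, ← integral_const_mul]
        congr 1
        funext x
        simp only [hG]
        ring
      · simp only [hZ, indicator_of_notMem hτ, mul_zero]
    rw [← hfub]
    exact hGpos

end Helper73.EU
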