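import Pool.Agent.Helper73.EU.Comp
import Pool.Agent.Helper73.EU.Bounds
import Pool.Agent.Helper73.EU.Dist

/-!
EU-15. Data with constant velocity and pressure: the transported density is a base solution.

PROOF. `law_transport`: let `F : ℝ → ℝ` be bounded and measurable. For a test `φ`
`∫ z in Strip T, F (x - v t) (dt φ + v dx φ)`; Fubini and the translation `x = y + v t` for fixed `t` give
`∫ y, F y * (∫ t in 0..T, (dt φ + v dx φ) (t, y + v t))`, the inner integrand is the derivative of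
`t ↦ φ (t, y + v t)`, which vanishes at `t = 0` and `t = T` (support in the open strip). For the constant flux
`c`: `∫ c dx φ = 0` (`IsTest.isLipTest`, `IsLipTest.integral_dx`).
All densities and fluxes of the contact solution are of the form `F (x - v t)`, `v F (x - v t) + const`:
mass `F = r₀`; momentum `F = r₀ v`, const `p₀`; energy `F = r₀ E`, `E = z₀ + v^2/2`, const `p₀ v`;
entropy `F = r₀ * ent`, const 0 (so equality, in particular `≤ 0`).
`Attains`: `exists_comp` (Comp.lean) for `g = r₀` and `g = z₀`, `α x = x - v t`, `β x = x`, `A = 1`, `δ` small: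
`∫ |r₀ (x - v t) - r₀ x| < ε/2` for `|v| t ≤ δ`.
`lip_w`, `lip_q`: constants (`pr γ r z = p₀` because `r ≠ 0`), `oneSided` with `L = 0`.
-/

open MeasureTheory Set Filter Topology
open scoped ContDiff NNReal

namespace Helper73.EU

theorem shear_mp (v : ℝ) :
    MeasurePreserving (fun z : ℝ × ℝ => (z.1, z.2 + v * z.1)) (volume : Measure (ℝ × ℝ))
      (volume : Measure (ℝ × ℝ)) := by
  rw [Measure.volume_eq_prod]
  have h := MeasurePreserving.skew_product (μa := (volume : Measure ℝ)) (μb := (volume : Measure ℝ))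
    (μc := (volume : Measure ℝ)) (μd := (volume : Measure ℝ))
    (MeasurePreserving.id (volume : Measure ℝ)) (g := fun t y => y + v * t) (by
      simp only [Function.uncurry_def]; fun_prop)
    (Eventually.of_forall fun t => by
      have := (measurePreserving_add_right (volume : Measure ℝ) (v * t)).map_eq
      exact this)
  exact h

theorem line_deriv_zero {φ : ℝ × ℝ → ℝ} (hs : ContDiff ℝ ∞ φ) (hc : HasCompactSupport φ)
    (v y : ℝ) : ∫ t : ℝ, (dt φ (t, y + v * t) + v * dx φ (t, y + v * t)) = 0 := by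
  have hd : ∀ t : ℝ, HasDerivAt (fun t : ℝ => φ (t, y + v * t))
      (dt φ (t, y + v * t) + v * dx φ (t, y + v * t)) t := by
    intro t
    have h1 : HasFDerivAt φ (fderiv ℝ φ (t, y + v * t)) (t, y + v * t) :=
      (hs.differentiable (by simp) _).hasFDerivAt
    have h2 : HasDerivAt (fun t : ℝ => ((t, y + v * t) : ℝ × ℝ)) ((1 : ℝ), v) t := by
      have h3 : HasDerivAt (fun t : ℝ => y + v * t) v t := by
        simpa using ((hasDerivAt_id t).const_mul v).const_add y
      exact (hasDerivAt_id t).prodMk h3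
    have h4 := h1.comp_hasDerivAt t h2
    have h5 : fderiv ℝ φ (t, y + v * t) ((1 : ℝ), v) =
        dt φ (t, y + v * t) + v * dx φ (t, y + v * t) := by
      have : ((1 : ℝ), v) = ((1 : ℝ), (0 : ℝ)) + v • ((0 : ℝ), (1 : ℝ)) := by simp
      rw [this, map_add, map_smul]
      rfl
    rw [h5] at h4
    exact h4
  have hemb : IsClosedEmbedding (fun t : ℝ => ((t, y + v * t) : ℝ × ℝ)) := by
    apply IsClosedEmbedding.of_continuous_injective_isClosedMap (by fun_prop)
    · intro a b h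
      exact (Prod.ext_iff.1 h).1
    · intro s hs
      have : (fun t : ℝ => ((t, y + v * t) : ℝ × ℝ)) '' s =
          {z : ℝ × ℝ | z.2 = y + v * z.1} ∩ Prod.fst ⁻¹' s := by
        ext z
        constructor
        · rintro ⟨t, ht, rfl⟩
          exact ⟨rfl, ht⟩
        · rintro ⟨h1, h2⟩
          exact ⟨z.1, h2, Prod.ext rfl h1.symm⟩
      rw [this]
      exact (isClosed_eq (by fun_prop) (by fun_prop)).inter (hs.preimage continuous_fst)
  have hcs : HasCompactSupport (fun t : ℝ => φ (t, y + v * t)) :=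
    hc.comp_isClosedEmbedding hemb
  have hcont : ContDiff ℝ 1 (fun t : ℝ => φ (t, y + v * t)) := by
    have h1 : ContDiff ℝ 1 φ := hs.of_le (by norm_num)
    exact h1.comp (by fun_prop)
  have hder : deriv (fun t : ℝ => φ (t, y + v * t)) =
      fun t => dt φ (t, y + v * t) + v * dx φ (t, y + v * t) := funext fun t => (hd t).deriv
  have hi : Integrable (fun t : ℝ => dt φ (t, y + v * t) + v * dx φ (t, y + v * t)) := by
    rw [← hder]
    exact (hcont.continuous_deriv le_rfl).integrable_of_hasCompactSupport hcs.deriv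
  exact integral_eq_zero_of_hasDerivAt_of_integrable hd hi
    (hcont.continuous.integrable_of_hasCompactSupport hcs)

theorem law_transport {T v c B : ℝ} {F : ℝ → ℝ} (hT : 0 < T) (hF : Measurable F)
    (hB : ∀ x, |F x| ≤ B) :
    Law T (fun ζ => F (ζ.2 - v * ζ.1)) (fun ζ => F (ζ.2 - v * ζ.1) * v + c) := by
  intro φ hφ
  have hL := hφ.isLipTest
  have hFm : Measurable (fun ζ : ℝ × ℝ => F (ζ.2 - v * ζ.1)) := hF.comp (by fun_prop)
  have hFb : ∀ᵐ z : ℝ × ℝ, z ∈ Strip T → |F (z.2 - v * z.1)| ≤ B :=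
    Eventually.of_forall fun z _ => hB _
  have i1 := hL.integrableOn_dt hFm hFb
  have i2 := hL.integrableOn_dx hFm hFb
  have i3 := hL.integrableOn_dx (F := fun _ => c) measurable_const
    (M := |c|) (Eventually.of_forall fun z _ => le_rfl)
  have e1 : (fun z : ℝ × ℝ => F (z.2 - v * z.1) * dt φ z + (F (z.2 - v * z.1) * v + c) * dx φ z)
      = fun z => (F (z.2 - v * z.1) * dt φ z + v * (F (z.2 - v * z.1) * dx φ z)) + c * dx φ z := by
    funext z; ring
  show ∫ z in Strip T, (F (z.2 - v * z.1) * dt φ z + (F (z.2 - v * z.1) * v + c) * dx φ z) = 0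
  have i12 : IntegrableOn (fun z => F (z.2 - v * z.1) * dt φ z +
      v * (F (z.2 - v * z.1) * dx φ z)) (Strip T) := i1.add (i2.const_mul v)
  rw [e1, integral_add i12 i3]
  have e2 : ∫ z in Strip T, c * dx φ z = 0 := by
    rw [integral_const_mul, hL.integral_dx, mul_zero]
  rw [e2, add_zero]
  have e3 : (fun z : ℝ × ℝ => F (z.2 - v * z.1) * dt φ z + v * (F (z.2 - v * z.1) * dx φ z)) =
      fun z => F (z.2 - v * z.1) * (dt φ z + v * dx φ z) := by
    funext z; ring
  have iG : IntegrableOn (fun z => F (z.2 - v * z.1) * (dt φ z + v * dx φ z)) (Strip T) := by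
    rw [← e3]; exact i12
  rw [e3]
  have hz0 : ∀ z : ℝ × ℝ, z ∉ Strip T → F (z.2 - v * z.1) * (dt φ z + v * dx φ z) = 0 := by
    intro z hz
    rw [dt_eq_zero_of_notMem fun h => hz (hφ.support h),
      dx_eq_zero_of_notMem fun h => hz (hφ.support h)]
    ring
  have iGw : Integrable (fun z : ℝ × ℝ => F (z.2 - v * z.1) * (dt φ z + v * dx φ z)) := by
    rw [← integrableOn_iff_integrable_of_support_subset (s := Strip T)]
    · exact iG
    · intro z hz
      by_contra hzs
      exact hz (hz0 z hzs)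
  rw [setIntegral_eq_integral_of_forall_compl_eq_zero fun z hz => hz0 z hz]
  have hmp := shear_mp v
  have iGS : Integrable (fun z : ℝ × ℝ =>
      F z.2 * (dt φ (z.1, z.2 + v * z.1) + v * dx φ (z.1, z.2 + v * z.1))) := by
    have := hmp.integrable_comp_of_integrable iGw
    refine this.congr (Eventually.of_forall fun z => ?_)
    simp [Function.comp]
  have e4 : ∫ z : ℝ × ℝ, F (z.2 - v * z.1) * (dt φ z + v * dx φ z) =
      ∫ z : ℝ × ℝ, F z.2 * (dt φ (z.1, z.2 + v * z.1) + v * dx φ (z.1, z.2 + v * z.1)) := by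
    have h1 := integral_map (μ := (volume : Measure (ℝ × ℝ)))
      (φ := fun z : ℝ × ℝ => (z.1, z.2 + v * z.1)) hmp.measurable.aemeasurable
      (f := fun z : ℝ × ℝ => F (z.2 - v * z.1) * (dt φ z + v * dx φ z))
      (by rw [hmp.map_eq]; exact iGw.aestronglyMeasurable)
    rw [hmp.map_eq] at h1
    rw [h1]
    simp
  rw [e4]
  rw [Measure.volume_eq_prod] at iGS ⊢
  rw [integral_prod_symm _ iGS]
  have e5 : ∀ y : ℝ, ∫ t : ℝ, F y * (dt φ (t, y + v * t) + v * dx φ (t, y + v * t)) = 0 := by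
    intro y
    rw [integral_const_mul, line_deriv_zero hφ.smooth hφ.compact, mul_zero]
  simp [e5]

theorem contact_attains {γ T a b v p₀ : ℝ} {r₀ : ℝ → ℝ} (hT : 0 < T) (ha : 0 < a)
    (hr : Measurable r₀) (hbox : ∀ x, Box a b (r₀ x) v (p₀ / ((γ - 1) * r₀ x))) :
    Attains T (fun ζ => r₀ (ζ.2 - v * ζ.1)) (fun _ => v)
      (fun ζ => p₀ / ((γ - 1) * r₀ (ζ.2 - v * ζ.1))) r₀ (fun _ => v)
      (fun x => p₀ / ((γ - 1) * r₀ x)) := by
  intro R ε hR hε
  have hz : Measurable (fun x => p₀ / ((γ - 1) * r₀ x)) := by fun_prop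
  have hb1 : ∀ y, |r₀ y| ≤ b := fun y => by
    have h := hbox y
    rw [abs_of_nonneg (ha.le.trans h.1)]; exact h.2.1
  have hb2 : ∀ y, |p₀ / ((γ - 1) * r₀ y)| ≤ b := fun y => by
    have h := hbox y
    rw [abs_of_nonneg (ha.le.trans h.2.2.2.1)]; exact h.2.2.2.2
  set M : ℝ := R + |v| * T with hM
  obtain ⟨δ₁, hδ₁, H₁⟩ := exists_comp (R := R) (M := M) hr hb1 one_pos (half_pos hε)
  obtain ⟨δ₂, hδ₂, H₂⟩ := exists_comp (R := R) (M := M) hz hb2 one_pos (half_pos hε)
  set δ := min δ₁ δ₂ with hδ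
  have hδ0 : 0 < δ := lt_min hδ₁ hδ₂
  have hv1 : 0 < |v| + 1 := by positivity
  refine ⟨min (T / 2) (δ / (|v| + 1)), lt_min (by linarith) (by positivity),
    (min_le_left _ _).trans_lt (by linarith), Eventually.of_forall fun t ht => ?_⟩
  have htT : t < T := ht.2.trans ((min_le_left _ _).trans_lt (by linarith))
  have htδ : |v| * t ≤ δ := by
    have h1 : t ≤ δ / (|v| + 1) := ht.2.le.trans (min_le_right _ _)
    rw [le_div_iff₀ hv1] at h1
    nlinarith [ht.1, abs_nonneg v]
  have hvt : |v * t| ≤ |v| * t := by rw [abs_mul, abs_of_pos ht.1]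
  have c1 : ∀ x y : ℝ, x ≤ y → 1 * (y - x) ≤ (y - v * t) - (x - v * t) := by
    intro x y _; linarith
  have c2 : ∀ x y : ℝ, x ≤ y → 1 * (y - x) ≤ y - x := by
    intro x y _; linarith
  have c3 : ∀ x ∈ Ioo (-R) R, |x - v * t| ≤ M := by
    intro x hx
    have h1 : |x| ≤ R := abs_le.2 ⟨hx.1.le, hx.2.le⟩
    have h2 : |v| * t ≤ |v| * T := mul_le_mul_of_nonneg_left htT.le (abs_nonneg v)
    have h3 := abs_sub x (v * t)
    linarith
  have c4 : ∀ x ∈ Ioo (-R) R, |x| ≤ M := by
    intro x hx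
    have h1 : |x| ≤ R := abs_le.2 ⟨hx.1.le, hx.2.le⟩
    have h2 : 0 ≤ |v| * T := by positivity
    linarith
  have c5 : ∀ x ∈ Ioo (-R) R, |x - v * t - x| ≤ δ := by
    intro x _
    have : x - v * t - x = -(v * t) := by ring
    rw [this, abs_neg]; linarith
  have I₁ := H₁ (fun x => x - v * t) (fun x => x) c1 c2 c3 c4
    (fun x hx => (c5 x hx).trans (min_le_left _ _))
  have I₂ := H₂ (fun x => x - v * t) (fun x => x) c1 c2 c3 c4
    (fun x hx => (c5 x hx).trans (min_le_right _ _))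
  have j₁ : IntegrableOn (fun x => |r₀ (x - v * t) - r₀ x|) (Ioo (-R) R) := by
    apply integrableOn_Ioo_of_ae (M := b + b)
    · fun_prop
    · refine Eventually.of_forall fun x => ?_
      rw [abs_abs]
      have h3 := abs_sub (r₀ (x - v * t)) (r₀ x)
      linarith [hb1 (x - v * t), hb1 x]
  have j₂ : IntegrableOn (fun x => |p₀ / ((γ - 1) * r₀ (x - v * t)) - p₀ / ((γ - 1) * r₀ x)|)
      (Ioo (-R) R) := by
    apply integrableOn_Ioo_of_ae (M := b + b)
    · fun_prop
    · refine Eventually.of_forall fun x => ?_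
      rw [abs_abs]
      have h3 := abs_sub (p₀ / ((γ - 1) * r₀ (x - v * t))) (p₀ / ((γ - 1) * r₀ x))
      linarith [hb2 (x - v * t), hb2 x]
  unfold dist1
  simp only [sl, sub_self, abs_zero, add_zero]
  rw [integral_add j₁ j₂]
  linarith

theorem contact_isBase {γ T a b v p₀ : ℝ} {r₀ : ℝ → ℝ} (hγ : 1 < γ) (hT : 0 < T) (ha : 0 < a)
    (hr : Measurable r₀) (hbox : ∀ x, Box a b (r₀ x) v (p₀ / ((γ - 1) * r₀ x))) :
    IsBase γ T a b 0 (fun ζ => r₀ (ζ.2 - v * ζ.1)) (fun _ => v)
      (fun ζ => p₀ / ((γ - 1) * r₀ (ζ.2 - v * ζ.1))) r₀ (fun _ => v)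
      (fun x => p₀ / ((γ - 1) * r₀ x)) := by
  have hz : Measurable (fun x => p₀ / ((γ - 1) * r₀ x)) := by fun_prop
  have hrpos : ∀ x, 0 < r₀ x := fun x => ha.trans_le (hbox x).1
  have hp : ∀ x, pr γ (r₀ x) (p₀ / ((γ - 1) * r₀ x)) = p₀ := by
    intro x
    have h1 := (hrpos x).ne'
    have h2 : γ - 1 ≠ 0 := by linarith
    unfold pr
    field_simp
  have hb1 : ∀ y, |r₀ y| ≤ b := fun y => by
    have h := hbox y
    rw [abs_of_nonneg (ha.le.trans h.1)]; exact h.2.1
  have hb2 : ∀ y, |p₀ / ((γ - 1) * r₀ y)| ≤ b := fun y => by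
    have h := hbox y
    rw [abs_of_nonneg (ha.le.trans h.2.2.2.1)]; exact h.2.2.2.2
  obtain ⟨M, hM0, hM⟩ := exists_bound (a := a) (b := b) hγ ha
  have hsol : IsSol γ T a b (fun ζ => r₀ (ζ.2 - v * ζ.1)) (fun _ => v)
      (fun ζ => p₀ / ((γ - 1) * r₀ (ζ.2 - v * ζ.1))) := by
    refine ⟨by fun_prop, measurable_const, by fun_prop, Eventually.of_forall fun z _ => hbox _,
      ?_, ?_, ?_, ?_⟩
    · have h := law_transport (T := T) (v := v) (c := 0) hT hr hb1
      simpa using h
    · have h := law_transport (T := T) (v := v) (c := p₀) (F := fun x => r₀ x * v) (B := M) hT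
        (by fun_prop) (fun x => (hM _ _ _ (hbox x)).2.1)
      have e : (fun ζ : ℝ × ℝ => r₀ (ζ.2 - v * ζ.1) * v ^ 2 +
          pr γ (r₀ (ζ.2 - v * ζ.1)) (p₀ / ((γ - 1) * r₀ (ζ.2 - v * ζ.1)))) =
          fun ζ : ℝ × ℝ => r₀ (ζ.2 - v * ζ.1) * v * v + p₀ := by
        funext ζ
        rw [hp]; ring
      rw [e]
      exact h
    · have h := law_transport (T := T) (v := v) (c := p₀ * v)
        (F := fun x => r₀ x * en v (p₀ / ((γ - 1) * r₀ x))) (B := M) hT
        (by unfold en; fun_prop) (fun x => (hM _ _ _ (hbox x)).2.2.2.1)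
      have e : (fun ζ : ℝ × ℝ => r₀ (ζ.2 - v * ζ.1) *
          en v (p₀ / ((γ - 1) * r₀ (ζ.2 - v * ζ.1))) * v +
          pr γ (r₀ (ζ.2 - v * ζ.1)) (p₀ / ((γ - 1) * r₀ (ζ.2 - v * ζ.1))) * v) =
          fun ζ : ℝ × ℝ => r₀ (ζ.2 - v * ζ.1) *
          en v (p₀ / ((γ - 1) * r₀ (ζ.2 - v * ζ.1))) * v + p₀ * v := by
        funext ζ
        rw [hp]
      rw [e]
      exact h
    · intro φ hφ _
      have h := law_transport (T := T) (v := v) (c := 0)
        (F := fun x => r₀ x * ent γ (r₀ x) (p₀ / ((γ - 1) * r₀ x))) (B := M) hT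
        (by unfold ent pr; fun_prop) (fun x => (hM _ _ _ (hbox x)).2.2.2.2.2.2.1) φ hφ
      apply le_of_eq
      rw [← h]
      congr 1
      funext ζ
      simp only
      ring
  refine ⟨hsol, ⟨hr, measurable_const, hz, Eventually.of_forall hbox⟩,
    contact_attains hT ha hr hbox, ?_, ?_, ?_⟩
  · exact (LipschitzWith.const v).locallyLipschitz.locallyLipschitzOn
  · have : (fun ζ : ℝ × ℝ => pr γ (r₀ (ζ.2 - v * ζ.1))
        (p₀ / ((γ - 1) * r₀ (ζ.2 - v * ζ.1)))) = fun _ => p₀ := by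
      funext ζ; exact hp _
    rw [this]
    exact (LipschitzWith.const p₀).locallyLipschitz.locallyLipschitzOn
  · intro t _ x y _
    simp

end Helper73.EU
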