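import Mathlib

/-!
Project EU (MP_55694c_an): stability of entropy solutions of the one dimensional Euler equations
around solutions with locally Lipschitz velocity and pressure and arbitrary density.
Definitions.
-/

open MeasureTheory Set Filter Topology
open scoped ContDiff NNReal

namespace Helper73.EU

/-- The open strip `0 < t < T` in the `(t, x)` plane. -/
def Strip (T : ℝ) : Set (ℝ × ℝ) := {z | 0 < z.1 ∧ z.1 < T}

/-- The partial derivative in time. -/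
noncomputable def dt (φ : ℝ × ℝ → ℝ) (z : ℝ × ℝ) : ℝ := fderiv ℝ φ z (1, 0)

/-- The partial derivative in space. -/
noncomputable def dx (φ : ℝ × ℝ → ℝ) (z : ℝ × ℝ) : ℝ := fderiv ℝ φ z (0, 1)

/-- Smooth test functions with compact support in the open strip. -/
structure IsTest (T : ℝ) (φ : ℝ × ℝ → ℝ) : Prop where
  smooth : ContDiff ℝ ∞ φ
  compact : HasCompactSupport φ
  support : tsupport φ ⊆ Strip T

/-- The conservation law `A_t + B_x = 0` in the sense of distributions on the open strip. -/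
def Law (T : ℝ) (A B : ℝ × ℝ → ℝ) : Prop :=
  ∀ φ : ℝ × ℝ → ℝ, IsTest T φ → ∫ z in Strip T, (A z * dt φ z + B z * dx φ z) = 0

/-- The inequality `A_t + B_x ≥ 0` in the sense of distributions on the open strip. -/
def LawGe (T : ℝ) (A B : ℝ × ℝ → ℝ) : Prop :=
  ∀ φ : ℝ × ℝ → ℝ, IsTest T φ → (∀ z, 0 ≤ φ z) →
    ∫ z in Strip T, (A z * dt φ z + B z * dx φ z) ≤ 0

/-- The pressure `(γ - 1) ρ e`. -/
noncomputable def pr (γ ρ e : ℝ) : ℝ := (γ - 1) * ρ * e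

/-- The physical entropy, up to the positive factor `c_v`: `log (p ρ^(-γ))`. -/
noncomputable def ent (γ ρ e : ℝ) : ℝ := Real.log (pr γ ρ e * ρ ^ (-γ))

/-- The total energy per unit mass. -/
noncomputable def en (u e : ℝ) : ℝ := e + u ^ 2 / 2

/-- The box of states: `a ≤ ρ ≤ b`, `|u| ≤ b`, `a ≤ e ≤ b`. -/
def Box (a b ρ u e : ℝ) : Prop := a ≤ ρ ∧ ρ ≤ b ∧ |u| ≤ b ∧ a ≤ e ∧ e ≤ b

/-- `(ρ, u, e)` is an entropy weak solution of the Euler equations on the open strip, with values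
almost everywhere in the box. -/
structure IsSol (γ T a b : ℝ) (ρ u e : ℝ × ℝ → ℝ) : Prop where
  meas_ρ : Measurable ρ
  meas_u : Measurable u
  meas_e : Measurable e
  box : ∀ᵐ z : ℝ × ℝ, z ∈ Strip T → Box a b (ρ z) (u z) (e z)
  mass : Law T ρ (fun z => ρ z * u z)
  momentum : Law T (fun z => ρ z * u z) (fun z => ρ z * u z ^ 2 + pr γ (ρ z) (e z))
  energy : Law T (fun z => ρ z * en (u z) (e z))
    (fun z => ρ z * en (u z) (e z) * u z + pr γ (ρ z) (e z) * u z)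
  entropy : LawGe T (fun z => ρ z * ent γ (ρ z) (e z))
    (fun z => ρ z * u z * ent γ (ρ z) (e z))

/-- Bounded measurable initial data with values almost everywhere in the box. -/
structure IsDatum (a b : ℝ) (ρ₀ u₀ e₀ : ℝ → ℝ) : Prop where
  meas_ρ : Measurable ρ₀
  meas_u : Measurable u₀
  meas_e : Measurable e₀
  box : ∀ᵐ x : ℝ, Box a b (ρ₀ x) (u₀ x) (e₀ x)

/-- The `L¹` distance of two states on `(-R, R)`. -/
noncomputable def dist1 (R : ℝ) (ρ u e ρ' u' e' : ℝ → ℝ) : ℝ :=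
  ∫ x in Ioo (-R) R, (|ρ x - ρ' x| + |u x - u' x| + |e x - e' x|)

/-- The slice of a function at time `t`. -/
def sl (f : ℝ × ℝ → ℝ) (t : ℝ) : ℝ → ℝ := fun x => f (t, x)

/-- `(ρ, u, e)` attains the data `(ρ₀, u₀, e₀)` in `L¹_loc` as `t → 0+`
(along almost every `t`). -/
def Attains (T : ℝ) (ρ u e : ℝ × ℝ → ℝ) (ρ₀ u₀ e₀ : ℝ → ℝ) : Prop :=
  ∀ R ε : ℝ, 0 < R → 0 < ε → ∃ τ : ℝ, 0 < τ ∧ τ < T ∧
    ∀ᵐ t : ℝ, t ∈ Ioo 0 τ → dist1 R (sl ρ t) (sl u t) (sl e t) ρ₀ u₀ e₀ < ε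

/-- The base solutions: entropy solutions attaining the data, with locally Lipschitz velocity and
pressure on the open strip, and a one sided Lipschitz bound for the velocity. The density and
the entropy are only measurable. -/
structure IsBase (γ T a b L : ℝ) (r w z : ℝ × ℝ → ℝ) (r₀ w₀ z₀ : ℝ → ℝ) : Prop where
  sol : IsSol γ T a b r w z
  datum : IsDatum a b r₀ w₀ z₀
  attains : Attains T r w z r₀ w₀ z₀
  lip_w : LocallyLipschitzOn (Strip T) w
  lip_q : LocallyLipschitzOn (Strip T) (fun ζ => pr γ (r ζ) (z ζ))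
  oneSided : ∀ t ∈ Ioo 0 T, ∀ x y : ℝ, x ≤ y → w (t, x) - w (t, y) ≤ L * (y - x)

/-- The final statement. -/
def Statement : Prop :=
  ∀ γ T a b L : ℝ, 1 < γ → 0 < T → 0 < a →
  ∀ (r w z : ℝ × ℝ → ℝ) (r₀ w₀ z₀ : ℝ → ℝ), IsBase γ T a b L r w z r₀ w₀ z₀ →
  ∀ R T' ε : ℝ, 0 < R → 0 < T' → T' < T → 0 < ε → ∃ R' δ : ℝ, 0 < R' ∧ 0 < δ ∧
  ∀ (ρ u e : ℝ × ℝ → ℝ) (ρ₀ u₀ e₀ : ℝ → ℝ), IsSol γ T a b ρ u e → IsDatum a b ρ₀ u₀ e₀ →
    Attains T ρ u e ρ₀ u₀ e₀ → dist1 R' ρ₀ u₀ e₀ r₀ w₀ z₀ < δ →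
    ∀ᵐ t : ℝ, t ∈ Ioo 0 T' →
      dist1 R (sl ρ t) (sl u t) (sl e t) (sl r t) (sl w t) (sl z t) < ε

end Helper73.EU
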