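import Pool.Agent.Helper73.EU.Main
import Pool.Agent.Helper73.EU.Contact

/-!
Project EU: uniqueness and the contact data, from the main theorem.
-/

open MeasureTheory Set Filter Topology
open scoped ContDiff NNReal

namespace Helper73.EU

/-- From almost every slice to almost every point of the strip. -/
theorem ae_strip_of_slice {T : ℝ} {P : ℝ × ℝ → Prop} (hP : MeasurableSet {ζ | P ζ})
    (h : ∀ᵐ t : ℝ, t ∈ Ioo 0 T → ∀ᵐ x : ℝ, P (t, x)) :
    ∀ᵐ ζ : ℝ × ℝ, ζ ∈ Strip T → P ζ := by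
  have hm : MeasurableSet {ζ : ℝ × ℝ | ζ ∈ Strip T → P ζ} := by
    have : {ζ : ℝ × ℝ | ζ ∈ Strip T → P ζ} = (Strip T)ᶜ ∪ {ζ | P ζ} := by
      ext ζ; simp [imp_iff_not_or]
    rw [this]
    exact (measurableSet_strip T).compl.union hP
  rw [Measure.volume_eq_prod, Measure.ae_prod_iff_ae_ae hm]
  filter_upwards [h] with t ht
  by_cases htT : t ∈ Ioo 0 T
  · filter_upwards [ht htT] with x hx _
    exact hx
  · exact Eventually.of_forall fun x hx => absurd ⟨hx.1, hx.2⟩ htT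

theorem eq_of_dist1 {a b : ℝ} {ρ u e ρ' u' e' : ℝ → ℝ} (h : IsDatum a b ρ u e)
    (h' : IsDatum a b ρ' u' e')
    (hd : ∀ n : ℕ, dist1 ((n : ℝ) + 1) ρ u e ρ' u' e' = 0) :
    ∀ᵐ x : ℝ, ρ x = ρ' x ∧ u x = u' x ∧ e x = e' x := by
  have h1 : ∀ n : ℕ, ∀ᵐ x : ℝ, x ∈ Ioo (-((n : ℝ) + 1)) ((n : ℝ) + 1) →
      ρ x = ρ' x ∧ u x = u' x ∧ e x = e' x := by
    intro n
    have h2 := hd n
    unfold dist1 at h2
    rw [setIntegral_eq_zero_iff_of_nonneg_ae
      (Eventually.of_forall fun x => by positivity) (integrableOn_dist h h')] at h2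
    rw [EventuallyEq, ae_restrict_iff' measurableSet_Ioo] at h2
    filter_upwards [h2] with x hx hxn
    have h3 := hx hxn
    simp only [Pi.zero_apply] at h3
    have e1 := abs_nonneg (ρ x - ρ' x)
    have e2 := abs_nonneg (u x - u' x)
    have e3 := abs_nonneg (e x - e' x)
    refine ⟨?_, ?_, ?_⟩
    · exact sub_eq_zero.1 (abs_eq_zero.1 (by linarith))
    · exact sub_eq_zero.1 (abs_eq_zero.1 (by linarith))
    · exact sub_eq_zero.1 (abs_eq_zero.1 (by linarith))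
  filter_upwards [ae_all_iff.2 h1] with x hx
  obtain ⟨n, hn⟩ := exists_nat_gt |x|
  exact hx n ⟨by linarith [(abs_lt.1 hn).1], by linarith [(abs_lt.1 hn).2]⟩

/-- Uniqueness: a base solution is the only entropy solution in the box with its data. -/
def Uniqueness : Prop :=
  ∀ γ T a b L : ℝ, 1 < γ → 0 < T → 0 < a →
  ∀ (r w z : ℝ × ℝ → ℝ) (r₀ w₀ z₀ : ℝ → ℝ), IsBase γ T a b L r w z r₀ w₀ z₀ →
  ∀ (ρ u e : ℝ × ℝ → ℝ), IsSol γ T a b ρ u e → Attains T ρ u e r₀ w₀ z₀ →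
    ∀ᵐ ζ : ℝ × ℝ, ζ ∈ Strip T → ρ ζ = r ζ ∧ u ζ = w ζ ∧ e ζ = z ζ

theorem uniqueness : Uniqueness := by
  intro γ T a b L hγ hT ha r w z r₀ w₀ z₀ hV ρ u e hU hatt
  apply ae_strip_of_slice
  · have h1 := measurableSet_eq_fun hU.meas_ρ hV.sol.meas_ρ
    have h2 := measurableSet_eq_fun hU.meas_u hV.sol.meas_u
    have h3 := measurableSet_eq_fun hU.meas_e hV.sol.meas_e
    exact h1.inter (h2.inter h3)
  have hself : ∀ R : ℝ, dist1 R r₀ w₀ z₀ r₀ w₀ z₀ = 0 := by
    intro R; simp [dist1]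
  have h1 : ∀ n k m : ℕ, ∀ᵐ t : ℝ, t ∈ Ioo 0 (T - T / ((k : ℝ) + 2)) →
      dist1 ((n : ℝ) + 1) (sl ρ t) (sl u t) (sl e t) (sl r t) (sl w t) (sl z t) <
        1 / ((m : ℝ) + 1) := by
    intro n k m
    have hk : T / ((k : ℝ) + 2) < T := by
      rw [div_lt_iff₀ (by positivity)]
      nlinarith [(Nat.cast_nonneg k : (0 : ℝ) ≤ k)]
    obtain ⟨R', δ, hR', hδ, hmain⟩ := main γ T a b L hγ hT ha r w z r₀ w₀ z₀ hV
      ((n : ℝ) + 1) (T - T / ((k : ℝ) + 2)) (1 / ((m : ℝ) + 1)) (by positivity) (by linarith)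
      (by have : 0 < T / ((k : ℝ) + 2) := by positivity
          linarith) (by positivity)
    exact hmain ρ u e r₀ w₀ z₀ hU hV.datum hatt (by rw [hself]; exact hδ)
  have h2 := ae_all_iff.2 fun n => ae_all_iff.2 fun k => ae_all_iff.2 fun m => h1 n k m
  filter_upwards [h2, hU.datum, hV.sol.datum] with t ht h3 h4 htT
  apply eq_of_dist1 (h3 htT) (h4 htT)
  intro n
  -- choose k
  obtain ⟨k, hk⟩ := exists_nat_gt (T / (T - t))
  have htT' : 0 < T - t := by linarith [htT.2]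
  have hkt : t ∈ Ioo 0 (T - T / ((k : ℝ) + 2)) := by
    refine ⟨htT.1, ?_⟩
    have h5 : T / ((k : ℝ) + 2) < T - t := by
      rw [div_lt_iff₀ (by positivity)]
      rw [div_lt_iff₀ htT'] at hk
      nlinarith
    linarith
  apply le_antisymm _ dist1_nonneg
  apply le_of_forall_pos_le_add
  intro ε hε
  obtain ⟨m, hm⟩ := exists_nat_one_div_lt hε
  have := ht n k m hkt
  linarith

/-- Data with constant velocity and pressure: the transported state is a global entropy solution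
which attains the data, with the total variation of the data; it is a base solution. -/
def ContactBase : Prop :=
  ∀ γ a b v p₀ : ℝ, 1 < γ → 0 < a → ∀ r₀ : ℝ → ℝ, Measurable r₀ →
    (∀ x, Box a b (r₀ x) v (p₀ / ((γ - 1) * r₀ x))) → ∀ T : ℝ, 0 < T →
    IsBase γ T a b 0 (fun ζ => r₀ (ζ.2 - v * ζ.1)) (fun _ => v)
      (fun ζ => p₀ / ((γ - 1) * r₀ (ζ.2 - v * ζ.1))) r₀ (fun _ => v)
      (fun x => p₀ / ((γ - 1) * r₀ x)) ∧
    ∀ t : ℝ, eVariationOn (fun x => r₀ (x - v * t)) univ = eVariationOn r₀ univ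

theorem contactBase : ContactBase := by
  intro γ a b v p₀ hγ ha r₀ hr hbox T hT
  refine ⟨contact_isBase hγ hT ha hr hbox, fun t => ?_⟩
  have h1 : MonotoneOn (fun x : ℝ => x - v * t) univ := fun x _ y _ hxy => by
    simpa using hxy
  have h2 := eVariationOn.comp_eq_of_monotoneOn r₀ (fun x : ℝ => x - v * t) h1
  have h3 : (fun x : ℝ => x - v * t) '' univ = univ := by
    rw [image_univ]
    exact (range_eq_univ).2 fun y => ⟨y + v * t, by simp⟩
  rw [h3] at h2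
  exact h2

theorem result : Statement ∧ Uniqueness ∧ ContactBase := ⟨main, uniqueness, contactBase⟩

end Helper73.EU
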