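import Pool.Agent.Helper73.EU.Tools

/-!
EU-12a. A function whose distributional derivative is nonpositive is nonincreasing.

PROOF. Let `Z` be extended: it is bounded and measurable on `ℝ`, so locally integrable; a.e. `s` is a point where
`F x = ∫ y in 0..x, Z y` has derivative `Z s` (`LocallyIntegrable.ae_hasDerivAt_integral`). Let `0 < s < t < T` be two such
points and `h > 0` small (`s + h < t`, `t + h < T`); the function
`θ τ = max 0 (min 1 (min ((τ - s) / h) ((t + h - τ) / h)))` is Lipschitz, nonnegative, zero outside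
`[s, t + h]`, and its derivative is a.e. `1/h` on `(s, s + h)`, `-1/h` on `(t, t + h)`, `0` elsewhere. So
`0 ≤ ∫ deriv θ * Z = (F (s + h) - F s)/h - (F (t + h) - F t)/h → Z s - Z t` as `h → 0+`.
-/

open MeasureTheory Set Filter Topology
open scoped ContDiff NNReal

namespace Helper73.EU

/-- the trapezoidal test function -/
private noncomputable def trap (s t h : ℝ) (τ : ℝ) : ℝ :=
  max 0 (min 1 (min ((τ - s) / h) ((t + h - τ) / h)))

private theorem trap_lip (s t : ℝ) {h : ℝ} (hh : 0 < h) : ∃ K : ℝ≥0, LipschitzWith K (trap s t h) := by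
  have h1 : LipschitzWith (Real.toNNReal h⁻¹) (fun τ : ℝ => (τ - s) / h) := by
    refine LipschitzWith.of_dist_le_mul fun x y => ?_
    rw [Real.coe_toNNReal _ (inv_pos.2 hh).le, Real.dist_eq, Real.dist_eq]
    have h2 : (x - s) / h - (y - s) / h = h⁻¹ * (x - y) := by
      field_simp
      ring
    rw [h2, abs_mul, abs_of_pos (inv_pos.2 hh)]
  have h2 : LipschitzWith (Real.toNNReal h⁻¹) (fun τ : ℝ => (t + h - τ) / h) := by
    refine LipschitzWith.of_dist_le_mul fun x y => ?_
    rw [Real.coe_toNNReal _ (inv_pos.2 hh).le, Real.dist_eq, Real.dist_eq]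
    have h2 : (t + h - x) / h - (t + h - y) / h = h⁻¹ * (y - x) := by
      field_simp
      ring
    rw [h2, abs_mul, abs_of_pos (inv_pos.2 hh), abs_sub_comm y x]
  exact ⟨_, ((h1.min h2).const_min 1).const_max 0⟩

private theorem trap_deriv {s t h τ : ℝ} (hh : 0 < h) (hst : s + h < t)
    (h1 : τ ≠ s) (h2 : τ ≠ s + h) (h3 : τ ≠ t) (h4 : τ ≠ t + h) :
    deriv (trap s t h) τ = (Ioo s (s + h)).indicator (fun _ => h⁻¹) τ -
      (Ioo t (t + h)).indicator (fun _ => h⁻¹) τ := by
  have haff1 : ∀ τ : ℝ, HasDerivAt (fun τ : ℝ => (τ - s) / h) h⁻¹ τ := by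
    intro τ
    have := ((hasDerivAt_id τ).sub_const s).div_const h
    simpa using this
  have haff2 : ∀ τ : ℝ, HasDerivAt (fun τ : ℝ => (t + h - τ) / h) (-h⁻¹) τ := by
    intro τ
    have := ((hasDerivAt_id τ).const_sub (t + h)).div_const h
    have h5 : (-1 : ℝ) / h = -h⁻¹ := by
      field_simp
    rw [h5] at this
    simpa using this
  rcases lt_or_gt_of_ne h1 with h1 | h1
  · have he : trap s t h =ᶠ[𝓝 τ] fun _ => 0 := by
      filter_upwards [Iio_mem_nhds h1] with x hx
      have hx' : x < s := hx
      have h5 : (x - s) / h < 0 := div_neg_of_neg_of_pos (by linarith) hh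
      exact max_eq_left ((min_le_right _ _).trans ((min_le_left _ _).trans h5.le))
    rw [he.deriv_eq, deriv_const, indicator_of_notMem (fun hx => absurd hx.1 (not_lt.2 h1.le)),
      indicator_of_notMem (fun hx => absurd hx.1 (by linarith)), sub_zero]
  rcases lt_or_gt_of_ne h2 with h2 | h2
  · have he : trap s t h =ᶠ[𝓝 τ] fun x => (x - s) / h := by
      filter_upwards [Ioo_mem_nhds h1 h2] with x hx
      have h5 : 0 < (x - s) / h := div_pos (by linarith [hx.1]) hh
      have h6 : (x - s) / h ≤ 1 := by
        rw [div_le_one hh]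
        linarith [hx.2]
      have h7 : 1 ≤ (t + h - x) / h := by
        rw [one_le_div hh]
        linarith [hx.2]
      rw [trap, min_eq_left (h6.trans h7), min_eq_right h6, max_eq_right h5.le]
    rw [he.deriv_eq, (haff1 τ).deriv, indicator_of_mem (show τ ∈ Ioo s (s + h) from ⟨h1, h2⟩),
      indicator_of_notMem (fun hx => absurd hx.1 (by linarith)), sub_zero]
  rcases lt_or_gt_of_ne h3 with h3 | h3
  · have he : trap s t h =ᶠ[𝓝 τ] fun _ => 1 := by
      filter_upwards [Ioo_mem_nhds h2 h3] with x hx
      have h5 : 1 ≤ (x - s) / h := by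
        rw [one_le_div hh]
        linarith [hx.1]
      have h7 : 1 ≤ (t + h - x) / h := by
        rw [one_le_div hh]
        linarith [hx.2]
      rw [trap, min_eq_left (le_min h5 h7), max_eq_right zero_le_one]
    rw [he.deriv_eq, deriv_const, indicator_of_notMem (fun hx => absurd hx.2 (by linarith)),
      indicator_of_notMem (fun hx => absurd hx.1 (by linarith)), sub_zero]
  rcases lt_or_gt_of_ne h4 with h4 | h4
  · have he : trap s t h =ᶠ[𝓝 τ] fun x => (t + h - x) / h := by
      filter_upwards [Ioo_mem_nhds h3 h4] with x hx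
      have h5 : 0 < (t + h - x) / h := div_pos (by linarith [hx.2]) hh
      have h6 : (t + h - x) / h ≤ 1 := by
        rw [div_le_one hh]
        linarith [hx.1]
      have h7 : 1 ≤ (x - s) / h := by
        rw [one_le_div hh]
        linarith [hx.1]
      rw [trap, min_eq_right (h6.trans h7), min_eq_right h6, max_eq_right h5.le]
    rw [he.deriv_eq, (haff2 τ).deriv, indicator_of_mem (show τ ∈ Ioo t (t + h) from ⟨h3, h4⟩),
      indicator_of_notMem (fun hx => absurd hx.2 (by linarith)), zero_sub]
  · have he : trap s t h =ᶠ[𝓝 τ] fun _ => 0 := by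
      filter_upwards [Ioi_mem_nhds h4] with x hx
      have hx' : t + h < x := hx
      have h5 : (t + h - x) / h < 0 := div_neg_of_neg_of_pos (by linarith) hh
      exact max_eq_left ((min_le_right _ _).trans ((min_le_right _ _).trans h5.le))
    rw [he.deriv_eq, deriv_const, indicator_of_notMem (fun hx => absurd hx.2 (by linarith)),
      indicator_of_notMem (fun hx => absurd hx.2 (by linarith)), sub_zero]

private theorem trap_zero {s t h x : ℝ} (hh : 0 < h) (hx : x ∉ Icc s (t + h)) :
    trap s t h x = 0 := by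
  by_cases h1 : x < s
  · have h5 : (x - s) / h < 0 := div_neg_of_neg_of_pos (by linarith) hh
    exact max_eq_left ((min_le_right _ _).trans ((min_le_left _ _).trans h5.le))
  · have h2 : t + h < x := by
      by_contra h3
      exact hx ⟨not_lt.1 h1, not_lt.1 h3⟩
    have h5 : (t + h - x) / h < 0 := div_neg_of_neg_of_pos (by linarith) hh
    exact max_eq_left ((min_le_right _ _).trans ((min_le_right _ _).trans h5.le))

/-- A function whose distributional derivative is nonpositive is nonincreasing. -/
theorem gron {T B : ℝ} {Z : ℝ → ℝ} (hZ : Measurable Z) (hB : ∀ t, |Z t| ≤ B)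
    (h : ∀ θ : ℝ → ℝ, (∃ K : ℝ≥0, LipschitzWith K θ) → (∀ t, 0 ≤ θ t) →
      (∃ s t : ℝ, 0 < s ∧ t < T ∧ ∀ x, x ∉ Icc s t → θ x = 0) → 0 ≤ ∫ t, deriv θ t * Z t) :
    ∀ᵐ t : ℝ, t ∈ Ioo 0 T → ∀ᵐ s : ℝ, s ∈ Ioo 0 t → Z t ≤ Z s := by
  have hloc : LocallyIntegrable Z volume := by
    refine (memLp_top_of_bound hZ.aestronglyMeasurable B ?_).locallyIntegrable le_top
    exact Eventually.of_forall fun t => by rw [Real.norm_eq_abs]; exact hB t
  have hint : ∀ x y : ℝ, IntervalIntegrable Z volume x y := fun x y =>
    intervalIntegrable_iff.mpr <|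
      (hloc.integrableOn_isCompact isCompact_uIcc).mono_set uIoc_subset_uIcc
  set F : ℝ → ℝ := fun x => ∫ y in (0 : ℝ)..x, Z y with hF
  have hD : ∀ᵐ x : ℝ, HasDerivAt F (Z x) x := by
    filter_upwards [LocallyIntegrable.ae_hasDerivAt_integral hloc] with x hx
    exact hx 0
  have key : ∀ s t : ℝ, 0 < s → s < t → t < T → HasDerivAt F (Z s) s → HasDerivAt F (Z t) t →
      Z t ≤ Z s := by
    intro s t hs hst htT hds hdt
    have hev : ∀ᶠ u in 𝓝[>] (0 : ℝ), 0 ≤ u⁻¹ • (F (s + u) - F s) - u⁻¹ • (F (t + u) - F t) := by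
      have h1 : ∀ᶠ u in 𝓝[>] (0 : ℝ), u < t - s :=
        nhdsWithin_le_nhds (Iio_mem_nhds (sub_pos.2 hst))
      have h2 : ∀ᶠ u in 𝓝[>] (0 : ℝ), u < T - t :=
        nhdsWithin_le_nhds (Iio_mem_nhds (sub_pos.2 htT))
      filter_upwards [h1, h2, self_mem_nhdsWithin] with u hu1 hu2 hu0
      have hu0' : 0 < u := hu0
      have hsu : s + u < t := by linarith
      have h3 := h (trap s t u) (trap_lip s t hu0') (fun τ => le_max_left _ _)
        ⟨s, t + u, hs, by linarith, fun x hx => trap_zero hu0' hx⟩
      have h4 : ∫ τ, deriv (trap s t u) τ * Z τ =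
          u⁻¹ • (F (s + u) - F s) - u⁻¹ • (F (t + u) - F t) := by
        have hae : (fun τ => deriv (trap s t u) τ * Z τ) =ᵐ[volume] fun τ =>
            (Ioo s (s + u)).indicator (fun τ => u⁻¹ * Z τ) τ -
              (Ioo t (t + u)).indicator (fun τ => u⁻¹ * Z τ) τ := by
          have h5 : ∀ a : ℝ, ∀ᵐ τ : ℝ, τ ≠ a := fun a => by simp [ae_iff, measure_singleton]
          filter_upwards [h5 s, h5 (s + u), h5 t, h5 (t + u)] with τ a1 a2 a3 a4
          rw [trap_deriv hu0' hsu a1 a2 a3 a4, sub_mul]
          congr 1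
          · by_cases hm : τ ∈ Ioo s (s + u)
            · rw [indicator_of_mem hm, indicator_of_mem hm]
            · rw [indicator_of_notMem hm, indicator_of_notMem hm, zero_mul]
          · by_cases hm : τ ∈ Ioo t (t + u)
            · rw [indicator_of_mem hm, indicator_of_mem hm]
            · rw [indicator_of_notMem hm, indicator_of_notMem hm, zero_mul]
        have hI : ∀ a : ℝ, IntegrableOn (fun τ => u⁻¹ * Z τ) (Ioo a (a + u)) := by
          intro a
          have h6 := ((hint a (a + u)).const_mul u⁻¹)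
          rw [intervalIntegrable_iff, uIoc_of_le (by linarith)] at h6
          exact h6.mono_set Ioo_subset_Ioc_self
        have hE : ∀ a : ℝ, ∫ τ, (Ioo a (a + u)).indicator (fun τ => u⁻¹ * Z τ) τ =
            u⁻¹ • (F (a + u) - F a) := by
          intro a
          rw [integral_indicator measurableSet_Ioo, ← integral_Ioc_eq_integral_Ioo,
            ← intervalIntegral.integral_of_le (by linarith : a ≤ a + u),
            intervalIntegral.integral_const_mul,
            ← intervalIntegral.integral_interval_sub_left (hint 0 (a + u)) (hint 0 a), smul_eq_mul]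
        rw [integral_congr_ae hae, integral_sub ((integrable_indicator_iff measurableSet_Ioo).2 (hI s))
          ((integrable_indicator_iff measurableSet_Ioo).2 (hI t)), hE s, hE t]
      rw [h4] at h3
      exact h3
    have hlim := (hds.tendsto_slope_zero_right).sub (hdt.tendsto_slope_zero_right)
    have := ge_of_tendsto hlim hev
    linarith
  filter_upwards [hD] with t ht htT
  filter_upwards [hD] with s hs hst
  exact key s t hst.1 hst.2 htT.2 hs ht

end Helper73.EU
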