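import Pool.Agent.Helper73.EU.Xi
import Pool.Agent.Helper73.EU.Bounds

/-!
EU-13a. The change of variables stays near the identity.

PROOF. `D (t, x) = ξ (t, x) - x` is Lipschitz. By `IsXi.deriv` (with `m = ρ u`, `n = r w`) a.e. on the strip
`r(Ξ) dt ξ = r(Ξ) w(Ξ) - ρ u`, so `dt D = (w(Ξ) - u) + (u / r(Ξ)) (r(Ξ) - ρ)` and
`|dt D| ≤ |u - w(Ξ)| + (b/a) |ρ - r(Ξ)|` (`|u| ≤ b`, `r(Ξ) ≥ a`). For a.e. `x` the function `D (·, x)` is Lipschitz
with derivative `dt D (s, x)` for a.e. `s ∈ (0, T)` (`ae_slice'`), so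
`|D (t, x)| ≤ |D (0, x)| + ∫ s in 0..t, |dt D (s, x)|`
(`LipschitzWith.lipschitzOnWith`, `LipschitzOnWith.absolutelyContinuousOnInterval`,
`AbsolutelyContinuousOnInterval.integral_deriv_eq_sub`, `norm_integral_le_integral_norm`). Integrate over
`x ∈ (-R, R)` and use Fubini (all functions are bounded and measurable on `(0, T) × (-R, R)`).
-/

open MeasureTheory Set Filter Topology
open scoped ContDiff NNReal

namespace Helper73.EU

private theorem ni_point {a b ρ u r w d : ℝ} (ha : 0 < a) (hu : |u| ≤ b) (hr : a ≤ r)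
    (h : r * d = r * w - ρ * u) : |d| ≤ (1 + b / a) * (|ρ - r| + |u - w|) := by
  have hr0 : 0 < r := ha.trans_le hr
  have hb : 0 ≤ b := (abs_nonneg u).trans hu
  have h1 : d = (w - u) + u / r * (r - ρ) := by
    have h2 : r * (w - u + u / r * (r - ρ)) = r * w - ρ * u := by
      field_simp
      ring
    exact mul_left_cancel₀ hr0.ne' (h.trans h2.symm)
  have h3 : |u / r| ≤ b / a := by
    rw [abs_div, abs_of_pos hr0]
    exact div_le_div₀ hb hu ha hr
  have h4 : |d| ≤ |w - u| + |u / r| * |r - ρ| := by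
    rw [h1]
    refine (abs_add_le _ _).trans ?_
    rw [abs_mul]
  have h5 : |w - u| = |u - w| := abs_sub_comm _ _
  have h6 : |r - ρ| = |ρ - r| := abs_sub_comm _ _
  rw [h5, h6] at h4
  have h7 : |u / r| * |ρ - r| ≤ b / a * |ρ - r| := mul_le_mul_of_nonneg_right h3 (abs_nonneg _)
  have h8 : 0 ≤ b / a * |u - w| := mul_nonneg (by positivity) (abs_nonneg _)
  have h9 := abs_nonneg (ρ - r)
  nlinarith

theorem near_id {γ T a b : ℝ} {r w z ρ u e Φ Φb ξ : ℝ × ℝ → ℝ} (hγ : 1 < γ) (hT : 0 < T)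
    (ha : 0 < a) (hV : IsSol γ T a b r w z) (hU : IsSol γ T a b ρ u e)
    (hΦ : IsPot T a b ρ (fun ζ => ρ ζ * u ζ) Φ) (hΦb : IsPot T a b r (fun ζ => r ζ * w ζ) Φb)
    (hξ : IsXi Φ Φb ξ) {R t : ℝ} (hR : 0 < R) (ht : t ∈ Ioo 0 T) :
    ∫ x in Ioo (-R) R, |ξ (t, x) - x| ≤ (∫ x in Ioo (-R) R, |ξ (0, x) - x|) +
      (1 + b / a) * ∫ s in Ioo 0 t, ∫ x in Ioo (-R) R,
        (|ρ (s, x) - r (s, ξ (s, x))| + |u (s, x) - w (s, ξ (s, x))|) := by
  obtain ⟨K, hK⟩ := hξ.lip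
  have hξc : Continuous ξ := hK.continuous
  have hξm : Measurable ξ := hξc.measurable
  -- the integrand
  set H : ℝ × ℝ → ℝ := fun p => |ρ p - r (p.1, ξ p)| + |u p - w (p.1, ξ p)| with hHdef
  have hHm : Measurable H := by
    have h1 : Measurable (fun p : ℝ × ℝ => (p.1, ξ p)) := measurable_fst.prodMk hξm
    exact ((hU.meas_ρ.sub (hV.meas_ρ.comp h1)).abs).add ((hU.meas_u.sub (hV.meas_u.comp h1)).abs)
  have hboxV := hξ.ae_comp ha hΦ hΦb hV.box
  have hHB : ∀ᵐ p : ℝ × ℝ, p ∈ Strip T → |H p| ≤ 4 * b := by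
    filter_upwards [hU.box, hboxV] with p h1 h2 hp
    obtain ⟨h3, h4, h5, -, -⟩ := h1 hp
    obtain ⟨h6, h7, h8, -, -⟩ := h2 hp
    have h9 : |ρ p - r (p.1, ξ p)| ≤ 2 * b := by
      rw [abs_le]
      constructor <;> linarith
    have h10 : |u p - w (p.1, ξ p)| ≤ 2 * b := by
      refine (abs_sub _ _).trans ?_
      linarith
    have h11 : 0 ≤ H p := add_nonneg (abs_nonneg _) (abs_nonneg _)
    rw [abs_of_nonneg h11]
    show |ρ p - r (p.1, ξ p)| + |u p - w (p.1, ξ p)| ≤ 4 * b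
    linarith
  have hderiv : ∀ᵐ p : ℝ × ℝ, p ∈ Strip T →
      HasDerivAt (fun s => ξ (s, p.2)) (dt ξ p) p.1 ∧ |dt ξ p| ≤ (1 + b / a) * H p := by
    filter_upwards [hξ.deriv ha hΦ hΦb, hU.box] with p h1 h2 hp
    obtain ⟨h3, h4, -, h5⟩ := h1 hp
    obtain ⟨-, -, h6, -, -⟩ := h2 hp
    refine ⟨?_, ni_point ha h6 h4 h5⟩
    have h7 : HasFDerivAt ξ (fderiv ℝ ξ p) (p.1, p.2) := h3.hasFDerivAt
    have h8 : HasDerivAt (fun s : ℝ => (s, p.2)) ((1 : ℝ), (0 : ℝ)) p.1 :=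
      (hasDerivAt_id p.1).prodMk (hasDerivAt_const _ _)
    exact h7.comp_hasDerivAt p.1 h8
  -- integrability
  set μ1 : Measure ℝ := volume.restrict (Ioo 0 t) with hμ1
  set μ2 : Measure ℝ := volume.restrict (Ioo (-R) R) with hμ2
  have hsub : Ioo 0 t ×ˢ Ioo (-R) R ⊆ Strip T := by
    intro p hp
    exact ⟨hp.1.1, hp.1.2.trans ht.2⟩
  have hHi : Integrable H (μ1.prod μ2) := by
    rw [hμ1, hμ2, Measure.prod_restrict, ← Measure.volume_eq_prod]
    refine Measure.integrableOn_of_bounded (M := 4 * b) ?_ hHm.aestronglyMeasurable ?_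
    · rw [Measure.volume_eq_prod, Measure.prod_prod]
      exact (ENNReal.mul_lt_top measure_Ioo_lt_top measure_Ioo_lt_top).ne
    · rw [ae_restrict_iff' (measurableSet_Ioo.prod measurableSet_Ioo)]
      filter_upwards [hHB] with p h1 h2
      exact h1 (hsub h2)
  -- the pointwise inequality
  have hpt : ∀ᵐ x ∂μ2, |ξ (t, x) - x| ≤ |ξ (0, x) - x| + (1 + b / a) * ∫ s, H (s, x) ∂μ1 := by
    have h1 := ae_restrict_of_ae (s := Ioo (-R) R) (ae_slice' hderiv)
    filter_upwards [h1, hHi.prod_left_ae] with x h2 h3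
    have hLip : LipschitzWith K (fun s => ξ (s, x)) := by
      apply LipschitzWith.of_dist_le_mul
      intro s s'
      refine (hK.dist_le_mul _ _).trans ?_
      rw [Prod.dist_eq, dist_self, max_eq_left dist_nonneg]
    have h4 := (hLip.lipschitzOnWith (s := uIcc 0 t)).absolutelyContinuousOnInterval
    have h5 := h4.integral_deriv_eq_sub
    have h6 : |∫ s in (0 : ℝ)..t, deriv (fun s => ξ (s, x)) s| ≤
        ∫ s, (1 + b / a) * H (s, x) ∂μ1 := by
      rw [intervalIntegral.integral_of_le ht.1.le, integral_Ioc_eq_integral_Ioo,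
        ← Real.norm_eq_abs]
      refine (norm_integral_le_integral_norm _).trans ?_
      refine integral_mono_of_nonneg (Eventually.of_forall fun s => norm_nonneg _)
        (h3.const_mul _) ?_
      have h7 : ∀ᵐ s ∂μ1, s ∈ Ioo 0 T → HasDerivAt (fun s => ξ (s, x)) (dt ξ (s, x)) s ∧
          |dt ξ (s, x)| ≤ (1 + b / a) * H (s, x) := ae_restrict_of_ae h2
      have h8 : ∀ᵐ s ∂μ1, s ∈ Ioo 0 t := ae_restrict_mem measurableSet_Ioo
      filter_upwards [h7, h8] with s h9 h10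
      obtain ⟨h11, h12⟩ := h9 ⟨h10.1, h10.2.trans ht.2⟩
      rw [h11.deriv, Real.norm_eq_abs]
      exact h12
    rw [h5, integral_const_mul] at h6
    have h7 : ξ (t, x) - x = (ξ (0, x) - x) + (ξ (t, x) - ξ (0, x)) := by ring
    calc |ξ (t, x) - x| = |(ξ (0, x) - x) + (ξ (t, x) - ξ (0, x))| := by rw [← h7]
      _ ≤ |ξ (0, x) - x| + |ξ (t, x) - ξ (0, x)| := abs_add_le _ _
      _ ≤ _ := by gcongr
  -- integrate
  have hint : ∀ s : ℝ, Integrable (fun x => |ξ (s, x) - x|) μ2 := by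
    intro s
    have h1 : Continuous (fun x : ℝ => |ξ (s, x) - x|) := by fun_prop
    exact (h1.integrableOn_Icc (a := -R) (b := R)).mono_set Ioo_subset_Icc_self
  have hI2 : Integrable (fun x => ∫ s, H (s, x) ∂μ1) μ2 := hHi.integral_prod_right
  have hfin : ∫ x, |ξ (t, x) - x| ∂μ2 ≤
      ∫ x, (|ξ (0, x) - x| + (1 + b / a) * ∫ s, H (s, x) ∂μ1) ∂μ2 :=
    integral_mono_ae (hint t) ((hint 0).add (hI2.const_mul _)) hpt
  rw [integral_add (hint 0) (hI2.const_mul _), integral_const_mul] at hfin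
  have hswap : ∫ x, ∫ s, H (s, x) ∂μ1 ∂μ2 = ∫ s, ∫ x, H (s, x) ∂μ2 ∂μ1 :=
    (integral_integral_swap (f := fun s x => H (s, x)) hHi).symm
  rw [hswap] at hfin
  exact hfin

end Helper73.EU
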