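import Pool.Agent.Helper73.EU.Dist
import Pool.Agent.Helper73.EU.Bounds

/-!
EU-13b. The potentials and the change of variables at time zero. Proofs in the comments of the two
theorems. Useful: `dist1`, `integrableOn_dist`, `IsSol.datum` in Dist.lean.
-/

open MeasureTheory Set Filter Topology
open scoped ContDiff NNReal

namespace Helper73.EU

private theorem z77_int {a b R : ℝ} {ρ u e ρ' u' e' : ℝ → ℝ}
    (h : IsDatum a b ρ u e) (h' : IsDatum a b ρ' u' e') {x : ℝ} (hx : x ∈ Ioo (-R) R) :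
    |(∫ s in 0..x, ρ s) - ∫ s in 0..x, ρ' s| ≤ dist1 R ρ u e ρ' u' e' := by
  have hb1 : ∀ᵐ y : ℝ, |ρ y| ≤ |a| + |b| := by
    filter_upwards [h.box] with y hy
    have h1 := neg_abs_le a
    have h2 := le_abs_self b
    have h3 := abs_nonneg a
    have h4 := abs_nonneg b
    rw [abs_le]
    constructor
    · linarith [hy.1]
    · linarith [hy.2.1]
  have hb2 : ∀ᵐ y : ℝ, |ρ' y| ≤ |a| + |b| := by
    filter_upwards [h'.box] with y hy
    have h1 := neg_abs_le a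
    have h2 := le_abs_self b
    have h3 := abs_nonneg a
    have h4 := abs_nonneg b
    rw [abs_le]
    constructor
    · linarith [hy.1]
    · linarith [hy.2.1]
  have hi1 : IntegrableOn ρ (Ioo (-R) R) := integrableOn_Ioo_of_ae h.meas_ρ hb1
  have hi2 : IntegrableOn ρ' (Ioo (-R) R) := integrableOn_Ioo_of_ae h'.meas_ρ hb2
  have hR : 0 < R := by
    have := hx.1.trans hx.2
    linarith
  have hsub : uIoc 0 x ⊆ Ioo (-R) R := by
    intro y hy
    rcases le_total 0 x with h0 | h0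
    · rw [uIoc_of_le h0] at hy
      exact ⟨by linarith [hy.1], lt_of_le_of_lt hy.2 hx.2⟩
    · rw [uIoc_of_ge h0] at hy
      exact ⟨hx.1.trans hy.1, lt_of_le_of_lt hy.2 hR⟩
  have hj1 : IntervalIntegrable ρ volume 0 x :=
    intervalIntegrable_iff.2 (hi1.mono_set hsub)
  have hj2 : IntervalIntegrable ρ' volume 0 x :=
    intervalIntegrable_iff.2 (hi2.mono_set hsub)
  rw [← intervalIntegral.integral_sub hj1 hj2]
  have hD := integrableOn_dist (R := R) h h'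
  calc |∫ s in 0..x, (ρ s - ρ' s)| ≤ ∫ s in uIoc 0 x, |ρ s - ρ' s| := by
        have := intervalIntegral.norm_integral_le_integral_norm_uIoc (μ := volume)
          (f := fun s => ρ s - ρ' s) (a := 0) (b := x)
        simpa [Real.norm_eq_abs] using this
    _ ≤ ∫ s in Ioo (-R) R, |ρ s - ρ' s| := by
        apply setIntegral_mono_set
        · exact (hi1.sub hi2).abs
        · exact Eventually.of_forall fun s => abs_nonneg _
        · exact hsub.eventuallyLE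
    _ ≤ dist1 R ρ u e ρ' u' e' := by
        unfold dist1
        apply setIntegral_mono_on (hi1.sub hi2).abs hD measurableSet_Ioo
        intro s _
        show |ρ s - ρ' s| ≤ |ρ s - ρ' s| + |u s - u' s| + |e s - e' s|
        have h1 := abs_nonneg (u s - u' s)
        have h2 := abs_nonneg (e s - e' s)
        linarith

/-- At time zero the two mass coordinates are the primitives of the initial densities.
PROOF: `IsPot.slice` at a sequence of good times `t → 0+`; the left side tends to `Φ (0, x) - Φ (0, 0)` by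
continuity, the right side to `∫ s in 0..x, ρ₀ s` by `Attains` (`|∫ s in 0..x, (ρ (t, s) - ρ₀ s)| ≤ dist1 R ..`). -/
theorem pot_zero {γ T a b : ℝ} {ρ u e Φ : ℝ × ℝ → ℝ} {ρ₀ u₀ e₀ : ℝ → ℝ} (hγ : 1 < γ) (hT : 0 < T)
    (ha : 0 < a) (hU : IsSol γ T a b ρ u e) (hU₀ : IsDatum a b ρ₀ u₀ e₀)
    (hatt : Attains T ρ u e ρ₀ u₀ e₀) (hΦ : IsPot T a b ρ (fun ζ => ρ ζ * u ζ) Φ) (x : ℝ) :
    Φ (0, x) = ∫ s in 0..x, ρ₀ s := by
  have key : ∀ ε : ℝ, 0 < ε → |Φ (0, x) - ∫ s in 0..x, ρ₀ s| ≤ 3 * ε := by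
    intro ε hε
    obtain ⟨K, hK⟩ := hΦ.lip
    set R : ℝ := |x| + 1 with hRdef
    have hR : 0 < R := by positivity
    have hx : x ∈ Ioo (-R) R := by
      have h1 := neg_abs_le x
      have h2 := le_abs_self x
      constructor <;> linarith
    obtain ⟨τ, hτ, hτT, hτa⟩ := hatt R ε hR hε
    set τ' : ℝ := min τ (ε / (K + 1)) with hτ'
    have hK0 : (0 : ℝ) ≤ K := K.2
    have hτ'0 : 0 < τ' := lt_min hτ (by positivity)
    have hall : ∀ᵐ t : ℝ, (t ∈ Ioo 0 τ → dist1 R (sl ρ t) (sl u t) (sl e t) ρ₀ u₀ e₀ < ε) ∧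
        (t ∈ Ioo 0 T → ∀ x y : ℝ, Φ (t, y) - Φ (t, x) = ∫ s in x..y, ρ (t, s)) ∧
        (t ∈ Ioo 0 T → IsDatum a b (sl ρ t) (sl u t) (sl e t)) := by
      filter_upwards [hτa, hΦ.slice, hU.datum] with t h1 h2 h3
      exact ⟨h1, h2, h3⟩
    have hex : ∃ t ∈ Ioo 0 τ', (t ∈ Ioo 0 τ → dist1 R (sl ρ t) (sl u t) (sl e t) ρ₀ u₀ e₀ < ε) ∧
        (t ∈ Ioo 0 T → ∀ x y : ℝ, Φ (t, y) - Φ (t, x) = ∫ s in x..y, ρ (t, s)) ∧
        (t ∈ Ioo 0 T → IsDatum a b (sl ρ t) (sl u t) (sl e t)) := by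
      by_contra hcon
      push Not at hcon
      have h1 : Ioo 0 τ' ⊆ {t | ¬ ((t ∈ Ioo 0 τ → dist1 R (sl ρ t) (sl u t) (sl e t) ρ₀ u₀ e₀ < ε) ∧
          (t ∈ Ioo 0 T → ∀ x y : ℝ, Φ (t, y) - Φ (t, x) = ∫ s in x..y, ρ (t, s)) ∧
          (t ∈ Ioo 0 T → IsDatum a b (sl ρ t) (sl u t) (sl e t)))} := by
        intro t ht hcon'
        obtain ⟨h4, h5⟩ := hcon t ht hcon'.1 hcon'.2.1
        exact h5 (hcon'.2.2 h4)
      have h2 := measure_mono_null h1 (ae_iff.1 hall)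
      rw [Real.volume_Ioo, ENNReal.ofReal_eq_zero] at h2
      linarith
    obtain ⟨t, ht, h1, h2, h3⟩ := hex
    have htτ : t ∈ Ioo 0 τ := ⟨ht.1, ht.2.trans_le (min_le_left _ _)⟩
    have htT : t ∈ Ioo 0 T := ⟨ht.1, htτ.2.trans hτT⟩
    have h4 := h1 htτ
    have h5 := h2 htT 0 x
    have h6 := z77_int (h3 htT) hU₀ hx
    have h7 : |Φ (0, x) - Φ (t, x)| ≤ ε := by
      have h8 := hK.dist_le_mul (0, x) (t, x)
      rw [Real.dist_eq, Prod.dist_eq, dist_self, Real.dist_eq, zero_sub, abs_neg,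
        abs_of_pos ht.1, max_eq_left ht.1.le] at h8
      have h9 : t < ε / (K + 1) := ht.2.trans_le (min_le_right _ _)
      rw [lt_div_iff₀ (by positivity)] at h9
      have := ht.1
      nlinarith
    have h7' : |Φ (0, 0) - Φ (t, 0)| ≤ ε := by
      have h8 := hK.dist_le_mul (0, 0) (t, 0)
      rw [Real.dist_eq, Prod.dist_eq, dist_self, Real.dist_eq, zero_sub, abs_neg,
        abs_of_pos ht.1, max_eq_left ht.1.le] at h8
      have h9 : t < ε / (K + 1) := ht.2.trans_le (min_le_right _ _)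
      rw [lt_div_iff₀ (by positivity)] at h9
      have := ht.1
      nlinarith
    have h10 : (∫ s in 0..x, sl ρ t s) = Φ (t, x) - Φ (t, 0) := by
      rw [h5]
      rfl
    rw [h10] at h6
    rw [hΦ.zero] at h7'
    rw [abs_le] at h6 h7 h7' ⊢
    constructor
    · linarith [h6.1, h7.1, h7'.2]
    · linarith [h6.2, h7.2, h7'.1]
  by_contra hne
  have hpos : 0 < |Φ (0, x) - ∫ s in 0..x, ρ₀ s| := abs_pos.2 (sub_ne_zero.2 hne)
  have := key (|Φ (0, x) - ∫ s in 0..x, ρ₀ s| / 6) (by positivity)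
  linarith

/-- PROOF: `a |ξ (0, x) - x| ≤ |Φb (0, ξ (0, x)) - Φb (0, x)| = |Φ (0, x) - Φb (0, x)|
= |∫ s in 0..x, (ρ₀ - r₀)| ≤ dist1 R ...` -/
theorem xi_zero {γ T a b : ℝ} {r w z ρ u e Φ Φb ξ : ℝ × ℝ → ℝ} {r₀ w₀ z₀ ρ₀ u₀ e₀ : ℝ → ℝ}
    (hγ : 1 < γ) (hT : 0 < T) (ha : 0 < a)
    (hV : IsSol γ T a b r w z) (hV₀ : IsDatum a b r₀ w₀ z₀) (hVatt : Attains T r w z r₀ w₀ z₀)
    (hU : IsSol γ T a b ρ u e) (hU₀ : IsDatum a b ρ₀ u₀ e₀) (hUatt : Attains T ρ u e ρ₀ u₀ e₀)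
    (hΦ : IsPot T a b ρ (fun ζ => ρ ζ * u ζ) Φ) (hΦb : IsPot T a b r (fun ζ => r ζ * w ζ) Φb)
    (hξ : IsXi Φ Φb ξ) {R : ℝ} (hR : 0 < R) (x : ℝ) (hx : x ∈ Ioo (-R) R) :
    a * |ξ (0, x) - x| ≤ dist1 R ρ₀ u₀ e₀ r₀ w₀ z₀ := by
  have h1 : a * |ξ (0, x) - x| ≤ |Φb (0, ξ (0, x)) - Φb (0, x)| := by
    rcases le_total x (ξ (0, x)) with h | h
    · rw [abs_of_nonneg (sub_nonneg.2 h)]
      exact (hΦb.lo 0 _ _ h).trans (le_abs_self _)
    · rw [abs_sub_comm, abs_of_nonneg (sub_nonneg.2 h), abs_sub_comm]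
      exact (hΦb.lo 0 _ _ h).trans (le_abs_self _)
  have h2 : Φb (0, ξ (0, x)) = Φ (0, x) := hξ.eq (0, x)
  rw [h2, pot_zero hγ hT ha hU hU₀ hUatt hΦ x, pot_zero hγ hT ha hV hV₀ hVatt hΦb x] at h1
  exact h1.trans (z77_int hU₀ hV₀ hx)

end Helper73.EU
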