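import Pool.Agent.Helper73.EU.BaseMod
import Pool.Agent.Helper73.EU.Zero
import Pool.Agent.Helper73.EU.Dist

/-!
EU-14. The relative state is small for small times.

PROOF. `base_modulus` with `A = a/b`, the radius `R`, `T' = T/2`, and `ε/4`, gives `δ0`. Let `R' = R`,
`δ = min (a δ0/2) (ε/4)`. For a competitor with `dist1 R U₀ V₀ < δ`: `|ξ (0, x) - x| < δ0/2` on
`(-R, R)` (`xi_zero`), and `|ξ (s, x) - ξ (0, x)| ≤ K s`, so `|ξ (s, x) - x| ≤ δ0` for `s < δ0/(2 (K + 1))`. `IsXi.slope`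
gives the slopes `≥ a/b` of `ξ (s, ·)`. For a.e. small `s` (`Attains` for `U` and `V` with `ε/4`):
`dist1 R (U s) (V (s, ξ)) ≤ dist1 R (U s) U₀ + dist1 R U₀ V₀ + dist1 R V₀ (V s) + dist1 R (V s) (V (s, ξ)) < ε`
(triangle inequality `dist1_triangle`, `IsSol.datum`, `IsSol.datum_xi` in Dist.lean).
-/

open MeasureTheory Set Filter Topology
open scoped ContDiff NNReal

namespace Helper73.EU

theorem start_small {γ T a b L : ℝ} {r w z : ℝ × ℝ → ℝ} {r₀ w₀ z₀ : ℝ → ℝ}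
    (hγ : 1 < γ) (hT : 0 < T) (ha : 0 < a) (hV : IsBase γ T a b L r w z r₀ w₀ z₀)
    {R ε : ℝ} (hR : 0 < R) (hε : 0 < ε) : ∃ δ : ℝ, 0 < δ ∧
    ∀ (ρ u e Φ Φb ξ : ℝ × ℝ → ℝ) (ρ₀ u₀ e₀ : ℝ → ℝ), IsSol γ T a b ρ u e →
      IsDatum a b ρ₀ u₀ e₀ → Attains T ρ u e ρ₀ u₀ e₀ →
      IsPot T a b ρ (fun ζ => ρ ζ * u ζ) Φ → IsPot T a b r (fun ζ => r ζ * w ζ) Φb →
      IsXi Φ Φb ξ → dist1 R ρ₀ u₀ e₀ r₀ w₀ z₀ < δ →
      ∃ τ : ℝ, 0 < τ ∧ τ < T ∧ ∀ᵐ s : ℝ, s ∈ Ioo 0 τ →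
        dist1 R (sl ρ s) (sl u s) (sl e s) (fun x => r (s, ξ (s, x)))
          (fun x => w (s, ξ (s, x))) (fun x => z (s, ξ (s, x))) < ε := by
  have hab : a ≤ b := hV.sol.le hT
  have hb : 0 < b := ha.trans_le hab
  have hA : 0 < a / b := div_pos ha hb
  obtain ⟨δ0, hδ0, hmod⟩ := base_modulus hγ hT ha hV hA hR (half_pos hT) (half_lt_self hT)
    (show 0 < ε / 4 by linarith)
  refine ⟨min (a * δ0 / 2) (ε / 4), lt_min (by positivity) (by linarith), ?_⟩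
  intro ρ u e Φ Φb ξ ρ₀ u₀ e₀ hU hU₀ hatt hΦ hΦb hξ hd
  have hd1 := hd.trans_le (min_le_left _ _)
  have hd2 := hd.trans_le (min_le_right _ _)
  obtain ⟨K, hK⟩ := hξ.lip
  obtain ⟨τ1, hτ1, hτ1T, h1⟩ := hatt R (ε / 4) hR (by linarith)
  obtain ⟨τ2, hτ2, hτ2T, h2⟩ := hV.attains R (ε / 4) hR (by linarith)
  have hK0 : (0 : ℝ) ≤ K := K.2
  have hτ3 : 0 < δ0 / (2 * ((K : ℝ) + 1)) := by positivity
  refine ⟨min (min τ1 τ2) (min (δ0 / (2 * ((K : ℝ) + 1))) (T / 2)),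
    lt_min (lt_min hτ1 hτ2) (lt_min hτ3 (half_pos hT)), ?_, ?_⟩
  · exact (min_le_left _ _).trans_lt ((min_le_left _ _).trans_lt hτ1T)
  filter_upwards [h1, h2, hmod, hU.datum, hV.sol.datum, hV.sol.datum_xi ha hΦ hΦb hξ]
    with s h1 h2 hmod hUd hVd hXd hs
  have hs1 : s < τ1 := hs.2.trans_le ((min_le_left _ _).trans (min_le_left _ _))
  have hs2 : s < τ2 := hs.2.trans_le ((min_le_left _ _).trans (min_le_right _ _))
  have hs3 : s < δ0 / (2 * ((K : ℝ) + 1)) :=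
    hs.2.trans_le ((min_le_right _ _).trans (min_le_left _ _))
  have hs4 : s < T / 2 := hs.2.trans_le ((min_le_right _ _).trans (min_le_right _ _))
  have hsT : s ∈ Ioo 0 T := ⟨hs.1, by linarith⟩
  have e1 := h1 ⟨hs.1, hs1⟩
  have e2 := h2 ⟨hs.1, hs2⟩
  have hUd := hUd hsT
  have hVd := hVd hsT
  have hXd := hXd hsT
  have e3 := hmod ⟨hs.1, hs4⟩ (fun x => ξ (s, x))
    (fun x y hxy => (hξ.slope ha hΦ hΦb s x y hxy).1) (fun x hx => by
      have g1 := xi_zero hγ hT ha hV.sol hV.datum hV.attains hU hU₀ hatt hΦ hΦb hξ hR x hx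
      have g2 : |ξ (0, x) - x| < δ0 / 2 := by
        have g3 : a * |ξ (0, x) - x| < a * (δ0 / 2) := by
          calc a * |ξ (0, x) - x| ≤ _ := g1
            _ < _ := hd1
            _ = a * (δ0 / 2) := by ring
        exact lt_of_mul_lt_mul_left g3 ha.le
      have g4 : |ξ (s, x) - ξ (0, x)| ≤ K * s := by
        have g5 := hK.dist_le_mul (s, x) (0, x)
        rw [Real.dist_eq, Prod.dist_eq] at g5
        simp only [dist_self, Real.dist_eq, sub_zero, abs_of_pos hs.1] at g5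
        rwa [max_eq_left hs.1.le] at g5
      have g6 : K * s ≤ δ0 / 2 := by
        have g7 : s * (2 * ((K : ℝ) + 1)) < δ0 := (lt_div_iff₀ (by positivity)).1 hs3
        nlinarith [hs.1]
      have g8 : |ξ (s, x) - x| ≤ |ξ (s, x) - ξ (0, x)| + |ξ (0, x) - x| := abs_sub_le _ _ _
      linarith)
  have t1 := dist1_triangle (R := R) hUd hU₀ hXd
  have t2 := dist1_triangle (R := R) hU₀ hV.datum hXd
  have t3 := dist1_triangle (R := R) hV.datum hVd hXd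
  rw [dist1_comm] at e2 e3
  linarith

end Helper73.EU
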