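import Pool.Agent.Helper73.EU.Rel
import Pool.Agent.Helper73.EU.Cone
import Pool.Agent.Helper73.EU.Start
import Pool.Agent.Helper73.EU.NearId

/-!
Project EU: the main theorem from the modules.
-/

open MeasureTheory Set Filter Topology
open scoped ContDiff NNReal

namespace Helper73.EU

theorem measurable_hh : Measurable hh := by
  unfold hh; fun_prop

theorem measurable_eta {γ : ℝ} {ρ u e r w z : ℝ × ℝ → ℝ} (h1 : Measurable ρ) (h2 : Measurable u)
    (h3 : Measurable e) (h4 : Measurable r) (h5 : Measurable w) (h6 : Measurable z) :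
    Measurable (fun ζ => eta γ (ρ ζ) (u ζ) (e ζ) (r ζ) (w ζ) (z ζ)) := by
  have := measurable_hh
  unfold eta
  fun_prop

theorem measurable_flux {γ : ℝ} {ρ u e r w z : ℝ × ℝ → ℝ} (h1 : Measurable ρ) (h2 : Measurable u)
    (h3 : Measurable e) (h4 : Measurable r) (h5 : Measurable w) (h6 : Measurable z) :
    Measurable (fun ζ => flux γ (ρ ζ) (u ζ) (e ζ) (r ζ) (w ζ) (z ζ)) := by
  have := measurable_eta (γ := γ) h1 h2 h3 h4 h5 h6
  unfold flux pr
  fun_prop

theorem integral_const_Ioo {x y : ℝ} (h : x ≤ y) (c : ℝ) :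
    ∫ _ in Ioo x y, c = (y - x) * c := by
  rw [setIntegral_const, Measure.real, Real.volume_Ioo, ENNReal.toReal_ofReal (by linarith),
    smul_eq_mul]

theorem main : Statement := by
  intro γ T a b L hγ hT ha r w z r₀ w₀ z₀ hV R T' ε hR hT' hTT hε
  have hab : a ≤ b := hV.sol.le hT
  have hb : 0 < b := lt_of_lt_of_le ha hab
  obtain ⟨C, hC0, hC⟩ := exists_const (γ := γ) (a := a) (b := b) hγ ha
  obtain ⟨M₁, hM₁, hM₁'⟩ := exists_bound (γ := γ) (a := a) (b := b) hγ ha
  -- 1. equicontinuity of the base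
  have hA : 0 < a / b := by positivity
  obtain ⟨δ₁, hδ₁, hmod⟩ := base_modulus hγ hT ha hV hA hR hT' hTT (half_pos hε)
  -- 2. small in L1 implies small
  obtain ⟨μ, hμ, hsup⟩ := exists_sup_le (K := b / a + 1) (R := R) (by positivity) hR hδ₁
  -- 3. constants
  set σ : ℝ := min (ε / 2) (μ / (4 * (1 + b / a) * T)) with hσ
  have hσ0 : 0 < σ := by positivity
  set κ : ℝ := σ / (12 * R + 1) with hκ
  have hκ0 : 0 < κ := by positivity
  set E : ℝ := Real.exp (|L| * C * T) with hE
  have hE0 : 0 < E := Real.exp_pos _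
  set R₁ : ℝ := R + C * T + 1 with hR₁
  have hR₁0 : 0 < R₁ := by positivity
  have hRR : R ≤ R₁ := by have : 0 ≤ C * T := by positivity
                          linarith
  obtain ⟨δ₂, hδ₂, hstart⟩ := start_small hγ hT ha hV (R := R₁) hR₁0
    (ε := κ * σ / (2 * C ^ 2 * E + 1)) (by positivity)
  refine ⟨R₁, min δ₂ (a * μ / (4 * R)), hR₁0, by positivity, ?_⟩
  intro ρ u e ρ₀ u₀ e₀ hU hU₀ hUatt hdist
  -- potentials
  obtain ⟨Φ, hΦ⟩ := exists_isPot (M := M₁) hT ha hU.meas_ρ (hU.meas_ρ.mul hU.meas_u)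
    (by filter_upwards [hU.box] with ζ h hζ
        have h1 := h hζ
        exact ⟨h1.1, h1.2.1, (hM₁' _ _ _ h1).2.1⟩) hU.mass
  obtain ⟨Φb, hΦb⟩ := exists_isPot (M := M₁) hT ha hV.sol.meas_ρ
    (hV.sol.meas_ρ.mul hV.sol.meas_u)
    (by filter_upwards [hV.sol.box] with ζ h hζ
        have h1 := h hζ
        exact ⟨h1.1, h1.2.1, (hM₁' _ _ _ h1).2.1⟩) hV.sol.mass
  obtain ⟨ξ, hξ⟩ := exists_xi ha hΦ hΦb
  obtain ⟨Kξ, hKξ⟩ := hξ.lip
  have hmξ : Measurable (fun ζ : ℝ × ℝ => (ζ.1, ξ ζ)) :=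
    measurable_fst.prodMk hKξ.continuous.measurable
  -- composite measurable functions
  have hr' := hV.sol.meas_ρ.comp hmξ
  have hw' := hV.sol.meas_u.comp hmξ
  have hz' := hV.sol.meas_e.comp hmξ
  have hbox := hξ.ae_comp ha hΦ hΦb hV.sol.box
  -- 4. the estimate on cones
  have hηm : Measurable (Eta γ ρ u e r w z ξ) :=
    measurable_eta hU.meas_ρ hU.meas_u hU.meas_e hr' hw' hz'
  have hQm : Measurable (Flux γ ρ u e r w z ξ) :=
    measurable_flux hU.meas_ρ hU.meas_u hU.meas_e hr' hw' hz'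
  have hηb : ∀ᵐ ζ : ℝ × ℝ, ζ ∈ Strip T → 0 ≤ Eta γ ρ u e r w z ξ ζ ∧
      Eta γ ρ u e r w z ξ ζ ≤ C * (4 * b) ∧
      |Flux γ ρ u e r w z ξ ζ| ≤ C * Eta γ ρ u e r w z ξ ζ := by
    filter_upwards [hU.box, hbox] with ζ h1 h2 hζ
    have h1 := h1 hζ
    have h2 := h2 hζ
    obtain ⟨c1, c2, c3, -, -, -⟩ := hC _ _ _ _ _ _ h1 h2
    refine ⟨c1, c2.trans ?_, c3⟩
    gcongr
    obtain ⟨a1, a2, a3, a4, a5⟩ := h1
    obtain ⟨b1, b2, b3, b4, b5⟩ := h2
    have e1 : |ρ ζ - r (ζ.1, ξ ζ)| ≤ b := by rw [abs_le]; constructor <;> linarith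
    have e2 : |u ζ - w (ζ.1, ξ ζ)| ≤ 2 * b := by
      have := abs_sub (u ζ) (w (ζ.1, ξ ζ)); linarith
    have e3 : |e ζ - z (ζ.1, ξ ζ)| ≤ b := by rw [abs_le]; constructor <;> linarith
    linarith
  have hcone := cone (R := R) hT hC0.le (C' := |L| * C) (by positivity) hR hηm hQm hηb
    (fun φ hφ hφ0 => by
      have := relative hγ hT ha hV hU hΦ hΦb hξ (fun ρ u e r w z h1 h2 => by
        obtain ⟨-, -, -, c4, c5, -⟩ := hC _ _ _ _ _ _ h1 h2
        exact ⟨c4, c5⟩) hφ hφ0
      exact this)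
  -- 5. small relative energy at small times
  have hdist1 : dist1 R₁ ρ₀ u₀ e₀ r₀ w₀ z₀ < δ₂ := hdist.trans_le (min_le_left _ _)
  have hdist2 : dist1 R₁ ρ₀ u₀ e₀ r₀ w₀ z₀ < a * μ / (4 * R) :=
    hdist.trans_le (min_le_right _ _)
  obtain ⟨τ, hτ0, hτT, hτ⟩ := hstart ρ u e Φ Φb ξ ρ₀ u₀ e₀ hU hU₀ hUatt hΦ hΦb hξ hdist1
  -- 6. smallness of the relative energy at almost all times
  have hbox_slice := ae_slice hbox
  have hUbox_slice := ae_slice hU.box
  have hsmall : ∀ᵐ t : ℝ, t ∈ Ioo 0 T →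
      dist1 R (sl ρ t) (sl u t) (sl e t) (fun x => r (t, ξ (t, x)))
        (fun x => w (t, ξ (t, x))) (fun x => z (t, ξ (t, x))) ≤ σ := by
    filter_upwards [hcone, hbox_slice, hUbox_slice, hU.datum,
      hV.sol.datum_xi ha hΦ hΦb hξ] with t ht1 ht2 ht3 ht4 ht5 htT
    have ht1 := ht1 htT
    have ht2 := ht2 htT
    have ht3 := ht3 htT
    have ht4 := ht4 htT
    have ht5 := ht5 htT
    -- choose a good small time
    have hex : ∃ s : ℝ, s ∈ Ioo 0 (min t τ) ∧
        (∫ x in Ioo (-R) R, Eta γ ρ u e r w z ξ (t, x) ≤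
          E * ∫ x in Ioo (-R₁) R₁, Eta γ ρ u e r w z ξ (s, x)) ∧
        dist1 R₁ (sl ρ s) (sl u s) (sl e s) (fun x => r (s, ξ (s, x)))
          (fun x => w (s, ξ (s, x))) (fun x => z (s, ξ (s, x))) < κ * σ / (2 * C ^ 2 * E + 1) ∧
        (∀ᵐ x : ℝ, Box a b (r (s, ξ (s, x))) (w (s, ξ (s, x))) (z (s, ξ (s, x)))) ∧
        (∀ᵐ x : ℝ, Box a b (ρ (s, x)) (u (s, x)) (e (s, x))) ∧
        IsDatum a b (sl ρ s) (sl u s) (sl e s) ∧
        IsDatum a b (fun x => r (s, ξ (s, x))) (fun x => w (s, ξ (s, x)))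
          (fun x => z (s, ξ (s, x))) := by
      have hpos : 0 < min t τ := lt_min htT.1 hτ0
      have hae : ∀ᵐ s : ℝ, s ∈ Ioo 0 (min t τ) →
          ((∫ x in Ioo (-R) R, Eta γ ρ u e r w z ξ (t, x) ≤
          E * ∫ x in Ioo (-R₁) R₁, Eta γ ρ u e r w z ξ (s, x)) ∧
        dist1 R₁ (sl ρ s) (sl u s) (sl e s) (fun x => r (s, ξ (s, x)))
          (fun x => w (s, ξ (s, x))) (fun x => z (s, ξ (s, x))) < κ * σ / (2 * C ^ 2 * E + 1) ∧
        (∀ᵐ x : ℝ, Box a b (r (s, ξ (s, x))) (w (s, ξ (s, x))) (z (s, ξ (s, x)))) ∧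
        (∀ᵐ x : ℝ, Box a b (ρ (s, x)) (u (s, x)) (e (s, x))) ∧
        IsDatum a b (sl ρ s) (sl u s) (sl e s) ∧
        IsDatum a b (fun x => r (s, ξ (s, x))) (fun x => w (s, ξ (s, x)))
          (fun x => z (s, ξ (s, x)))) := by
        filter_upwards [ht1, hτ, hbox_slice, hUbox_slice, hU.datum,
          hV.sol.datum_xi ha hΦ hΦb hξ] with s h1 h2 h3 h4 h5 h6 hs
        have hsT : s ∈ Ioo 0 T :=
          ⟨hs.1, hs.2.trans_le ((min_le_left _ _).trans htT.2.le)⟩
        exact ⟨h1 ⟨hs.1, hs.2.trans_le (min_le_left _ _)⟩,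
          h2 ⟨hs.1, hs.2.trans_le (min_le_right _ _)⟩, h3 hsT, h4 hsT, h5 hsT, h6 hsT⟩
      by_contra hno
      push Not at hno
      have hnull : ∀ᵐ s : ℝ, s ∉ Ioo 0 (min t τ) := by
        filter_upwards [hae] with s h1 h2
        obtain ⟨a1, a2, a3, a4, a5, a6⟩ := h1 h2
        exact hno s h2 a1 a2 a3 a4 a5 a6
      have h2 : volume (Ioo 0 (min t τ)) = 0 := by
        rw [← compl_mem_ae_iff]; exact hnull
      rw [Real.volume_Ioo] at h2
      simp only [sub_zero, ENNReal.ofReal_eq_zero] at h2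
      linarith
    obtain ⟨s, hs, hs1, hs2, hs3, hs4, hs5, hs6⟩ := hex
    -- integrability of the relative energy on slices
    have hintη : ∀ {t' R' : ℝ}, (∀ᵐ x : ℝ, Box a b (r (t', ξ (t', x))) (w (t', ξ (t', x)))
        (z (t', ξ (t', x)))) → (∀ᵐ x : ℝ, Box a b (ρ (t', x)) (u (t', x)) (e (t', x))) →
        IntegrableOn (fun x => Eta γ ρ u e r w z ξ (t', x)) (Ioo (-R') R') := by
      intro t' R' h1 h2
      apply integrableOn_Ioo_of_ae (M := C * (4 * b)) (hηm.comp measurable_prodMk_left)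
      filter_upwards [h1, h2] with x h1 h2
      obtain ⟨c1, c2, -, -, -, -⟩ := hC _ _ _ _ _ _ h2 h1
      show |Eta γ ρ u e r w z ξ (t', x)| ≤ _
      rw [abs_of_nonneg (show 0 ≤ Eta γ ρ u e r w z ξ (t', x) from c1)]
      refine le_trans c2 ?_
      gcongr
      obtain ⟨a1, a2, a3, a4, a5⟩ := h2
      obtain ⟨b1, b2, b3, b4, b5⟩ := h1
      have e1 : |ρ (t', x) - r (t', ξ (t', x))| ≤ b := by rw [abs_le]; constructor <;> linarith
      have e2 : |u (t', x) - w (t', ξ (t', x))| ≤ 2 * b := by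
        have := abs_sub (u (t', x)) (w (t', ξ (t', x))); linarith
      have e3 : |e (t', x) - z (t', ξ (t', x))| ≤ b := by rw [abs_le]; constructor <;> linarith
      linarith
    -- energy at time s
    have hEs : ∫ x in Ioo (-R₁) R₁, Eta γ ρ u e r w z ξ (s, x) ≤
        C * (κ * σ / (2 * C ^ 2 * E + 1)) := by
      calc ∫ x in Ioo (-R₁) R₁, Eta γ ρ u e r w z ξ (s, x)
          ≤ ∫ x in Ioo (-R₁) R₁, C * (|sl ρ s x - r (s, ξ (s, x))| +
              |sl u s x - w (s, ξ (s, x))| + |sl e s x - z (s, ξ (s, x))|) := by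
            apply integral_mono_ae (hintη hs3 hs4)
              ((integrableOn_dist hs5 hs6).const_mul C)
            apply ae_restrict_of_ae
            filter_upwards [hs3, hs4] with x h1 h2
            exact (hC _ _ _ _ _ _ h2 h1).2.1
        _ = C * dist1 R₁ (sl ρ s) (sl u s) (sl e s) (fun x => r (s, ξ (s, x)))
          (fun x => w (s, ξ (s, x))) (fun x => z (s, ξ (s, x))) := by
            unfold dist1; rw [integral_const_mul]
        _ ≤ _ := by gcongr
    have hEt : ∫ x in Ioo (-R) R, Eta γ ρ u e r w z ξ (t, x) ≤ κ * σ / (2 * C) := by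
      refine hs1.trans ?_
      calc E * ∫ x in Ioo (-R₁) R₁, Eta γ ρ u e r w z ξ (s, x)
          ≤ E * (C * (κ * σ / (2 * C ^ 2 * E + 1))) := by gcongr
        _ ≤ κ * σ / (2 * C) := by
            rw [le_div_iff₀ (by positivity)]
            have h1 : E * (C * (κ * σ / (2 * C ^ 2 * E + 1))) * (2 * C) =
                κ * σ * (2 * C ^ 2 * E / (2 * C ^ 2 * E + 1)) := by ring
            rw [h1]
            have h2 : 2 * C ^ 2 * E / (2 * C ^ 2 * E + 1) ≤ 1 := by
              rw [div_le_one (by positivity)]; linarith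
            have h3 : 0 ≤ κ * σ := by positivity
            nlinarith
    -- from the energy to the distance
    calc dist1 R (sl ρ t) (sl u t) (sl e t) (fun x => r (t, ξ (t, x)))
            (fun x => w (t, ξ (t, x))) (fun x => z (t, ξ (t, x)))
        ≤ ∫ x in Ioo (-R) R, (3 * κ + C / κ * Eta γ ρ u e r w z ξ (t, x)) := by
          unfold dist1
          apply integral_mono_ae (integrableOn_dist ht4 ht5)
            ((integrableOn_const (by simp)).add ((hintη ht2 ht3).const_mul _))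
          apply ae_restrict_of_ae
          filter_upwards [ht2, ht3] with x h1 h2
          obtain ⟨-, -, -, -, -, c6⟩ := hC _ _ _ _ _ _ h2 h1
          have key : ∀ y : ℝ, |y| ≤ κ + y ^ 2 / κ := by
            intro y
            have : 0 ≤ (|y| - κ) ^ 2 + |y| * κ := by positivity
            have h3 : κ * |y| ≤ κ * κ + y ^ 2 := by nlinarith [sq_abs y]
            have h4 : κ + y ^ 2 / κ = (κ * κ + y ^ 2) / κ := by field_simp
            rw [h4, le_div_iff₀ hκ0]; linarith
          have k1 := key (sl ρ t x - r (t, ξ (t, x)))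
          have k2 := key (sl u t x - w (t, ξ (t, x)))
          have k3 := key (sl e t x - z (t, ξ (t, x)))
          have k4 : ((sl ρ t x - r (t, ξ (t, x))) ^ 2 + (sl u t x - w (t, ξ (t, x))) ^ 2 +
              (sl e t x - z (t, ξ (t, x))) ^ 2) / κ ≤ C / κ * Eta γ ρ u e r w z ξ (t, x) := by
            rw [div_mul_eq_mul_div]
            gcongr
            exact c6
          have k5 : ((sl ρ t x - r (t, ξ (t, x))) ^ 2 + (sl u t x - w (t, ξ (t, x))) ^ 2 +
              (sl e t x - z (t, ξ (t, x))) ^ 2) / κ =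
              (sl ρ t x - r (t, ξ (t, x))) ^ 2 / κ + (sl u t x - w (t, ξ (t, x))) ^ 2 / κ +
              (sl e t x - z (t, ξ (t, x))) ^ 2 / κ := by ring
          simp only [Pi.add_apply]
          linarith
      _ = 2 * R * (3 * κ) + C / κ * ∫ x in Ioo (-R) R, Eta γ ρ u e r w z ξ (t, x) := by
          have hi1 : Integrable (fun _ : ℝ => 3 * κ) (volume.restrict (Ioo (-R) R)) :=
            integrableOn_const (by simp)
          have hi2 : Integrable (fun x => C / κ * Eta γ ρ u e r w z ξ (t, x))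
              (volume.restrict (Ioo (-R) R)) := (hintη ht2 ht3).const_mul _
          rw [integral_add hi1 hi2, integral_const_Ioo (by linarith), integral_const_mul]
          ring
      _ ≤ 2 * R * (3 * κ) + C / κ * (κ * σ / (2 * C)) := by gcongr
      _ = 6 * R * κ + σ / 2 := by field_simp; ring
      _ ≤ σ := by
          have : 12 * R * κ ≤ σ := by
            rw [hκ]
            have : 12 * R * (σ / (12 * R + 1)) = σ * (12 * R / (12 * R + 1)) := by ring
            rw [this]
            have h2 : 12 * R / (12 * R + 1) ≤ 1 := by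
              rw [div_le_one (by positivity)]; linarith
            nlinarith
          linarith
  -- 7. conclusion
  have hξx : ∀ t x y : ℝ, |(ξ (t, x) - x) - (ξ (t, y) - y)| ≤ (b / a + 1) * |x - y| := by
    intro t
    have h1 : ∀ x y : ℝ, x ≤ y →
        |(ξ (t, x) - x) - (ξ (t, y) - y)| ≤ (b / a + 1) * |x - y| := by
      intro x y hxy
      obtain ⟨s1, s2⟩ := hξ.slope ha hΦ hΦb t x y hxy
      rw [abs_sub_comm x y, abs_of_nonneg (sub_nonneg.2 hxy), abs_le]
      have h3 : 0 ≤ a / b * (y - x) := mul_nonneg (by positivity) (sub_nonneg.2 hxy)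
      have h4 : 0 ≤ b / a * (y - x) := mul_nonneg (by positivity) (sub_nonneg.2 hxy)
      constructor <;> nlinarith
    intro x y
    rcases le_total x y with h | h
    · exact h1 x y h
    · have := h1 y x h
      rw [abs_sub_comm, abs_sub_comm x y]
      exact this
  have hnear : ∀ t ∈ Ioo 0 T, ∀ x ∈ Ioo (-R) R, |ξ (t, x) - x| < δ₁ := by
    intro t ht
    apply hsup (fun x => ξ (t, x) - x) (hξx t)
    refine lt_of_le_of_lt (near_id hγ hT ha hV.sol hU hΦ hΦb hξ hR ht) ?_
    have h0 : ∫ x in Ioo (-R) R, |ξ (0, x) - x| ≤ μ / 2 := by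
      calc ∫ x in Ioo (-R) R, |ξ (0, x) - x| ≤ ∫ x in Ioo (-R) R, μ / (4 * R) := by
            apply setIntegral_mono_on
            · have hc : Continuous (fun x => |ξ (0, x) - x|) := by
                have := hKξ.continuous
                fun_prop
              exact (hc.integrableOn_Icc (a := -R) (b := R)).mono_set Ioo_subset_Icc_self
            · exact integrableOn_const (by simp)
            · exact measurableSet_Ioo
            · intro x hx
              have h1 := xi_zero hγ hT ha hV.sol hV.datum hV.attains hU hU₀ hUatt hΦ hΦb hξ hR₁0 x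
                ⟨by linarith [hx.1], by linarith [hx.2]⟩
              have h2 : a * |ξ (0, x) - x| ≤ a * μ / (4 * R) := h1.trans hdist2.le
              have h3 : a * μ / (4 * R) = a * (μ / (4 * R)) := by ring
              rw [h3] at h2
              exact le_of_mul_le_mul_left h2 ha
        _ = μ / 2 := by
            rw [integral_const_Ioo (by linarith)]
            field_simp
            ring
    have h1 : ∫ s in Ioo 0 t, ∫ x in Ioo (-R) R,
        (|ρ (s, x) - r (s, ξ (s, x))| + |u (s, x) - w (s, ξ (s, x))|) ≤ T * σ := by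
      calc ∫ s in Ioo 0 t, ∫ x in Ioo (-R) R,
        (|ρ (s, x) - r (s, ξ (s, x))| + |u (s, x) - w (s, ξ (s, x))|)
          ≤ ∫ s in Ioo 0 t, σ := by
            apply integral_mono_of_nonneg
            · exact Eventually.of_forall fun s => integral_nonneg fun x => by positivity
            · exact integrableOn_const (by simp)
            · rw [EventuallyLE, ae_restrict_iff' measurableSet_Ioo]
              filter_upwards [hsmall, hU.datum, hV.sol.datum_xi ha hΦ hΦb hξ] with s h1 h2 h3 hs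
              have hsT : s ∈ Ioo 0 T := ⟨hs.1, hs.2.trans ht.2⟩
              refine le_trans ?_ (h1 hsT)
              unfold dist1
              apply integral_mono_of_nonneg
              · exact Eventually.of_forall fun x => by positivity
              · exact integrableOn_dist (h2 hsT) (h3 hsT)
              · refine Eventually.of_forall fun x => ?_
                show _ ≤ _
                simp only [sl]
                have := abs_nonneg (e (s, x) - z (s, ξ (s, x)))
                linarith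
        _ = t * σ := by
            rw [integral_const_Ioo ht.1.le, sub_zero]
        _ ≤ T * σ := by
            have := ht.2.le
            gcongr
    have h2 : (1 + b / a) * (T * σ) ≤ μ / 4 := by
      have h3 : σ ≤ μ / (4 * (1 + b / a) * T) := min_le_right _ _
      calc (1 + b / a) * (T * σ) ≤ (1 + b / a) * (T * (μ / (4 * (1 + b / a) * T))) := by gcongr
        _ = μ / 4 := by field_simp
    have h3 : (1 + b / a) * ∫ s in Ioo 0 t, ∫ x in Ioo (-R) R,
        (|ρ (s, x) - r (s, ξ (s, x))| + |u (s, x) - w (s, ξ (s, x))|) ≤ μ / 4 := by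
      refine le_trans ?_ h2
      gcongr
    linarith
  filter_upwards [hmod, hsmall, hU.datum, hV.sol.datum,
    hV.sol.datum_xi ha hΦ hΦb hξ] with t h1 h2 h3 h4 h5 ht
  have htT : t ∈ Ioo 0 T := ⟨ht.1, ht.2.trans hTT⟩
  have g1 := h1 ht (fun x => ξ (t, x))
    (fun x y hxy => (hξ.slope ha hΦ hΦb t x y hxy).1) (fun x hx => (hnear t htT x hx).le)
  have g2 := h2 htT
  have g3 := dist1_triangle (R := R) (h3 htT) (h5 htT) (h4 htT)
  have g4 : σ ≤ ε / 2 := min_le_left _ _
  linarith

end Helper73.EU
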