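import Pool.Agent.Helper73.EU.PotA

/-!
EU-02b. Potentials: if `ρ_t + m_x = 0` in the strip, `a ≤ ρ ≤ b`, `|m| ≤ M`, there is a Lipschitz
function `Φ` on the whole plane with slopes in `[a, b]` in `x` and derivative `(-m, ρ)` almost
everywhere on the strip.

PROOF. 1. Let `F n`, `P n`, `Q n` be given by `exists_mollified` (PotA.lean), on `Inner T n`.
For `(t, x), (t, y), (t', x) ∈ Inner T n` (fundamental theorem of calculus along horizontal and
vertical segments): `F n (t, y) - F n (t, x) = ∫ s in x..y, P n (t, s)`,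
`F n (t', x) - F n (t, x) = -∫ s in t..t', Q n (s, x)`, hence `F n` is `(b + M)`-Lipschitz on `Inner T n`,
with slopes in `[a, b]` in `x`.
2. Convergence: for a.e. `t ∈ (0, T)` (all `x, y`) `∫ s in x..y, P n (t, s) → ∫ s in x..y, ρ (t, s)`, for a.e. `x`
(all `t, t'` in `(0, T)`) `∫ s in t..t', Q n (s, x) → ∫ s in t..t', m (s, x)` (`ae_slice`, `ae_slice'`,
dominated convergence, the bounds of 1 for `n` large). Choose one good `xs`, and let
`G n z = F n z - F n (T/2, xs)`. For a.e. `t` and all `x` the sequence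
`G n (t, x) = -∫ s in T/2..t, Q n (s, xs) + ∫ s in xs..x, P n (t, s)` converges. Being equi-Lipschitz (for
`n` large, near every point of the strip), `G n z` is a Cauchy sequence for EVERY `z` of the strip (the good
`(t, x)` are dense); `Φ0 z` := its limit: `(b + M)`-Lipschitz on the strip, slopes in `[a, b]`.
3. Extension: `LipschitzOnWith.extend_real` gives `Φ1` on the plane, by continuity its slopes for
`t ∈ [0, T]` are in `[a, b]`; `Φ (t, x) = Φ1 (max 0 (min t T), x) - Φ1 (0, 0)`.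
4. Derivative: for a.e. `t ∈ (0, T)` and all `x, y`: `Φ (t, y) - Φ (t, x) = ∫ s in x..y, ρ (t, s)`
(limit of 1), so (`IntervalIntegrable.ae_hasDerivAt_integral` or `LocallyIntegrable.ae_hasDerivAt_integral`
applied to `ρ (t, ·)`, bounded a.e.) for a.e. `x` the
function `Φ (t, ·)` has derivative `ρ (t, x)`; with Rademacher (`LipschitzWith.ae_differentiableAt`)
`dx Φ = ρ` a.e. on the strip (the set where it fails is measurable, Fubini:
`Measure.ae_prod_iff_ae_ae` or `Measure.measure_prod_null`). Likewise for a.e. `x` and all `t, t' ∈ (0, T)`: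
`Φ (t', x) - Φ (t, x) = -∫ s in t..t', m (s, x)`, so `dt Φ = -m` a.e. on the strip.
-/

open MeasureTheory Set Filter Topology
open scoped ContDiff NNReal

namespace Helper73.EU

/-- `Φ` is a Lipschitz potential of the divergence free field `(ρ, m)` of the strip, with slopes
in `[a, b]`. -/
structure IsPot (T a b : ℝ) (ρ m Φ : ℝ × ℝ → ℝ) : Prop where
  lip : ∃ K : ℝ≥0, LipschitzWith K Φ
  zero : Φ (0, 0) = 0
  lo : ∀ t x y : ℝ, x ≤ y → a * (y - x) ≤ Φ (t, y) - Φ (t, x)
  hi : ∀ t x y : ℝ, x ≤ y → Φ (t, y) - Φ (t, x) ≤ b * (y - x)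
  deriv : ∀ᵐ z : ℝ × ℝ, z ∈ Strip T →
    DifferentiableAt ℝ Φ z ∧ dt Φ z = -(m z) ∧ dx Φ z = ρ z

theorem IsPot.mono {T a b a' b' : ℝ} {ρ m Φ : ℝ × ℝ → ℝ} (h : IsPot T a b ρ m Φ)
    (ha : a' ≤ a) (hb : b ≤ b') : IsPot T a' b' ρ m Φ := by
  refine ⟨h.lip, h.zero, fun t x y hxy => ?_, fun t x y hxy => ?_, h.deriv⟩
  · have := h.lo t x y hxy
    nlinarith
  · have := h.hi t x y hxy
    nlinarith

private theorem h45_inner {T t : ℝ} (h0 : 0 < t) (hT : t < T) :
    ∀ᶠ n : ℕ in atTop, 1 / ((n : ℝ) + 1) < t ∧ t < T - 1 / ((n : ℝ) + 1) := by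
  have h1 := tendsto_one_div_add_atTop_nhds_zero_nat (𝕜 := ℝ)
  filter_upwards [h1.eventually_lt_const h0, h1.eventually_lt_const (sub_pos.2 hT)] with n h2 h3
  exact ⟨h2, by linarith⟩

private theorem h45_inner_mem {T : ℝ} {z : ℝ × ℝ} (hz : z ∈ Strip T) :
    ∀ᶠ n : ℕ in atTop, z ∈ Inner T n := h45_inner hz.1 hz.2

private theorem h45_convex_inner (T : ℝ) (n : ℕ) : Convex ℝ (Inner T n) := by
  have h : Inner T n = Ioo (1 / ((n : ℝ) + 1)) (T - 1 / ((n : ℝ) + 1)) ×ˢ univ := by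
    ext z
    simp [Inner]
  rw [h]
  exact (convex_Ioo _ _).prod convex_univ

private theorem h45_norm_le {p q b M : ℝ} (hp : |p| ≤ b) (hq : |q| ≤ M) :
    ‖(-q) • ContinuousLinearMap.fst ℝ ℝ ℝ + p • ContinuousLinearMap.snd ℝ ℝ ℝ‖ ≤ M + b := by
  refine (norm_add_le _ _).trans (add_le_add ?_ ?_)
  · rw [norm_smul, Real.norm_eq_abs, abs_neg]
    calc |q| * ‖ContinuousLinearMap.fst ℝ ℝ ℝ‖ ≤ |q| * 1 :=
          mul_le_mul_of_nonneg_left (ContinuousLinearMap.norm_fst_le ..) (abs_nonneg _)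
      _ ≤ M := by rw [mul_one]; exact hq
  · rw [norm_smul, Real.norm_eq_abs]
    calc |p| * ‖ContinuousLinearMap.snd ℝ ℝ ℝ‖ ≤ |p| * 1 :=
          mul_le_mul_of_nonneg_left (ContinuousLinearMap.norm_snd_le ..) (abs_nonneg _)
      _ ≤ b := by rw [mul_one]; exact hp

/-- From slices in time to the strip. -/
private theorem h45_of_slice {T : ℝ} {P : ℝ × ℝ → Prop}
    (hm : MeasurableSet {z : ℝ × ℝ | z ∈ Strip T → P z})
    (h : ∀ᵐ t : ℝ, t ∈ Ioo 0 T → ∀ᵐ x : ℝ, P (t, x)) :
    ∀ᵐ z : ℝ × ℝ, z ∈ Strip T → P z := by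
  rw [Measure.volume_eq_prod, Measure.ae_prod_iff_ae_ae hm]
  filter_upwards [h] with t ht
  by_cases htT : t ∈ Ioo 0 T
  · filter_upwards [ht htT] with x hx _
    exact hx
  · filter_upwards with x hx
    exact absurd hx htT

/-- From slices in space to the strip. -/
private theorem h45_of_slice' {T : ℝ} {P : ℝ × ℝ → Prop}
    (hm : MeasurableSet {z : ℝ × ℝ | z ∈ Strip T → P z})
    (h : ∀ᵐ x : ℝ, ∀ᵐ t : ℝ, t ∈ Ioo 0 T → P (t, x)) :
    ∀ᵐ z : ℝ × ℝ, z ∈ Strip T → P z := by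
  have hm' : MeasurableSet {z : ℝ × ℝ | z.swap ∈ Strip T → P z.swap} := measurable_swap hm
  have h2 : ∀ᵐ z : ℝ × ℝ ∂((volume : Measure ℝ).prod volume), z.swap ∈ Strip T → P z.swap := by
    rw [Measure.ae_prod_iff_ae_ae hm']
    filter_upwards [h] with x hx
    filter_upwards [hx] with t ht htT
    exact ht htT
  have h3 := (Measure.measurePreserving_swap (μ := (volume : Measure ℝ))
      (ν := (volume : Measure ℝ))).quasiMeasurePreserving.ae h2
  rw [Measure.volume_eq_prod]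
  exact h3

private theorem h45_locInt {f : ℝ → ℝ} (hf : Measurable f) {C : ℝ} (h : ∀ᵐ x : ℝ, |f x| ≤ C) :
    LocallyIntegrable f := by
  have h1 : MemLp f ⊤ (volume : Measure ℝ) :=
    memLp_top_of_bound hf.aestronglyMeasurable C (by simpa [Real.norm_eq_abs] using h)
  exact h1.locallyIntegrable le_top

private theorem h45_hasDerivAt_dx {Φ : ℝ × ℝ → ℝ} {t x : ℝ} (hd : DifferentiableAt ℝ Φ (t, x)) :
    HasDerivAt (fun y : ℝ => Φ (t, y)) (dx Φ (t, x)) x := by
  have h1 : HasDerivAt (fun y : ℝ => ((t, y) : ℝ × ℝ)) ((0 : ℝ), (1 : ℝ)) x :=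
    (hasDerivAt_const x t).prodMk (hasDerivAt_id x)
  exact HasFDerivAt.comp_hasDerivAt x (f := fun y : ℝ => ((t, y) : ℝ × ℝ)) hd.hasFDerivAt h1

private theorem h45_hasDerivAt_dt {Φ : ℝ × ℝ → ℝ} {t x : ℝ} (hd : DifferentiableAt ℝ Φ (t, x)) :
    HasDerivAt (fun s : ℝ => Φ (s, x)) (dt Φ (t, x)) t := by
  have h1 : HasDerivAt (fun s : ℝ => ((s, x) : ℝ × ℝ)) ((1 : ℝ), (0 : ℝ)) t :=
    (hasDerivAt_id t).prodMk (hasDerivAt_const t x)
  exact HasFDerivAt.comp_hasDerivAt t (f := fun s : ℝ => ((s, x) : ℝ × ℝ)) hd.hasFDerivAt h1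

/-- The limit potential on the open strip. -/
private theorem h45_limit {T a b M : ℝ} {ρ m : ℝ × ℝ → ℝ} (hT : 0 < T) (ha : 0 < a)
    {F P Q : ℕ → ℝ × ℝ → ℝ} (hP : ∀ n, Continuous (P n)) (hQ : ∀ n, Continuous (Q n))
    (hF : ∀ n, ∀ z ∈ Inner T n, HasFDerivAt (F n)
        ((-(Q n z)) • ContinuousLinearMap.fst ℝ ℝ ℝ + P n z • ContinuousLinearMap.snd ℝ ℝ ℝ) z)
    (hB : ∀ n, ∀ z ∈ Inner T n, a ≤ P n z ∧ P n z ≤ b ∧ |Q n z| ≤ M)
    (hlim : ∀ᵐ z : ℝ × ℝ, z ∈ Strip T → Tendsto (fun n => P n z) atTop (𝓝 (ρ z)) ∧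
        Tendsto (fun n => Q n z) atTop (𝓝 (m z))) :
    ∃ (K : ℝ≥0) (Φ : ℝ × ℝ → ℝ), LipschitzOnWith K Φ (Strip T) ∧
      (∀ t ∈ Ioo 0 T, ∀ x y : ℝ, x ≤ y → a * (y - x) ≤ Φ (t, y) - Φ (t, x) ∧
        Φ (t, y) - Φ (t, x) ≤ b * (y - x)) ∧
      (∀ᵐ t : ℝ, t ∈ Ioo 0 T → ∀ x y : ℝ, Φ (t, y) - Φ (t, x) = ∫ s in x..y, ρ (t, s)) ∧
      (∀ᵐ x : ℝ, ∀ t ∈ Ioo 0 T, ∀ t' ∈ Ioo 0 T,
        Φ (t', x) - Φ (t, x) = ∫ s in t..t', -(m (s, x))) := by
  -- the Lipschitz bound
  let K : ℝ≥0 := ⟨|M| + |b|, by positivity⟩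
  have hPabs : ∀ n, ∀ z ∈ Inner T n, |P n z| ≤ |b| := by
    intro n z hz
    obtain ⟨h1, h2, _⟩ := hB n z hz
    have h3 : 0 ≤ P n z := ha.le.trans h1
    rw [abs_of_nonneg h3]
    exact h2.trans (le_abs_self b)
  have hLip : ∀ n, LipschitzOnWith K (F n) (Inner T n) := by
    intro n
    refine (h45_convex_inner T n).lipschitzOnWith_of_nnnorm_hasFDerivWithin_le
      (fun z hz => (hF n z hz).hasFDerivWithinAt) (fun z hz => ?_)
    rw [← NNReal.coe_le_coe, coe_nnnorm]
    exact h45_norm_le (hPabs n z hz) ((hB n z hz).2.2.trans (le_abs_self M))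
  have hdist : ∀ z ∈ Strip T, ∀ z' ∈ Strip T,
      ∀ᶠ n : ℕ in atTop, |F n z - F n z'| ≤ K * dist z z' := by
    intro z hz z' hz'
    filter_upwards [h45_inner_mem hz, h45_inner_mem hz'] with n h1 h2
    have := (hLip n).dist_le_mul z h1 z' h2
    rwa [Real.dist_eq] at this
  -- fundamental theorem of calculus
  have hftc : ∀ n : ℕ, ∀ t : ℝ, 1 / ((n : ℝ) + 1) < t ∧ t < T - 1 / ((n : ℝ) + 1) → ∀ x y : ℝ,
      ∫ s in x..y, P n (t, s) = F n (t, y) - F n (t, x) := by
    intro n t ht x y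
    refine intervalIntegral.integral_eq_sub_of_hasDerivAt (f := fun s => F n (t, s)) ?_ ?_
    · intro s _
      have hd := hF n (t, s) ht
      have h1 : HasDerivAt (fun y : ℝ => ((t, y) : ℝ × ℝ)) ((0 : ℝ), (1 : ℝ)) s :=
        (hasDerivAt_const s t).prodMk (hasDerivAt_id s)
      have h2 : HasDerivAt (fun s => F n (t, s)) _ s :=
        HasFDerivAt.comp_hasDerivAt s (f := fun y : ℝ => ((t, y) : ℝ × ℝ)) hd h1
      simpa using h2
    · exact ((hP n).comp (continuous_const.prodMk continuous_id)).intervalIntegrable _ _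
  have hftc' : ∀ n : ℕ, ∀ t : ℝ, 1 / ((n : ℝ) + 1) < t ∧ t < T - 1 / ((n : ℝ) + 1) →
      ∀ t' : ℝ, 1 / ((n : ℝ) + 1) < t' ∧ t' < T - 1 / ((n : ℝ) + 1) → ∀ x : ℝ,
      ∫ s in t..t', -(Q n (s, x)) = F n (t', x) - F n (t, x) := by
    intro n t ht t' ht' x
    refine intervalIntegral.integral_eq_sub_of_hasDerivAt (f := fun s => F n (s, x)) ?_ ?_
    · intro s hs
      have hs' : 1 / ((n : ℝ) + 1) < s ∧ s < T - 1 / ((n : ℝ) + 1) := by
        rw [uIcc, mem_Icc] at hs
        exact ⟨(lt_min ht.1 ht'.1).trans_le hs.1, hs.2.trans_lt (max_lt ht.2 ht'.2)⟩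
      have hd := hF n (s, x) hs'
      have h1 : HasDerivAt (fun y : ℝ => ((y, x) : ℝ × ℝ)) ((1 : ℝ), (0 : ℝ)) s :=
        (hasDerivAt_id s).prodMk (hasDerivAt_const s x)
      have h2 : HasDerivAt (fun s => F n (s, x)) _ s :=
        HasFDerivAt.comp_hasDerivAt s (f := fun y : ℝ => ((y, x) : ℝ × ℝ)) hd h1
      simpa using h2
    · exact ((hQ n).comp (continuous_id.prodMk continuous_const)).neg.intervalIntegrable _ _
  -- the limit along an ultrafilter
  have hz0 : ((T / 2, 0) : ℝ × ℝ) ∈ Strip T := ⟨by simpa using hT, by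
    show T / 2 < T
    linarith⟩
  have hle : (hyperfilter ℕ : Filter ℕ) ≤ atTop := Nat.hyperfilter_le_atTop
  have hex : ∀ z : ℝ × ℝ, ∃ c : ℝ, z ∈ Strip T →
      Tendsto (fun n => F n z - F n (T / 2, 0)) (hyperfilter ℕ) (𝓝 c) := by
    intro z
    by_cases hz : z ∈ Strip T
    swap
    · exact ⟨0, fun h => absurd h hz⟩
    have h1 := hle (hdist z hz _ hz0)
    have h2 : Metric.closedBall (0 : ℝ) (K * dist z (T / 2, 0)) ∈
        (Ultrafilter.map (fun n => F n z - F n (T / 2, 0)) (hyperfilter ℕ)) := by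
      rw [Ultrafilter.mem_map]
      filter_upwards [h1] with n hn
      rw [mem_preimage, Metric.mem_closedBall, Real.dist_eq, sub_zero]
      exact hn
    obtain ⟨c, _, hc⟩ := (isCompact_closedBall (0 : ℝ) _).ultrafilter_le_nhds' _ h2
    exact ⟨c, fun _ => hc⟩
  choose Φ hΦ using hex
  have hsub : ∀ z ∈ Strip T, ∀ z' ∈ Strip T,
      Tendsto (fun n => F n z - F n z') (hyperfilter ℕ) (𝓝 (Φ z - Φ z')) := by
    intro z hz z' hz'
    refine ((hΦ z hz).sub (hΦ z' hz')).congr fun n => ?_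
    ring
  refine ⟨K, Φ, ?_, ?_, ?_, ?_⟩
  · refine LipschitzOnWith.of_dist_le_mul fun z hz z' hz' => ?_
    rw [Real.dist_eq]
    exact le_of_tendsto (hsub z hz z' hz').abs (hle (hdist z hz z' hz'))
  · intro t ht x y hxy
    have h1 := hsub (t, y) ht (t, x) ht
    have h2 : ∀ᶠ n : ℕ in atTop, a * (y - x) ≤ F n (t, y) - F n (t, x) ∧
        F n (t, y) - F n (t, x) ≤ b * (y - x) := by
      filter_upwards [h45_inner ht.1 ht.2] with n hn
      rw [← hftc n t hn x y]
      have hi : IntervalIntegrable (fun s => P n (t, s)) volume x y :=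
        ((hP n).comp (continuous_const.prodMk continuous_id)).intervalIntegrable _ _
      constructor
      · have h3 := intervalIntegral.integral_mono_on hxy
          (intervalIntegrable_const (c := a)) hi (fun s _ => (hB n (t, s) hn).1)
        rw [intervalIntegral.integral_const, smul_eq_mul] at h3
        linarith
      · have h3 := intervalIntegral.integral_mono_on hxy hi
          (intervalIntegrable_const (c := b)) (fun s _ => (hB n (t, s) hn).2.1)
        rw [intervalIntegral.integral_const, smul_eq_mul] at h3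
        linarith
    exact ⟨ge_of_tendsto h1 ((h2.filter_mono hle).mono fun n hn => hn.1),
      le_of_tendsto h1 ((h2.filter_mono hle).mono fun n hn => hn.2)⟩
  · filter_upwards [ae_slice hlim] with t ht htT x y
    have h1 := hsub (t, y) htT (t, x) htT
    have h2 : Tendsto (fun n => ∫ s in x..y, P n (t, s)) atTop (𝓝 (∫ s in x..y, ρ (t, s))) := by
      refine intervalIntegral.tendsto_integral_filter_of_dominated_convergence (fun _ => |b|)
        ?_ ?_ ?_ ?_
      · exact Eventually.of_forall fun n =>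
          ((hP n).comp (continuous_const.prodMk continuous_id)).aestronglyMeasurable
      · filter_upwards [h45_inner htT.1 htT.2] with n hn
        exact Eventually.of_forall fun s _ => hPabs n (t, s) hn
      · exact intervalIntegrable_const
      · filter_upwards [ht htT] with s hs _
        exact hs.1
    refine tendsto_nhds_unique h1 ((h2.mono_left hle).congr' ?_)
    refine hle ?_
    filter_upwards [h45_inner htT.1 htT.2] with n hn
    exact hftc n t hn x y
  · filter_upwards [ae_slice' hlim] with x hx t ht t' ht'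
    have h1 := hsub (t', x) ht' (t, x) ht
    have h2 : Tendsto (fun n => ∫ s in t..t', -(Q n (s, x))) atTop
        (𝓝 (∫ s in t..t', -(m (s, x)))) := by
      refine intervalIntegral.tendsto_integral_filter_of_dominated_convergence (fun _ => |M|)
        ?_ ?_ ?_ ?_
      · exact Eventually.of_forall fun n =>
          ((hQ n).comp (continuous_id.prodMk continuous_const)).neg.aestronglyMeasurable
      · filter_upwards [h45_inner ht.1 ht.2, h45_inner ht'.1 ht'.2] with n hn hn'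
        refine Eventually.of_forall fun s hs => ?_
        have hs' : ((s, x) : ℝ × ℝ) ∈ Inner T n := by
          have hs2 := uIoc_subset_uIcc hs
          rw [uIcc, mem_Icc] at hs2
          exact ⟨(lt_min hn.1 hn'.1).trans_le hs2.1, hs2.2.trans_lt (max_lt hn.2 hn'.2)⟩
        rw [norm_neg, Real.norm_eq_abs]
        exact (hB n _ hs').2.2.trans (le_abs_self M)
      · exact intervalIntegrable_const
      · filter_upwards [hx] with s hs hs2
        have hs3 := uIoc_subset_uIcc hs2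
        rw [uIcc, mem_Icc] at hs3
        exact (hs ⟨(lt_min ht.1 ht'.1).trans_le hs3.1, hs3.2.trans_lt (max_lt ht.2 ht'.2)⟩).2.neg
    refine tendsto_nhds_unique h1 ((h2.mono_left hle).congr' ?_)
    refine hle ?_
    filter_upwards [h45_inner ht.1 ht.2, h45_inner ht'.1 ht'.2] with n hn hn'
    exact hftc' n t hn t' hn' x

theorem exists_isPot {T a b M : ℝ} {ρ m : ℝ × ℝ → ℝ} (hT : 0 < T) (ha : 0 < a)
    (hρ : Measurable ρ) (hm : Measurable m)
    (hbox : ∀ᵐ z : ℝ × ℝ, z ∈ Strip T → a ≤ ρ z ∧ ρ z ≤ b ∧ |m z| ≤ M)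
    (hlaw : Law T ρ m) : ∃ Φ : ℝ × ℝ → ℝ, IsPot T a b ρ m Φ := by
  obtain ⟨F, P, Q, hP, hQ, hF, hB, hlim⟩ := exists_mollified ha hρ hm hbox hlaw
  obtain ⟨K, Φ0, hLip, hslope, hsl, hsl'⟩ := h45_limit hT ha hP hQ hF hB hlim
  obtain ⟨Φ1, hΦ1, hEq⟩ := hLip.extend_real
  let cl : ℝ × ℝ → ℝ × ℝ := fun z => (max 0 (min z.1 T), z.2)
  let Φ : ℝ × ℝ → ℝ := fun z => Φ1 (cl z) - Φ1 (0, 0)
  have hcl : LipschitzWith 1 cl := by
    have h1 : LipschitzWith 1 (fun z : ℝ × ℝ => max 0 (min z.1 T)) :=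
      (LipschitzWith.prod_fst.min_const T).const_max 0
    have h2 := h1.prodMk (LipschitzWith.prod_snd (α := ℝ) (β := ℝ))
    rwa [max_self] at h2
  have hΦL : LipschitzWith K Φ := by
    have h1 := hΦ1.comp hcl
    rw [mul_one] at h1
    refine LipschitzWith.of_dist_le_mul fun z z' => ?_
    have h2 := h1.dist_le_mul z z'
    rw [Real.dist_eq] at h2 ⊢
    show |(Φ1 (cl z) - Φ1 (0, 0)) - (Φ1 (cl z') - Φ1 (0, 0))| ≤ _
    rw [sub_sub_sub_cancel_right]
    exact h2
  have hΦS : ∀ z ∈ Strip T, Φ z = Φ0 z - Φ1 (0, 0) := by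
    intro z hz
    have h1 : cl z = z := by
      show (max 0 (min z.1 T), z.2) = z
      rw [min_eq_left hz.2.le, max_eq_right hz.1.le]
    show Φ1 (cl z) - Φ1 (0, 0) = _
    rw [h1, ← hEq hz]
  have hcmem : ∀ t : ℝ, max 0 (min t T) ∈ closure (Ioo 0 T) := by
    intro t
    rw [closure_Ioo hT.ne, mem_Icc]
    exact ⟨le_max_left _ _, max_le hT.le (min_le_right _ _)⟩
  have hcont : ∀ x : ℝ, Continuous (fun c : ℝ => Φ1 (c, x)) := fun x =>
    hΦ1.continuous.comp (continuous_id.prodMk continuous_const)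
  have hdiff : ∀ᵐ z : ℝ × ℝ, z ∈ Strip T → DifferentiableAt ℝ Φ z := by
    filter_upwards [hΦL.ae_differentiableAt (μ := (volume : Measure (ℝ × ℝ)))] with z hz _
    exact hz
  have hdx : ∀ᵐ z : ℝ × ℝ, z ∈ Strip T → dx Φ z = ρ z := by
    refine h45_of_slice ?_ ?_
    · have h1 : MeasurableSet {z : ℝ × ℝ | dx Φ z = ρ z} :=
        measurableSet_eq_fun (measurable_dx Φ) hρ
      have h2 : {z : ℝ × ℝ | z ∈ Strip T → dx Φ z = ρ z} =
          (Strip T)ᶜ ∪ {z : ℝ × ℝ | dx Φ z = ρ z} := by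
        ext z
        simp only [mem_ofPred_eq, mem_union, mem_compl_iff]
        tauto
      rw [h2]
      exact (measurableSet_strip T).compl.union h1
    · filter_upwards [hsl, ae_slice hbox, ae_slice hdiff] with t h1 h2 h3 htT
      have hloc : LocallyIntegrable (fun s => ρ (t, s)) := by
        refine h45_locInt (hρ.comp measurable_prodMk_left) (C := |b|) ?_
        filter_upwards [h2 htT] with s hs
        rw [abs_of_nonneg (ha.le.trans hs.1)]
        exact hs.2.1.trans (le_abs_self b)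
      filter_upwards [LocallyIntegrable.ae_hasDerivAt_integral hloc, h3 htT] with x hx hdx
      have h4 : HasDerivAt (fun y : ℝ => Φ (t, y)) (ρ (t, x)) x := by
        have h5 : (fun y : ℝ => Φ (t, y)) = fun y => Φ (t, 0) + ∫ s in (0 : ℝ)..y, ρ (t, s) := by
          funext y
          rw [← h1 htT 0 y, hΦS (t, y) htT, hΦS (t, 0) htT]
          ring
        rw [h5]
        exact (hx 0).const_add _
      exact (h45_hasDerivAt_dx hdx).unique h4
  have hdt : ∀ᵐ z : ℝ × ℝ, z ∈ Strip T → dt Φ z = -(m z) := by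
    refine h45_of_slice' ?_ ?_
    · have h1 : MeasurableSet {z : ℝ × ℝ | dt Φ z = -(m z)} :=
        measurableSet_eq_fun (measurable_dt Φ) hm.neg
      have h2 : {z : ℝ × ℝ | z ∈ Strip T → dt Φ z = -(m z)} =
          (Strip T)ᶜ ∪ {z : ℝ × ℝ | dt Φ z = -(m z)} := by
        ext z
        simp only [mem_ofPred_eq, mem_union, mem_compl_iff]
        tauto
      rw [h2]
      exact (measurableSet_strip T).compl.union h1
    · filter_upwards [hsl', ae_slice' hbox, ae_slice' hdiff] with x h1 h2 h3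
      let f : ℝ → ℝ := (Ioo 0 T).indicator (fun s => -(m (s, x)))
      have hloc : LocallyIntegrable f := by
        refine h45_locInt (((hm.comp measurable_prodMk_right).neg).indicator
          measurableSet_Ioo) (C := |M|) ?_
        filter_upwards [h2] with s hs
        by_cases hsT : s ∈ Ioo 0 T
        · have h4 : f s = -(m (s, x)) := indicator_of_mem hsT _
          rw [h4, abs_neg]
          exact (hs hsT).2.2.trans (le_abs_self M)
        · have h4 : f s = 0 := indicator_of_notMem hsT _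
          rw [h4, abs_zero]
          exact abs_nonneg _
      have hT2 : T / 2 ∈ Ioo 0 T := ⟨by linarith, by linarith⟩
      filter_upwards [LocallyIntegrable.ae_hasDerivAt_integral hloc, h3] with t ht hd htT
      have h4 : HasDerivAt (fun s : ℝ => Φ (s, x)) (-(m (t, x))) t := by
        have h5 : (fun s : ℝ => Φ (s, x)) =ᶠ[𝓝 t]
            fun s => Φ (T / 2, x) + ∫ s in (T / 2)..s, f s := by
          filter_upwards [Ioo_mem_nhds htT.1 htT.2] with s hs
          have h6 : ∫ s in (T / 2)..s, f s = ∫ s in (T / 2)..s, -(m (s, x)) := by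
            refine intervalIntegral.integral_congr fun r hr => ?_
            rw [uIcc, mem_Icc] at hr
            have hr' : r ∈ Ioo 0 T :=
              ⟨(lt_min hT2.1 hs.1).trans_le hr.1, hr.2.trans_lt (max_lt hT2.2 hs.2)⟩
            exact indicator_of_mem hr' _
          rw [h6, ← h1 (T / 2) hT2 s hs, hΦS (s, x) hs, hΦS (T / 2, x) hT2]
          ring
        have h7 := (ht (T / 2)).const_add (Φ (T / 2, x))
        have h8 : f t = -(m (t, x)) := indicator_of_mem htT _
        rw [h8] at h7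
        exact h7.congr_of_eventuallyEq h5
      exact (h45_hasDerivAt_dt (hd htT)).unique h4
  refine ⟨Φ, ⟨K, hΦL⟩, ?_, ?_, ?_, ?_⟩
  · show Φ1 (max 0 (min 0 T), 0) - Φ1 (0, 0) = 0
    rw [min_eq_left hT.le, max_self, sub_self]
  · intro t x y hxy
    show a * (y - x) ≤ (Φ1 (max 0 (min t T), y) - Φ1 (0, 0)) -
      (Φ1 (max 0 (min t T), x) - Φ1 (0, 0))
    rw [sub_sub_sub_cancel_right]
    have hcl : IsClosed {c : ℝ | a * (y - x) ≤ Φ1 (c, y) - Φ1 (c, x)} :=
      isClosed_le continuous_const ((hcont y).sub (hcont x))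
    refine closure_minimal (fun c hc => ?_) hcl (hcmem t)
    show a * (y - x) ≤ Φ1 (c, y) - Φ1 (c, x)
    rw [← hEq (x := (c, y)) hc, ← hEq (x := (c, x)) hc]
    exact (hslope c hc x y hxy).1
  · intro t x y hxy
    show (Φ1 (max 0 (min t T), y) - Φ1 (0, 0)) -
      (Φ1 (max 0 (min t T), x) - Φ1 (0, 0)) ≤ b * (y - x)
    rw [sub_sub_sub_cancel_right]
    have hcl : IsClosed {c : ℝ | Φ1 (c, y) - Φ1 (c, x) ≤ b * (y - x)} :=
      isClosed_le ((hcont y).sub (hcont x)) continuous_const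
    refine closure_minimal (fun c hc => ?_) hcl (hcmem t)
    show Φ1 (c, y) - Φ1 (c, x) ≤ b * (y - x)
    rw [← hEq (x := (c, y)) hc, ← hEq (x := (c, x)) hc]
    exact (hslope c hc x y hxy).2
  · filter_upwards [hdiff, hdx, hdt] with z h1 h2 h3 hz
    exact ⟨h1 hz, h3 hz, h2 hz⟩

/-- The slice formula (from `deriv`: for a.e. `t` the Lipschitz function `Φ (t, ·)` has a.e. the
derivative `ρ (t, ·)`; `LipschitzWith.lipschitzOnWith`, `LipschitzOnWith.absolutelyContinuousOnInterval`,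
`AbsolutelyContinuousOnInterval.integral_deriv_eq_sub`). -/
theorem IsPot.slice {T a b : ℝ} {ρ m Φ : ℝ × ℝ → ℝ} (h : IsPot T a b ρ m Φ) :
    ∀ᵐ t : ℝ, t ∈ Ioo 0 T → ∀ x y : ℝ, Φ (t, y) - Φ (t, x) = ∫ s in x..y, ρ (t, s) := by
  obtain ⟨K, hK⟩ := h.lip
  filter_upwards [ae_slice h.deriv] with t ht htT x y
  have hL : LipschitzWith K (fun y : ℝ => Φ (t, y)) := by
    refine LipschitzWith.of_dist_le_mul fun y y' => ?_
    have h1 := hK.dist_le_mul (t, y) (t, y')
    rw [Prod.dist_eq, dist_self, max_eq_right dist_nonneg] at h1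
    exact h1
  have h1 := (hL.lipschitzOnWith (s := uIcc x y)).absolutelyContinuousOnInterval.integral_deriv_eq_sub
  rw [← h1]
  refine intervalIntegral.integral_congr_ae ?_
  filter_upwards [ht htT] with s hs _
  rw [(h45_hasDerivAt_dx hs.1).deriv, hs.2.2]

end Helper73.EU
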