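import Pool.Agent.Helper73.EU.Tools

/-!
EU-02a. Mollification of a divergence free field and potentials on the inner strips.

PROOF. Let `ρ' = indicator (Strip T) ρ`, `m'` likewise (measurable, bounded a.e., hence locally
integrable), `η n` a `ContDiffBump (0 : ℝ × ℝ)` with `rOut = 1 / (n + 1)`, `rIn = rOut / 2`, and
`P n = (η n).normed volume ⋆[lsmul ℝ ℝ, volume] ρ'`, `Q n` likewise with `m'`: smooth
(`HasCompactSupport.contDiff_convolution_left`), `P n → ρ'`, `Q n → m'` a.e.
(`ContDiffBump.ae_convolution_tendsto_right_of_locallyIntegrable`), and on the open convex set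
`Inner T n = {1/(n+1) < t < T - 1/(n+1)}`: `a ≤ P n ≤ b`, `|Q n| ≤ M` (averages with a probability
density: if `z ∈ Inner T n` the closed ball of radius `1/(n+1)` around `z` is in the strip up to its
boundary, which is a null set; `∫ (η n).normed = 1`).
For `z ∈ Inner T n`: `dt (P n) z + dx (Q n) z = 0`. Indeed
`P n z = ∫ y, (η n).normed (z - y) * ρ' y`, differentiate under the integral sign
(`HasCompactSupport.hasFDerivAt_convolution_left`):
`dt (P n) z + dx (Q n) z = ∫ y, (ρ' y * dt N (z - y) + m' y * dx N (z - y))`, `N = (η n).normed`,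
and with the test `ζ y = N (z - y)`, whose derivatives are `-(dt N) (z - y)`, `-(dx N) (z - y)`, this is
`-` the integral in `Law T ρ m` (the support of `ζ` is the closed ball of radius `1/(n+1)` around `z`,
which is in the OPEN strip because the inequalities in `Inner T n` are strict).
So the one form `ω z = (-(Q n z)) • fst + (P n z) • snd` (`ContinuousLinearMap.fst ℝ ℝ ℝ`, `snd`) is
differentiable with symmetric derivative on the convex open set `Inner T n`;
`Convex.exists_forall_hasFDerivAt_of_fderiv_symmetric` gives `F n`.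
-/

open MeasureTheory Set Filter Topology
open scoped ContDiff NNReal Convolution

namespace Helper73.EU

/-- The inner strips. -/
def Inner (T : ℝ) (n : ℕ) : Set (ℝ × ℝ) :=
  {z | 1 / ((n : ℝ) + 1) < z.1 ∧ z.1 < T - 1 / ((n : ℝ) + 1)}

theorem inner_eq (T : ℝ) (n : ℕ) :
    Inner T n = Ioo (1 / ((n : ℝ) + 1)) (T - 1 / ((n : ℝ) + 1)) ×ˢ univ := by
  ext z; simp [Inner]

theorem isOpen_inner (T : ℝ) (n : ℕ) : IsOpen (Inner T n) := by
  rw [inner_eq]; exact isOpen_Ioo.prod isOpen_univ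

theorem convex_inner (T : ℝ) (n : ℕ) : Convex ℝ (Inner T n) := by
  rw [inner_eq]; exact (convex_Ioo _ _).prod convex_univ

theorem closedBall_subset_strip {T : ℝ} {n : ℕ} {z : ℝ × ℝ} (hz : z ∈ Inner T n) :
    Metric.closedBall z (1 / ((n : ℝ) + 1)) ⊆ Strip T := by
  intro y hy
  rw [Metric.mem_closedBall, Prod.dist_eq] at hy
  have h1 : |y.1 - z.1| ≤ 1 / ((n : ℝ) + 1) := by
    have := (le_max_left _ _).trans hy
    rwa [Real.dist_eq] at this
  rw [abs_le] at h1
  obtain ⟨h2, h3⟩ := hz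
  exact ⟨by linarith, by linarith⟩

/-- The bumps. -/
noncomputable def bmp (n : ℕ) : ContDiffBump (0 : ℝ × ℝ) where
  rIn := 1 / ((n : ℝ) + 1) / 2
  rOut := 1 / ((n : ℝ) + 1)
  rIn_pos := by positivity
  rIn_lt_rOut := by
    have : (0 : ℝ) < 1 / ((n : ℝ) + 1) := by positivity
    linarith

/-- The mollifiers. -/
noncomputable def mo (n : ℕ) : ℝ × ℝ → ℝ := (bmp n).normed volume

theorem mo_smooth (n : ℕ) : ContDiff ℝ ∞ (mo n) := (bmp n).contDiff_normed

theorem mo_compact (n : ℕ) : HasCompactSupport (mo n) := (bmp n).hasCompactSupport_normed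

theorem mo_nonneg (n : ℕ) (z : ℝ × ℝ) : 0 ≤ mo n z := (bmp n).nonneg_normed z

theorem mo_tsupport (n : ℕ) : tsupport (mo n) = Metric.closedBall 0 (1 / ((n : ℝ) + 1)) :=
  (bmp n).tsupport_normed_eq

theorem mo_integral (n : ℕ) (z : ℝ × ℝ) : ∫ y, mo n (z - y) = 1 := by
  rw [integral_sub_left_eq_self (mo n) volume z]
  exact (bmp n).integral_normed

theorem mo_integrable (n : ℕ) (z : ℝ × ℝ) : Integrable (fun y => mo n (z - y)) := by
  have h : Integrable (mo n) := (mo_smooth n).continuous.integrable_of_hasCompactSupport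
    (mo_compact n)
  exact h.comp_sub_left z

theorem mo_zero {T : ℝ} {n : ℕ} {z : ℝ × ℝ} (hz : z ∈ Inner T n) {y : ℝ × ℝ}
    (hy : y ∉ Strip T) : mo n (z - y) = 0 := by
  apply image_eq_zero_of_notMem_tsupport
  rw [mo_tsupport]
  intro h
  apply hy
  apply closedBall_subset_strip hz
  rw [Metric.mem_closedBall, dist_comm, dist_eq_norm]
  simpa using h

/-- The mollified function. -/
noncomputable def mol (T : ℝ) (g : ℝ × ℝ → ℝ) (n : ℕ) : ℝ × ℝ → ℝ :=
  (mo n) ⋆[ContinuousLinearMap.lsmul ℝ ℝ, volume] ((Strip T).indicator g)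

theorem mol_apply (T : ℝ) (g : ℝ × ℝ → ℝ) (n : ℕ) (z : ℝ × ℝ) :
    mol T g n z = ∫ y, mo n (z - y) * (Strip T).indicator g y := by
  rw [mol, convolution_eq_swap]
  simp

theorem locInt {T M : ℝ} {g : ℝ × ℝ → ℝ} (hg : Measurable g)
    (h : ∀ᵐ z : ℝ × ℝ, z ∈ Strip T → |g z| ≤ M) :
    LocallyIntegrable ((Strip T).indicator g) := by
  have h1 : MemLp ((Strip T).indicator g) ⊤ (volume : Measure (ℝ × ℝ)) := by
    apply memLp_top_of_bound (hg.indicator (measurableSet_strip T)).aestronglyMeasurable |M|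
    filter_upwards [h] with z hz
    by_cases hzT : z ∈ Strip T
    · rw [indicator_of_mem hzT, Real.norm_eq_abs]
      exact (hz hzT).trans (le_abs_self M)
    · rw [indicator_of_notMem hzT, norm_zero]
      exact abs_nonneg M
  exact h1.locallyIntegrable le_top

theorem mol_integrable {T : ℝ} {g : ℝ × ℝ → ℝ} (hg : LocallyIntegrable ((Strip T).indicator g))
    (n : ℕ) (z : ℝ × ℝ) : Integrable (fun y => mo n (z - y) * (Strip T).indicator g y) := by
  have h := ((mo_compact n).convolutionExists_left (ContinuousLinearMap.lsmul ℝ ℝ)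
    (mo_smooth n).continuous hg z).integrable_swap
  simpa using h

theorem mol_le {T : ℝ} {g : ℝ × ℝ → ℝ} (hg : LocallyIntegrable ((Strip T).indicator g))
    {c : ℝ} (h : ∀ᵐ y : ℝ × ℝ, y ∈ Strip T → c ≤ g y) {n : ℕ} {z : ℝ × ℝ}
    (hz : z ∈ Inner T n) : c ≤ mol T g n z := by
  rw [mol_apply]
  have h1 : c = ∫ y, mo n (z - y) * c := by
    rw [integral_mul_const, mo_integral, one_mul]
  rw [h1]
  apply integral_mono_ae ((mo_integrable n z).mul_const c) (mol_integrable hg n z)
  filter_upwards [h] with y hy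
  by_cases hyT : y ∈ Strip T
  · simp only [indicator_of_mem hyT]
    exact mul_le_mul_of_nonneg_left (hy hyT) (mo_nonneg n _)
  · simp [mo_zero hz hyT]

theorem mol_ge {T : ℝ} {g : ℝ × ℝ → ℝ} (hg : LocallyIntegrable ((Strip T).indicator g))
    {c : ℝ} (h : ∀ᵐ y : ℝ × ℝ, y ∈ Strip T → g y ≤ c) {n : ℕ} {z : ℝ × ℝ}
    (hz : z ∈ Inner T n) : mol T g n z ≤ c := by
  rw [mol_apply]
  have h1 : c = ∫ y, mo n (z - y) * c := by
    rw [integral_mul_const, mo_integral, one_mul]
  rw [h1]
  apply integral_mono_ae (mol_integrable hg n z) ((mo_integrable n z).mul_const c)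
  filter_upwards [h] with y hy
  by_cases hyT : y ∈ Strip T
  · simp only [indicator_of_mem hyT]
    exact mul_le_mul_of_nonneg_left (hy hyT) (mo_nonneg n _)
  · simp [mo_zero hz hyT]

/-- The derivative of the mollified function. -/
theorem mol_hasFDerivAt {T : ℝ} {g : ℝ × ℝ → ℝ}
    (hg : LocallyIntegrable ((Strip T).indicator g)) (n : ℕ) (z : ℝ × ℝ) :
    DifferentiableAt ℝ (mol T g n) z ∧ ∀ v, fderiv ℝ (mol T g n) z v =
      ∫ y, fderiv ℝ (mo n) (z - y) v * (Strip T).indicator g y := by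
  have h := (mo_compact n).hasFDerivAt_convolution_left (ContinuousLinearMap.lsmul ℝ ℝ)
    ((mo_smooth n).of_le (by exact_mod_cast le_top)) hg z
  refine ⟨h.differentiableAt, fun v => ?_⟩
  have h2 : fderiv ℝ (mol T g n) z = _ := h.fderiv
  rw [h2, convolution_eq_swap]
  have hint := (((mo_compact n).fderiv ℝ).convolutionExists_left
    ((ContinuousLinearMap.lsmul ℝ ℝ).precompL (ℝ × ℝ) : ((ℝ × ℝ) →L[ℝ] ℝ) →L[ℝ] ℝ →L[ℝ] _)
    ((mo_smooth n).continuous_fderiv (by simp)) hg z).integrable_swap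
  rw [ContinuousLinearMap.integral_apply hint]
  simp

theorem integrable_fderiv {T : ℝ} {g : ℝ × ℝ → ℝ}
    (hg : LocallyIntegrable ((Strip T).indicator g)) (n : ℕ) (z v : ℝ × ℝ) :
    Integrable (fun y => fderiv ℝ (mo n) (z - y) v * (Strip T).indicator g y) := by
  have hint := (((mo_compact n).fderiv ℝ).convolutionExists_left
    ((ContinuousLinearMap.lsmul ℝ ℝ).precompL (ℝ × ℝ) : ((ℝ × ℝ) →L[ℝ] ℝ) →L[ℝ] ℝ →L[ℝ] _)
    ((mo_smooth n).continuous_fderiv (by simp)) hg z).integrable_swap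
  have := hint.apply_continuousLinearMap v
  simpa using this

/-- The divergence of the mollified field vanishes. -/
theorem mol_div {T : ℝ} {ρ m : ℝ × ℝ → ℝ}
    (hρ : LocallyIntegrable ((Strip T).indicator ρ))
    (hm : LocallyIntegrable ((Strip T).indicator m)) (hlaw : Law T ρ m) {n : ℕ} {z : ℝ × ℝ}
    (hz : z ∈ Inner T n) :
    fderiv ℝ (mol T ρ n) z (1, 0) + fderiv ℝ (mol T m n) z (0, 1) = 0 := by
  rw [(mol_hasFDerivAt hρ n z).2, (mol_hasFDerivAt hm n z).2,
    ← integral_add (integrable_fderiv hρ n z _) (integrable_fderiv hm n z _)]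
  set ζ : ℝ × ℝ → ℝ := fun y => mo n (z - y) with hζ
  have hd : ∀ y v, fderiv ℝ ζ y v = -(fderiv ℝ (mo n) (z - y) v) := by
    intro y v
    have h1 : HasFDerivAt (mo n) (fderiv ℝ (mo n) (z - y)) (z - y) :=
      ((mo_smooth n).differentiable (by simp) (z - y)).hasFDerivAt
    have h2 : HasFDerivAt (fun y : ℝ × ℝ => z - y) (-(ContinuousLinearMap.id ℝ (ℝ × ℝ))) y :=
      (hasFDerivAt_id y).const_sub z
    have h3 := (h1.comp y h2).fderiv
    have h4 : fderiv ℝ ζ y = (fderiv ℝ (mo n) (z - y)).comp (-(ContinuousLinearMap.id ℝ (ℝ × ℝ))) :=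
      h3
    rw [h4]
    simp
  have hts : tsupport ζ ⊆ Metric.closedBall z (1 / ((n : ℝ) + 1)) := by
    apply closure_minimal _ Metric.isClosed_closedBall
    intro y hy
    have h1 : z - y ∈ tsupport (mo n) := subset_tsupport _ hy
    rw [mo_tsupport] at h1
    rw [Metric.mem_closedBall, dist_comm, dist_eq_norm]
    simpa using h1
  have htest : IsTest T ζ := by
    refine ⟨(mo_smooth n).comp (contDiff_const.sub contDiff_id), ?_, ?_⟩
    · exact HasCompactSupport.of_support_subset_isCompact (isCompact_closedBall z _)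
        ((subset_tsupport _).trans hts)
    · exact hts.trans (closedBall_subset_strip hz)
  have h := hlaw ζ htest
  rw [← integral_indicator (measurableSet_strip T)] at h
  refine neg_eq_zero.1 ((integral_neg _).symm.trans (Eq.trans ?_ h))
  congr 1
  funext y
  by_cases hy : y ∈ Strip T
  · simp only [indicator_of_mem hy, dt, dx, hd]
    ring
  · simp only [indicator_of_notMem hy]
    ring

theorem exists_mollified {T a b M : ℝ} {ρ m : ℝ × ℝ → ℝ} (ha : 0 < a)
    (hρ : Measurable ρ) (hm : Measurable m)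
    (hbox : ∀ᵐ z : ℝ × ℝ, z ∈ Strip T → a ≤ ρ z ∧ ρ z ≤ b ∧ |m z| ≤ M)
    (hlaw : Law T ρ m) : ∃ F P Q : ℕ → ℝ × ℝ → ℝ,
      (∀ n, Continuous (P n)) ∧ (∀ n, Continuous (Q n)) ∧
      (∀ n, ∀ z ∈ Inner T n, HasFDerivAt (F n)
        ((-(Q n z)) • ContinuousLinearMap.fst ℝ ℝ ℝ + P n z • ContinuousLinearMap.snd ℝ ℝ ℝ) z) ∧
      (∀ n, ∀ z ∈ Inner T n, a ≤ P n z ∧ P n z ≤ b ∧ |Q n z| ≤ M) ∧
      ∀ᵐ z : ℝ × ℝ, z ∈ Strip T → Tendsto (fun n => P n z) atTop (𝓝 (ρ z)) ∧
        Tendsto (fun n => Q n z) atTop (𝓝 (m z)) := by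
  have hρi : LocallyIntegrable ((Strip T).indicator ρ) := by
    apply locInt (M := b) hρ
    filter_upwards [hbox] with z hz hzT
    obtain ⟨h1, h2, h3⟩ := hz hzT
    rw [abs_of_pos (ha.trans_le h1)]
    exact h2
  have hmi : LocallyIntegrable ((Strip T).indicator m) := by
    apply locInt (M := M) hm
    filter_upwards [hbox] with z hz hzT
    exact (hz hzT).2.2
  have hex : ∀ n, ∃ F : ℝ × ℝ → ℝ, ∀ z ∈ Inner T n, HasFDerivAt F
      ((-(mol T m n z)) • ContinuousLinearMap.fst ℝ ℝ ℝ +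
        mol T ρ n z • ContinuousLinearMap.snd ℝ ℝ ℝ) z := by
    intro n
    have hω : ∀ z : ℝ × ℝ, HasFDerivAt (fun z => (-(mol T m n z)) • ContinuousLinearMap.fst ℝ ℝ ℝ +
        mol T ρ n z • ContinuousLinearMap.snd ℝ ℝ ℝ)
        ((-(fderiv ℝ (mol T m n) z)).smulRight (ContinuousLinearMap.fst ℝ ℝ ℝ) +
          (fderiv ℝ (mol T ρ n) z).smulRight (ContinuousLinearMap.snd ℝ ℝ ℝ)) z := by
      intro z
      have h1 := (mol_hasFDerivAt hmi n z).1.hasFDerivAt
      have h2 := (mol_hasFDerivAt hρi n z).1.hasFDerivAt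
      exact (h1.neg.smul_const (ContinuousLinearMap.fst ℝ ℝ ℝ)).add
        (h2.smul_const (ContinuousLinearMap.snd ℝ ℝ ℝ))
    apply (convex_inner T n).exists_forall_hasFDerivAt_of_fderiv_symmetric (isOpen_inner T n)
    · intro z _
      exact (hω z).differentiableAt.differentiableWithinAt
    · intro z hz x y
      rw [(hω z).fderiv]
      have hdiv := mol_div hρi hmi hlaw hz
      have hlin : ∀ (A : (ℝ × ℝ) →L[ℝ] ℝ) (v : ℝ × ℝ), A v = v.1 * A (1, 0) + v.2 * A (0, 1) := by
        intro A v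
        have : v = v.1 • ((1 : ℝ), (0 : ℝ)) + v.2 • ((0 : ℝ), (1 : ℝ)) := by
          ext <;> simp
        conv_lhs => rw [this]
        rw [map_add, map_smul, map_smul, smul_eq_mul, smul_eq_mul]
      simp only [add_apply, ContinuousLinearMap.smulRight_apply,
        neg_apply, smul_apply,
        ContinuousLinearMap.coe_fst', ContinuousLinearMap.coe_snd', smul_eq_mul]
      rw [hlin (fderiv ℝ (mol T m n) z) x, hlin (fderiv ℝ (mol T m n) z) y,
        hlin (fderiv ℝ (mol T ρ n) z) x, hlin (fderiv ℝ (mol T ρ n) z) y]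
      linear_combination (x.1 * y.2 - x.2 * y.1) * hdiv
  choose F hF using hex
  refine ⟨F, fun n => mol T ρ n, fun n => mol T m n, ?_, ?_, hF, ?_, ?_⟩
  · intro n
    exact (mo_compact n).continuous_convolution_left _ (mo_smooth n).continuous hρi
  · intro n
    exact (mo_compact n).continuous_convolution_left _ (mo_smooth n).continuous hmi
  · intro n z hz
    refine ⟨mol_le hρi ?_ hz, mol_ge hρi ?_ hz, ?_⟩
    · filter_upwards [hbox] with y hy hyT
      exact (hy hyT).1
    · filter_upwards [hbox] with y hy hyT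
      exact (hy hyT).2.1
    · rw [abs_le]
      refine ⟨mol_le hmi ?_ hz, mol_ge hmi ?_ hz⟩
      · filter_upwards [hbox] with y hy hyT
        exact (abs_le.1 (hy hyT).2.2).1
      · filter_upwards [hbox] with y hy hyT
        exact (abs_le.1 (hy hyT).2.2).2
  · have hr : Tendsto (fun n => (bmp n).rOut) atTop (𝓝 0) := tendsto_one_div_add_atTop_nhds_zero_nat
    have hr' : ∀ᶠ n in atTop, (bmp n).rOut ≤ 2 * (bmp n).rIn := by
      filter_upwards with n
      show 1 / ((n : ℝ) + 1) ≤ 2 * (1 / ((n : ℝ) + 1) / 2)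
      linarith
    have h1 := ContDiffBump.ae_convolution_tendsto_right_of_locallyIntegrable hr hr' hρi
    have h2 := ContDiffBump.ae_convolution_tendsto_right_of_locallyIntegrable hr hr' hmi
    filter_upwards [h1, h2] with z hz1 hz2 hzT
    rw [indicator_of_mem hzT] at hz1 hz2
    exact ⟨hz1, hz2⟩

end Helper73.EU
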