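import Pool.Agent.Helper73.EU.RDef
import Pool.Agent.Helper73.EU.Comp

/-!
RC-5. The glued state attains the data.

PROOF. `datum_decomp`: for every `x`, with `Nl x = min (u₀ x - v) 0`, `Nr x = max (u₀ x - v) 0`:
`swR γ p (g x) |u₀ x - v| = g x + (swR γ p gR (Nr x) - gR) + (swR γ p gL (-(Nl x)) - gL)`, the same for `swE` with
`p/((γ-1) g x)` etc., `u₀ x = v + Nr x + Nl x` (cases: `u₀ x > v`, then `x > x₂`, `g x = gR`; `u₀ x < v`, then `x < x₁`; equal).
Attains: `∫_{(-R,R)} |g (x - v t) - g x| → 0` (`exists_comp_ae` with `α x = x - v t`, `β x = x`, `A = 1`; `g` and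
`p/((γ-1) g)` are bounded: every value `g x` is between the positive constants because by the box either `x ∈ [x₁, x₂]` and
`a ≤ g x ≤ b`, or `g x` is `gL` or `gR`), and `∫_{(-R,R)} |swR γ p gR (nr (t, x)) - swR γ p gR (Nr x)| → 0` as `t → 0+` by
dominated convergence along `𝓝[>] 0` (`init_r`, continuity of `swR` in `m ≥ 0`, bounds: `0 ≤ nr ≤ 2 b` from `range_r`), the same
for `swE`, `nl`, and for the velocities. So `dist1 R (V t) V₀ → 0` as `t → 0+`, which gives `Attains` (even for all small `t`).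
-/

open MeasureTheory Set Filter Topology
open scoped ContDiff NNReal

namespace Helper73.EU

private theorem ra_meas_R (γ p : ℝ) {f h : ℝ → ℝ} (hf : Measurable f) (hh : Measurable h) :
    Measurable (fun x => swR γ p (f x) (h x)) := by
  unfold swR swC cs
  fun_prop

private theorem ra_meas_E (γ p : ℝ) {f h : ℝ → ℝ} (hf : Measurable f) (hh : Measurable h) :
    Measurable (fun x => swE γ p (f x) (h x)) := by
  unfold swE swC cs
  fun_prop

private theorem ra_cont {γ p r m : ℝ} (hγ : 1 < γ) (hp : 0 < p) (hr : 0 < r) (hm : 0 ≤ m) :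
    ContinuousAt (swR γ p r) m ∧ ContinuousAt (swE γ p r) m := by
  obtain ⟨h1, h2⟩ := sw_smooth (γ := γ) (p := p) (r := r) (σ := 1) (n := m) hγ hp hr
    (Or.inl rfl) (by rw [one_mul]; exact hm)
  simp only [one_mul] at h1 h2
  exact ⟨h1.continuousAt, h2.continuousAt⟩

private theorem ra_lim {F : ℝ → ℝ} {N : ℝ × ℝ → ℝ} {N₀ : ℝ → ℝ} {K : ℝ} (hFm : Measurable F)
    (hFc : ∀ m, 0 ≤ m → ContinuousAt F m)
    (hFK : ∀ m, 0 ≤ m → m ≤ K → F 0 ≤ F m ∧ F m ≤ F K)
    (hN : Measurable N) (hN₀ : Measurable N₀) (hNb : ∀ z : ℝ × ℝ, 0 < z.1 → 0 ≤ N z ∧ N z ≤ K)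
    (hN₀b : ∀ x, 0 ≤ N₀ x ∧ N₀ x ≤ K)
    (hlim : ∀ᵐ x : ℝ, Tendsto (fun t => N (t, x)) (𝓝[>] 0) (𝓝 (N₀ x))) (R : ℝ) :
    Tendsto (fun t => ∫ x in Ioo (-R) R, |F (N (t, x)) - F (N₀ x)|) (𝓝[>] 0) (𝓝 0) ∧
    ∀ t, 0 < t → IntegrableOn (fun x => |F (N (t, x)) - F (N₀ x)|) (Ioo (-R) R) := by
  have hbd : ∀ t x, 0 < t → |F (N (t, x)) - F (N₀ x)| ≤ F K - F 0 := by
    intro t x ht
    obtain ⟨h1, h2⟩ := hNb (t, x) ht
    obtain ⟨h3, h4⟩ := hN₀b x
    obtain ⟨h5, h6⟩ := hFK _ h1 h2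
    obtain ⟨h7, h8⟩ := hFK _ h3 h4
    rw [abs_le]
    constructor <;> linarith
  have hms : ∀ t, Measurable (fun x => |F (N (t, x)) - F (N₀ x)|) := fun t =>
    ((hFm.comp (hN.comp measurable_prodMk_left)).sub (hFm.comp hN₀)).abs
  constructor
  · suffices key : Tendsto (fun t => ∫ x in Ioo (-R) R, |F (N (t, x)) - F (N₀ x)|) (𝓝[>] 0)
        (𝓝 (∫ x in Ioo (-R) R, (0 : ℝ))) by
      simpa only [integral_zero] using key
    refine tendsto_integral_filter_of_dominated_convergence (fun _ => F K - F 0) ?_ ?_ ?_ ?_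
    · exact Eventually.of_forall fun t => (hms t).aestronglyMeasurable
    · filter_upwards [self_mem_nhdsWithin] with t ht
      refine Eventually.of_forall fun x => ?_
      rw [Real.norm_eq_abs, abs_abs]
      exact hbd t x ht
    · exact integrableOn_const (by simp) (by simp)
    · refine ae_restrict_of_ae ?_
      filter_upwards [hlim] with x hx
      have h1 : Tendsto (fun t => F (N (t, x))) (𝓝[>] 0) (𝓝 (F (N₀ x))) :=
        (hFc _ (hN₀b x).1).tendsto.comp hx
      have h2 := (h1.sub_const (F (N₀ x))).abs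
      rwa [sub_self, abs_zero] at h2
  · intro t ht
    refine integrableOn_Ioo_of_ae (M := F K - F 0) (hms t) (Eventually.of_forall fun x => ?_)
    rw [abs_abs]
    exact hbd t x ht

private theorem ra_abs3 (a b c a' b' c' : ℝ) :
    |(a + b + c) - (a' + b' + c')| ≤ |a - a'| + |b - b'| + |c - c'| := by
  have h : (a + b + c) - (a' + b' + c') = (a - a') + (b - b') + (c - c') := by ring
  rw [h]
  exact abs_add_three _ _ _

theorem shockFree_datum {γ a b v p x₁ x₂ gL gR : ℝ} {g u₀ : ℝ → ℝ}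
    (h : IsShockFreeDatum γ a b v p x₁ x₂ gL gR g u₀) :
    IsDatum a b (fun x => swR γ p (g x) |u₀ x - v|) u₀ (fun x => swE γ p (g x) |u₀ x - v|) := by
  have hu : Measurable u₀ := h.mono.measurable
  exact ⟨ra_meas_R γ p h.meas (hu.sub_const v).abs, hu,
    ra_meas_E γ p h.meas (hu.sub_const v).abs, Eventually.of_forall h.box⟩

theorem glue_attains {γ T a b v p x₁ x₂ gL gR : ℝ} {g u₀ : ℝ → ℝ} {nl nr : ℝ × ℝ → ℝ}
    (hγ : 1 < γ) (hT : 0 < T) (ha : 0 < a)
    (h : IsShockFreeDatum γ a b v p x₁ x₂ gL gR g u₀)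
    (hn : IsWaves γ v p x₁ x₂ gL gR u₀ nl nr) :
    Attains T (VR γ v p gL gR g nl nr) (VW v nl nr) (VE γ v p gL gR g nl nr)
      (fun x => swR γ p (g x) |u₀ x - v|) u₀ (fun x => swE γ p (g x) |u₀ x - v|) := by
  have hp := h.pos_p
  have hgL : 0 < gL := lt_of_lt_of_le ha h.boxL.1
  have hgR : 0 < gR := lt_of_lt_of_le ha h.boxR.1
  have hu : Measurable u₀ := h.mono.measurable
  have hub : ∀ x, |u₀ x| ≤ b := fun x => (h.box x).2.2.1
  have hvb : |v| ≤ b := h.boxL.2.2.1
  have hb0 : 0 ≤ b := (abs_nonneg v).trans hvb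
  -- the density and the energy in the middle
  have hgq : ∀ y, (a ≤ g y ∧ g y ≤ b) ∧ (a ≤ p / ((γ - 1) * g y) ∧ p / ((γ - 1) * g y) ≤ b) := by
    intro y
    rcases lt_or_ge y x₁ with h1 | h1
    · rw [h.left y h1]
      exact ⟨⟨h.boxL.1, h.boxL.2.1⟩, h.boxL.2.2.2.1, h.boxL.2.2.2.2⟩
    · rcases lt_or_ge x₂ y with h2 | h2
      · rw [h.right y h2]
        exact ⟨⟨h.boxR.1, h.boxR.2.1⟩, h.boxR.2.2.2.1, h.boxR.2.2.2.2⟩
      · have h3 := h.box y
        rw [h.mid y ⟨h1, h2⟩, sub_self, abs_zero, swR_zero hγ hp (h.pos y),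
          swE_zero hγ hp (h.pos y)] at h3
        exact ⟨⟨h3.1, h3.2.1⟩, h3.2.2.2.1, h3.2.2.2.2⟩
  set q : ℝ → ℝ := fun x => p / ((γ - 1) * g x) with hq
  have hqm : Measurable q := measurable_const.div (measurable_const.mul h.meas)
  have hgb : ∀ y, |g y| ≤ b := fun y => by
    rw [abs_of_nonneg (ha.le.trans (hgq y).1.1)]
    exact (hgq y).1.2
  have hqb : ∀ y, |q y| ≤ b := fun y => by
    rw [abs_of_nonneg (ha.le.trans (hgq y).2.1)]
    exact (hgq y).2.2
  set Nr : ℝ → ℝ := fun x => max (u₀ x - v) 0 with hNr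
  set Nl : ℝ → ℝ := fun x => -(min (u₀ x - v) 0) with hNl
  have hNrm : Measurable Nr := (hu.sub_const v).max measurable_const
  have hNlm : Measurable Nl := ((hu.sub_const v).min measurable_const).neg
  have hub2 : ∀ x, |u₀ x - v| ≤ 2 * b := fun x => by
    have h1 := abs_le.1 (hub x)
    have h2 := abs_le.1 hvb
    rw [abs_le]
    constructor <;> linarith
  have hNrb : ∀ x, 0 ≤ Nr x ∧ Nr x ≤ 2 * b := fun x =>
    ⟨le_max_right _ _, max_le ((le_abs_self _).trans (hub2 x)) (by linarith)⟩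
  have hNlb : ∀ x, 0 ≤ Nl x ∧ Nl x ≤ 2 * b := fun x => by
    have h1 := abs_le.1 (hub2 x)
    constructor
    · exact neg_nonneg.2 (min_le_right _ _)
    · have h2 : -(2 * b) ≤ min (u₀ x - v) 0 := le_min h1.1 (by linarith)
      change -(min (u₀ x - v) 0) ≤ 2 * b
      linarith
  have hnrb : ∀ z : ℝ × ℝ, 0 < z.1 → 0 ≤ nr z ∧ nr z ≤ 2 * b := fun z hz => by
    obtain ⟨⟨y, h1⟩, h2⟩ := hn.range_r z hz
    exact ⟨h2, h1.trans (hNrb y).2⟩
  have hnlb : ∀ z : ℝ × ℝ, 0 < z.1 → 0 ≤ -(nl z) ∧ -(nl z) ≤ 2 * b := fun z hz => by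
    obtain ⟨⟨y, h1⟩, h2⟩ := hn.range_l z hz
    have h3 : -(min (u₀ y - v) 0) ≤ 2 * b := (hNlb y).2
    exact ⟨neg_nonneg.2 h2, by linarith⟩
  have hlimr : ∀ᵐ x : ℝ, Tendsto (fun t => nr (t, x)) (𝓝[>] 0) (𝓝 (Nr x)) := hn.init_r
  have hliml : ∀ᵐ x : ℝ, Tendsto (fun t => -(nl (t, x))) (𝓝[>] 0) (𝓝 (Nl x)) := by
    filter_upwards [hn.init_l] with x hx
    exact hx.neg
  -- the decomposition of the data
  have hdec : ∀ x, swR γ p (g x) |u₀ x - v| =
      g x + (swR γ p gR (Nr x) - gR) + (swR γ p gL (Nl x) - gL) ∧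
      swE γ p (g x) |u₀ x - v| =
      q x + (swE γ p gR (Nr x) - p / ((γ - 1) * gR)) +
        (swE γ p gL (Nl x) - p / ((γ - 1) * gL)) := by
    intro x
    have e1 := swR_zero hγ hp hgR
    have e2 := swE_zero hγ hp hgR
    have e3 := swR_zero hγ hp hgL
    have e4 := swE_zero hγ hp hgL
    rcases lt_trichotomy (u₀ x) v with h1 | h1 | h1
    · have hx : x < x₁ := by
        by_contra hc
        have h2 := h.mono (not_lt.1 hc)
        rw [h.mid x₁ ⟨le_rfl, h.le⟩] at h2
        linarith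
      have h3 : Nr x = 0 := max_eq_right (by linarith)
      have h4 : Nl x = |u₀ x - v| := by
        rw [abs_of_neg (by linarith)]
        change -(min (u₀ x - v) 0) = -(u₀ x - v)
        rw [min_eq_left (by linarith)]
      rw [h3, h4, e1, e2, hq]
      simp only
      rw [h.left x hx]
      constructor <;> ring
    · have h3 : Nr x = 0 := max_eq_right (by linarith)
      have h4 : Nl x = 0 := by
        change -(min (u₀ x - v) 0) = 0
        rw [min_eq_right (by linarith), neg_zero]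
      have h5 : |u₀ x - v| = 0 := by rw [h1, sub_self, abs_zero]
      rw [h3, h4, h5, e1, e2, e3, e4, swR_zero hγ hp (h.pos x), swE_zero hγ hp (h.pos x)]
      constructor
      · ring
      · rw [hq]
        ring
    · have hx : x₂ < x := by
        by_contra hc
        have h2 := h.mono (not_lt.1 hc)
        rw [h.mid x₂ ⟨h.le, le_rfl⟩] at h2
        linarith
      have h3 : Nr x = |u₀ x - v| := by
        rw [abs_of_pos (by linarith)]
        exact max_eq_left (by linarith)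
      have h4 : Nl x = 0 := by
        change -(min (u₀ x - v) 0) = 0
        rw [min_eq_right (by linarith), neg_zero]
      rw [h3, h4, e3, e4, hq]
      simp only
      rw [h.right x hx]
      constructor <;> ring
  have hdecu : ∀ x, u₀ x = v + Nr x + -(Nl x) := by
    intro x
    change u₀ x = v + max (u₀ x - v) 0 + -(-(min (u₀ x - v) 0))
    rw [neg_neg, add_assoc, max_add_min]
    ring
  intro R ε hR hε
  -- the six wave terms
  have hmonR : ∀ r, 0 < r → ∀ m, 0 ≤ m → m ≤ 2 * b →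
      swR γ p r 0 ≤ swR γ p r m ∧ swR γ p r m ≤ swR γ p r (2 * b) := fun r hr m h1 h2 =>
    ⟨(sw_mono hγ hp hr le_rfl h1).1, (sw_mono hγ hp hr h1 h2).1⟩
  have hmonE : ∀ r, 0 < r → ∀ m, 0 ≤ m → m ≤ 2 * b →
      swE γ p r 0 ≤ swE γ p r m ∧ swE γ p r m ≤ swE γ p r (2 * b) := fun r hr m h1 h2 =>
    ⟨(sw_mono hγ hp hr le_rfl h1).2, (sw_mono hγ hp hr h1 h2).2⟩
  have hmR : ∀ r, Measurable (swR γ p r) := fun r =>
    ra_meas_R γ p (f := fun _ => r) measurable_const measurable_id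
  have hmE : ∀ r, Measurable (swE γ p r) := fun r =>
    ra_meas_E γ p (f := fun _ => r) measurable_const measurable_id
  obtain ⟨t1, i1⟩ := ra_lim (hmR gR) (fun m hm => (ra_cont hγ hp hgR hm).1) (hmonR gR hgR)
    hn.meas_r hNrm hnrb hNrb hlimr R
  obtain ⟨t2, i2⟩ := ra_lim (N := fun z => -(nl z)) (hmR gL) (fun m hm => (ra_cont hγ hp hgL hm).1) (hmonR gL hgL)
    hn.meas_l.neg hNlm hnlb hNlb hliml R
  obtain ⟨t3, i3⟩ := ra_lim (F := fun m => m) measurable_id (fun m _ => continuousAt_id)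
    (fun m h1 h2 => ⟨h1, h2⟩) hn.meas_r hNrm hnrb hNrb hlimr R
  obtain ⟨t4, i4⟩ := ra_lim (F := fun m => m) (N := fun z => -(nl z)) measurable_id (fun m _ => continuousAt_id)
    (fun m h1 h2 => ⟨h1, h2⟩) hn.meas_l.neg hNlm hnlb hNlb hliml R
  obtain ⟨t5, i5⟩ := ra_lim (hmE gR) (fun m hm => (ra_cont hγ hp hgR hm).2) (hmonE gR hgR)
    hn.meas_r hNrm hnrb hNrb hlimr R
  obtain ⟨t6, i6⟩ := ra_lim (N := fun z => -(nl z)) (hmE gL) (fun m hm => (ra_cont hγ hp hgL hm).2) (hmonE gL hgL)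
    hn.meas_l.neg hNlm hnlb hNlb hliml R
  have t0 := ((((t1.add t2).add t3).add t4).add t5).add t6
  simp only [add_zero] at t0
  have hev := t0.eventually (gt_mem_nhds (half_pos hε))
  obtain ⟨τ₀, hτ₀, hsub⟩ := mem_nhdsGT_iff_exists_Ioo_subset.1 hev
  have hτ₀' : 0 < τ₀ := hτ₀
  obtain ⟨δ₁, hδ₁, c1⟩ := exists_comp_ae (A := 1) (R := R) (M := R + |v| * T) (ε := ε / 4)
    h.meas (Eventually.of_forall hgb) one_pos (by linarith)
  obtain ⟨δ₂, hδ₂, c2⟩ := exists_comp_ae (A := 1) (R := R) (M := R + |v| * T) (ε := ε / 4)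
    hqm (Eventually.of_forall hqb) one_pos (by linarith)
  set δ := min δ₁ δ₂ with hδ
  have hδ0 : 0 < δ := lt_min hδ₁ hδ₂
  have hv1 : 0 < |v| + 1 := by positivity
  refine ⟨min (T / 2) (min τ₀ (δ / (|v| + 1))), ?_, ?_, ?_⟩
  · exact lt_min (by linarith) (lt_min hτ₀' (by positivity))
  · exact (min_le_left _ _).trans_lt (by linarith)
  refine Eventually.of_forall fun t ht => ?_
  have ht0 : 0 < t := ht.1
  have htT : t < T := lt_of_lt_of_le ht.2 ((min_le_left _ _).trans (by linarith))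
  have htτ : t < τ₀ := lt_of_lt_of_le ht.2 ((min_le_right _ _).trans (min_le_left _ _))
  have htδ : t < δ / (|v| + 1) :=
    lt_of_lt_of_le ht.2 ((min_le_right _ _).trans (min_le_right _ _))
  have hvt : |v| * t ≤ δ := by
    rw [lt_div_iff₀ hv1] at htδ
    nlinarith [abs_nonneg v]
  have hshift : ∀ x : ℝ, |(x - v * t) - x| ≤ δ := fun x => by
    have h1 : (x - v * t) - x = -(v * t) := by ring
    rw [h1, abs_neg, abs_mul, abs_of_pos ht0]
    exact hvt
  have hex1 : ∀ x y : ℝ, x ≤ y → (1 : ℝ) * (y - x) ≤ (y - v * t) - (x - v * t) :=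
    fun x y _ => by linarith
  have hex2 : ∀ x y : ℝ, x ≤ y → (1 : ℝ) * (y - x) ≤ y - x := fun x y _ => by linarith
  have hM1 : ∀ x ∈ Ioo (-R) R, |x - v * t| ≤ R + |v| * T := fun x hx => by
    have h1 : |x| ≤ R := abs_le.2 ⟨hx.1.le, hx.2.le⟩
    have h2 : |v * t| ≤ |v| * T := by
      rw [abs_mul, abs_of_pos ht0]
      exact mul_le_mul_of_nonneg_left htT.le (abs_nonneg v)
    exact (abs_sub x (v * t)).trans (add_le_add h1 h2)
  have hM2 : ∀ x ∈ Ioo (-R) R, |x| ≤ R + |v| * T := fun x hx => by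
    have h1 : |x| ≤ R := abs_le.2 ⟨hx.1.le, hx.2.le⟩
    have h2 : 0 ≤ |v| * T := mul_nonneg (abs_nonneg v) hT.le
    linarith
  have d1 := c1 (fun x => x - v * t) (fun x => x) hex1 hex2 hM1 hM2
    (fun x _ => (hshift x).trans (min_le_left _ _))
  have d2 := c2 (fun x => x - v * t) (fun x => x) hex1 hex2 hM1 hM2
    (fun x _ => (hshift x).trans (min_le_right _ _))
  have ii1 : IntegrableOn (fun x => |g (x - v * t) - g x|) (Ioo (-R) R) := by
    refine integrableOn_Ioo_of_ae (M := 2 * b) ?_ (Eventually.of_forall fun x => ?_)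
    · exact ((h.meas.comp (measurable_id.sub_const (v * t))).sub h.meas).abs
    · rw [abs_abs]
      have h1 := abs_sub (g (x - v * t)) (g x)
      have h2 := hgb (x - v * t)
      have h3 := hgb x
      linarith
  have ii2 : IntegrableOn (fun x => |q (x - v * t) - q x|) (Ioo (-R) R) := by
    refine integrableOn_Ioo_of_ae (M := 2 * b) ?_ (Eventually.of_forall fun x => ?_)
    · exact ((hqm.comp (measurable_id.sub_const (v * t))).sub hqm).abs
    · rw [abs_abs]
      have h1 := abs_sub (q (x - v * t)) (q x)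
      have h2 := hqb (x - v * t)
      have h3 := hqb x
      linarith
  have j1 := i1 t ht0
  have j2 := i2 t ht0
  have j3 := i3 t ht0
  have j4 := i4 t ht0
  have j5 := i5 t ht0
  have j6 := i6 t ht0
  have k2 := Integrable.add j1 j2
  have k3 := Integrable.add k2 j3
  have k4 := Integrable.add k3 j4
  have k5 := Integrable.add k4 j5
  have k6 := Integrable.add k5 j6
  have k7 := Integrable.add k6 ii1
  have k8 := Integrable.add k7 ii2
  have s8 := integral_add k7 ii2
  have s7 := integral_add k6 ii1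
  have s6 := integral_add k5 j6
  have s5 := integral_add k4 j5
  have s4 := integral_add k3 j4
  have s3 := integral_add k2 j3
  have s2 := integral_add j1 j2
  simp only [Pi.add_apply] at s2 s3 s4 s5 s6 s7 s8
  have hsix := hsub ⟨ht0, htτ⟩
  simp only [mem_setOf_eq] at hsix
  have hmono : dist1 R (sl (VR γ v p gL gR g nl nr) t) (sl (VW v nl nr) t)
      (sl (VE γ v p gL gR g nl nr) t) (fun x => swR γ p (g x) |u₀ x - v|) u₀
      (fun x => swE γ p (g x) |u₀ x - v|) ≤ ∫ x in Ioo (-R) R,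
        (|swR γ p gR (nr (t, x)) - swR γ p gR (Nr x)| +
          |swR γ p gL (-nl (t, x)) - swR γ p gL (Nl x)| + |nr (t, x) - Nr x| +
          |-nl (t, x) - Nl x| + |swE γ p gR (nr (t, x)) - swE γ p gR (Nr x)| +
          |swE γ p gL (-nl (t, x)) - swE γ p gL (Nl x)| + |g (x - v * t) - g x| +
          |q (x - v * t) - q x|) := by
    unfold dist1
    refine integral_mono_of_nonneg (Eventually.of_forall fun x => by positivity) k8
      (Eventually.of_forall fun x => ?_)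
    have e1 : |sl (VR γ v p gL gR g nl nr) t x - (swR γ p (g x) |u₀ x - v|)| ≤
        |g (x - v * t) - g x| + |swR γ p gR (nr (t, x)) - swR γ p gR (Nr x)| +
          |swR γ p gL (-nl (t, x)) - swR γ p gL (Nl x)| := by
      rw [(hdec x).1]
      have h1 := ra_abs3 (g (x - v * t)) (swR γ p gR (nr (t, x)) - gR)
        (swR γ p gL (-nl (t, x)) - gL) (g x) (swR γ p gR (Nr x) - gR) (swR γ p gL (Nl x) - gL)
      simp only [sub_sub_sub_cancel_right] at h1
      exact h1
    have e2 : |sl (VW v nl nr) t x - u₀ x| ≤ |nr (t, x) - Nr x| + |-nl (t, x) - Nl x| := by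
      have h1 : sl (VW v nl nr) t x - u₀ x = (nr (t, x) - Nr x) + -(-nl (t, x) - Nl x) := by
        have h2 := hdecu x
        have h3 : sl (VW v nl nr) t x = v + nr (t, x) + nl (t, x) := rfl
        rw [h3]
        linarith
      rw [h1]
      refine (abs_add_le _ _).trans ?_
      rw [abs_neg]
    have e3 : |sl (VE γ v p gL gR g nl nr) t x - (swE γ p (g x) |u₀ x - v|)| ≤
        |q (x - v * t) - q x| + |swE γ p gR (nr (t, x)) - swE γ p gR (Nr x)| +
          |swE γ p gL (-nl (t, x)) - swE γ p gL (Nl x)| := by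
      rw [(hdec x).2]
      have h1 := ra_abs3 (q (x - v * t)) (swE γ p gR (nr (t, x)) - p / ((γ - 1) * gR))
        (swE γ p gL (-nl (t, x)) - p / ((γ - 1) * gL)) (q x)
        (swE γ p gR (Nr x) - p / ((γ - 1) * gR)) (swE γ p gL (Nl x) - p / ((γ - 1) * gL))
      simp only [sub_sub_sub_cancel_right] at h1
      exact h1
    simp only [Pi.add_apply]
    linarith
  refine hmono.trans_lt ?_
  rw [s8, s7, s6, s5, s4, s3, s2]
  linarith

end Helper73.EU
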