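import Pool.Agent.Helper73.EU.Tools

/-!
RC-1. Rarefaction waves: Burgers' equation `n_t + (α + β n) n_x = 0` with nondecreasing data `N`
(jumps allowed).

PROOF. For `t > 0` put `P y = y + t (α + β N y)`; `P y' - P y ≥ y' - y` for `y ≤ y'`, `|P y - y| ≤ t C`,
`C = |α| + β B`. `Y (t, x) = sSup {y | P y ≤ x}` (nonempty, bounded above), `n (t, x) = ((x - Y)/t - α)/β`,
and `n (t, x) = 0` for `t ≤ 0`.
(1) `y < Y → P y ≤ x`, `y > Y → x < P y`. Hence for `y < Y`: `N y ≤ n (t, x)` (for `y < y' < Y`: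
`N y ≤ N y' ≤ ((x - y')/t - α)/β`, let `y' → Y`), and for `y > Y`: `n (t, x) ≤ N y`.
(2) uniqueness: if `x = y₀ + t (α + β n₀)`, `N y ≤ n₀` for all `y < y₀`, `n₀ ≤ N y` for all `y > y₀`, then
`Y (t, x) = y₀`, `n (t, x) = n₀`.
(3) `n (t, ·)` is nondecreasing: if `Y (t, x) < Y (t, x')` take `y` between, `n ≤ N y ≤ n'`; if equal,
`n' - n = (x' - x)/(t β)`. So `0 ≤ Y (t, x') - Y (t, x) ≤ x' - x` for `x ≤ x'`.
(4) in `t`: `x = Y + t (α + β n) = Y' + t' (α + β n')`; if `Y < Y'` then `n ≤ n'` and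
`Y' - Y = (t - t') (α + β n) + t' β (n - n') ≤ C |t - t'|`. So `Y` is Lipschitz on `t > 0`, `n` locally Lipschitz
on `t > 0`, measurable.
(5) PDE: by (2) `n` is constant on the points `(t + h, x + h (α + β n (t, x)))`, `|h| < t`
(`x + h (α + β n) = Y + (t + h) (α + β n)`), so at a point of differentiability
`fderiv n z (1, α + β n z) = 0`.
(6) initial values: `|x - Y (t, x)| ≤ C t`; at a continuity point `x` of `N` (all but countably many,
`Monotone.countable_not_continuousAt`) by (1) `N (Y - t) ≤ n (t, x) ≤ N (Y + t)` tends to `N x`.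
(7) zero regions: (2) with `y₀ = z.2 - α z.1`, `n₀ = 0`.
-/

open MeasureTheory Set Filter Topology
open scoped ContDiff NNReal

namespace Helper73.EU

private noncomputable def Pm (α β : ℝ) (N : ℝ → ℝ) (t y : ℝ) : ℝ := y + t * (α + β * N y)

private noncomputable def Ym (α β : ℝ) (N : ℝ → ℝ) (z : ℝ × ℝ) : ℝ :=
  sSup {y | Pm α β N z.1 y ≤ z.2}

private noncomputable def nm (α β : ℝ) (N : ℝ → ℝ) (z : ℝ × ℝ) : ℝ :=
  if 0 < z.1 then ((z.2 - Ym α β N z) / z.1 - α) / β else 0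

private theorem Pm_mono {α β : ℝ} (hβ : 0 < β) {N : ℝ → ℝ} (hN : Monotone N) {t y y' : ℝ}
    (ht : 0 < t) (h : y ≤ y') : y' - y ≤ Pm α β N t y' - Pm α β N t y := by
  have h1 := mul_le_mul_of_nonneg_left (mul_le_mul_of_nonneg_left (hN h) hβ.le) ht.le
  simp only [Pm]
  nlinarith

private theorem Pm_bd {α β B : ℝ} (hβ : 0 < β) {N : ℝ → ℝ} (hB : ∀ x, |N x| ≤ B) {t y : ℝ}
    (ht : 0 < t) : |Pm α β N t y - y| ≤ t * (|α| + β * B) := by
  have h1 : Pm α β N t y - y = t * (α + β * N y) := by simp only [Pm]; ring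
  rw [h1, abs_mul, abs_of_pos ht]
  apply mul_le_mul_of_nonneg_left _ ht.le
  refine (abs_add_le _ _).trans ?_
  rw [abs_mul, abs_of_pos hβ]
  have := mul_le_mul_of_nonneg_left (hB y) hβ.le
  linarith

private theorem mem_low {α β B : ℝ} (hβ : 0 < β) {N : ℝ → ℝ} (hB : ∀ x, |N x| ≤ B) {z : ℝ × ℝ}
    (ht : 0 < z.1) : z.2 - z.1 * (|α| + β * B) ∈ {y | Pm α β N z.1 y ≤ z.2} := by
  have h := (abs_le.1 (Pm_bd (α := α) hβ hB (y := z.2 - z.1 * (|α| + β * B)) ht)).2
  show Pm α β N z.1 _ ≤ z.2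
  linarith

private theorem le_up {α β B : ℝ} (hβ : 0 < β) {N : ℝ → ℝ} (hB : ∀ x, |N x| ≤ B) {z : ℝ × ℝ}
    (ht : 0 < z.1) {y : ℝ} (hy : Pm α β N z.1 y ≤ z.2) : y ≤ z.2 + z.1 * (|α| + β * B) := by
  have h := (abs_le.1 (Pm_bd (α := α) hβ hB (y := y) ht)).1
  linarith

private theorem bddS {α β B : ℝ} (hβ : 0 < β) {N : ℝ → ℝ} (hB : ∀ x, |N x| ≤ B) {z : ℝ × ℝ}
    (ht : 0 < z.1) : BddAbove {y | Pm α β N z.1 y ≤ z.2} :=
  ⟨z.2 + z.1 * (|α| + β * B), fun _ hy => le_up hβ hB ht hy⟩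

private theorem Ym_bd {α β B : ℝ} (hβ : 0 < β) {N : ℝ → ℝ} (hB : ∀ x, |N x| ≤ B) {z : ℝ × ℝ}
    (ht : 0 < z.1) : |z.2 - Ym α β N z| ≤ z.1 * (|α| + β * B) := by
  have h1 : z.2 - z.1 * (|α| + β * B) ≤ Ym α β N z := le_csSup (bddS hβ hB ht) (mem_low hβ hB ht)
  have h2 : Ym α β N z ≤ z.2 + z.1 * (|α| + β * B) :=
    csSup_le ⟨_, mem_low hβ hB ht⟩ fun y hy => le_up hβ hB ht hy
  rw [abs_le]
  constructor <;> linarith

private theorem P_le {α β B : ℝ} (hβ : 0 < β) {N : ℝ → ℝ} (hN : Monotone N)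
    (hB : ∀ x, |N x| ≤ B) {z : ℝ × ℝ} (ht : 0 < z.1) {y : ℝ} (hy : y < Ym α β N z) :
    Pm α β N z.1 y ≤ z.2 := by
  obtain ⟨y', hy', hyy⟩ := exists_lt_of_lt_csSup ⟨_, mem_low (α := α) hβ hB ht⟩ hy
  have h1 := Pm_mono (α := α) hβ hN ht hyy.le
  have h2 : Pm α β N z.1 y' ≤ z.2 := hy'
  linarith

private theorem lt_P {α β B : ℝ} (hβ : 0 < β) {N : ℝ → ℝ}
    (hB : ∀ x, |N x| ≤ B) {z : ℝ × ℝ} (ht : 0 < z.1) {y : ℝ} (hy : Ym α β N z < y) :
    z.2 < Pm α β N z.1 y := by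
  by_contra h
  rw [not_lt] at h
  have : y ≤ Ym α β N z := le_csSup (bddS hβ hB ht) h
  linarith

private theorem char {α β : ℝ} (hβ : 0 < β) {N : ℝ → ℝ} {z : ℝ × ℝ} (ht : 0 < z.1) :
    z.2 = Ym α β N z + z.1 * (α + β * nm α β N z) := by
  have h1 : nm α β N z = ((z.2 - Ym α β N z) / z.1 - α) / β := by simp [nm, ht]
  rw [h1]
  field_simp
  ring

private theorem N_le {α β B : ℝ} (hβ : 0 < β) {N : ℝ → ℝ} (hN : Monotone N)
    (hB : ∀ x, |N x| ≤ B) {z : ℝ × ℝ} (ht : 0 < z.1) {y : ℝ} (hy : y < Ym α β N z) :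
    N y ≤ nm α β N z := by
  by_contra h
  rw [not_le] at h
  have hc := char (N := N) (α := α) hβ ht
  set Y := Ym α β N z with hY
  set n := nm α β N z with hn
  have hd : 0 < z.1 * β * (N y - n) := mul_pos (mul_pos ht hβ) (by linarith)
  have hlt : max y (Y - z.1 * β * (N y - n)) < Y := max_lt hy (by linarith)
  obtain ⟨y', h1, h2⟩ := exists_between hlt
  have h3 : y < y' := (le_max_left _ _).trans_lt h1
  have h4 : Y - z.1 * β * (N y - n) < y' := (le_max_right _ _).trans_lt h1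
  have h5 := P_le hβ hN hB ht (y := y') h2
  have h6 := mul_le_mul_of_nonneg_left (hN h3.le) (mul_pos ht hβ).le
  simp only [Pm] at h5
  nlinarith

private theorem le_N {α β B : ℝ} (hβ : 0 < β) {N : ℝ → ℝ} (hN : Monotone N)
    (hB : ∀ x, |N x| ≤ B) {z : ℝ × ℝ} (ht : 0 < z.1) {y : ℝ} (hy : Ym α β N z < y) :
    nm α β N z ≤ N y := by
  by_contra h
  rw [not_le] at h
  have hc := char (N := N) (α := α) hβ ht
  set Y := Ym α β N z with hY
  set n := nm α β N z with hn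
  have hd : 0 < z.1 * β * (n - N y) := mul_pos (mul_pos ht hβ) (by linarith)
  have hlt : Y < min y (Y + z.1 * β * (n - N y)) := lt_min hy (by linarith)
  obtain ⟨y', h1, h2⟩ := exists_between hlt
  have h3 : y' < y := h2.trans_le (min_le_left _ _)
  have h4 : y' < Y + z.1 * β * (n - N y) := h2.trans_le (min_le_right _ _)
  have h5 := lt_P (α := α) hβ hB ht (y := y') h1
  have h6 := mul_le_mul_of_nonneg_left (hN h3.le) (mul_pos ht hβ).le
  simp only [Pm] at h5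
  nlinarith

private theorem uniq {α β B : ℝ} (hβ : 0 < β) {N : ℝ → ℝ}
    (hB : ∀ x, |N x| ≤ B) {z : ℝ × ℝ} (ht : 0 < z.1) {y₀ n₀ : ℝ}
    (h : z.2 = y₀ + z.1 * (α + β * n₀)) (h1 : ∀ y < y₀, N y ≤ n₀) (h2 : ∀ y > y₀, n₀ ≤ N y) :
    nm α β N z = n₀ := by
  have hY : Ym α β N z = y₀ := by
    apply le_antisymm
    · apply csSup_le ⟨_, mem_low (α := α) hβ hB ht⟩
      intro y hy
      by_contra hlt
      rw [not_le] at hlt
      have h3 := mul_le_mul_of_nonneg_left (h2 y hlt) (mul_pos ht hβ).le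
      have h4 : y + z.1 * (α + β * N y) ≤ z.2 := hy
      nlinarith
    · apply le_of_forall_lt
      intro y hy
      obtain ⟨y', hy1, hy2⟩ := exists_between hy
      refine hy1.trans_le (le_csSup (bddS (α := α) hβ hB ht) ?_)
      have h3 := mul_le_mul_of_nonneg_left (h1 y' hy2) (mul_pos ht hβ).le
      show y' + z.1 * (α + β * N y') ≤ z.2
      nlinarith
  have hc := char (N := N) (α := α) hβ ht
  rw [hY] at hc
  have h5 : z.1 * β * (nm α β N z - n₀) = 0 := by linarith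
  rcases mul_eq_zero.1 h5 with h6 | h6
  · exact absurd h6 (mul_pos ht hβ).ne'
  · linarith

private theorem n_bd {α β B : ℝ} (hβ : 0 < β) {N : ℝ → ℝ} (hN : Monotone N)
    (hB : ∀ x, |N x| ≤ B) {z : ℝ × ℝ} (ht : 0 < z.1) : |nm α β N z| ≤ B := by
  have h1 := N_le (α := α) hβ hN hB ht (y := Ym α β N z - 1) (by linarith)
  have h2 := le_N (α := α) hβ hN hB ht (y := Ym α β N z + 1) (by linarith)
  have h3 := (abs_le.1 (hB (Ym α β N z - 1))).1
  have h4 := (abs_le.1 (hB (Ym α β N z + 1))).2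
  rw [abs_le]
  constructor <;> linarith

private theorem n_mono {α β B : ℝ} (hβ : 0 < β) {N : ℝ → ℝ} (hN : Monotone N)
    (hB : ∀ x, |N x| ≤ B) {t x x' : ℝ} (ht : 0 < t) (hx : x ≤ x') :
    Ym α β N (t, x) ≤ Ym α β N (t, x') ∧ nm α β N (t, x) ≤ nm α β N (t, x') := by
  have hc := char (N := N) (α := α) (z := (t, x)) hβ ht
  have hc' := char (N := N) (α := α) (z := (t, x')) hβ ht
  have hY : Ym α β N (t, x) ≤ Ym α β N (t, x') := by
    apply csSup_le ⟨_, mem_low (α := α) (z := (t, x)) hβ hB ht⟩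
    intro y hy
    exact le_csSup (bddS (α := α) (z := (t, x')) hβ hB ht) (le_trans hy hx)
  refine ⟨hY, ?_⟩
  rcases hY.lt_or_eq with h | h
  · obtain ⟨y, h1, h2⟩ := exists_between h
    exact (le_N hβ hN hB (z := (t, x)) ht h1).trans (N_le hβ hN hB (z := (t, x')) ht h2)
  · simp only at hc hc'
    rw [h] at hc
    have h5 : 0 ≤ t * β * (nm α β N (t, x') - nm α β N (t, x)) := by linarith
    have h6 := nonneg_of_mul_nonneg_right h5 (mul_pos ht hβ)
    linarith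

private theorem Y_x {α β B : ℝ} (hβ : 0 < β) {N : ℝ → ℝ} (hN : Monotone N)
    (hB : ∀ x, |N x| ≤ B) {t x x' : ℝ} (ht : 0 < t) :
    |Ym α β N (t, x) - Ym α β N (t, x')| ≤ |x - x'| := by
  wlog hx : x ≤ x' generalizing x x'
  · rw [abs_sub_comm, abs_sub_comm x]
    exact this (le_of_not_ge hx)
  have hc := char (N := N) (α := α) (z := (t, x)) hβ ht
  have hc' := char (N := N) (α := α) (z := (t, x')) hβ ht
  obtain ⟨h1, h2⟩ := n_mono (α := α) hβ hN hB ht hx
  have h3 := mul_le_mul_of_nonneg_left h2 (mul_pos ht hβ).le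
  simp only at hc hc'
  rw [abs_sub_comm, abs_sub_comm x, abs_of_nonneg (by linarith), abs_of_nonneg (by linarith)]
  nlinarith

private theorem Y_t {α β B : ℝ} (hβ : 0 < β) {N : ℝ → ℝ} (hN : Monotone N)
    (hB : ∀ x, |N x| ≤ B) {t t' x : ℝ} (ht : 0 < t) (ht' : 0 < t') :
    |Ym α β N (t, x) - Ym α β N (t', x)| ≤ (|α| + β * B) * |t - t'| := by
  wlog hx : Ym α β N (t, x) ≤ Ym α β N (t', x) generalizing t t'
  · rw [abs_sub_comm, abs_sub_comm t]
    exact this ht' ht (le_of_not_ge hx)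
  have hc := char (N := N) (α := α) (z := (t, x)) hβ ht
  have hc' := char (N := N) (α := α) (z := (t', x)) hβ ht'
  have hnb := n_bd (α := α) hβ hN hB (z := (t, x)) ht
  have hC : |α + β * nm α β N (t, x)| ≤ |α| + β * B := by
    refine (abs_add_le _ _).trans ?_
    rw [abs_mul, abs_of_pos hβ]
    have := mul_le_mul_of_nonneg_left hnb hβ.le
    linarith
  have hC0 : 0 ≤ |α| + β * B := (abs_nonneg _).trans hC
  rcases hx.lt_or_eq with h | h
  · obtain ⟨y, h1, h2⟩ := exists_between h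
    have h3 := (le_N hβ hN hB (z := (t, x)) ht h1).trans (N_le hβ hN hB (z := (t', x)) ht' h2)
    have h4 := mul_le_mul_of_nonneg_left h3 (mul_pos ht' hβ).le
    simp only at hc hc'
    rw [abs_sub_comm, abs_of_nonneg (by linarith)]
    have h5 : (t - t') * (α + β * nm α β N (t, x)) ≤ (|α| + β * B) * |t - t'| := by
      refine (le_abs_self _).trans ?_
      rw [abs_mul, mul_comm]
      exact mul_le_mul_of_nonneg_right hC (abs_nonneg _)
    nlinarith
  · rw [h, sub_self, abs_zero]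
    positivity

private theorem Y_lip {α β B : ℝ} (hβ : 0 < β) {N : ℝ → ℝ} (hN : Monotone N)
    (hB : ∀ x, |N x| ≤ B) (hB0 : 0 ≤ B) :
    LipschitzOnWith (Real.toNNReal (|α| + β * B + 1)) (Ym α β N) {z : ℝ × ℝ | 0 < z.1} := by
  apply LipschitzOnWith.of_dist_le_mul
  intro z hz z' hz'
  have hC0 : 0 ≤ |α| + β * B := by positivity
  rw [Real.coe_toNNReal _ (by linarith), Real.dist_eq]
  have h1 := Y_x (α := α) (x := z.2) (x' := z'.2) hβ hN hB (show 0 < z.1 from hz)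
  have h2 := Y_t (α := α) (x := z'.2) hβ hN hB (show 0 < z.1 from hz) (show 0 < z'.1 from hz')
  have h3 : |z.1 - z'.1| ≤ dist z z' := by
    rw [← Real.dist_eq]; exact le_max_left _ _
  have h4 : |z.2 - z'.2| ≤ dist z z' := by
    rw [← Real.dist_eq]; exact le_max_right _ _
  have h5 := mul_le_mul_of_nonneg_left h3 hC0
  have h6 := abs_sub_le (Ym α β N (z.1, z.2)) (Ym α β N (z.1, z'.2)) (Ym α β N (z'.1, z'.2))
  calc |Ym α β N z - Ym α β N z'| ≤ |Ym α β N (z.1, z.2) - Ym α β N (z.1, z'.2)| +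
        |Ym α β N (z.1, z'.2) - Ym α β N (z'.1, z'.2)| := h6
    _ ≤ _ := by linarith

private theorem isOpen_up : IsOpen {z : ℝ × ℝ | 0 < z.1} :=
  isOpen_lt continuous_const continuous_fst

private theorem n_cont {α β B : ℝ} (hβ : 0 < β) {N : ℝ → ℝ} (hN : Monotone N)
    (hB : ∀ x, |N x| ≤ B) (hB0 : 0 ≤ B) :
    ContinuousOn (fun z : ℝ × ℝ => ((z.2 - Ym α β N z) / z.1 - α) / β) {z : ℝ × ℝ | 0 < z.1} := by
  have h1 := (Y_lip (α := α) hβ hN hB hB0).continuousOn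
  refine ContinuousOn.div_const (ContinuousOn.sub (ContinuousOn.div
    (continuous_snd.continuousOn.sub h1) continuous_fst.continuousOn ?_) continuousOn_const) _
  intro z hz
  exact (show 0 < z.1 from hz).ne'

private theorem n_meas {α β B : ℝ} (hβ : 0 < β) {N : ℝ → ℝ} (hN : Monotone N)
    (hB : ∀ x, |N x| ≤ B) (hB0 : 0 ≤ B) : Measurable (nm α β N) := by
  classical
  have h := (n_cont (α := α) hβ hN hB hB0).measurable_piecewise
    (g := fun _ : ℝ × ℝ => (0 : ℝ)) continuousOn_const isOpen_up.measurableSet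
  have e : nm α β N = {z : ℝ × ℝ | 0 < z.1}.piecewise
      (fun z : ℝ × ℝ => ((z.2 - Ym α β N z) / z.1 - α) / β) (fun _ => 0) := by
    funext z
    simp only [nm, Set.piecewise, mem_setOf_eq]
  rw [e]
  exact h

private theorem n_lip {α β B : ℝ} (hβ : 0 < β) {N : ℝ → ℝ} (hN : Monotone N)
    (hB : ∀ x, |N x| ≤ B) (hB0 : 0 ≤ B) (T : ℝ) : LocallyLipschitzOn (Strip T) (nm α β N) := by
  intro z hz
  -- on a neighbourhood where `z.1 / 2 < t`
  have hz1 : 0 < z.1 := hz.1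
  set C := |α| + β * B with hCdef
  have hC0 : 0 ≤ C := by positivity
  set m := z.1 / 2 with hm
  have hm0 : 0 < m := by positivity
  have hopen : IsOpen {w : ℝ × ℝ | m < w.1} := isOpen_lt continuous_const continuous_fst
  have hmem : {w : ℝ × ℝ | m < w.1} ∈ 𝓝[Strip T] z :=
    mem_nhdsWithin_of_mem_nhds (hopen.mem_nhds (show m < z.1 by rw [hm]; linarith))
  have hK0 : 0 ≤ (1 + (C + 1) + C) / m / β := by positivity
  refine ⟨⟨(1 + (C + 1) + C) / m / β, hK0⟩, _, hmem, LipschitzOnWith.of_dist_le_mul ?_⟩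
  intro w hw w' hw'
  have hw0 : 0 < w.1 := hm0.trans hw
  have hw0' : 0 < w'.1 := hm0.trans hw'
  have hY := (Y_lip (α := α) hβ hN hB hB0).dist_le_mul w hw0 w' hw0'
  rw [Real.coe_toNNReal _ (by linarith), Real.dist_eq] at hY
  have e1 : nm α β N w = ((w.2 - Ym α β N w) / w.1 - α) / β := by simp [nm, hw0]
  have e2 : nm α β N w' = ((w'.2 - Ym α β N w') / w'.1 - α) / β := by simp [nm, hw0']
  have h3 : |w.1 - w'.1| ≤ dist w w' := by rw [← Real.dist_eq]; exact le_max_left _ _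
  have h4 : |w.2 - w'.2| ≤ dist w w' := by rw [← Real.dist_eq]; exact le_max_right _ _
  have hb := Ym_bd (α := α) hβ hB hw0'
  rw [Real.dist_eq, e1, e2]
  show _ ≤ (1 + (C + 1) + C) / m / β * dist w w'
  have e3 : ((w.2 - Ym α β N w) / w.1 - α) / β - ((w'.2 - Ym α β N w') / w'.1 - α) / β =
      (((w.2 - w'.2) - (Ym α β N w - Ym α β N w')) -
        (w.1 - w'.1) * ((w'.2 - Ym α β N w') / w'.1)) / w.1 / β := by
    field_simp
    ring
  rw [e3, abs_div, abs_div, abs_of_pos hβ, abs_of_pos hw0]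
  have h5 : |(w'.2 - Ym α β N w') / w'.1| ≤ C := by
    rw [abs_div, abs_of_pos hw0', div_le_iff₀ hw0']
    linarith
  have h6 : |((w.2 - w'.2) - (Ym α β N w - Ym α β N w')) -
      (w.1 - w'.1) * ((w'.2 - Ym α β N w') / w'.1)| ≤ (1 + (C + 1) + C) * dist w w' := by
    have h7 := abs_sub (w.2 - w'.2 - (Ym α β N w - Ym α β N w'))
      ((w.1 - w'.1) * ((w'.2 - Ym α β N w') / w'.1))
    have h8 := abs_sub (w.2 - w'.2) (Ym α β N w - Ym α β N w')
    have h9 : |(w.1 - w'.1) * ((w'.2 - Ym α β N w') / w'.1)| ≤ dist w w' * C := by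
      rw [abs_mul]
      exact mul_le_mul h3 h5 (abs_nonneg _) dist_nonneg
    nlinarith
  have hd0 : 0 ≤ (1 + (C + 1) + C) * dist w w' := by positivity
  calc |((w.2 - w'.2) - (Ym α β N w - Ym α β N w')) -
      (w.1 - w'.1) * ((w'.2 - Ym α β N w') / w'.1)| / w.1 / β
      ≤ ((1 + (C + 1) + C) * dist w w') / w.1 / β := by gcongr
    _ ≤ ((1 + (C + 1) + C) * dist w w') / m / β := by
        gcongr
        exact (show m < w.1 from hw).le
    _ = _ := by ring

private theorem n_pde {α β B : ℝ} (hβ : 0 < β) {N : ℝ → ℝ} (hN : Monotone N)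
    (hB : ∀ x, |N x| ≤ B) {z : ℝ × ℝ} (ht : 0 < z.1) (hd : DifferentiableAt ℝ (nm α β N) z) :
    dt (nm α β N) z + (α + β * nm α β N z) * dx (nm α β N) z = 0 := by
  set n := nm α β N z with hn
  set c := α + β * n with hc
  have hline : HasDerivAt (fun h : ℝ => (z.1 + h, z.2 + h * c)) ((1 : ℝ), c) 0 := by
    have h1 : HasDerivAt (fun h : ℝ => z.1 + h) 1 0 := by
      simpa using (hasDerivAt_id (0 : ℝ)).const_add z.1
    have h2 : HasDerivAt (fun h : ℝ => z.2 + h * c) c 0 := by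
      simpa using ((hasDerivAt_id (0 : ℝ)).mul_const c).const_add z.2
    exact h1.prodMk h2
  have hz : (fun h : ℝ => (z.1 + h, z.2 + h * c)) 0 = z := by simp
  have hcomp : HasDerivAt (fun h : ℝ => nm α β N (z.1 + h, z.2 + h * c))
      (fderiv ℝ (nm α β N) z ((1 : ℝ), c)) 0 := by
    have h3 : HasFDerivAt (nm α β N) (fderiv ℝ (nm α β N) z)
        ((fun h : ℝ => (z.1 + h, z.2 + h * c)) 0) := by
      rw [hz]; exact hd.hasFDerivAt
    exact h3.comp_hasDerivAt (0 : ℝ) hline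
  have hconst : (fun h : ℝ => nm α β N (z.1 + h, z.2 + h * c)) =ᶠ[𝓝 0] fun _ => n := by
    have : Ioi (-z.1) ∈ 𝓝 (0 : ℝ) := Ioi_mem_nhds (by linarith)
    filter_upwards [this] with h hh
    have hh' : 0 < z.1 + h := by have : -z.1 < h := hh; linarith
    apply uniq (B := B) hβ hB (z := (z.1 + h, z.2 + h * c)) hh' (y₀ := Ym α β N z)
    · have hch := char (N := N) (α := α) hβ ht
      show z.2 + h * c = Ym α β N z + (z.1 + h) * c
      rw [hc, hn]
      linarith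
    · intro y hy
      exact N_le hβ hN hB ht hy
    · intro y hy
      exact le_N hβ hN hB ht hy
  have h0 : fderiv ℝ (nm α β N) z ((1 : ℝ), c) = 0 :=
    hcomp.unique ((hasDerivAt_const (0 : ℝ) n).congr_of_eventuallyEq hconst)
  have e : ((1 : ℝ), c) = (1, 0) + c • ((0 : ℝ), (1 : ℝ)) := by simp
  rw [e, map_add, map_smul, smul_eq_mul] at h0
  exact h0

private theorem n_init {α β B : ℝ} (hβ : 0 < β) {N : ℝ → ℝ} (hN : Monotone N)
    (hB : ∀ x, |N x| ≤ B) {x : ℝ} (hx : ContinuousAt N x) :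
    Tendsto (fun t => nm α β N (t, x)) (𝓝[>] 0) (𝓝 (N x)) := by
  set C := |α| + β * B with hC
  have hid : Tendsto (fun t : ℝ => t) (𝓝[>] (0 : ℝ)) (𝓝 0) :=
    tendsto_id.mono_left nhdsWithin_le_nhds
  have hYt : Tendsto (fun t => Ym α β N (t, x)) (𝓝[>] 0) (𝓝 x) := by
    have h1 : Tendsto (fun t : ℝ => t * C) (𝓝[>] (0 : ℝ)) (𝓝 0) := by
      simpa using hid.mul_const C
    rw [tendsto_iff_dist_tendsto_zero]
    refine squeeze_zero' (Eventually.of_forall fun _ => dist_nonneg) ?_ h1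
    filter_upwards [self_mem_nhdsWithin] with t ht
    have := Ym_bd (α := α) hβ hB (z := (t, x)) ht
    rw [dist_comm, Real.dist_eq]
    exact this
  have hlo : Tendsto (fun t => N (Ym α β N (t, x) - t)) (𝓝[>] 0) (𝓝 (N x)) := by
    have h2 : Tendsto (fun t => Ym α β N (t, x) - t) (𝓝[>] 0) (𝓝 x) := by
      simpa using hYt.sub hid
    exact hx.tendsto.comp h2
  have hhi : Tendsto (fun t => N (Ym α β N (t, x) + t)) (𝓝[>] 0) (𝓝 (N x)) := by
    have h2 : Tendsto (fun t => Ym α β N (t, x) + t) (𝓝[>] 0) (𝓝 x) := by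
      simpa using hYt.add hid
    exact hx.tendsto.comp h2
  refine tendsto_of_tendsto_of_tendsto_of_le_of_le' hlo hhi ?_ ?_
  · filter_upwards [self_mem_nhdsWithin] with t ht
    have ht' : 0 < t := ht
    exact N_le hβ hN hB (z := (t, x)) ht' (by linarith)
  · filter_upwards [self_mem_nhdsWithin] with t ht
    have ht' : 0 < t := ht
    exact le_N hβ hN hB (z := (t, x)) ht' (by linarith)

theorem exists_burgers {α β B : ℝ} (hβ : 0 < β) {N : ℝ → ℝ} (hN : Monotone N)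
    (hB : ∀ x, |N x| ≤ B) : ∃ n : ℝ × ℝ → ℝ, Measurable n ∧
      (∀ T, LocallyLipschitzOn (Strip T) n) ∧
      (∀ z : ℝ × ℝ, 0 < z.1 → (∃ y, N y ≤ n z) ∧ (∃ y, n z ≤ N y)) ∧
      (∀ t, 0 < t → Monotone (sl n t)) ∧
      (∀ z : ℝ × ℝ, 0 < z.1 → DifferentiableAt ℝ n z →
        dt n z + (α + β * n z) * dx n z = 0) ∧
      (∀ᵐ x : ℝ, Tendsto (fun t => n (t, x)) (𝓝[>] 0) (𝓝 (N x))) ∧
      (∀ x₂, (∀ x ≤ x₂, N x = 0) → (∀ x, 0 ≤ N x) →
        ∀ z : ℝ × ℝ, 0 < z.1 → z.2 ≤ x₂ + α * z.1 → n z = 0) ∧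
      (∀ x₁, (∀ x ≥ x₁, N x = 0) → (∀ x, N x ≤ 0) →
        ∀ z : ℝ × ℝ, 0 < z.1 → x₁ + α * z.1 ≤ z.2 → n z = 0) := by
  have hB0 : 0 ≤ B := (abs_nonneg _).trans (hB 0)
  refine ⟨nm α β N, n_meas hβ hN hB hB0, n_lip hβ hN hB hB0, ?_, ?_, ?_, ?_, ?_, ?_⟩
  · intro z hz
    exact ⟨⟨Ym α β N z - 1, N_le hβ hN hB hz (by linarith)⟩,
      ⟨Ym α β N z + 1, le_N hβ hN hB hz (by linarith)⟩⟩
  · intro t ht x x' hx
    exact (n_mono hβ hN hB ht hx).2
  · intro z hz hd
    exact n_pde hβ hN hB hz hd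
  · have h1 : {x | ¬ ContinuousAt N x}.Countable := hN.countable_not_continuousAt
    filter_upwards [h1.ae_notMem volume] with x hx
    exact n_init hβ hN hB (not_not.1 hx)
  · intro x₂ h0 hpos z hz hle
    apply uniq (B := B) hβ hB hz (y₀ := z.2 - α * z.1)
    · ring
    · intro y hy
      rw [h0 y (by linarith)]
    · intro y _
      exact hpos y
  · intro x₁ h0 hneg z hz hle
    apply uniq (B := B) hβ hB hz (y₀ := z.2 - α * z.1)
    · ring
    · intro y _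
      exact hneg y
    · intro y hy
      rw [h0 y (by have : z.2 - α * z.1 < y := hy
                   show x₁ ≤ y
                   linarith)]

end Helper73.EU
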