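import Pool.Agent.Helper73.EU.Bounds

/-!
RC-3. Simple waves. Through the state `(r, v, p)` (`r, p > 0`), `σ = ±1`: velocity `v + n`, sound speed
`c = cs + (γ-1)/2 m`, `m = σ n ≥ 0`, density `swR γ p r m`, energy `swE γ p r m`; the speed of the wave is
`v + n + σ c = (v + σ cs) + (γ+1)/2 n`.

PROOF of `sw_deriv`. Near a point `n` with `0 ≤ σ n` the function `c(n) = cs + (γ-1)/2 σ n` is positive and smooth, so is
`R (n) = swR γ p r (σ n) = r (c/cs)^(2/(γ-1))`, with `R' = R (2/(γ-1)) c'/c = σ R/c` (`c' = σ (γ-1)/2`). `W = v + n`,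
`W' = 1`. `pr γ R E = R c^2/γ =: Q`, `Q' = c^2 R'` (because `Q' = (R' c^2 + 2 R c c')/γ`, `2 R c c' = (γ-1) c^2 R'`).
With `λ = W + σ c`, `λ - W = σ c`, and `R W' = R = σ c R' = (λ - W) R'` (σ^2 = 1):
mass: `(R W)' = R' W + R = λ R'`;
momentum: `(R W^2 + Q)' = R' W^2 + 2 W R + c^2 R'`, `λ (R W)' = λ^2 R'`, and
`W^2 + 2 W (λ - W) + (λ - W)^2 = λ^2`;
energy: `R en = Q/(γ-1) + R W^2/2` (`E = c^2/(γ (γ-1))`, `(γ-1) R E = Q`), `(R en)' = c^2 R'/(γ-1) + R' W^2/2 + W R`,
`(R en W + Q W)' = (R en)' W + R en + Q' W + Q`, with `R en + Q = R (W^2/2 + c^2/(γ-1)) = (λ - W) R' (W^2/2 + c^2/(γ-1))`: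
equals `λ (R en)'`;
entropy: `ent γ R E = log (p r^(-γ))` is constant for `c > 0`: `Q R^(-γ) = p r^(-γ)` as `Q = p (R/r)^γ`.
At `n = 0`: `swR γ p r 0 = r`, `swE γ p r 0 = p/((γ-1) r)` (`cs^2 = γ p/r`).
-/

open MeasureTheory Set Filter Topology
open scoped ContDiff NNReal

namespace Helper73.EU

/-- The sound speed of the state of density `r` and pressure `p`. -/
noncomputable def cs (γ p r : ℝ) : ℝ := Real.sqrt (γ * p / r)

/-- The sound speed on the simple wave through `(r, p)` at velocity distance `m`. -/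
noncomputable def swC (γ p r m : ℝ) : ℝ := cs γ p r + (γ - 1) / 2 * m

/-- The density on the simple wave. -/
noncomputable def swR (γ p r m : ℝ) : ℝ := r * (swC γ p r m / cs γ p r) ^ (2 / (γ - 1))

/-- The specific internal energy on the simple wave. -/
noncomputable def swE (γ p r m : ℝ) : ℝ := swC γ p r m ^ 2 / (γ * (γ - 1))

theorem cs_pos {γ p r : ℝ} (hγ : 1 < γ) (hp : 0 < p) (hr : 0 < r) : 0 < cs γ p r := by
  unfold cs; positivity

theorem swR_zero {γ p r : ℝ} (hγ : 1 < γ) (hp : 0 < p) (hr : 0 < r) : swR γ p r 0 = r := by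
  have hc := cs_pos hγ hp hr
  unfold swR swC
  rw [mul_zero, add_zero, div_self hc.ne', Real.one_rpow, mul_one]

private theorem cs_sq {γ p r : ℝ} (hγ : 1 < γ) (hp : 0 < p) (hr : 0 < r) :
    cs γ p r ^ 2 = γ * p / r := by
  unfold cs
  exact Real.sq_sqrt (by positivity)

theorem swE_zero {γ p r : ℝ} (hγ : 1 < γ) (hp : 0 < p) (hr : 0 < r) :
    swE γ p r 0 = p / ((γ - 1) * r) := by
  have h1 : (γ - 1) ≠ 0 := by linarith
  unfold swE swC
  rw [mul_zero, add_zero, cs_sq hγ hp hr]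
  field_simp

/-- Monotonicity in `m`. -/
theorem sw_mono {γ p r m m' : ℝ} (hγ : 1 < γ) (hp : 0 < p) (hr : 0 < r) (hm : 0 ≤ m)
    (hmm : m ≤ m') : swR γ p r m ≤ swR γ p r m' ∧ swE γ p r m ≤ swE γ p r m' := by
  have hc := cs_pos hγ hp hr
  have h1 : 0 < γ - 1 := by linarith
  have h2 : 0 < swC γ p r m := by
    unfold swC
    positivity
  have h3 : swC γ p r m ≤ swC γ p r m' := by
    unfold swC
    have := mul_le_mul_of_nonneg_left hmm (by linarith : 0 ≤ (γ - 1) / 2)
    linarith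
  constructor
  · unfold swR
    apply mul_le_mul_of_nonneg_left _ hr.le
    apply Real.rpow_le_rpow (by positivity) _ (by positivity)
    exact div_le_div_of_nonneg_right h3 hc.le
  · unfold swE
    apply div_le_div_of_nonneg_right _ (by positivity)
    exact pow_le_pow_left₀ h2.le h3 2

/-- The pressure on the simple wave is a smooth function; `pr = swR * swC^2/γ`. -/
theorem sw_pr {γ p r m : ℝ} (hγ : 1 < γ) (hp : 0 < p) (hr : 0 < r) (hm : 0 ≤ m) :
    pr γ (swR γ p r m) (swE γ p r m) = swR γ p r m * swC γ p r m ^ 2 / γ := by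
  have h1 : (γ - 1) ≠ 0 := by linarith
  have h2 : γ ≠ 0 := by linarith
  unfold pr swE
  field_simp

private theorem sw_c_pos {γ p r σ n : ℝ} (hγ : 1 < γ) (hp : 0 < p) (hr : 0 < r)
    (hn : 0 ≤ σ * n) : 0 < swC γ p r (σ * n) := by
  have hc := cs_pos hγ hp hr
  have h1 : 0 < γ - 1 := by linarith
  unfold swC
  positivity

private theorem sw_ev {γ p r σ n : ℝ} (hγ : 1 < γ) (hp : 0 < p) (hr : 0 < r)
    (hn : 0 ≤ σ * n) : ∀ᶠ y in 𝓝 n, 0 < swC γ p r (σ * y) := by
  have h1 : Continuous (fun y => swC γ p r (σ * y)) := by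
    unfold swC
    fun_prop
  exact h1.continuousAt.eventually (eventually_gt_nhds (sw_c_pos hγ hp hr hn))

/-- Smoothness. -/
theorem sw_smooth {γ p r σ n : ℝ} (hγ : 1 < γ) (hp : 0 < p) (hr : 0 < r) (hσ : σ = 1 ∨ σ = -1)
    (hn : 0 ≤ σ * n) : ContDiffAt ℝ 1 (fun n => swR γ p r (σ * n)) n ∧
      ContDiffAt ℝ 1 (fun n => swE γ p r (σ * n)) n := by
  have hc := cs_pos hγ hp hr
  have h2 := sw_c_pos hγ hp hr hn
  have h3 : ContDiff ℝ 1 (fun n => swC γ p r (σ * n)) := by
    unfold swC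
    fun_prop
  constructor
  · unfold swR
    apply ContDiffAt.mul contDiffAt_const
    apply ContDiffAt.rpow_const_of_ne
    · exact h3.contDiffAt.div_const _
    · positivity
  · unfold swE
    exact (h3.contDiffAt.pow 2).div_const _

/-- The entropy is constant near every point of the wave. -/
theorem sw_ent {γ p r σ n : ℝ} (hγ : 1 < γ) (hp : 0 < p) (hr : 0 < r) (hσ : σ = 1 ∨ σ = -1)
    (hn : 0 ≤ σ * n) : ∀ᶠ y in 𝓝 n,
      ent γ (swR γ p r (σ * y)) (swE γ p r (σ * y)) = Real.log (p * r ^ (-γ)) := by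
  have hc := cs_pos hγ hp hr
  have hγ1 : (γ - 1) ≠ 0 := by linarith
  have hγ0 : 0 < γ := by linarith
  filter_upwards [sw_ev hγ hp hr hn] with y hy
  obtain ⟨c, hcdef⟩ : ∃ c, c = swC γ p r (σ * y) := ⟨_, rfl⟩
  have hE : swE γ p r (σ * y) = c ^ 2 / (γ * (γ - 1)) := by rw [hcdef]; rfl
  have hR : swR γ p r (σ * y) = r * (c / cs γ p r) ^ (2 / (γ - 1)) := by rw [hcdef]; rfl
  rw [← hcdef] at hy
  unfold ent
  congr 1
  have hq : 0 < c / cs γ p r := by positivity
  have hRpos : 0 < swR γ p r (σ * y) := by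
    rw [hR]
    positivity
  have h1 : pr γ (swR γ p r (σ * y)) (swE γ p r (σ * y)) * swR γ p r (σ * y) ^ (-γ) =
      (c ^ 2 / γ) * swR γ p r (σ * y) ^ (1 - γ) := by
    rw [show (1 - γ) = 1 + -γ by ring, Real.rpow_add hRpos, Real.rpow_one]
    unfold pr
    rw [hE]
    field_simp
  have h2 : swR γ p r (σ * y) ^ (1 - γ) = r ^ (1 - γ) * (cs γ p r ^ 2 / c ^ 2) := by
    rw [hR, Real.mul_rpow hr.le (by positivity), ← Real.rpow_mul hq.le,
      show 2 / (γ - 1) * (1 - γ) = -2 by field_simp; ring, Real.rpow_neg hq.le,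
      show (2 : ℝ) = ((2 : ℕ) : ℝ) by norm_num, Real.rpow_natCast, div_pow, inv_div]
  rw [h1, h2, cs_sq hγ hp hr, show (1 - γ) = 1 + -γ by ring, Real.rpow_add hr, Real.rpow_one]
  field_simp

theorem sw_deriv {γ p r v σ n : ℝ} (hγ : 1 < γ) (hp : 0 < p) (hr : 0 < r) (hσ : σ = 1 ∨ σ = -1)
    (hn : 0 ≤ σ * n) :
    let R : ℝ → ℝ := fun y => swR γ p r (σ * y)
    let E : ℝ → ℝ := fun y => swE γ p r (σ * y)
    let l : ℝ := (v + σ * cs γ p r) + (γ + 1) / 2 * n
    deriv (fun y => R y * (v + y)) n = l * deriv R n ∧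
    deriv (fun y => R y * (v + y) ^ 2 + pr γ (R y) (E y)) n =
      l * deriv (fun y => R y * (v + y)) n ∧
    deriv (fun y => R y * en (v + y) (E y) * (v + y) + pr γ (R y) (E y) * (v + y)) n =
      l * deriv (fun y => R y * en (v + y) (E y)) n ∧
    deriv (fun y => R y * (v + y) * ent γ (R y) (E y)) n =
      l * deriv (fun y => R y * ent γ (R y) (E y)) n := by
  intro R E l
  have hc := cs_pos hγ hp hr
  have hγ1 : (γ - 1) ≠ 0 := by linarith
  have hγ0 : γ ≠ 0 := by linarith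
  have hσ2 : σ * σ = 1 := by
    rcases hσ with h | h <;> rw [h] <;> norm_num
  obtain ⟨c, hcdef⟩ : ∃ c, c = swC γ p r (σ * n) := ⟨_, rfl⟩
  have hcpos : 0 < c := by
    rw [hcdef]
    exact sw_c_pos hγ hp hr hn
  have hcd : HasDerivAt (fun y => swC γ p r (σ * y)) ((γ - 1) / 2 * σ) n := by
    unfold swC
    have h1 := (((hasDerivAt_id n).const_mul σ).const_mul ((γ - 1) / 2)).const_add (cs γ p r)
    simpa using h1
  have hl : l = (v + n) + σ * c := by
    change (v + σ * cs γ p r) + (γ + 1) / 2 * n = _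
    rw [hcdef]
    unfold swC
    linear_combination (-(γ - 1) / 2 * n) * hσ2
  have hRd : HasDerivAt R (σ * R n / c) n := by
    have h1 := (hcd.div_const (cs γ p r)).rpow_const (p := 2 / (γ - 1))
      (Or.inl (by rw [← hcdef]; positivity))
    have h2 := h1.const_mul r
    have h3 : r * ((γ - 1) / 2 * σ / cs γ p r * (2 / (γ - 1)) *
        (swC γ p r (σ * n) / cs γ p r) ^ (2 / (γ - 1) - 1)) = σ * R n / c := by
      rw [← hcdef, Real.rpow_sub_one (by positivity)]
      change _ = σ * (r * (swC γ p r (σ * n) / cs γ p r) ^ (2 / (γ - 1))) / c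
      rw [← hcdef]
      field_simp
    rw [h3] at h2
    exact h2
  have hEd : HasDerivAt E (σ * c / γ) n := by
    have h1 := (hcd.pow 2).div_const (γ * (γ - 1))
    have h3 : ((2 : ℕ) : ℝ) * swC γ p r (σ * n) ^ (2 - 1) * ((γ - 1) / 2 * σ) / (γ * (γ - 1)) =
        σ * c / γ := by
      rw [← hcdef]
      push_cast
      field_simp
    rw [h3] at h1
    exact h1
  have hEn : E n = c ^ 2 / (γ * (γ - 1)) := by
    rw [hcdef]
    rfl
  have hPd : HasDerivAt (fun y => pr γ (R y) (E y)) (σ * c * R n) n := by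
    have h1 := (hRd.const_mul (γ - 1)).mul hEd
    have h3 : (γ - 1) * (σ * R n / c) * E n + (γ - 1) * R n * (σ * c / γ) = σ * c * R n := by
      rw [hEn]
      field_simp
      ring
    rw [h3] at h1
    exact h1
  have hPn : pr γ (R n) (E n) = R n * c ^ 2 / γ := by
    unfold pr
    rw [hEn]
    field_simp
  have hWd : HasDerivAt (fun y => v + y) 1 n := by
    simpa using (hasDerivAt_id n).const_add v
  have hMd : HasDerivAt (fun y => R y * (v + y)) (σ * R n / c * (v + n) + R n * 1) n :=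
    hRd.mul hWd
  have hMMd : HasDerivAt (fun y => R y * (v + y) ^ 2 + pr γ (R y) (E y))
      ((σ * R n / c * (v + n) ^ 2 + R n * (2 * (v + n) * 1)) + σ * c * R n) n := by
    have h1 := hRd.mul (hWd.pow 2)
    have h2 := h1.add hPd
    refine h2.congr_deriv ?_
    simp
  have hend : HasDerivAt (fun y => en (v + y) (E y)) (σ * c / γ + 2 * (v + n) * 1 / 2) n := by
    have h1 := hEd.add ((hWd.pow 2).div_const 2)
    refine h1.congr_deriv ?_
    simp
  have hREd := hRd.mul hend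
  have hFd := (hREd.mul hWd).add (hPd.mul hWd)
  have key : σ * R n / c * (v + n) + R n * 1 = l * (σ * R n / c) := by
    rw [hl]
    field_simp
    linear_combination (-c * R n) * hσ2
  refine ⟨?_, ?_, ?_, ?_⟩
  · rw [hMd.deriv, hRd.deriv, key]
  · rw [hMMd.deriv, hMd.deriv, hl]
    field_simp
    linear_combination (-(c * R n * (v + n))) * hσ2
  · have h1 : deriv (fun y => R y * en (v + y) (E y) * (v + y) + pr γ (R y) (E y) * (v + y)) n =
        (σ * R n / c * en (v + n) (E n) + R n * (σ * c / γ + 2 * (v + n) * 1 / 2)) * (v + n) +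
        (R n * en (v + n) (E n)) * 1 + (σ * c * R n * (v + n) + pr γ (R n) (E n) * 1) := hFd.deriv
    have h2 : deriv (fun y => R y * en (v + y) (E y)) n =
        σ * R n / c * en (v + n) (E n) + R n * (σ * c / γ + 2 * (v + n) * 1 / 2) := hREd.deriv
    have hS : σ * R n / c * c = σ * R n := div_mul_cancel₀ _ hcpos.ne'
    rw [h1, h2, hl, hPn]
    linear_combination (-σ * en (v + n) (E n)) * hS -
      (R n * en (v + n) (E n) + R n * c ^ 2 / γ) * hσ2
  · have h1 : (fun y => R y * (v + y) * ent γ (R y) (E y)) =ᶠ[𝓝 n]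
        fun y => R y * (v + y) * Real.log (p * r ^ (-γ)) := by
      filter_upwards [sw_ent hγ hp hr hσ hn] with y hy
      change R y * (v + y) * ent γ (swR γ p r (σ * y)) (swE γ p r (σ * y)) = _
      rw [hy]
    have h2 : (fun y => R y * ent γ (R y) (E y)) =ᶠ[𝓝 n]
        fun y => R y * Real.log (p * r ^ (-γ)) := by
      filter_upwards [sw_ent hγ hp hr hσ hn] with y hy
      change R y * ent γ (swR γ p r (σ * y)) (swE γ p r (σ * y)) = _
      rw [hy]
    rw [h1.deriv_eq, h2.deriv_eq, (hMd.mul_const _).deriv, (hRd.mul_const _).deriv, key]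
    ring

end Helper73.EU
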