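import Pool.Agent.Helper73.EU.RBurg
import Pool.Agent.Helper73.EU.RSW
import Pool.Agent.Helper73.EU.Dist

/-!
Project EU, second part: data with two outgoing rarefaction waves and an arbitrary density between
them. Definitions, and the waves from `exists_burgers`.
-/

open MeasureTheory Set Filter Topology
open scoped ContDiff NNReal

namespace Helper73.EU

/-- Data without shocks: the velocity `u₀` is nondecreasing; on `[x₁, x₂]` it is equal to `v`, the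
pressure is `p` and the density `g` is arbitrary; for `x > x₂` the state is on the forward simple
wave and for `x < x₁` on the backward simple wave through the constant states `(gR, v, p)` and
`(gL, v, p)`. The density is `swR γ p (g x) |u₀ x - v|`, the energy `swE γ p (g x) |u₀ x - v|`. -/
structure IsShockFreeDatum (γ a b v p x₁ x₂ gL gR : ℝ) (g u₀ : ℝ → ℝ) : Prop where
  meas : Measurable g
  le : x₁ ≤ x₂
  pos_p : 0 < p
  pos : ∀ x, 0 < g x
  left : ∀ x < x₁, g x = gL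
  right : ∀ x > x₂, g x = gR
  mono : Monotone u₀
  mid : ∀ x ∈ Icc x₁ x₂, u₀ x = v
  box : ∀ x, Box a b (swR γ p (g x) |u₀ x - v|) (u₀ x) (swE γ p (g x) |u₀ x - v|)
  boxL : Box a b gL v (p / ((γ - 1) * gL))
  boxR : Box a b gR v (p / ((γ - 1) * gR))

/-- The two waves: velocity excess `nl ≤ 0` of the backward wave and `nr ≥ 0` of the forward wave. -/
structure IsWaves (γ v p x₁ x₂ gL gR : ℝ) (u₀ : ℝ → ℝ) (nl nr : ℝ × ℝ → ℝ) : Prop where
  meas_l : Measurable nl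
  meas_r : Measurable nr
  lip_l : ∀ T, LocallyLipschitzOn (Strip T) nl
  lip_r : ∀ T, LocallyLipschitzOn (Strip T) nr
  mono_l : ∀ t, 0 < t → Monotone (sl nl t)
  mono_r : ∀ t, 0 < t → Monotone (sl nr t)
  pde_l : ∀ z : ℝ × ℝ, 0 < z.1 → DifferentiableAt ℝ nl z →
    dt nl z + ((v - cs γ p gL) + (γ + 1) / 2 * nl z) * dx nl z = 0
  pde_r : ∀ z : ℝ × ℝ, 0 < z.1 → DifferentiableAt ℝ nr z →
    dt nr z + ((v + cs γ p gR) + (γ + 1) / 2 * nr z) * dx nr z = 0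
  zero_l : ∀ z : ℝ × ℝ, 0 < z.1 → x₁ + (v - cs γ p gL) * z.1 ≤ z.2 → nl z = 0
  zero_r : ∀ z : ℝ × ℝ, 0 < z.1 → z.2 ≤ x₂ + (v + cs γ p gR) * z.1 → nr z = 0
  range_l : ∀ z : ℝ × ℝ, 0 < z.1 → (∃ y, min (u₀ y - v) 0 ≤ nl z) ∧ nl z ≤ 0
  range_r : ∀ z : ℝ × ℝ, 0 < z.1 → (∃ y, nr z ≤ max (u₀ y - v) 0) ∧ 0 ≤ nr z
  init_l : ∀ᵐ x : ℝ, Tendsto (fun t => nl (t, x)) (𝓝[>] 0) (𝓝 (min (u₀ x - v) 0))
  init_r : ∀ᵐ x : ℝ, Tendsto (fun t => nr (t, x)) (𝓝[>] 0) (𝓝 (max (u₀ x - v) 0))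

theorem exists_waves {γ a b v p x₁ x₂ gL gR : ℝ} {g u₀ : ℝ → ℝ} (hγ : 1 < γ)
    (h : IsShockFreeDatum γ a b v p x₁ x₂ gL gR g u₀) :
    ∃ nl nr : ℝ × ℝ → ℝ, IsWaves γ v p x₁ x₂ gL gR u₀ nl nr := by
  have hub : ∀ x, |u₀ x| ≤ b := fun x => (h.box x).2.2.1
  have hvb : |v| ≤ b := h.boxL.2.2.1
  have hβ : 0 < (γ + 1) / 2 := by linarith
  have hNl : Monotone (fun x => min (u₀ x - v) 0) := fun x y hxy => by
    have := h.mono hxy
    exact min_le_min (by linarith) le_rfl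
  have hNr : Monotone (fun x => max (u₀ x - v) 0) := fun x y hxy => by
    have := h.mono hxy
    exact max_le_max (by linarith) le_rfl
  have hBl : ∀ x, |min (u₀ x - v) 0| ≤ 2 * b := fun x => by
    have h1 := abs_le.1 (hub x)
    have h2 := abs_le.1 hvb
    rw [abs_le]
    constructor
    · exact le_min (by linarith) (by linarith)
    · exact (min_le_right _ _).trans (by linarith)
  have hBr : ∀ x, |max (u₀ x - v) 0| ≤ 2 * b := fun x => by
    have h1 := abs_le.1 (hub x)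
    have h2 := abs_le.1 hvb
    rw [abs_le]
    constructor
    · exact le_trans (by linarith) (le_max_right _ _)
    · exact max_le (by linarith) (by linarith)
  obtain ⟨nl, l1, l2, l3, l4, l5, l6, -, l8⟩ :=
    exists_burgers (α := v - cs γ p gL) hβ hNl hBl
  obtain ⟨nr, r1, r2, r3, r4, r5, r6, r7, -⟩ :=
    exists_burgers (α := v + cs γ p gR) hβ hNr hBr
  refine ⟨nl, nr, ⟨l1, r1, l2, r2, l4, r4, l5, r5, ?_, ?_, ?_, ?_, l6, r6⟩⟩
  · apply l8
    · intro x hx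
      have : v ≤ u₀ x := by
        rw [← h.mid x₁ ⟨le_rfl, h.le⟩]; exact h.mono hx
      exact min_eq_right (by linarith)
    · intro x; exact min_le_right _ _
  · apply r7
    · intro x hx
      have : u₀ x ≤ v := by
        rw [← h.mid x₂ ⟨h.le, le_rfl⟩]; exact h.mono hx
      exact max_eq_right (by linarith)
    · intro x; exact le_max_right _ _
  · intro z hz
    obtain ⟨h1, y, h2⟩ := l3 z hz
    exact ⟨h1, h2.trans (min_le_right _ _)⟩
  · intro z hz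
    obtain ⟨⟨y, h1⟩, h2⟩ := r3 z hz
    exact ⟨h2, (le_max_right _ _).trans h1⟩

/-- The density of the solution. -/
noncomputable def VR (γ v p gL gR : ℝ) (g : ℝ → ℝ) (nl nr : ℝ × ℝ → ℝ) (ζ : ℝ × ℝ) : ℝ :=
  g (ζ.2 - v * ζ.1) + (swR γ p gR (nr ζ) - gR) + (swR γ p gL (-(nl ζ)) - gL)

/-- The velocity of the solution. -/
noncomputable def VW (v : ℝ) (nl nr : ℝ × ℝ → ℝ) (ζ : ℝ × ℝ) : ℝ := v + nr ζ + nl ζ

/-- The specific internal energy of the solution. -/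
noncomputable def VE (γ v p gL gR : ℝ) (g : ℝ → ℝ) (nl nr : ℝ × ℝ → ℝ) (ζ : ℝ × ℝ) : ℝ :=
  p / ((γ - 1) * g (ζ.2 - v * ζ.1)) + (swE γ p gR (nr ζ) - p / ((γ - 1) * gR)) +
    (swE γ p gL (-(nl ζ)) - p / ((γ - 1) * gL))

/-- Every function of the state splits. -/
theorem glue_decomp {γ a b v p x₁ x₂ gL gR : ℝ} {g u₀ : ℝ → ℝ} {nl nr : ℝ × ℝ → ℝ} (hγ : 1 < γ)
    (ha : 0 < a) (h : IsShockFreeDatum γ a b v p x₁ x₂ gL gR g u₀)
    (hn : IsWaves γ v p x₁ x₂ gL gR u₀ nl nr) (G : ℝ → ℝ → ℝ → ℝ) {ζ : ℝ × ℝ} (hζ : 0 < ζ.1) :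
    G (VR γ v p gL gR g nl nr ζ) (VW v nl nr ζ) (VE γ v p gL gR g nl nr ζ) =
      G (g (ζ.2 - v * ζ.1)) v (p / ((γ - 1) * g (ζ.2 - v * ζ.1))) +
      (G (swR γ p gR (nr ζ)) (v + nr ζ) (swE γ p gR (nr ζ)) - G gR v (p / ((γ - 1) * gR))) +
      (G (swR γ p gL (-(nl ζ))) (v + nl ζ) (swE γ p gL (-(nl ζ))) -
        G gL v (p / ((γ - 1) * gL))) := by
  have hgL : 0 < gL := lt_of_lt_of_le ha h.boxL.1
  have hgR : 0 < gR := lt_of_lt_of_le ha h.boxR.1
  have hR0 := swR_zero hγ h.pos_p hgR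
  have hE0 := swE_zero hγ h.pos_p hgR
  have hR0' := swR_zero hγ h.pos_p hgL
  have hE0' := swE_zero hγ h.pos_p hgL
  have hcR := cs_pos hγ h.pos_p hgR
  have hcL := cs_pos hγ h.pos_p hgL
  unfold VR VW VE
  by_cases h1 : nr ζ = 0
  · by_cases h2 : nl ζ = 0
    · rw [h1, h2]
      simp [hR0, hE0, hR0', hE0']
    · have h3 : ζ.2 < x₁ + (v - cs γ p gL) * ζ.1 := by
        by_contra hc
        exact h2 (hn.zero_l ζ hζ (not_lt.1 hc))
      have h4 : g (ζ.2 - v * ζ.1) = gL := by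
        apply h.left
        nlinarith [mul_pos hcL hζ]
      rw [h1, h4]
      simp [hR0, hE0]
  · have h3 : x₂ + (v + cs γ p gR) * ζ.1 < ζ.2 := by
      by_contra hc
      exact h1 (hn.zero_r ζ hζ (not_lt.1 hc))
    have h4 : g (ζ.2 - v * ζ.1) = gR := by
      apply h.right
      nlinarith [mul_pos hcR hζ]
    have h5 : nl ζ = 0 := by
      apply hn.zero_l ζ hζ
      nlinarith [mul_pos hcR hζ, mul_pos hcL hζ, h.le]
    rw [h5, h4]
    simp [hR0', hE0']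

end Helper73.EU
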