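import Pool.Agent.Helper73.EU.Tools

/-!
RC-2. Laws of smooth functions of a Burgers solution; laws are linear.

PROOF of `law_burgers`. For a test `φ` the functions `φ (A ∘ n)`, `φ (F ∘ n)` are Lipschitz tests (`locLip_comp`,
`IsLipTest.mul_loc`, `IsTest.isLipTest`), so `∫ dt (φ (A ∘ n)) + dx (φ (F ∘ n)) = 0` (`integral_dt`, `integral_dx`,
both integrable). A.e. on the strip `n` is differentiable (`ae_differentiableAt`), `A`, `F` are differentiable at `n z`,
product and chain rule: the integrand is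
`A (n) dt φ + F (n) dx φ + φ (deriv A (n) dt n + deriv F (n) dx n)` and the last bracket is
`deriv A (n) (dt n + (α + β n) dx n) = 0`.
`Law.add`, `Law.sub`: `integral_add`, integrability from `IsLipTest.integrableOn_dt`, `integrableOn_dx`
(multiplications commute with the bounds). `law_const`: `integral_dt`, `integral_dx`.
-/

open MeasureTheory Set Filter Topology
open scoped ContDiff NNReal

namespace Helper73.EU

/-- The chain rule for a function of one variable. -/
private theorem h45_comp_fderiv {A : ℝ → ℝ} {n : ℝ × ℝ → ℝ} {z : ℝ × ℝ}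
    (hn : DifferentiableAt ℝ n z) (hA : DifferentiableAt ℝ A (n z)) :
    DifferentiableAt ℝ (fun z => A (n z)) z ∧
      dt (fun z => A (n z)) z = deriv A (n z) * dt n z ∧
      dx (fun z => A (n z)) z = deriv A (n z) * dx n z := by
  have h1 : HasFDerivAt (fun z => A (n z)) (deriv A (n z) • fderiv ℝ n z) z :=
    hA.hasDerivAt.comp_hasFDerivAt z hn.hasFDerivAt
  refine ⟨h1.differentiableAt, ?_, ?_⟩
  · unfold dt
    rw [h1.fderiv]
    rfl
  · unfold dx
    rw [h1.fderiv]
    rfl

private theorem h45_int_dt {T : ℝ} {φ : ℝ × ℝ → ℝ} (h : IsLipTest T φ) :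
    IntegrableOn (fun z => dt φ z) (Strip T) := by
  have h1 := h.integrableOn_dt (F := fun _ => 1) (M := 1) measurable_const
    (Eventually.of_forall fun z _ => by simp)
  simpa using h1

private theorem h45_int_dx {T : ℝ} {φ : ℝ × ℝ → ℝ} (h : IsLipTest T φ) :
    IntegrableOn (fun z => dx φ z) (Strip T) := by
  have h1 := h.integrableOn_dx (F := fun _ => 1) (M := 1) measurable_const
    (Eventually.of_forall fun z _ => by simp)
  simpa using h1

/-- Integrability of the integrand of a law. -/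
private theorem h45_int_law {T M : ℝ} {A B φ : ℝ × ℝ → ℝ} (hφ : IsLipTest T φ)
    (hA : Measurable A) (hB : Measurable B)
    (hM : ∀ᵐ z : ℝ × ℝ, z ∈ Strip T → |A z| ≤ M ∧ |B z| ≤ M) :
    IntegrableOn (fun z => A z * dt φ z + B z * dx φ z) (Strip T) :=
  (hφ.integrableOn_dt hA (hM.mono fun z hz h => (hz h).1)).add
    (hφ.integrableOn_dx hB (hM.mono fun z hz h => (hz h).2))

theorem law_burgers {T α β : ℝ} {n : ℝ × ℝ → ℝ} (hn : LocallyLipschitzOn (Strip T) n)
    (hpde : ∀ᵐ z : ℝ × ℝ, z ∈ Strip T → dt n z + (α + β * n z) * dx n z = 0) {A F : ℝ → ℝ}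
    (hA : ∀ z ∈ Strip T, ContDiffAt ℝ 1 A (n z)) (hF : ∀ z ∈ Strip T, ContDiffAt ℝ 1 F (n z))
    (hd : ∀ z ∈ Strip T, deriv F (n z) = (α + β * n z) * deriv A (n z)) :
    Law T (fun z => A (n z)) (fun z => F (n z)) := by
  intro φ hφ
  have hφL := hφ.isLipTest
  have h1 := hφL.mul_loc (locLip_comp hn hA)
  have h2 := hφL.mul_loc (locLip_comp hn hF)
  have h3 : ∫ z in Strip T, (dt (fun z => φ z * A (n z)) z + dx (fun z => φ z * F (n z)) z) = 0 := by
    rw [integral_add (h45_int_dt h1) (h45_int_dx h2), h1.integral_dt, h2.integral_dx, add_zero]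
  rw [← h3]
  refine setIntegral_congr_ae (measurableSet_strip T) ?_
  filter_upwards [ae_differentiableAt hn, hpde] with z hz1 hz2 hz
  have hφd : DifferentiableAt ℝ φ z := (hφ.smooth.differentiable (by simp)) z
  obtain ⟨h4, h5, _⟩ := h45_comp_fderiv (hz1 hz) ((hA z hz).differentiableAt (by simp))
  obtain ⟨h6, _, h7⟩ := h45_comp_fderiv (hz1 hz) ((hF z hz).differentiableAt (by simp))
  rw [dt_mul hφd h4, dx_mul hφd h6, h5, h7, hd z hz]
  have h8 := hz2 hz
  have h9 : φ z * (deriv A (n z) * dt n z) + φ z * ((α + β * n z) * deriv A (n z) * dx n z) =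
      φ z * deriv A (n z) * (dt n z + (α + β * n z) * dx n z) := by ring
  rw [h8, mul_zero] at h9
  linarith

theorem law_const {T c c' : ℝ} : Law T (fun _ => c) (fun _ => c') := by
  intro φ hφ
  have hφL := hφ.isLipTest
  rw [integral_add ((h45_int_dt hφL).const_mul c) ((h45_int_dx hφL).const_mul c'),
    integral_const_mul, integral_const_mul, hφL.integral_dt, hφL.integral_dx]
  simp

theorem Law.add {T M : ℝ} {A B A' B' : ℝ × ℝ → ℝ} (h : Law T A B) (h' : Law T A' B')
    (hA : Measurable A) (hB : Measurable B) (hA' : Measurable A') (hB' : Measurable B')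
    (hM : ∀ᵐ z : ℝ × ℝ, z ∈ Strip T → |A z| ≤ M ∧ |B z| ≤ M ∧ |A' z| ≤ M ∧ |B' z| ≤ M) :
    Law T (fun z => A z + A' z) (fun z => B z + B' z) := by
  intro φ hφ
  have hφL := hφ.isLipTest
  have h1 := h45_int_law hφL hA hB (hM.mono fun z hz hzT => ⟨(hz hzT).1, (hz hzT).2.1⟩)
  have h2 := h45_int_law hφL hA' hB'
    (hM.mono fun z hz hzT => ⟨(hz hzT).2.2.1, (hz hzT).2.2.2⟩)
  have h3 : (fun z => (A z + A' z) * dt φ z + (B z + B' z) * dx φ z) =
      fun z => (A z * dt φ z + B z * dx φ z) + (A' z * dt φ z + B' z * dx φ z) := by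
    funext z
    ring
  rw [h3, integral_add h1 h2, h φ hφ, h' φ hφ, add_zero]

theorem Law.sub {T M : ℝ} {A B A' B' : ℝ × ℝ → ℝ} (h : Law T A B) (h' : Law T A' B')
    (hA : Measurable A) (hB : Measurable B) (hA' : Measurable A') (hB' : Measurable B')
    (hM : ∀ᵐ z : ℝ × ℝ, z ∈ Strip T → |A z| ≤ M ∧ |B z| ≤ M ∧ |A' z| ≤ M ∧ |B' z| ≤ M) :
    Law T (fun z => A z - A' z) (fun z => B z - B' z) := by
  intro φ hφ
  have hφL := hφ.isLipTest
  have h1 := h45_int_law hφL hA hB (hM.mono fun z hz hzT => ⟨(hz hzT).1, (hz hzT).2.1⟩)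
  have h2 := h45_int_law hφL hA' hB'
    (hM.mono fun z hz hzT => ⟨(hz hzT).2.2.1, (hz hzT).2.2.2⟩)
  have h3 : (fun z => (A z - A' z) * dt φ z + (B z - B' z) * dx φ z) =
      fun z => (A z * dt φ z + B z * dx φ z) - (A' z * dt φ z + B' z * dx φ z) := by
    funext z
    ring
  rw [h3, integral_sub h1 h2, h φ hφ, h' φ hφ, sub_zero]

/-- Two pairs which agree on the strip satisfy the same law. -/
theorem Law.congr {T : ℝ} {A B A' B' : ℝ × ℝ → ℝ} (h : Law T A B)
    (hA : ∀ z ∈ Strip T, A' z = A z) (hB : ∀ z ∈ Strip T, B' z = B z) : Law T A' B' := by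
  intro φ hφ
  rw [← h φ hφ]
  apply setIntegral_congr_fun (measurableSet_strip T)
  intro z hz
  simp only [hA z hz, hB z hz]

end Helper73.EU
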