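import Pool.Agent.Helper73.EU.RDef
import Pool.Agent.Helper73.EU.RLaw
import Pool.Agent.Helper73.EU.Contact

/-!
RC-4. The glued state is an entropy solution.

PROOF. Let `V = (VR, VW, VE)`. Each density and flux of the four laws is `G (VR ζ) (VW ζ) (VE ζ)` for a function
`G` of the state, and by `glue_decomp` on the strip
`G (V) = G (g (x - v t), v, p/((γ-1) g)) + (G (wave R) - const) + (G (wave L) - const)`.
Law of the first part: `law_transport` (with `F = r`, `F = r v`, const `p`; `F = r en`, const `p v`; `F = r ent`, const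
`0`; note `pr γ r (p/((γ-1) r)) = p`). Law of the second part: `law_burgers` with `n = nr`, `α = v + cs γ p gR`,
`β = (γ+1)/2`, and `sw_smooth`, `sw_deriv` with `σ = 1`; third part: `n = nl`, `σ = -1`, `α = v - cs γ p gL`. (The fluxes are
`C¹` functions of `n` by `sw_smooth`, `sw_ent`.) Constants: `law_const`. Add with `Law.add`, `Law.sub`, `Law.congr`. The
entropy law holds with equality, so it gives `LawGe` (`(h φ hφ).le`).
`glue_box`: for `t > 0` the state is in the box: by `glue_decomp` type case distinction it is one of: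
`(g y, v, p/((γ-1) g y))` with `y = x - v t`: if `y ∈ [x₁, x₂]` this is the data at `y` (`h.box`, `h.mid`, `swR_zero`,
`swE_zero`), if `y < x₁` or `y > x₂` use `boxL`, `boxR`; or a wave state with `0 ≤ nr ≤ u₀ y - v` for some `y > x₂` with
`u₀ y > v` (from `range_r`; `y > x₂` because `u₀ y > v`, so `g y = gR`): `sw_mono` between `boxR` and `h.box y`; the same
on the left. Measurability: compositions of measurable functions (`cs`, `swR`, `swE` are measurable in `m`).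
-/

open MeasureTheory Set Filter Topology
open scoped ContDiff NNReal

namespace Helper73.EU

private theorem measurable_swR {γ p r : ℝ} : Measurable (swR γ p r) := by
  unfold swR swC; fun_prop

private theorem measurable_swE {γ p r : ℝ} : Measurable (swE γ p r) := by
  unfold swE swC; fun_prop

theorem measurable_glue {γ a b v p x₁ x₂ gL gR : ℝ} {g u₀ : ℝ → ℝ} {nl nr : ℝ × ℝ → ℝ}
    (h : IsShockFreeDatum γ a b v p x₁ x₂ gL gR g u₀)
    (hn : IsWaves γ v p x₁ x₂ gL gR u₀ nl nr) :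
    Measurable (VR γ v p gL gR g nl nr) ∧ Measurable (VW v nl nr) ∧
      Measurable (VE γ v p gL gR g nl nr) := by
  have h1 := h.meas
  have h2 := hn.meas_l
  have h3 := hn.meas_r
  have h4 : Measurable (fun ζ : ℝ × ℝ => g (ζ.2 - v * ζ.1)) := h1.comp (by fun_prop)
  refine ⟨?_, ?_, ?_⟩
  · exact (h4.add (((measurable_swR (γ := γ) (p := p) (r := gR)).comp h3).sub measurable_const)).add
      (((measurable_swR (γ := γ) (p := p) (r := gL)).comp h2.neg).sub measurable_const)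
  · exact (measurable_const.add h3).add h2
  · exact ((measurable_const.div (measurable_const.mul h4)).add
      (((measurable_swE (γ := γ) (p := p) (r := gR)).comp h3).sub measurable_const)).add
      (((measurable_swE (γ := γ) (p := p) (r := gL)).comp h2.neg).sub measurable_const)

/-- The states between a constant state and a state on the wave. -/
private theorem box_between {γ a b v p r m m' w u' : ℝ} (hγ : 1 < γ) (hp : 0 < p) (hr : 0 < r)
    (h0 : Box a b r v (p / ((γ - 1) * r))) (h1 : Box a b (swR γ p r m') u' (swE γ p r m'))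
    (hm : 0 ≤ m) (hmm : m ≤ m') (hw : |w| ≤ b) : Box a b (swR γ p r m) w (swE γ p r m) := by
  have s1 := sw_mono hγ hp hr le_rfl hm
  have s2 := sw_mono hγ hp hr hm hmm
  rw [swR_zero hγ hp hr, swE_zero hγ hp hr] at s1
  exact ⟨h0.1.trans s1.1, s2.1.trans h1.2.1, hw, h0.2.2.2.1.trans s1.2, s2.2.trans h1.2.2.2.2⟩

private theorem box_mid {γ a b v p x₁ x₂ gL gR : ℝ} {g u₀ : ℝ → ℝ}
    (hγ : 1 < γ) (h : IsShockFreeDatum γ a b v p x₁ x₂ gL gR g u₀) (y : ℝ) :
    Box a b (g y) v (p / ((γ - 1) * g y)) := by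
  rcases lt_or_ge y x₁ with h1 | h1
  · rw [h.left y h1]; exact h.boxL
  · rcases lt_or_ge x₂ y with h2 | h2
    · rw [h.right y h2]; exact h.boxR
    · have h3 := h.box y
      have h4 := h.mid y ⟨h1, h2⟩
      rw [h4, sub_self, abs_zero, swR_zero hγ h.pos_p (h.pos y),
        swE_zero hγ h.pos_p (h.pos y)] at h3
      exact h3

private theorem box_r {γ a b v p x₁ x₂ gL gR : ℝ} {g u₀ : ℝ → ℝ} {nl nr : ℝ × ℝ → ℝ}
    (hγ : 1 < γ) (ha : 0 < a) (h : IsShockFreeDatum γ a b v p x₁ x₂ gL gR g u₀)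
    (hn : IsWaves γ v p x₁ x₂ gL gR u₀ nl nr) {ζ : ℝ × ℝ} (hζ : 0 < ζ.1) :
    Box a b (swR γ p gR (nr ζ)) (v + nr ζ) (swE γ p gR (nr ζ)) := by
  have hgR : 0 < gR := lt_of_lt_of_le ha h.boxR.1
  obtain ⟨⟨y, hy⟩, h0⟩ := hn.range_r ζ hζ
  rcases h0.eq_or_lt with h1 | h1
  · rw [← h1, swR_zero hγ h.pos_p hgR, swE_zero hγ h.pos_p hgR, add_zero]
    exact h.boxR
  · have h2 : nr ζ ≤ u₀ y - v := by
      rcases le_total (u₀ y - v) 0 with h3 | h3
      · rw [max_eq_right h3] at hy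
        linarith
      · rwa [max_eq_left h3] at hy
    have h3 : x₂ < y := by
      by_contra hc
      have h4 := h.mono (not_lt.1 hc)
      rw [h.mid x₂ ⟨h.le, le_rfl⟩] at h4
      linarith
    have h5 := h.box y
    rw [h.right y h3, abs_of_nonneg (by linarith : 0 ≤ u₀ y - v)] at h5
    apply box_between hγ h.pos_p hgR h.boxR h5 h0 h2
    have h6 := abs_le.1 h5.2.2.1
    have h7 := abs_le.1 h.boxR.2.2.1
    rw [abs_le]
    constructor <;> linarith

private theorem box_l {γ a b v p x₁ x₂ gL gR : ℝ} {g u₀ : ℝ → ℝ} {nl nr : ℝ × ℝ → ℝ}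
    (hγ : 1 < γ) (ha : 0 < a) (h : IsShockFreeDatum γ a b v p x₁ x₂ gL gR g u₀)
    (hn : IsWaves γ v p x₁ x₂ gL gR u₀ nl nr) {ζ : ℝ × ℝ} (hζ : 0 < ζ.1) :
    Box a b (swR γ p gL (-(nl ζ))) (v + nl ζ) (swE γ p gL (-(nl ζ))) := by
  have hgL : 0 < gL := lt_of_lt_of_le ha h.boxL.1
  obtain ⟨⟨y, hy⟩, h0⟩ := hn.range_l ζ hζ
  rcases h0.eq_or_lt with h1 | h1
  · rw [h1, neg_zero, swR_zero hγ h.pos_p hgL, swE_zero hγ h.pos_p hgL, add_zero]
    exact h.boxL
  · have h2 : u₀ y - v ≤ nl ζ := by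
      rcases le_total (u₀ y - v) 0 with h3 | h3
      · rwa [min_eq_left h3] at hy
      · rw [min_eq_right h3] at hy
        linarith
    have h3 : y < x₁ := by
      by_contra hc
      have h4 := h.mono (not_lt.1 hc)
      rw [h.mid x₁ ⟨le_rfl, h.le⟩] at h4
      linarith
    have h5 := h.box y
    rw [h.left y h3, abs_of_nonpos (by linarith : u₀ y - v ≤ 0)] at h5
    apply box_between hγ h.pos_p hgL h.boxL h5 (by linarith) (by linarith)
    have h6 := abs_le.1 h5.2.2.1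
    have h7 := abs_le.1 h.boxL.2.2.1
    rw [abs_le]
    constructor <;> linarith

theorem glue_box {γ a b v p x₁ x₂ gL gR : ℝ} {g u₀ : ℝ → ℝ} {nl nr : ℝ × ℝ → ℝ}
    (hγ : 1 < γ) (ha : 0 < a) (h : IsShockFreeDatum γ a b v p x₁ x₂ gL gR g u₀)
    (hn : IsWaves γ v p x₁ x₂ gL gR u₀ nl nr) {ζ : ℝ × ℝ} (hζ : 0 < ζ.1) :
    Box a b (VR γ v p gL gR g nl nr ζ) (VW v nl nr ζ) (VE γ v p gL gR g nl nr ζ) := by
  have hgL : 0 < gL := lt_of_lt_of_le ha h.boxL.1
  have hgR : 0 < gR := lt_of_lt_of_le ha h.boxR.1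
  have hR0 := swR_zero hγ h.pos_p hgR
  have hE0 := swE_zero hγ h.pos_p hgR
  have hR0' := swR_zero hγ h.pos_p hgL
  have hE0' := swE_zero hγ h.pos_p hgL
  have hcR := cs_pos hγ h.pos_p hgR
  have hcL := cs_pos hγ h.pos_p hgL
  by_cases h1 : nr ζ = 0
  · by_cases h2 : nl ζ = 0
    · have e1 : VR γ v p gL gR g nl nr ζ = g (ζ.2 - v * ζ.1) := by
        unfold VR; rw [h1, h2]; simp [hR0, hR0']
      have e2 : VW v nl nr ζ = v := by
        unfold VW; rw [h1, h2]; simp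
      have e3 : VE γ v p gL gR g nl nr ζ = p / ((γ - 1) * g (ζ.2 - v * ζ.1)) := by
        unfold VE; rw [h1, h2]; simp [hE0, hE0']
      rw [e1, e2, e3]
      exact box_mid hγ h _
    · have h3 : ζ.2 < x₁ + (v - cs γ p gL) * ζ.1 := by
        by_contra hc
        exact h2 (hn.zero_l ζ hζ (not_lt.1 hc))
      have h4 : g (ζ.2 - v * ζ.1) = gL := by
        apply h.left
        nlinarith [mul_pos hcL hζ]
      have e1 : VR γ v p gL gR g nl nr ζ = swR γ p gL (-(nl ζ)) := by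
        unfold VR; rw [h1, h4]; simp [hR0]
      have e2 : VW v nl nr ζ = v + nl ζ := by
        unfold VW; rw [h1]; simp
      have e3 : VE γ v p gL gR g nl nr ζ = swE γ p gL (-(nl ζ)) := by
        unfold VE; rw [h1, h4]; simp [hE0]
      rw [e1, e2, e3]
      exact box_l hγ ha h hn hζ
  · have h3 : x₂ + (v + cs γ p gR) * ζ.1 < ζ.2 := by
      by_contra hc
      exact h1 (hn.zero_r ζ hζ (not_lt.1 hc))
    have h4 : g (ζ.2 - v * ζ.1) = gR := by
      apply h.right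
      nlinarith [mul_pos hcR hζ]
    have h5 : nl ζ = 0 := by
      apply hn.zero_l ζ hζ
      nlinarith [mul_pos hcR hζ, mul_pos hcL hζ, h.le]
    have e1 : VR γ v p gL gR g nl nr ζ = swR γ p gR (nr ζ) := by
      unfold VR; rw [h5, h4]; simp [hR0']
    have e2 : VW v nl nr ζ = v + nr ζ := by
      unfold VW; rw [h5]; simp
    have e3 : VE γ v p gL gR g nl nr ζ = swE γ p gR (nr ζ) := by
      unfold VE; rw [h5, h4]; simp [hE0']
    rw [e1, e2, e3]
    exact box_r hγ ha h hn hζ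

/-- The law of one wave. -/
private theorem wave_law {γ T v p r σ : ℝ} {n : ℝ × ℝ → ℝ} {G H : ℝ → ℝ → ℝ → ℝ} (hr : 0 < r)
    (hσ : σ = 1 ∨ σ = -1) (hn : LocallyLipschitzOn (Strip T) n)
    (hpde : ∀ z : ℝ × ℝ, 0 < z.1 → DifferentiableAt ℝ n z →
      dt n z + ((v + σ * cs γ p r) + (γ + 1) / 2 * n z) * dx n z = 0)
    (hpos : ∀ z ∈ Strip T, 0 ≤ σ * n z)
    (hsm : ∀ r σ n : ℝ, 0 < r → (σ = 1 ∨ σ = -1) → 0 ≤ σ * n →
      ContDiffAt ℝ 1 (fun y => G (swR γ p r (σ * y)) (v + y) (swE γ p r (σ * y))) n ∧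
      ContDiffAt ℝ 1 (fun y => H (swR γ p r (σ * y)) (v + y) (swE γ p r (σ * y))) n ∧
      deriv (fun y => H (swR γ p r (σ * y)) (v + y) (swE γ p r (σ * y))) n =
        ((v + σ * cs γ p r) + (γ + 1) / 2 * n) *
          deriv (fun y => G (swR γ p r (σ * y)) (v + y) (swE γ p r (σ * y))) n) :
    Law T (fun z => G (swR γ p r (σ * n z)) (v + n z) (swE γ p r (σ * n z)))
      (fun z => H (swR γ p r (σ * n z)) (v + n z) (swE γ p r (σ * n z))) := by
  refine law_burgers (α := v + σ * cs γ p r) (β := (γ + 1) / 2) hn ?_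
    (A := fun y => G (swR γ p r (σ * y)) (v + y) (swE γ p r (σ * y)))
    (F := fun y => H (swR γ p r (σ * y)) (v + y) (swE γ p r (σ * y))) ?_ ?_ ?_
  · filter_upwards [ae_differentiableAt hn] with z hz hzT
    exact hpde z hzT.1 (hz hzT)
  · intro z hz
    exact (hsm r σ (n z) hr hσ (hpos z hz)).1
  · intro z hz
    exact (hsm r σ (n z) hr hσ (hpos z hz)).2.1
  · intro z hz
    exact (hsm r σ (n z) hr hσ (hpos z hz)).2.2

private theorem glue_law {γ T a b v p x₁ x₂ gL gR c M : ℝ} {g u₀ : ℝ → ℝ} {nl nr : ℝ × ℝ → ℝ}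
    (hγ : 1 < γ) (hT : 0 < T) (ha : 0 < a)
    (h : IsShockFreeDatum γ a b v p x₁ x₂ gL gR g u₀)
    (hn : IsWaves γ v p x₁ x₂ gL gR u₀ nl nr) {G H : ℝ → ℝ → ℝ → ℝ}
    (hGm : Measurable (fun s : ℝ × ℝ × ℝ => G s.1 s.2.1 s.2.2))
    (hHm : Measurable (fun s : ℝ × ℝ × ℝ => H s.1 s.2.1 s.2.2))
    (hM : ∀ ρ u e, Box a b ρ u e → |G ρ u e| ≤ M ∧ |H ρ u e| ≤ M)
    (htr : ∀ ρ, 0 < ρ → H ρ v (p / ((γ - 1) * ρ)) = G ρ v (p / ((γ - 1) * ρ)) * v + c)
    (hsm : ∀ r σ n : ℝ, 0 < r → (σ = 1 ∨ σ = -1) → 0 ≤ σ * n →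
      ContDiffAt ℝ 1 (fun y => G (swR γ p r (σ * y)) (v + y) (swE γ p r (σ * y))) n ∧
      ContDiffAt ℝ 1 (fun y => H (swR γ p r (σ * y)) (v + y) (swE γ p r (σ * y))) n ∧
      deriv (fun y => H (swR γ p r (σ * y)) (v + y) (swE γ p r (σ * y))) n =
        ((v + σ * cs γ p r) + (γ + 1) / 2 * n) *
          deriv (fun y => G (swR γ p r (σ * y)) (v + y) (swE γ p r (σ * y))) n) :
    Law T (fun ζ => G (VR γ v p gL gR g nl nr ζ) (VW v nl nr ζ) (VE γ v p gL gR g nl nr ζ))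
      (fun ζ => H (VR γ v p gL gR g nl nr ζ) (VW v nl nr ζ) (VE γ v p gL gR g nl nr ζ)) := by
  have hgL : 0 < gL := lt_of_lt_of_le ha h.boxL.1
  have hgR : 0 < gR := lt_of_lt_of_le ha h.boxR.1
  have hg2 : Measurable (fun ζ : ℝ × ℝ => g (ζ.2 - v * ζ.1)) := h.meas.comp (by fun_prop)
  have hmid := box_mid hγ h
  have hbr : ∀ z ∈ Strip T, Box a b (swR γ p gR (nr z)) (v + nr z) (swE γ p gR (nr z)) :=
    fun z hz => box_r hγ ha h hn hz.1
  have hbl : ∀ z ∈ Strip T, Box a b (swR γ p gL (-(nl z))) (v + nl z) (swE γ p gL (-(nl z))) :=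
    fun z hz => box_l hγ ha h hn hz.1
  -- first part
  have L1 : Law T (fun ζ => G (g (ζ.2 - v * ζ.1)) v (p / ((γ - 1) * g (ζ.2 - v * ζ.1))))
      (fun ζ => H (g (ζ.2 - v * ζ.1)) v (p / ((γ - 1) * g (ζ.2 - v * ζ.1)))) := by
    have hF : Measurable (fun x : ℝ => G (g x) v (p / ((γ - 1) * g x))) := by
      have h1 : Measurable (fun x : ℝ => ((g x, v, p / ((γ - 1) * g x)) : ℝ × ℝ × ℝ)) :=
        h.meas.prodMk (measurable_const.prodMk
          (measurable_const.div (measurable_const.mul h.meas)))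
      exact hGm.comp h1
    have h2 := law_transport (T := T) (v := v) (c := c) (B := M) hT hF
      (fun x => (hM _ _ _ (hmid x)).1)
    refine h2.congr (fun z _ => rfl) (fun z _ => ?_)
    exact htr _ (h.pos _)
  -- second part
  have L2 : Law T (fun z => G (swR γ p gR (nr z)) (v + nr z) (swE γ p gR (nr z)))
      (fun z => H (swR γ p gR (nr z)) (v + nr z) (swE γ p gR (nr z))) := by
    have h1 := wave_law (G := G) (H := H) (n := nr) (T := T) hgR (Or.inl rfl) (hn.lip_r T)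
      (fun z hz hd => by
        have := hn.pde_r z hz hd
        rwa [one_mul]) (fun z hz => by
        rw [one_mul]; exact (hn.range_r z hz.1).2) hsm
    simpa only [one_mul] using h1
  have L3 : Law T (fun z => G (swR γ p gL (-(nl z))) (v + nl z) (swE γ p gL (-(nl z))))
      (fun z => H (swR γ p gL (-(nl z))) (v + nl z) (swE γ p gL (-(nl z)))) := by
    have h1 := wave_law (G := G) (H := H) (n := nl) (T := T) hgL (Or.inr rfl) (hn.lip_l T)
      (fun z hz hd => by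
        have := hn.pde_l z hz hd
        rwa [neg_one_mul, ← sub_eq_add_neg]) (fun z hz => by
        rw [neg_one_mul]
        have := (hn.range_l z hz.1).2
        linarith) hsm
    simpa only [neg_one_mul] using h1
  -- measurability
  have mk : ∀ (K : ℝ → ℝ → ℝ → ℝ), Measurable (fun s : ℝ × ℝ × ℝ => K s.1 s.2.1 s.2.2) →
      Measurable (fun ζ : ℝ × ℝ => K (g (ζ.2 - v * ζ.1)) v (p / ((γ - 1) * g (ζ.2 - v * ζ.1)))) ∧
      Measurable (fun z => K (swR γ p gR (nr z)) (v + nr z) (swE γ p gR (nr z))) ∧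
      Measurable (fun z => K (swR γ p gL (-(nl z))) (v + nl z) (swE γ p gL (-(nl z)))) := by
    intro K hK
    refine ⟨?_, ?_, ?_⟩
    · exact hK.comp (hg2.prodMk (measurable_const.prodMk
          (measurable_const.div (measurable_const.mul hg2))))
    · exact hK.comp ((measurable_swR.comp hn.meas_r).prodMk
        ((measurable_const.add hn.meas_r).prodMk (measurable_swE.comp hn.meas_r)))
    · exact hK.comp ((measurable_swR.comp hn.meas_l.neg).prodMk
        ((measurable_const.add hn.meas_l).prodMk (measurable_swE.comp hn.meas_l.neg)))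
  obtain ⟨mG1, mG2, mG3⟩ := mk G hGm
  obtain ⟨mH1, mH2, mH3⟩ := mk H hHm
  -- constants
  obtain ⟨cGR, hcGR⟩ : ∃ x, x = G gR v (p / ((γ - 1) * gR)) := ⟨_, rfl⟩
  obtain ⟨cHR, hcHR⟩ : ∃ x, x = H gR v (p / ((γ - 1) * gR)) := ⟨_, rfl⟩
  obtain ⟨cGL, hcGL⟩ : ∃ x, x = G gL v (p / ((γ - 1) * gL)) := ⟨_, rfl⟩
  obtain ⟨cHL, hcHL⟩ : ∃ x, x = H gL v (p / ((γ - 1) * gL)) := ⟨_, rfl⟩
  have bR := hM _ _ _ h.boxR
  have bL := hM _ _ _ h.boxL
  rw [← hcGR, ← hcHR] at bR
  rw [← hcGL, ← hcHL] at bL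
  have b1 : ∀ z : ℝ × ℝ, z ∈ Strip T →
      |G (g (z.2 - v * z.1)) v (p / ((γ - 1) * g (z.2 - v * z.1)))| ≤ M ∧
      |H (g (z.2 - v * z.1)) v (p / ((γ - 1) * g (z.2 - v * z.1)))| ≤ M :=
    fun z _ => hM _ _ _ (hmid _)
  have b2 : ∀ z : ℝ × ℝ, z ∈ Strip T →
      |G (swR γ p gR (nr z)) (v + nr z) (swE γ p gR (nr z))| ≤ M ∧
      |H (swR γ p gR (nr z)) (v + nr z) (swE γ p gR (nr z))| ≤ M :=
    fun z hz => hM _ _ _ (hbr z hz)
  have b3 : ∀ z : ℝ × ℝ, z ∈ Strip T →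
      |G (swR γ p gL (-(nl z))) (v + nl z) (swE γ p gL (-(nl z)))| ≤ M ∧
      |H (swR γ p gL (-(nl z))) (v + nl z) (swE γ p gL (-(nl z)))| ≤ M :=
    fun z hz => hM _ _ _ (hbl z hz)
  have hM0 : 0 ≤ M := (abs_nonneg _).trans bR.1
  have L2' := Law.sub (M := M) L2 (law_const (T := T) (c := cGR) (c' := cHR)) mG2 mH2
    measurable_const measurable_const
    (Eventually.of_forall fun z hz => ⟨(b2 z hz).1, (b2 z hz).2, bR.1, bR.2⟩)
  have L3' := Law.sub (M := M) L3 (law_const (T := T) (c := cGL) (c' := cHL)) mG3 mH3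
    measurable_const measurable_const
    (Eventually.of_forall fun z hz => ⟨(b3 z hz).1, (b3 z hz).2, bL.1, bL.2⟩)
  have sb : ∀ x y : ℝ, |x| ≤ M → |y| ≤ M → |x - y| ≤ 2 * M := fun x y hx hy => by
    have := abs_sub x y
    linarith
  have L12 := Law.add (M := 2 * M) L1 L2' mG1 mH1 (mG2.sub measurable_const)
    (mH2.sub measurable_const)
    (Eventually.of_forall fun z hz => ⟨(b1 z hz).1.trans (by linarith),
      (b1 z hz).2.trans (by linarith), sb _ _ (b2 z hz).1 bR.1, sb _ _ (b2 z hz).2 bR.2⟩)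
  have L123 := Law.add (M := 3 * M) L12 L3' (mG1.add (mG2.sub measurable_const))
    (mH1.add (mH2.sub measurable_const)) (mG3.sub measurable_const) (mH3.sub measurable_const)
    (Eventually.of_forall fun z hz => ⟨by
      refine (abs_add_le _ _).trans ?_
      have h1 := (b1 z hz).1
      have h2 := sb _ _ (b2 z hz).1 bR.1
      linarith, by
      refine (abs_add_le _ _).trans ?_
      have h1 := (b1 z hz).2
      have h2 := sb _ _ (b2 z hz).2 bR.2
      linarith, (sb _ _ (b3 z hz).1 bL.1).trans (by linarith),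
      (sb _ _ (b3 z hz).2 bL.2).trans (by linarith)⟩)
  refine L123.congr (fun z hz => ?_) (fun z hz => ?_)
  · rw [glue_decomp hγ ha h hn G hz.1, hcGR, hcGL]
  · rw [glue_decomp hγ ha h hn H hz.1, hcHR, hcHL]

theorem glue_sol {γ T a b v p x₁ x₂ gL gR : ℝ} {g u₀ : ℝ → ℝ} {nl nr : ℝ × ℝ → ℝ}
    (hγ : 1 < γ) (hT : 0 < T) (ha : 0 < a)
    (h : IsShockFreeDatum γ a b v p x₁ x₂ gL gR g u₀)
    (hn : IsWaves γ v p x₁ x₂ gL gR u₀ nl nr) :
    IsSol γ T a b (VR γ v p gL gR g nl nr) (VW v nl nr) (VE γ v p gL gR g nl nr) := by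
  obtain ⟨m1, m2, m3⟩ := measurable_glue h hn
  obtain ⟨M, hM0, hM⟩ := exists_bound (a := a) (b := b) hγ ha
  have hp := h.pos_p
  have hpr : ∀ ρ : ℝ, 0 < ρ → pr γ ρ (p / ((γ - 1) * ρ)) = p := by
    intro ρ hρ
    have h1 := hρ.ne'
    have h2 : γ - 1 ≠ 0 := by linarith
    unfold pr
    field_simp
  have hv : ∀ n : ℝ, ContDiffAt ℝ 1 (fun y : ℝ => v + y) n := fun n => by fun_prop
  have hent : ∀ r σ n : ℝ, 0 < r → (σ = 1 ∨ σ = -1) → 0 ≤ σ * n →
      ContDiffAt ℝ 1 (fun y => ent γ (swR γ p r (σ * y)) (swE γ p r (σ * y))) n := by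
    intro r σ n hr hσ hn0
    have h1 := sw_ent hγ hp hr hσ hn0
    exact contDiffAt_const.congr_of_eventuallyEq h1
  have hprs : ∀ r σ n : ℝ, 0 < r → (σ = 1 ∨ σ = -1) → 0 ≤ σ * n →
      ContDiffAt ℝ 1 (fun y => pr γ (swR γ p r (σ * y)) (swE γ p r (σ * y))) n := by
    intro r σ n hr hσ hn0
    obtain ⟨h1, h2⟩ := sw_smooth hγ hp hr hσ hn0
    exact (contDiffAt_const.mul h1).mul h2
  have hens : ∀ r σ n : ℝ, 0 < r → (σ = 1 ∨ σ = -1) → 0 ≤ σ * n →
      ContDiffAt ℝ 1 (fun y => en (v + y) (swE γ p r (σ * y))) n := by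
    intro r σ n hr hσ hn0
    obtain ⟨h1, h2⟩ := sw_smooth hγ hp hr hσ hn0
    exact h2.add (((hv n).pow 2).div_const 2)
  refine ⟨m1, m2, m3, Eventually.of_forall fun z hz => glue_box hγ ha h hn hz.1, ?_, ?_, ?_, ?_⟩
  · -- mass
    refine glue_law (M := M) (c := 0) (G := fun ρ _ _ => ρ) (H := fun ρ u _ => ρ * u)
      hγ hT ha h hn (by fun_prop) (by fun_prop) ?_ ?_ ?_
    · intro ρ u e hb
      exact ⟨(hM ρ u e hb).1, (hM ρ u e hb).2.1⟩
    · intro ρ _; ring
    · intro r σ n hr hσ hn0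
      obtain ⟨h1, h2⟩ := sw_smooth hγ hp hr hσ hn0
      exact ⟨h1, h1.mul (hv n), (sw_deriv (v := v) hγ hp hr hσ hn0).1⟩
  · -- momentum
    refine glue_law (M := M) (c := p) (G := fun ρ u _ => ρ * u)
      (H := fun ρ u e => ρ * u ^ 2 + pr γ ρ e)
      hγ hT ha h hn (by fun_prop) (by unfold pr; fun_prop) ?_ ?_ ?_
    · intro ρ u e hb
      exact ⟨(hM ρ u e hb).2.1, (hM ρ u e hb).2.2.1⟩
    · intro ρ hρ
      simp only [hpr ρ hρ]
      ring
    · intro r σ n hr hσ hn0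
      obtain ⟨h1, h2⟩ := sw_smooth hγ hp hr hσ hn0
      exact ⟨h1.mul (hv n), (h1.mul ((hv n).pow 2)).add (hprs r σ n hr hσ hn0),
        (sw_deriv (v := v) hγ hp hr hσ hn0).2.1⟩
  · -- energy
    refine glue_law (M := M) (c := p * v) (G := fun ρ u e => ρ * en u e)
      (H := fun ρ u e => ρ * en u e * u + pr γ ρ e * u)
      hγ hT ha h hn (by unfold en; fun_prop) (by unfold en pr; fun_prop) ?_ ?_ ?_
    · intro ρ u e hb
      exact ⟨(hM ρ u e hb).2.2.2.1, (hM ρ u e hb).2.2.2.2.1⟩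
    · intro ρ hρ
      simp only [hpr ρ hρ]
    · intro r σ n hr hσ hn0
      obtain ⟨h1, h2⟩ := sw_smooth hγ hp hr hσ hn0
      exact ⟨h1.mul (hens r σ n hr hσ hn0), ((h1.mul (hens r σ n hr hσ hn0)).mul (hv n)).add
        ((hprs r σ n hr hσ hn0).mul (hv n)), (sw_deriv (v := v) hγ hp hr hσ hn0).2.2.1⟩
  · -- entropy
    intro φ hφ _
    refine (glue_law (M := M) (c := 0) (G := fun ρ _ e => ρ * ent γ ρ e)
      (H := fun ρ u e => ρ * u * ent γ ρ e)
      hγ hT ha h hn (by unfold ent pr; fun_prop) (by unfold ent pr; fun_prop) ?_ ?_ ?_ φ hφ).le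
    · intro ρ u e hb
      exact ⟨(hM ρ u e hb).2.2.2.2.2.2.1, (hM ρ u e hb).2.2.2.2.2.2.2⟩
    · intro ρ _
      ring
    · intro r σ n hr hσ hn0
      obtain ⟨h1, h2⟩ := sw_smooth hγ hp hr hσ hn0
      exact ⟨h1.mul (hent r σ n hr hσ hn0), (h1.mul (hv n)).mul (hent r σ n hr hσ hn0),
        (sw_deriv (v := v) hγ hp hr hσ hn0).2.2.2⟩

end Helper73.EU
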