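import Pool.Agent.Helper73.EU.RDef

/-!
RC-6. Total variation.

PROOF. For `t > 0`, `sl VR t x = g (x - v t) + (swR γ p gR (nr (t, x)) - gR) + (swR γ p gL (-(nl (t, x))) - gL)`.
The first part has the total variation of `g` (`eVariationOn.comp_eq_of_monotoneOn`). The second is nondecreasing in `x`
with values in `[0, b]` (`sw_mono`, `mono_r`; `gR ≤ swR γ p gR (nr) ≤ b`: from `range_r`: `nr ≤ u₀ y - v` with `y > x₂`,
`g y = gR`, and `h.box y`; or `nr = 0`), so its total variation is at most `b` (`MonotoneOn.eVariationOn_le`, sup over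
intervals, or `eVariationOn` of a monotone bounded function); the third is nonincreasing (`AntitoneOn`, or its negative is
monotone) with values in `[0, b]`: at most `b`. Sum: `eVariationOn.add_le` if present, else `edist_add_add_le` termwise
in the definition. So the total variation of the density is at most `eVariationOn g univ + 2 b`. The velocity is
nondecreasing with values in `[-b, b]`: at most `2 b`. Energy: `g` replaced by `p/((γ-1) g)`, whose variation is at most
`p/((γ-1) a^2)` times that of `g` if `g ≥ a`... every value of `g` is at least `min a 1`-like constant: in `[x₁, x₂]` `g x ≥ a`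
by the box (`h.mid`, `swR_zero`), outside it is `gL ≥ a` or `gR ≥ a`; `|1/g x - 1/g y| ≤ |g x - g y|/a^2`
(`LipschitzOnWith.comp_eVariationOn_le`), so it is at most `p/((γ-1) a^2) eVariationOn g univ + 2 b`.
-/

open MeasureTheory Set Filter Topology
open scoped ContDiff NNReal ENNReal

namespace Helper73.EU

private theorem ev_add (f g : ℝ → ℝ) :
    eVariationOn (fun x => f x + g x) univ ≤ eVariationOn f univ + eVariationOn g univ := by
  apply iSup_le _
  rintro ⟨n, ⟨u, hu, us⟩⟩
  calc (∑ i ∈ Finset.range n, edist (f (u (i + 1)) + g (u (i + 1))) (f (u i) + g (u i)))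
      ≤ ∑ i ∈ Finset.range n, (edist (f (u (i + 1))) (f (u i)) +
        edist (g (u (i + 1))) (g (u i))) :=
        Finset.sum_le_sum fun i _ => edist_add_add_le _ _ _ _
    _ = (∑ i ∈ Finset.range n, edist (f (u (i + 1))) (f (u i))) +
        ∑ i ∈ Finset.range n, edist (g (u (i + 1))) (g (u i)) := Finset.sum_add_distrib
    _ ≤ _ := add_le_add (eVariationOn.sum_le hu us) (eVariationOn.sum_le hu us)

private theorem ev_mono {f : ℝ → ℝ} {A B : ℝ} (hf : Monotone f) (hA : ∀ x, A ≤ f x)
    (hB : ∀ x, f x ≤ B) : eVariationOn f univ ≤ ENNReal.ofReal (B - A) := by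
  apply iSup_le _
  rintro ⟨n, ⟨u, hu, us⟩⟩
  have h1 : ∀ i ∈ Finset.range n, edist (f (u (i + 1))) (f (u i)) =
      ENNReal.ofReal (f (u (i + 1)) - f (u i)) := by
    intro i _
    rw [edist_dist, Real.dist_eq, abs_of_nonneg]
    exact sub_nonneg.2 (hf (hu (Nat.le_succ i)))
  change (∑ i ∈ Finset.range n, edist (f (u (i + 1))) (f (u i))) ≤ _
  rw [Finset.sum_congr rfl h1, ← ENNReal.ofReal_sum_of_nonneg]
  · rw [Finset.sum_range_sub (fun i => f (u i))]
    apply ENNReal.ofReal_le_ofReal
    have h2 := hA (u 0)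
    have h3 := hB (u n)
    linarith
  · intro i _
    exact sub_nonneg.2 (hf (hu (Nat.le_succ i)))

private theorem ev_neg (f : ℝ → ℝ) : eVariationOn (fun x => -f x) univ = eVariationOn f univ := by
  unfold eVariationOn
  simp only [edist_neg_neg]

private theorem ev_anti {f : ℝ → ℝ} {A B : ℝ} (hf : Antitone f) (hA : ∀ x, A ≤ f x)
    (hB : ∀ x, f x ≤ B) : eVariationOn f univ ≤ ENNReal.ofReal (B - A) := by
  rw [← ev_neg]
  have h1 := ev_mono (f := fun x => -f x) (A := -B) (B := -A) hf.neg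
    (fun x => neg_le_neg (hB x)) (fun x => neg_le_neg (hA x))
  rw [show -A - -B = B - A by ring] at h1
  exact h1

private theorem ev_shift (g : ℝ → ℝ) (c : ℝ) :
    eVariationOn (fun x => g (x - c)) univ ≤ eVariationOn g univ :=
  eVariationOn.comp_le_of_monotoneOn g (fun x => x - c) (fun x _ y _ h => sub_le_sub_right h c)
    (fun _ _ => mem_univ _)

private theorem wave_r {γ a b v p x₁ x₂ gL gR : ℝ} {g u₀ : ℝ → ℝ} {nl nr : ℝ × ℝ → ℝ}
    (hγ : 1 < γ) (ha : 0 < a) (h : IsShockFreeDatum γ a b v p x₁ x₂ gL gR g u₀)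
    (hn : IsWaves γ v p x₁ x₂ gL gR u₀ nl nr) {z : ℝ × ℝ} (hz : 0 < z.1) :
    0 ≤ nr z ∧ nr z ≤ 2 * b ∧ gR ≤ swR γ p gR (nr z) ∧ swR γ p gR (nr z) ≤ b ∧
      p / ((γ - 1) * gR) ≤ swE γ p gR (nr z) ∧ swE γ p gR (nr z) ≤ b := by
  have hgR : 0 < gR := lt_of_lt_of_le ha h.boxR.1
  have hR0 := swR_zero hγ h.pos_p hgR
  have hE0 := swE_zero hγ h.pos_p hgR
  obtain ⟨⟨y, hy⟩, h0⟩ := hn.range_r z hz
  have hm := sw_mono hγ h.pos_p hgR le_rfl h0
  rw [hR0, hE0] at hm
  refine ⟨h0, ?_, hm.1, ?_, hm.2, ?_⟩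
  · have h1 := abs_le.1 (h.box y).2.2.1
    have h2 := abs_le.1 h.boxR.2.2.1
    exact hy.trans (max_le (by linarith) (by linarith))
  all_goals
    by_cases hc : u₀ y - v ≤ 0
    · rw [max_eq_right hc] at hy
      have h3 : nr z = 0 := le_antisymm hy h0
      rw [h3]
      first
        | rw [hR0]; exact h.boxR.2.1
        | rw [hE0]; exact h.boxR.2.2.2.2
    · push Not at hc
      rw [max_eq_left hc.le] at hy
      have h4 : x₂ < y := by
        by_contra hcon
        push Not at hcon
        have h5 := h.mono hcon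
        rw [h.mid x₂ ⟨h.le, le_rfl⟩] at h5
        linarith
      have h6 := h.box y
      rw [h.right y h4, abs_of_pos hc] at h6
      have h7 := sw_mono hγ h.pos_p hgR h0 hy
      first
        | exact h7.1.trans h6.2.1
        | exact h7.2.trans h6.2.2.2.2

private theorem wave_l {γ a b v p x₁ x₂ gL gR : ℝ} {g u₀ : ℝ → ℝ} {nl nr : ℝ × ℝ → ℝ}
    (hγ : 1 < γ) (ha : 0 < a) (h : IsShockFreeDatum γ a b v p x₁ x₂ gL gR g u₀)
    (hn : IsWaves γ v p x₁ x₂ gL gR u₀ nl nr) {z : ℝ × ℝ} (hz : 0 < z.1) :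
    nl z ≤ 0 ∧ -(2 * b) ≤ nl z ∧ gL ≤ swR γ p gL (-(nl z)) ∧ swR γ p gL (-(nl z)) ≤ b ∧
      p / ((γ - 1) * gL) ≤ swE γ p gL (-(nl z)) ∧ swE γ p gL (-(nl z)) ≤ b := by
  have hgL : 0 < gL := lt_of_lt_of_le ha h.boxL.1
  have hR0 := swR_zero hγ h.pos_p hgL
  have hE0 := swE_zero hγ h.pos_p hgL
  obtain ⟨⟨y, hy⟩, h0⟩ := hn.range_l z hz
  have h0' : 0 ≤ -(nl z) := neg_nonneg.2 h0
  have hm := sw_mono hγ h.pos_p hgL le_rfl h0'
  rw [hR0, hE0] at hm
  refine ⟨h0, ?_, hm.1, ?_, hm.2, ?_⟩
  · have h1 := abs_le.1 (h.box y).2.2.1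
    have h2 := abs_le.1 h.boxL.2.2.1
    exact le_trans (le_min (by linarith) (by linarith)) hy
  all_goals
    by_cases hc : 0 ≤ u₀ y - v
    · rw [min_eq_right hc] at hy
      have h3 : nl z = 0 := le_antisymm h0 hy
      rw [h3, neg_zero]
      first
        | rw [hR0]; exact h.boxL.2.1
        | rw [hE0]; exact h.boxL.2.2.2.2
    · push Not at hc
      rw [min_eq_left hc.le] at hy
      have h4 : y < x₁ := by
        by_contra hcon
        push Not at hcon
        have h5 := h.mono hcon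
        rw [h.mid x₁ ⟨le_rfl, h.le⟩] at h5
        linarith
      have h6 := h.box y
      rw [h.left y h4, abs_of_neg hc] at h6
      have h7 := sw_mono hγ h.pos_p hgL h0' (by linarith : -(nl z) ≤ -(u₀ y - v))
      first
        | exact h7.1.trans h6.2.1
        | exact h7.2.trans h6.2.2.2.2

private theorem g_lower {γ a b v p x₁ x₂ gL gR : ℝ} {g u₀ : ℝ → ℝ}
    (hγ : 1 < γ) (h : IsShockFreeDatum γ a b v p x₁ x₂ gL gR g u₀) (x : ℝ) : a ≤ g x := by
  by_cases h1 : x < x₁
  · rw [h.left x h1]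
    exact h.boxL.1
  · by_cases h2 : x₂ < x
    · rw [h.right x h2]
      exact h.boxR.1
    · push Not at h1 h2
      have h3 := (h.box x).1
      rw [h.mid x ⟨h1, h2⟩, sub_self, abs_zero, swR_zero hγ h.pos_p (h.pos x)] at h3
      exact h3

theorem glue_tv {γ a b v p x₁ x₂ gL gR : ℝ} {g u₀ : ℝ → ℝ} {nl nr : ℝ × ℝ → ℝ}
    (hγ : 1 < γ) (ha : 0 < a) (h : IsShockFreeDatum γ a b v p x₁ x₂ gL gR g u₀)
    (hn : IsWaves γ v p x₁ x₂ gL gR u₀ nl nr) (hg : eVariationOn g univ ≠ ⊤) :
    ∃ C : ℝ≥0, ∀ t : ℝ, 0 < t →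
      eVariationOn (sl (VR γ v p gL gR g nl nr) t) univ ≤ C ∧
      eVariationOn (sl (VW v nl nr) t) univ ≤ C ∧
      eVariationOn (sl (VE γ v p gL gR g nl nr) t) univ ≤ C := by
  have hb : 0 < b := lt_of_lt_of_le ha (h.boxL.1.trans h.boxL.2.1)
  have hgL : 0 < gL := lt_of_lt_of_le ha h.boxL.1
  have hgR : 0 < gR := lt_of_lt_of_le ha h.boxR.1
  have hγ1 : 0 < γ - 1 := by linarith
  obtain ⟨G, hG⟩ : ∃ G, G = eVariationOn g univ := ⟨_, rfl⟩
  obtain ⟨K, hK⟩ : ∃ K : ℝ≥0, (K : ℝ) = p / ((γ - 1) * a ^ 2) :=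
    ⟨⟨p / ((γ - 1) * a ^ 2), by have := h.pos_p; positivity⟩, rfl⟩
  obtain ⟨D, hD⟩ : ∃ D : ℝ≥0∞, D = (G + ENNReal.ofReal b + ENNReal.ofReal b) +
    ENNReal.ofReal (6 * b) + (K * G + ENNReal.ofReal b + ENNReal.ofReal b) := ⟨_, rfl⟩
  have hDt : D ≠ ⊤ := by
    rw [hD]
    have h1 : G ≠ ⊤ := by
      rw [hG]
      exact hg
    have h2 : (K : ℝ≥0∞) * G ≠ ⊤ := ENNReal.mul_ne_top ENNReal.coe_ne_top h1
    simp only [ne_eq, ENNReal.add_eq_top, ENNReal.ofReal_ne_top, h1, h2, or_self, not_false_eq_true]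
  refine ⟨D.toNNReal, fun t ht => ?_⟩
  rw [ENNReal.coe_toNNReal hDt]
  have hz : ∀ x : ℝ, 0 < ((t, x) : ℝ × ℝ).1 := fun _ => ht
  have hr := fun x => wave_r hγ ha h hn (hz x)
  have hl := fun x => wave_l hγ ha h hn (hz x)
  refine ⟨?_, ?_, ?_⟩
  · refine le_trans ?_ (?_ : G + ENNReal.ofReal b + ENNReal.ofReal b ≤ D)
    · change eVariationOn (fun x => g (x - v * t) + (swR γ p gR (nr (t, x)) - gR) +
        (swR γ p gL (-(nl (t, x))) - gL)) univ ≤ _
      refine (ev_add _ _).trans (add_le_add ((ev_add _ _).trans (add_le_add ?_ ?_)) ?_)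
      · rw [hG]
        exact ev_shift g (v * t)
      · refine (ev_mono (A := 0) (B := b) ?_ ?_ ?_).trans (by rw [sub_zero])
        · intro x y hxy
          exact sub_le_sub_right (sw_mono hγ h.pos_p hgR (hr x).1 (hn.mono_r t ht hxy)).1 _
        · intro x
          exact sub_nonneg.2 (hr x).2.2.1
        · intro x
          have := (hr x).2.2.2.1
          linarith
      · refine (ev_anti (A := 0) (B := b) ?_ ?_ ?_).trans (by rw [sub_zero])
        · intro x y hxy
          exact sub_le_sub_right (sw_mono hγ h.pos_p hgL (neg_nonneg.2 (hl y).1)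
            (neg_le_neg (hn.mono_l t ht hxy))).1 _
        · intro x
          exact sub_nonneg.2 (hl x).2.2.1
        · intro x
          have := (hl x).2.2.2.1
          linarith
    · rw [hD, add_assoc (G + ENNReal.ofReal b + ENNReal.ofReal b)]
      exact le_self_add
  · refine le_trans ?_ (?_ : ENNReal.ofReal (6 * b) ≤ D)
    · change eVariationOn (fun x => v + nr (t, x) + nl (t, x)) univ ≤ _
      refine (ev_mono (A := -(3 * b)) (B := 3 * b) ?_ ?_ ?_).trans (by
        rw [show 3 * b - -(3 * b) = 6 * b by ring])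
      · intro x y hxy
        have h1 := hn.mono_r t ht hxy
        have h2 := hn.mono_l t ht hxy
        change nr (t, x) ≤ nr (t, y) at h1
        change nl (t, x) ≤ nl (t, y) at h2
        change v + nr (t, x) + nl (t, x) ≤ v + nr (t, y) + nl (t, y)
        linarith
      · intro x
        have h1 := (abs_le.1 h.boxR.2.2.1).1
        have h2 := (hr x).1
        have h3 := (hl x).2.1
        linarith
      · intro x
        have h1 := (abs_le.1 h.boxR.2.2.1).2
        have h2 := (hr x).2.1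
        have h3 := (hl x).1
        linarith
    · rw [hD]
      exact le_trans le_add_self le_self_add
  · refine le_trans ?_ (?_ : K * G + ENNReal.ofReal b + ENNReal.ofReal b ≤ D)
    · change eVariationOn (fun x => p / ((γ - 1) * g (x - v * t)) +
        (swE γ p gR (nr (t, x)) - p / ((γ - 1) * gR)) +
        (swE γ p gL (-(nl (t, x))) - p / ((γ - 1) * gL))) univ ≤ _
      refine (ev_add _ _).trans (add_le_add ((ev_add _ _).trans (add_le_add ?_ ?_)) ?_)
      · have hL : LipschitzOnWith K (fun y => p / ((γ - 1) * y)) (Ici a) := by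
          apply LipschitzOnWith.of_dist_le_mul
          intro y hy z hz'
          have hy' : a ≤ y := hy
          have hz'' : a ≤ z := hz'
          have hy0 : 0 < y := lt_of_lt_of_le ha hy'
          have hz0 : 0 < z := lt_of_lt_of_le ha hz''
          rw [Real.dist_eq, Real.dist_eq, hK]
          have e1 : p / ((γ - 1) * y) - p / ((γ - 1) * z) = p / ((γ - 1) * (y * z)) * (z - y) := by
            field_simp
          rw [e1, abs_mul, abs_of_pos (by have := h.pos_p; positivity), abs_sub_comm z y]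
          apply mul_le_mul_of_nonneg_right _ (abs_nonneg _)
          apply div_le_div_of_nonneg_left h.pos_p.le (by positivity)
          apply mul_le_mul_of_nonneg_left _ hγ1.le
          nlinarith
        refine le_trans (hL.comp_eVariationOn_le (g := fun x => g (x - v * t)) (s := univ)
          (fun x _ => g_lower hγ h _)) ?_
        rw [hG]
        exact mul_le_mul_right (ev_shift g (v * t)) _
      · refine (ev_mono (A := 0) (B := b) ?_ ?_ ?_).trans (by rw [sub_zero])
        · intro x y hxy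
          exact sub_le_sub_right (sw_mono hγ h.pos_p hgR (hr x).1 (hn.mono_r t ht hxy)).2 _
        · intro x
          exact sub_nonneg.2 (hr x).2.2.2.2.1
        · intro x
          have h1 := (hr x).2.2.2.2.2
          have h2 : 0 < p / ((γ - 1) * gR) := by have := h.pos_p; positivity
          linarith
      · refine (ev_anti (A := 0) (B := b) ?_ ?_ ?_).trans (by rw [sub_zero])
        · intro x y hxy
          exact sub_le_sub_right (sw_mono hγ h.pos_p hgL (neg_nonneg.2 (hl y).1)
            (neg_le_neg (hn.mono_l t ht hxy))).2 _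
        · intro x
          exact sub_nonneg.2 (hl x).2.2.2.2.1
        · intro x
          have h1 := (hl x).2.2.2.2.2
          have h2 : 0 < p / ((γ - 1) * gL) := by have := h.pos_p; positivity
          linarith
    · rw [hD]
      exact le_add_self

end Helper73.EU
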