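import Pool.Agent.Helper73.EU.Final
import Pool.Agent.Helper73.EU.RGlue
import Pool.Agent.Helper73.EU.RAtt
import Pool.Agent.Helper73.EU.RTV

/-!
Project EU, second part: the class of data without shocks.
-/

open MeasureTheory Set Filter Topology
open scoped ContDiff NNReal

namespace Helper73.EU

theorem Box.mono {a b a' b' ρ u e : ℝ} (h : Box a b ρ u e) (ha : a' ≤ a) (hb : b ≤ b') :
    Box a' b' ρ u e :=
  ⟨ha.trans h.1, h.2.1.trans hb, h.2.2.1.trans hb, ha.trans h.2.2.2.1, h.2.2.2.2.trans hb⟩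

theorem IsSol.mono {γ T a b a' b' : ℝ} {ρ u e : ℝ × ℝ → ℝ} (h : IsSol γ T a b ρ u e)
    (ha : a' ≤ a) (hb : b ≤ b') : IsSol γ T a' b' ρ u e := by
  refine ⟨h.meas_ρ, h.meas_u, h.meas_e, ?_, h.mass, h.momentum, h.energy, h.entropy⟩
  filter_upwards [h.box] with z hz hzT
  exact (hz hzT).mono ha hb

theorem IsDatum.mono {a b a' b' : ℝ} {ρ u e : ℝ → ℝ} (h : IsDatum a b ρ u e)
    (ha : a' ≤ a) (hb : b ≤ b') : IsDatum a' b' ρ u e := by
  refine ⟨h.meas_ρ, h.meas_u, h.meas_e, ?_⟩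
  filter_upwards [h.box] with z hz
  exact hz.mono ha hb

theorem IsBase.mono {γ T a b L a' b' : ℝ} {r w z : ℝ × ℝ → ℝ} {r₀ w₀ z₀ : ℝ → ℝ}
    (h : IsBase γ T a b L r w z r₀ w₀ z₀) (ha : a' ≤ a) (hb : b ≤ b') :
    IsBase γ T a' b' L r w z r₀ w₀ z₀ :=
  ⟨h.sol.mono ha hb, h.datum.mono ha hb, h.attains, h.lip_w, h.lip_q, h.oneSided⟩

theorem glue_base {γ T a b v p x₁ x₂ gL gR : ℝ} {g u₀ : ℝ → ℝ} {nl nr : ℝ × ℝ → ℝ}
    (hγ : 1 < γ) (hT : 0 < T) (ha : 0 < a)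
    (h : IsShockFreeDatum γ a b v p x₁ x₂ gL gR g u₀)
    (hn : IsWaves γ v p x₁ x₂ gL gR u₀ nl nr) :
    IsBase γ T a b 0 (VR γ v p gL gR g nl nr) (VW v nl nr) (VE γ v p gL gR g nl nr)
      (fun x => swR γ p (g x) |u₀ x - v|) u₀ (fun x => swE γ p (g x) |u₀ x - v|) := by
  have hgL : 0 < gL := lt_of_lt_of_le ha h.boxL.1
  have hgR : 0 < gR := lt_of_lt_of_le ha h.boxR.1
  refine ⟨glue_sol hγ hT ha h hn, shockFree_datum h, glue_attains hγ hT ha h hn, ?_, ?_, ?_⟩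
  · have h1 : LocallyLipschitzOn (Strip T) (fun _ : ℝ × ℝ => v) :=
      (LocallyLipschitz.const v).locallyLipschitzOn
    exact (h1.add (hn.lip_r T)).add (hn.lip_l T)
  · have h1 : LocallyLipschitzOn (Strip T)
        (fun ζ => pr γ (swR γ p gR (1 * nr ζ)) (swE γ p gR (1 * nr ζ))) := by
      apply locLip_comp (f := nr)
        (g := fun y => pr γ (swR γ p gR (1 * y)) (swE γ p gR (1 * y))) (hn.lip_r T)
      intro ζ hζ
      obtain ⟨s1, s2⟩ := sw_smooth (γ := γ) (p := p) (r := gR) (σ := 1) (n := nr ζ) hγ h.pos_p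
        hgR (Or.inl rfl) (by have := (hn.range_r ζ hζ.1).2; linarith)
      unfold pr
      exact (contDiffAt_const.mul s1).mul s2
    have h2 : LocallyLipschitzOn (Strip T)
        (fun ζ => pr γ (swR γ p gL (-1 * nl ζ)) (swE γ p gL (-1 * nl ζ))) := by
      apply locLip_comp (f := nl)
        (g := fun y => pr γ (swR γ p gL (-1 * y)) (swE γ p gL (-1 * y))) (hn.lip_l T)
      intro ζ hζ
      obtain ⟨s1, s2⟩ := sw_smooth (γ := γ) (p := p) (r := gL) (σ := -1) (n := nl ζ) hγ h.pos_p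
        hgL (Or.inr rfl) (by have := (hn.range_l ζ hζ.1).2; linarith)
      unfold pr
      exact (contDiffAt_const.mul s1).mul s2
    have h3 : LocallyLipschitzOn (Strip T) (fun _ : ℝ × ℝ => -p) :=
      (LocallyLipschitz.const (-p)).locallyLipschitzOn
    have h4 := (h1.add h2).add h3
    intro ζ hζ
    obtain ⟨K, t, ht, hK⟩ := h4 hζ
    refine ⟨K, t ∩ Strip T, inter_mem ht self_mem_nhdsWithin, ?_⟩
    have key : ∀ ζ ∈ Strip T, pr γ (VR γ v p gL gR g nl nr ζ) (VE γ v p gL gR g nl nr ζ) =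
        pr γ (swR γ p gR (1 * nr ζ)) (swE γ p gR (1 * nr ζ)) +
        pr γ (swR γ p gL (-1 * nl ζ)) (swE γ p gL (-1 * nl ζ)) + -p := by
      intro ζ hζ
      have h5 := glue_decomp hγ ha h hn (fun r _ e => pr γ r e) hζ.1
      have hpr : ∀ y : ℝ, 0 < y → pr γ y (p / ((γ - 1) * y)) = p := by
        intro y hy
        unfold pr
        have : γ - 1 ≠ 0 := by linarith
        field_simp
      rw [h5, hpr _ (h.pos _), hpr _ hgL, hpr _ hgR]
      rw [one_mul, neg_one_mul]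
      ring
    intro x hx y hy
    beta_reduce
    rw [key x hx.2, key y hy.2]
    exact hK hx.1 hy.1
  · intro t ht x y hxy
    have h1 := hn.mono_l t ht.1 hxy
    have h2 := hn.mono_r t ht.1 hxy
    simp only [sl] at h1 h2
    unfold VW
    linarith

/-- Q1 and Q2 at the data without shocks: (1) there is an entropy solution on `t > 0`, in the box,
which attains the datum, with bounded total variation if the density `g` of the middle part has
bounded variation; (2) it is the only entropy solution (without vacuum, in any box) attaining the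
datum; (3) every entropy solution whose data are close in `L¹_loc` is close in `L¹_loc`, uniformly
in time. -/
def ShockFreeClass : Prop :=
  ∀ (γ a b v p x₁ x₂ gL gR : ℝ) (g u₀ : ℝ → ℝ), 1 < γ → 0 < a →
  IsShockFreeDatum γ a b v p x₁ x₂ gL gR g u₀ → ∃ r w z : ℝ × ℝ → ℝ,
    (∀ T, 0 < T → IsSol γ T a b r w z ∧
      Attains T r w z (fun x => swR γ p (g x) |u₀ x - v|) u₀
        (fun x => swE γ p (g x) |u₀ x - v|)) ∧
    (eVariationOn g univ ≠ ⊤ → ∃ C : ℝ≥0, ∀ t : ℝ, 0 < t → eVariationOn (sl r t) univ ≤ C ∧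
      eVariationOn (sl w t) univ ≤ C ∧ eVariationOn (sl z t) univ ≤ C) ∧
    (∀ (T a' b' : ℝ) (ρ u e : ℝ × ℝ → ℝ), 0 < T → 0 < a' → IsSol γ T a' b' ρ u e →
      Attains T ρ u e (fun x => swR γ p (g x) |u₀ x - v|) u₀
        (fun x => swE γ p (g x) |u₀ x - v|) →
      ∀ᵐ ζ : ℝ × ℝ, ζ ∈ Strip T → ρ ζ = r ζ ∧ u ζ = w ζ ∧ e ζ = z ζ) ∧
    ∀ T T' a' b' R ε : ℝ, 0 < T' → T' < T → 0 < a' → 0 < R → 0 < ε →
      ∃ R' δ : ℝ, 0 < R' ∧ 0 < δ ∧ ∀ (ρ u e : ℝ × ℝ → ℝ) (ρ₀' u₀' e₀' : ℝ → ℝ),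
        IsSol γ T a' b' ρ u e → IsDatum a' b' ρ₀' u₀' e₀' → Attains T ρ u e ρ₀' u₀' e₀' →
        dist1 R' ρ₀' u₀' e₀' (fun x => swR γ p (g x) |u₀ x - v|) u₀
          (fun x => swE γ p (g x) |u₀ x - v|) < δ →
        ∀ᵐ t : ℝ, t ∈ Ioo 0 T' →
          dist1 R (sl ρ t) (sl u t) (sl e t) (sl r t) (sl w t) (sl z t) < ε

theorem shockFreeClass : ShockFreeClass := by
  intro γ a b v p x₁ x₂ gL gR g u₀ hγ ha h
  obtain ⟨nl, nr, hn⟩ := exists_waves hγ h
  refine ⟨VR γ v p gL gR g nl nr, VW v nl nr, VE γ v p gL gR g nl nr, ?_, ?_, ?_, ?_⟩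
  · intro T hT
    exact ⟨glue_sol hγ hT ha h hn, glue_attains hγ hT ha h hn⟩
  · intro hg
    exact glue_tv hγ ha h hn hg
  · intro T a' b' ρ u e hT ha' hU hatt
    have hV := (glue_base hγ hT ha h hn).mono (min_le_left a a') (le_max_left b b')
    have hU' := hU.mono (min_le_right a a') (le_max_right b b')
    exact uniqueness γ T _ _ 0 hγ hT (lt_min ha ha') _ _ _ _ _ _ hV ρ u e hU' hatt
  · intro T T' a' b' R ε hT' hTT ha' hR hε
    have hT : 0 < T := hT'.trans hTT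
    have hV := (glue_base hγ hT ha h hn).mono (min_le_left a a') (le_max_left b b')
    obtain ⟨R', δ, hR', hδ, hmain⟩ := main γ T _ _ 0 hγ hT (lt_min ha ha') _ _ _ _ _ _ hV
      R T' ε hR hT' hTT hε
    refine ⟨R', δ, hR', hδ, ?_⟩
    intro ρ u e ρ₀' u₀' e₀' hU hU₀ hatt hd
    exact hmain ρ u e ρ₀' u₀' e₀' (hU.mono (min_le_right a a') (le_max_right b b'))
      (hU₀.mono (min_le_right a a') (le_max_right b b')) hatt hd

end Helper73.EU
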