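import Pool.Agent.Helper73.EU.Bounds

/-!
EU-10. The algebraic identity of the relative energy (real numbers only).

Notation: competitor `ρ, u, e`, `p = (γ-1) ρ e`; base values `r, w, z` at `Ξ`, `P = (γ-1) r z`;
`k` = value of `w_x`; `φ, φt, φx` test; `wt, wx` = derivatives of `U1 = w ∘ Ξ`; `Pt, Px` derivatives of `P = q ∘ Ξ`;
`G = P^(1-1/γ)/(γ-1)`, `Gt, Gx` its derivatives; `c` = `c (Φ)`, `s1 = γ log c`.
Relations: `ρ (wt + u wx) = -Px`, `Pt + u Px = -γ P k`, `r wx = ρ k`, `c r = P^(1/γ)`,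
`Gt + u Gx = -P^(1-1/γ) k`.
Identity:
`eta φt + flux φx = F1 - F2 + F3 + F4 - γ F5 - F6 + F7 + φ k (ρ/r) relP`, where
F1 = ρ E φt + (ρ E u + p u) φx,
F2 = ρ u (φt w + φ wt) + (ρ u^2 + p) (φx w + φ wx),
F3 = ρ (φt w^2/2 + φ w wt) + ρ u (φx w^2/2 + φ w wx),
F4 = (φt P + φ Pt) + (φx P w + φ Px w + φ P wx),
F5 = ρ c ((φt G + φ Gt) + u (φx G + φ Gx)),
F6 = ρ s c ((φt G + φ Gt) + u (φx G + φ Gx)),   s = ent γ ρ e,
F7 = ρ (c s1) ((φt G + φ Gt) + u (φx G + φ Gx)).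

PROOF. `c G = P^(1/γ)/r * P^(1-1/γ)/(γ-1) = P/((γ-1) r) = z`, `c (Gt + u Gx) = -P k/r`.
`eta_eq`: `eta = ρ E - w ρ u + (w^2/2) ρ + P - γ z ρ - z ρ s + z s1 ρ`, because
`z hh(e/z) = e - z - z log(e/z)`, `(γ-1) z hh(r/ρ) = P/ρ - (γ-1) z - (γ-1) z log(r/ρ)`,
`s - s1 = log(e/z) + (γ-1) log(r/ρ)`: `s = log((γ-1) ρ e ρ^(-γ))`, `s1 = γ log c`, `γ log c = log P - γ log r`,
`P = (γ-1) r z`. The derivative terms: `φ k ρ/r {p - P + γ P - γ P ... }`, see the memo: the sum of the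
terms with `φ` is `φ k [ρ/r (p - P) + γ P] - φ (ρ/r) P k (γ + s - s1)`
`= φ k (ρ/r) P [(p/P - 1) + γ (r/ρ - 1) - (s - s1)]`, and `s - s1 = log(p/P) + γ log(r/ρ)`.
-/

open MeasureTheory Set Filter Topology
open scoped ContDiff NNReal

namespace Helper73.EU

theorem ent_sub {γ ρ e r z c : ℝ} (hγ : 1 < γ) (hρ : 0 < ρ) (he : 0 < e) (hr : 0 < r)
    (hz : 0 < z) (hc : 0 < c) (hcr : c * r = (pr γ r z) ^ (1 / γ)) :
    ent γ ρ e - γ * Real.log c = Real.log (pr γ ρ e / pr γ r z) + γ * Real.log (r / ρ) := by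
  have hγ1 : 0 < γ - 1 := by linarith
  have hγ0 : 0 < γ := by linarith
  have hp : 0 < pr γ ρ e := by unfold pr; positivity
  have hP : 0 < pr γ r z := by unfold pr; positivity
  have h1 : Real.log c + Real.log r = 1 / γ * Real.log (pr γ r z) := by
    rw [← Real.log_mul hc.ne' hr.ne', hcr, Real.log_rpow hP]
  have h2 : γ * Real.log c = Real.log (pr γ r z) - γ * Real.log r := by
    have h3 : γ * (1 / γ * Real.log (pr γ r z)) = Real.log (pr γ r z) := by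
      field_simp
    rw [← h3, ← h1]
    ring
  unfold ent
  rw [Real.log_mul hp.ne' (Real.rpow_pos_of_pos hρ _).ne', Real.log_rpow hρ, h2,
    Real.log_div hp.ne' hP.ne', Real.log_div hr.ne' hρ.ne']
  ring

theorem eta_eq {γ ρ u e r w z c : ℝ} (hγ : 1 < γ) (hρ : 0 < ρ) (he : 0 < e) (hr : 0 < r)
    (hz : 0 < z) (hc : 0 < c) (hcr : c * r = (pr γ r z) ^ (1 / γ)) :
    eta γ ρ u e r w z = ρ * en u e - w * (ρ * u) + w ^ 2 / 2 * ρ + pr γ r z - γ * z * ρ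
      - z * (ρ * ent γ ρ e) + z * (γ * Real.log c) * ρ := by
  have h1 := ent_sub hγ hρ he hr hz hc hcr
  have hγ1 : 0 < γ - 1 := by linarith
  have h2 : Real.log (pr γ ρ e / pr γ r z) = Real.log (e / z) - Real.log (r / ρ) := by
    have h3 : pr γ ρ e / pr γ r z = (e / z) / (r / ρ) := by
      unfold pr
      field_simp
    rw [h3, Real.log_div (by positivity) (by positivity)]
  rw [h2] at h1
  have h4 : ent γ ρ e = Real.log (e / z) - Real.log (r / ρ) + γ * Real.log (r / ρ) +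
      γ * Real.log c := by linarith
  have h5 : ρ * (r / ρ) = r := by field_simp
  have h6 : z * (e / z) = e := by field_simp
  rw [h4]
  unfold eta hh en pr
  linear_combination ρ * h6 + (γ - 1) * z * h5

theorem rel_identity {γ ρ u e r w z c k φ φt φx wt wx Pt Px G Gt Gx : ℝ}
    (hγ : 1 < γ) (hρ : 0 < ρ) (he : 0 < e) (hr : 0 < r) (hz : 0 < z) (hc : 0 < c)
    (hcr : c * r = (pr γ r z) ^ (1 / γ))
    (h1 : ρ * (wt + u * wx) = -Px)
    (h2 : Pt + u * Px = -(γ * pr γ r z * k))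
    (h3 : r * wx = ρ * k)
    (hG : G = (pr γ r z) ^ (1 - 1 / γ) / (γ - 1))
    (hG' : Gt + u * Gx = -((pr γ r z) ^ (1 - 1 / γ) * k)) :
    eta γ ρ u e r w z * φt + flux γ ρ u e r w z * φx =
      (ρ * en u e * φt + (ρ * en u e * u + pr γ ρ e * u) * φx)
      - (ρ * u * (φt * w + φ * wt) + (ρ * u ^ 2 + pr γ ρ e) * (φx * w + φ * wx))
      + (ρ * (φt * (w ^ 2 / 2) + φ * (w * wt)) + ρ * u * (φx * (w ^ 2 / 2) + φ * (w * wx)))
      + ((φt * pr γ r z + φ * Pt) + (φx * (pr γ r z * w) + φ * (Px * w + pr γ r z * wx)))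
      - γ * (ρ * c * ((φt * G + φ * Gt) + u * (φx * G + φ * Gx)))
      - ρ * ent γ ρ e * c * ((φt * G + φ * Gt) + u * (φx * G + φ * Gx))
      + ρ * (c * (γ * Real.log c)) * ((φt * G + φ * Gt) + u * (φx * G + φ * Gx))
      + φ * k * (ρ / r * relP γ ρ e r z) := by
  have hγ1 : 0 < γ - 1 := by linarith
  have hP : 0 < pr γ r z := by unfold pr; positivity
  have hη := eta_eq (u := u) (w := w) hγ hρ he hr hz hc hcr
  have hs := ent_sub hγ hρ he hr hz hc hcr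
  have hpow : pr γ r z ^ (1 / γ) * pr γ r z ^ (1 - 1 / γ) = pr γ r z := by
    rw [← Real.rpow_add hP]
    have h4 : 1 / γ + (1 - 1 / γ) = 1 := by ring
    rw [h4, Real.rpow_one]
  have hc' : c = pr γ r z ^ (1 / γ) / r := by
    rw [← hcr]
    field_simp
  have hcG : c * G = z := by
    rw [hG, hc']
    have h4 : pr γ r z ^ (1 / γ) / r * (pr γ r z ^ (1 - 1 / γ) / (γ - 1)) =
        (pr γ r z ^ (1 / γ) * pr γ r z ^ (1 - 1 / γ)) / (r * (γ - 1)) := by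
      field_simp
    rw [h4, hpow]
    unfold pr
    field_simp
  have hcG' : c * (Gt + u * Gx) = -(pr γ r z * k / r) := by
    rw [hG', hc']
    have h4 : pr γ r z ^ (1 / γ) / r * -(pr γ r z ^ (1 - 1 / γ) * k) =
        -((pr γ r z ^ (1 / γ) * pr γ r z ^ (1 - 1 / γ)) * k / r) := by
      field_simp
    rw [h4, hpow]
  have hwx : wx = ρ / r * k := by
    field_simp
    linarith
  have hrel : ρ / r * relP γ ρ e r z = ρ / r * (pr γ ρ e - pr γ r z - γ * pr γ r z -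
      pr γ r z * (ent γ ρ e - γ * Real.log c)) + γ * pr γ r z := by
    rw [hs]
    unfold relP hh
    have h5 : pr γ r z * (pr γ ρ e / pr γ r z) = pr γ ρ e := by field_simp
    have h6 : ρ / r * (r / ρ) = 1 := by field_simp
    linear_combination ρ / r * h5 + pr γ r z * γ * h6
  obtain ⟨P, hPP⟩ : ∃ P, P = pr γ r z := ⟨_, rfl⟩
  obtain ⟨p, hpp⟩ : ∃ p, p = pr γ ρ e := ⟨_, rfl⟩
  obtain ⟨s, hss⟩ : ∃ s, s = ent γ ρ e := ⟨_, rfl⟩
  obtain ⟨s1, hs1⟩ : ∃ s1, s1 = γ * Real.log c := ⟨_, rfl⟩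
  obtain ⟨E, hE⟩ : ∃ E, E = en u e := ⟨_, rfl⟩
  unfold flux
  rw [hrel]
  rw [← hPP, ← hpp, ← hss, ← hs1, ← hE]
  rw [← hPP, ← hss, ← hs1, ← hE] at hη
  rw [← hPP] at hcG' h2
  linear_combination (φt + u * φx) * hη + (γ * ρ + ρ * s - ρ * s1) * (φt + u * φx) * hcG +
    (γ * ρ + ρ * s - ρ * s1) * φ * hcG' + φ * (u - w) * h1 - φ * h2 + φ * (p - P) * hwx

end Helper73.EU
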