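import Pool.Agent.Helper73.EU.Rep
import Pool.Agent.Helper73.EU.RelAlg

/-!
EU-11. The relative energy inequality.

PROOF. Let `Ξ z = (z.1, ξ z)`, `q = qq γ r z`, `U1 = w ∘ Ξ`, `P = q ∘ Ξ`, locally Lipschitz
(`IsXi.locLip`), `c` the weight of the base (`exists_weight`), `G = P^(1-1/γ)/(γ-1)` (`locLip_comp`), `φ ≥ 0` a Lipschitz
test. A.e. on the strip (`filter_upwards` with: `hU.box`; `hξ.ae_comp` applied to `hV.box`, to `base_pde`, to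
the identity of `exists_weight`, `hξ.deriv`, `hξ.chain` for `w` and `q`, `ae_differentiableAt` for `φ`, `G`):
`c (Φ z) * r (Ξ z) = P z ^ (1/γ)` (because `Φb (Ξ z) = Φ z`), `ρ (dt U1 + u dx U1) = -dx P`,
`dt P + u dx P = -γ P k`, `r(Ξ) dx U1 = ρ k`, `k z = dx w (Ξ z) ≥ -L` (`oneSided` at a point of
differentiability), `dt G + u dx G = -P^(1-1/γ) k`. Indeed with `f = w` or `q`:
`dt (f∘Ξ) + u dx (f∘Ξ) = dt f (Ξ) + dx f (Ξ) (dt ξ + u dx ξ) = dt f (Ξ) + w (Ξ) dx f (Ξ)` since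
`r(Ξ) (dt ξ + u dx ξ) = r(Ξ) w(Ξ) - ρ u + u ρ`.
By `rel_identity` a.e. `η dt φ + Q dx φ - φ k (ρ/r) relP = F1 - F2 + F3 + F4 - γ F5 - F6 + F7`, and
`∫ F1 = 0` (energy law, `Law.lip`), `∫ F2 = 0` (momentum law with test `φ U1`), `∫ F3 = 0` (mass law with test
`φ (U1^2/2)`), `∫ F4 = 0` (`integral_dt` for `φ P`, `integral_dx` for `φ (P U1)`), `∫ F5 = 0` (`weight_eq`, weight `c`,
test `ψ = φ G`), `∫ F6 ≤ 0` (`weight_le`), `∫ F7 = 0` (`weight_eq`, weight `c * (γ log c)`). So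
`∫ (η dt φ + Q dx φ) ≥ ∫ φ k (ρ/r) relP ≥ -(|L| C) ∫ φ η` by `exists_const` (`k ≥ -L ≥ -|L|`, relP ≥ 0).
Integrability of all `Fi` and of `φ k (ρ/r) relP`: `integrableOn_dt` etc.; `k` is bounded on the support
of `φ` (or: the last one is a difference of integrable functions by the identity).
-/

open MeasureTheory Set Filter Topology
open scoped ContDiff NNReal

namespace Helper73.EU

/-- The relative energy of `U` with respect to `V ∘ Ξ`. -/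
noncomputable def Eta (γ : ℝ) (ρ u e r w z ξ : ℝ × ℝ → ℝ) (ζ : ℝ × ℝ) : ℝ :=
  eta γ (ρ ζ) (u ζ) (e ζ) (r (ζ.1, ξ ζ)) (w (ζ.1, ξ ζ)) (z (ζ.1, ξ ζ))

/-- The relative flux of `U` with respect to `V ∘ Ξ`. -/
noncomputable def Flux (γ : ℝ) (ρ u e r w z ξ : ℝ × ℝ → ℝ) (ζ : ℝ × ℝ) : ℝ :=
  flux γ (ρ ζ) (u ζ) (e ζ) (r (ζ.1, ξ ζ)) (w (ζ.1, ξ ζ)) (z (ζ.1, ξ ζ))

private theorem dx_ge {L T : ℝ} {w : ℝ × ℝ → ℝ} {ζ : ℝ × ℝ} (hd : DifferentiableAt ℝ w ζ)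
    (hζ : ζ.1 ∈ Ioo 0 T)
    (h : ∀ t ∈ Ioo 0 T, ∀ x y : ℝ, x ≤ y → w (t, x) - w (t, y) ≤ L * (y - x)) :
    -L ≤ dx w ζ := by
  have h1 : Monotone (fun x : ℝ => w (ζ.1, x) + L * x) := by
    intro x y hxy
    have := h ζ.1 hζ x y hxy
    show w (ζ.1, x) + L * x ≤ w (ζ.1, y) + L * y
    linarith
  have h2 : HasDerivAt (fun x : ℝ => (ζ.1, x)) ((0 : ℝ), (1 : ℝ)) ζ.2 :=
    (hasDerivAt_const ζ.2 ζ.1).prodMk (hasDerivAt_id ζ.2)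
  have h3 : HasDerivAt (fun x : ℝ => w (ζ.1, x)) (dx w ζ) ζ.2 := by
    have h4 : HasFDerivAt w (fderiv ℝ w ζ) ((fun x : ℝ => (ζ.1, x)) ζ.2) := hd.hasFDerivAt
    exact h4.comp_hasDerivAt ζ.2 h2
  have h5 : HasDerivAt (fun x : ℝ => w (ζ.1, x) + L * x) (dx w ζ + L * 1) ζ.2 :=
    h3.add ((hasDerivAt_id ζ.2).const_mul L)
  have h6 := h1.deriv_nonneg (x := ζ.2)
  rw [h5.deriv] at h6
  linarith

private theorem rel_pt {γ a b C₀ : ℝ} {r w z ρ u e ξ φ U P G : ℝ × ℝ → ℝ} {ζ : ℝ × ℝ}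
    (hγ : 1 < γ) (ha : 0 < a) (hB : Box a b (ρ ζ) (u ζ) (e ζ))
    (hB' : Box a b (r (ζ.1, ξ ζ)) (w (ζ.1, ξ ζ)) (z (ζ.1, ξ ζ)))
    (hpde1 : r (ζ.1, ξ ζ) * (dt w (ζ.1, ξ ζ) + w (ζ.1, ξ ζ) * dx w (ζ.1, ξ ζ)) +
      dx (qq γ r z) (ζ.1, ξ ζ) = 0)
    (hpde2 : dt (qq γ r z) (ζ.1, ξ ζ) + w (ζ.1, ξ ζ) * dx (qq γ r z) (ζ.1, ξ ζ) +
      γ * qq γ r z (ζ.1, ξ ζ) * dx w (ζ.1, ξ ζ) = 0)
    (hC₀ : 0 < C₀) (hcr : C₀ * r (ζ.1, ξ ζ) = qq γ r z (ζ.1, ξ ζ) ^ (1 / γ))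
    (hξx : r (ζ.1, ξ ζ) * dx ξ ζ = ρ ζ)
    (hξt : r (ζ.1, ξ ζ) * dt ξ ζ = r (ζ.1, ξ ζ) * w (ζ.1, ξ ζ) - ρ ζ * u ζ)
    (hU : U = fun ζ => w (ζ.1, ξ ζ)) (hP : P = fun ζ => qq γ r z (ζ.1, ξ ζ))
    (hG : G = fun ζ => P ζ ^ (1 - 1 / γ) / (γ - 1))
    (dφ : DifferentiableAt ℝ φ ζ) (dU : DifferentiableAt ℝ U ζ) (dP : DifferentiableAt ℝ P ζ)
    (hUt : dt U ζ = dt w (ζ.1, ξ ζ) + dx w (ζ.1, ξ ζ) * dt ξ ζ)
    (hUx : dx U ζ = dx w (ζ.1, ξ ζ) * dx ξ ζ)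
    (hPt : dt P ζ = dt (qq γ r z) (ζ.1, ξ ζ) + dx (qq γ r z) (ζ.1, ξ ζ) * dt ξ ζ)
    (hPx : dx P ζ = dx (qq γ r z) (ζ.1, ξ ζ) * dx ξ ζ) :
    Eta γ ρ u e r w z ξ ζ * dt φ ζ + Flux γ ρ u e r w z ξ ζ * dx φ ζ =
      (ρ ζ * en (u ζ) (e ζ) * dt φ ζ +
        (ρ ζ * en (u ζ) (e ζ) * u ζ + pr γ (ρ ζ) (e ζ) * u ζ) * dx φ ζ)
      - (ρ ζ * u ζ * dt (fun ζ => φ ζ * U ζ) ζ +
        (ρ ζ * u ζ ^ 2 + pr γ (ρ ζ) (e ζ)) * dx (fun ζ => φ ζ * U ζ) ζ)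
      + 1 / 2 * (ρ ζ * dt (fun ζ => φ ζ * U ζ * U ζ) ζ +
        ρ ζ * u ζ * dx (fun ζ => φ ζ * U ζ * U ζ) ζ)
      + (dt (fun ζ => φ ζ * P ζ) ζ + dx (fun ζ => φ ζ * P ζ * U ζ) ζ)
      - γ * (ρ ζ * C₀ * (dt (fun ζ => φ ζ * G ζ) ζ + u ζ * dx (fun ζ => φ ζ * G ζ) ζ))
      - ρ ζ * ent γ (ρ ζ) (e ζ) * C₀ *
        (dt (fun ζ => φ ζ * G ζ) ζ + u ζ * dx (fun ζ => φ ζ * G ζ) ζ)
      + ρ ζ * (C₀ * (γ * Real.log C₀)) *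
        (dt (fun ζ => φ ζ * G ζ) ζ + u ζ * dx (fun ζ => φ ζ * G ζ) ζ)
      + φ ζ * dx w (ζ.1, ξ ζ) * (ρ ζ / r (ζ.1, ξ ζ) *
        relP γ (ρ ζ) (e ζ) (r (ζ.1, ξ ζ)) (z (ζ.1, ξ ζ))) := by
  obtain ⟨b1, b2, b3, b4, b5⟩ := hB
  obtain ⟨k1, k2, k3, k4, k5⟩ := hB'
  have hρ : 0 < ρ ζ := lt_of_lt_of_le ha b1
  have he : 0 < e ζ := lt_of_lt_of_le ha b4
  have hr : 0 < r (ζ.1, ξ ζ) := lt_of_lt_of_le ha k1
  have hz : 0 < z (ζ.1, ξ ζ) := lt_of_lt_of_le ha k4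
  have hγ1 : 0 < γ - 1 := by linarith
  have hγ0 : 0 < γ := by linarith
  have hUv : U ζ = w (ζ.1, ξ ζ) := by rw [hU]
  have hPv : P ζ = pr γ (r (ζ.1, ξ ζ)) (z (ζ.1, ξ ζ)) := by rw [hP]; rfl
  have hq : qq γ r z (ζ.1, ξ ζ) = P ζ := by rw [hP]
  have hPpos : 0 < P ζ := by
    rw [hPv]
    unfold pr
    positivity
  have hwd : dt ξ ζ + u ζ * dx ξ ζ = w (ζ.1, ξ ζ) := by
    apply mul_left_cancel₀ hr.ne'
    linear_combination hξt + u ζ * hξx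
  -- the derivatives of `G`
  have hGd : HasFDerivAt G ((1 / (γ - 1)) • (((1 - 1 / γ) * P ζ ^ (1 - 1 / γ - 1)) •
      fderiv ℝ P ζ)) ζ := by
    have h1 := (dP.hasFDerivAt.rpow_const (p := 1 - 1 / γ) (Or.inl hPpos.ne')).const_mul
      (1 / (γ - 1))
    have h2 : G = fun ζ => 1 / (γ - 1) * P ζ ^ (1 - 1 / γ) := by
      rw [hG]
      funext ζ
      ring
    rw [h2]
    exact h1
  have dG : DifferentiableAt ℝ G ζ := hGd.differentiableAt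
  have hGt : dt G ζ = 1 / (γ - 1) * ((1 - 1 / γ) * P ζ ^ (1 - 1 / γ - 1) * dt P ζ) := by
    unfold dt
    rw [hGd.fderiv]
    simp only [ContinuousLinearMap.smul_apply, smul_eq_mul]
  have hGx : dx G ζ = 1 / (γ - 1) * ((1 - 1 / γ) * P ζ ^ (1 - 1 / γ - 1) * dx P ζ) := by
    unfold dx
    rw [hGd.fderiv]
    simp only [ContinuousLinearMap.smul_apply, smul_eq_mul]
  have hPtx : dt P ζ + u ζ * dx P ζ = -(γ * P ζ * dx w (ζ.1, ξ ζ)) := by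
    rw [hPt, hPx]
    rw [hq] at hpde2
    linear_combination hpde2 + dx (qq γ r z) (ζ.1, ξ ζ) * hwd
  have hpow : P ζ ^ (1 - 1 / γ) = P ζ ^ (1 - 1 / γ - 1) * P ζ := by
    rw [← Real.rpow_add_one hPpos.ne']
    congr 1
    ring
  have hGtx : dt G ζ + u ζ * dx G ζ = -(P ζ ^ (1 - 1 / γ) * dx w (ζ.1, ξ ζ)) := by
    rw [hGt, hGx, hpow]
    have h1 : 1 / (γ - 1) * ((1 - 1 / γ) * γ) = 1 := by
      field_simp
    linear_combination 1 / (γ - 1) * (1 - 1 / γ) * P ζ ^ (1 - 1 / γ - 1) * hPtx -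
      P ζ ^ (1 - 1 / γ - 1) * P ζ * dx w (ζ.1, ξ ζ) * h1
  have hm1 : ρ ζ * (dt U ζ + u ζ * dx U ζ) = -dx P ζ := by
    rw [hUt, hUx, hPx, ← hξx]
    linear_combination dx ξ ζ * hpde1 + r (ζ.1, ξ ζ) * dx ξ ζ * dx w (ζ.1, ξ ζ) * hwd
  have hm3 : r (ζ.1, ξ ζ) * dx U ζ = ρ ζ * dx w (ζ.1, ξ ζ) := by
    rw [hUx, ← hξx]
    ring
  have hGv : G ζ = P ζ ^ (1 - 1 / γ) / (γ - 1) := by rw [hG]
  rw [hq, hPv] at hcr
  rw [hPv] at hPtx hGtx hGv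
  have key := rel_identity (u := u ζ) (w := w (ζ.1, ξ ζ)) (φ := φ ζ) (φt := dt φ ζ)
    (φx := dx φ ζ) hγ hρ he hr hz hC₀ hcr hm1 hPtx hm3 hGv hGtx
  have dφU : DifferentiableAt ℝ (fun ζ => φ ζ * U ζ) ζ := dφ.mul dU
  have dφP : DifferentiableAt ℝ (fun ζ => φ ζ * P ζ) ζ := dφ.mul dP
  rw [dt_mul dφU dU, dx_mul dφU dU, dx_mul dφP dU, dt_mul dφ dU, dx_mul dφ dU, dt_mul dφ dP,
    dx_mul dφ dP, dt_mul dφ dG, dx_mul dφ dG, hUv, hPv]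
  unfold Eta Flux
  rw [key]
  ring

theorem relative {γ T a b L C : ℝ} {r w z ρ u e Φ Φb ξ φ : ℝ × ℝ → ℝ} {r₀ w₀ z₀ : ℝ → ℝ}
    (hγ : 1 < γ) (hT : 0 < T) (ha : 0 < a) (hV : IsBase γ T a b L r w z r₀ w₀ z₀)
    (hU : IsSol γ T a b ρ u e)
    (hΦ : IsPot T a b ρ (fun ζ => ρ ζ * u ζ) Φ) (hΦb : IsPot T a b r (fun ζ => r ζ * w ζ) Φb)
    (hξ : IsXi Φ Φb ξ)
    (hC : ∀ ρ u e r w z : ℝ, Box a b ρ u e → Box a b r w z →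
      0 ≤ relP γ ρ e r z ∧ ρ / r * relP γ ρ e r z ≤ C * eta γ ρ u e r w z)
    (hφ : IsLipTest T φ) (hφ0 : ∀ ζ, 0 ≤ φ ζ) :
    -(|L| * C) * ∫ ζ in Strip T, φ ζ * Eta γ ρ u e r w z ξ ζ ≤
      ∫ ζ in Strip T, (Eta γ ρ u e r w z ξ ζ * dt φ ζ + Flux γ ρ u e r w z ξ ζ * dx φ ζ) := by
  obtain ⟨M, hM0, hMb⟩ := exists_bound (b := b) hγ ha
  obtain ⟨C', hC'0, hC'⟩ := exists_const (b := b) hγ ha
  have hγ1 : 0 < γ - 1 := by linarith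
  have hγ0 : 0 < γ := by linarith
  have hVs := hV.sol
  have hw := hV.lip_w
  have hq : LocallyLipschitzOn (Strip T) (qq γ r z) := hV.lip_q
  obtain ⟨U, hUdef⟩ : ∃ U : ℝ × ℝ → ℝ, U = fun ζ => w (ζ.1, ξ ζ) := ⟨_, rfl⟩
  obtain ⟨P, hPdef⟩ : ∃ P : ℝ × ℝ → ℝ, P = fun ζ => qq γ r z (ζ.1, ξ ζ) := ⟨_, rfl⟩
  obtain ⟨G, hGdef⟩ : ∃ G : ℝ × ℝ → ℝ, G = fun ζ => P ζ ^ (1 - 1 / γ) / (γ - 1) := ⟨_, rfl⟩
  have hUl : LocallyLipschitzOn (Strip T) U := by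
    rw [hUdef]
    exact hξ.locLip ha hΦ hΦb hw
  have hPl : LocallyLipschitzOn (Strip T) P := by
    rw [hPdef]
    exact hξ.locLip ha hΦ hΦb hq
  have hPpos : ∀ ζ ∈ Strip T, 0 < P ζ := by
    intro ζ hζ
    have h1 : (ζ.1, ξ ζ) ∈ Strip T := hζ
    have h2 := (base_bounds hγ ha hVs hw hq _ h1).2.1
    rw [hPdef]
    exact lt_of_lt_of_le (by positivity) h2
  have hGl : LocallyLipschitzOn (Strip T) G := by
    have h1 : G = fun ζ => (fun x : ℝ => x ^ (1 - 1 / γ) / (γ - 1)) (P ζ) := hGdef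
    rw [h1]
    exact locLip_comp hPl fun ζ hζ =>
      (Real.contDiffAt_rpow_const_of_ne (hPpos ζ hζ).ne').div_const _
  obtain ⟨c, c₀, c₁, hcm, hc0, hcb, hcr⟩ := exists_weight hγ hT ha hVs hw hq hΦb
  have hcpos : ∀ y, 0 < c y := fun y => lt_of_lt_of_le hc0 (hcb y).1
  have hcabs : ∀ y, |c y| ≤ c₁ := fun y => by
    rw [abs_of_pos (hcpos y)]
    exact (hcb y).2
  -- the tests
  have tU : IsLipTest T (fun ζ => φ ζ * U ζ) := hφ.mul_loc hUl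
  have tUU : IsLipTest T (fun ζ => φ ζ * U ζ * U ζ) := tU.mul_loc hUl
  have tP : IsLipTest T (fun ζ => φ ζ * P ζ) := hφ.mul_loc hPl
  have tPU : IsLipTest T (fun ζ => φ ζ * P ζ * U ζ) := tP.mul_loc hUl
  have tG : IsLipTest T (fun ζ => φ ζ * G ζ) := hφ.mul_loc hGl
  have tG0 : ∀ ζ, 0 ≤ φ ζ * G ζ := by
    intro ζ
    by_cases hζ : ζ ∈ Strip T
    · refine mul_nonneg (hφ0 ζ) ?_
      rw [hGdef]
      exact div_nonneg (Real.rpow_nonneg (hPpos ζ hζ).le _) hγ1.le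
    · have h1 : φ ζ = 0 := image_eq_zero_of_notMem_tsupport fun h => hζ (hφ.support h)
      rw [h1, zero_mul]
  -- measurability and bounds
  have mρ := hU.meas_ρ
  have mu := hU.meas_u
  have me := hU.meas_e
  have mp : Measurable (fun ζ => pr γ (ρ ζ) (e ζ)) := measurable_pr mρ me
  have mE : Measurable (fun ζ => en (u ζ) (e ζ)) := measurable_en mu me
  have ms : Measurable (fun ζ => ent γ (ρ ζ) (e ζ)) := measurable_ent mρ me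
  have hbox := hU.box
  have e1 : ∀ᵐ ζ : ℝ × ℝ, ζ ∈ Strip T → |ρ ζ| ≤ M := by
    filter_upwards [hbox] with ζ hζ hζT using (hMb _ _ _ (hζ hζT)).1
  have e2 : ∀ᵐ ζ : ℝ × ℝ, ζ ∈ Strip T → |ρ ζ * u ζ| ≤ M := by
    filter_upwards [hbox] with ζ hζ hζT using (hMb _ _ _ (hζ hζT)).2.1
  have e3 : ∀ᵐ ζ : ℝ × ℝ, ζ ∈ Strip T → |ρ ζ * u ζ ^ 2 + pr γ (ρ ζ) (e ζ)| ≤ M := by
    filter_upwards [hbox] with ζ hζ hζT using (hMb _ _ _ (hζ hζT)).2.2.1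
  have e4 : ∀ᵐ ζ : ℝ × ℝ, ζ ∈ Strip T → |ρ ζ * en (u ζ) (e ζ)| ≤ M := by
    filter_upwards [hbox] with ζ hζ hζT using (hMb _ _ _ (hζ hζT)).2.2.2.1
  have e5 : ∀ᵐ ζ : ℝ × ℝ, ζ ∈ Strip T →
      |ρ ζ * en (u ζ) (e ζ) * u ζ + pr γ (ρ ζ) (e ζ) * u ζ| ≤ M := by
    filter_upwards [hbox] with ζ hζ hζT using (hMb _ _ _ (hζ hζT)).2.2.2.2.1
  have e7 : ∀ᵐ ζ : ℝ × ℝ, ζ ∈ Strip T → |ρ ζ * ent γ (ρ ζ) (e ζ)| ≤ M := by
    filter_upwards [hbox] with ζ hζ hζT using (hMb _ _ _ (hζ hζT)).2.2.2.2.2.2.1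
  have e8 : ∀ᵐ ζ : ℝ × ℝ, ζ ∈ Strip T → |ρ ζ * u ζ * ent γ (ρ ζ) (e ζ)| ≤ M := by
    filter_upwards [hbox] with ζ hζ hζT using (hMb _ _ _ (hζ hζT)).2.2.2.2.2.2.2
  obtain ⟨KΦ, hKΦ⟩ := hΦ.lip
  obtain ⟨Kξ, hKξ⟩ := hξ.lip
  have mΦ : Measurable Φ := hKΦ.continuous.measurable
  have mξ : Measurable ξ := hKξ.continuous.measurable
  have mΞ : Measurable (fun ζ : ℝ × ℝ => (ζ.1, ξ ζ)) := measurable_fst.prodMk mξ
  have mc : Measurable (fun ζ => c (Φ ζ)) := hcm.comp mΦ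
  obtain ⟨c', hc'⟩ : ∃ c' : ℝ → ℝ, c' = fun y => c y * (γ * Real.log (c y)) := ⟨_, rfl⟩
  have hc'm : Measurable c' := by
    rw [hc']
    exact hcm.mul (measurable_const.mul (Real.measurable_log.comp hcm))
  obtain ⟨B, hBdef⟩ : ∃ B : ℝ, B = c₁ * (γ * (|Real.log c₀| + |Real.log c₁|)) := ⟨_, rfl⟩
  have hc'B : ∀ y, |c' y| ≤ B := by
    intro y
    rw [hc', hBdef, abs_mul, abs_mul, abs_of_pos hγ0]
    have h1 : |Real.log (c y)| ≤ |Real.log c₀| + |Real.log c₁| := by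
      have h2 := Real.log_le_log hc0 (hcb y).1
      have h3 := Real.log_le_log (hcpos y) (hcb y).2
      have h4 := neg_abs_le (Real.log c₀)
      have h5 := le_abs_self (Real.log c₁)
      have h6 := abs_nonneg (Real.log c₀)
      have h7 := abs_nonneg (Real.log c₁)
      rw [abs_le]
      constructor <;> linarith
    have h8 : 0 ≤ c₁ := (abs_nonneg _).trans (hcabs y)
    exact mul_le_mul (hcabs y) (mul_le_mul_of_nonneg_left h1 hγ0.le) (by positivity) h8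
  have mc' : Measurable (fun ζ => c' (Φ ζ)) := hc'm.comp mΦ
  -- integrability
  have J1 : IntegrableOn (fun ζ => ρ ζ * en (u ζ) (e ζ) * dt φ ζ +
      (ρ ζ * en (u ζ) (e ζ) * u ζ + pr γ (ρ ζ) (e ζ) * u ζ) * dx φ ζ) (Strip T) :=
    (hφ.integrableOn_dt (mρ.mul mE) e4).add
      (hφ.integrableOn_dx (((mρ.mul mE).mul mu).add (mp.mul mu)) e5)
  have J2 : IntegrableOn (fun ζ => ρ ζ * u ζ * dt (fun ζ => φ ζ * U ζ) ζ +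
      (ρ ζ * u ζ ^ 2 + pr γ (ρ ζ) (e ζ)) * dx (fun ζ => φ ζ * U ζ) ζ) (Strip T) :=
    (tU.integrableOn_dt (mρ.mul mu) e2).add
      (tU.integrableOn_dx ((mρ.mul (mu.pow_const 2)).add mp) e3)
  have J3 : IntegrableOn (fun ζ => ρ ζ * dt (fun ζ => φ ζ * U ζ * U ζ) ζ +
      ρ ζ * u ζ * dx (fun ζ => φ ζ * U ζ * U ζ) ζ) (Strip T) :=
    (tUU.integrableOn_dt mρ e1).add (tUU.integrableOn_dx (mρ.mul mu) e2)
  have one : ∀ᵐ z : ℝ × ℝ, z ∈ Strip T → |(fun _ : ℝ × ℝ => (1 : ℝ)) z| ≤ 1 :=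
    Eventually.of_forall fun z _ => by simp
  have J4a : IntegrableOn (fun ζ => dt (fun ζ => φ ζ * P ζ) ζ) (Strip T) := by
    have h1 := tP.integrableOn_dt (F := fun _ => (1 : ℝ)) (M := 1) measurable_const one
    simpa only [one_mul] using h1
  have J4b : IntegrableOn (fun ζ => dx (fun ζ => φ ζ * P ζ * U ζ) ζ) (Strip T) := by
    have h1 := tPU.integrableOn_dx (F := fun _ => (1 : ℝ)) (M := 1) measurable_const one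
    simpa only [one_mul] using h1
  have J4 : IntegrableOn (fun ζ => dt (fun ζ => φ ζ * P ζ) ζ +
      dx (fun ζ => φ ζ * P ζ * U ζ) ζ) (Strip T) := J4a.add J4b
  have bc : ∀ {c : ℝ → ℝ} {B : ℝ} {f : ℝ × ℝ → ℝ}, (∀ y, |c y| ≤ B) →
      (∀ᵐ ζ : ℝ × ℝ, ζ ∈ Strip T → |f ζ| ≤ M) →
      ∀ᵐ ζ : ℝ × ℝ, ζ ∈ Strip T → |f ζ * c (Φ ζ)| ≤ M * B := by
    intro c B f hB hf
    filter_upwards [hf] with ζ h1 hζ
    rw [abs_mul]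
    exact mul_le_mul (h1 hζ) (hB _) (abs_nonneg _) hM0.le
  have Jw : ∀ {c : ℝ → ℝ} {B : ℝ} {f : ℝ × ℝ → ℝ}, Measurable c → (∀ y, |c y| ≤ B) →
      Measurable f → (∀ᵐ ζ : ℝ × ℝ, ζ ∈ Strip T → |f ζ| ≤ M) →
      (∀ᵐ ζ : ℝ × ℝ, ζ ∈ Strip T → |f ζ * u ζ| ≤ M) →
      IntegrableOn (fun ζ => f ζ * c (Φ ζ) * (dt (fun ζ => φ ζ * G ζ) ζ +
        u ζ * dx (fun ζ => φ ζ * G ζ) ζ)) (Strip T) := by
    intro c B f hcm hB hf h1 h2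
    have h3 := (tG.integrableOn_dt (hf.mul (hcm.comp mΦ)) (bc hB h1)).add
      (tG.integrableOn_dx ((hf.mul mu).mul (hcm.comp mΦ)) (bc hB h2))
    refine h3.congr (Eventually.of_forall fun ζ => ?_)
    simp only [Pi.add_apply, Pi.mul_apply, Function.comp_apply]
    ring
  have e8' : ∀ᵐ ζ : ℝ × ℝ, ζ ∈ Strip T → |ρ ζ * ent γ (ρ ζ) (e ζ) * u ζ| ≤ M := by
    filter_upwards [e8] with ζ h1 hζ
    have h2 : ρ ζ * ent γ (ρ ζ) (e ζ) * u ζ = ρ ζ * u ζ * ent γ (ρ ζ) (e ζ) := by ring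
    rw [h2]
    exact h1 hζ
  have J5 := Jw hcm hcabs mρ e1 e2
  have J6 := Jw hcm hcabs (mρ.mul ms) e7 e8'
  have J7 := Jw hc'm hc'B mρ e1 e2
  -- the laws
  have I1 := hU.energy.lip (mρ.mul mE) (((mρ.mul mE).mul mu).add (mp.mul mu)) e4 e5 hφ
  have I2 := hU.momentum.lip (mρ.mul mu) ((mρ.mul (mu.pow_const 2)).add mp) e2 e3 tU
  have I3 := hU.mass.lip mρ (mρ.mul mu) e1 e2 tUU
  have I4 : ∫ ζ in Strip T, (dt (fun ζ => φ ζ * P ζ) ζ + dx (fun ζ => φ ζ * P ζ * U ζ) ζ) = 0 := by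
    rw [integral_add J4a J4b, tP.integral_dt, tPU.integral_dx, add_zero]
  have I5 := weight_eq hγ ha hU hΦ hcm hcabs tG
  have I6 := weight_le hγ ha hU hΦ hcm hcabs (fun y => (hcpos y).le) tG tG0
  have I7 := weight_eq hγ ha hU hΦ hc'm hc'B tG
  -- the relative energy is bounded
  have hboxΞ := hξ.ae_comp ha hΦ hΦb hVs.box
  have mη : Measurable (Eta γ ρ u e r w z ξ) := by
    have a1 := hVs.meas_ρ
    have a2 := hVs.meas_u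
    have a3 := hVs.meas_e
    unfold Eta eta hh
    fun_prop
  have mQ : Measurable (Flux γ ρ u e r w z ξ) := by
    have a1 := hVs.meas_ρ
    have a2 := hVs.meas_u
    have a3 := hVs.meas_e
    unfold Flux flux eta hh pr
    fun_prop
  obtain ⟨M', hM'⟩ : ∃ M', M' = C' * (|b| * 6) := ⟨_, rfl⟩
  have hηb : ∀ᵐ ζ : ℝ × ℝ, ζ ∈ Strip T → |Eta γ ρ u e r w z ξ ζ| ≤ M' ∧
      |Flux γ ρ u e r w z ξ ζ| ≤ C' * M' := by
    filter_upwards [hbox, hboxΞ] with ζ h1 h2 hζ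
    obtain ⟨x0, x1, x2, -⟩ := hC' _ _ _ _ _ _ (h1 hζ) (h2 hζ)
    obtain ⟨b1, b2, b3, b4, b5⟩ := h1 hζ
    obtain ⟨k1, k2, k3, k4, k5⟩ := h2 hζ
    have hb : b ≤ |b| := le_abs_self b
    have hρ : 0 < ρ ζ := lt_of_lt_of_le ha b1
    have he : 0 < e ζ := lt_of_lt_of_le ha b4
    have hr : 0 < r (ζ.1, ξ ζ) := lt_of_lt_of_le ha k1
    have hz : 0 < z (ζ.1, ξ ζ) := lt_of_lt_of_le ha k4
    have d1 : |ρ ζ - r (ζ.1, ξ ζ)| ≤ 2 * |b| := by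
      rw [abs_le]
      constructor <;> linarith
    have d2 : |u ζ - w (ζ.1, ξ ζ)| ≤ 2 * |b| := by
      have := abs_sub (u ζ) (w (ζ.1, ξ ζ))
      linarith
    have d3 : |e ζ - z (ζ.1, ξ ζ)| ≤ 2 * |b| := by
      rw [abs_le]
      constructor <;> linarith
    have h3 : eta γ (ρ ζ) (u ζ) (e ζ) (r (ζ.1, ξ ζ)) (w (ζ.1, ξ ζ)) (z (ζ.1, ξ ζ)) ≤ M' := by
      rw [hM']
      refine x1.trans (mul_le_mul_of_nonneg_left ?_ hC'0.le)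
      linarith
    refine ⟨?_, x2.trans (mul_le_mul_of_nonneg_left h3 hC'0.le)⟩
    unfold Eta
    rw [abs_of_nonneg x0]
    exact h3
  have hη1 : ∀ᵐ ζ : ℝ × ℝ, ζ ∈ Strip T → |Eta γ ρ u e r w z ξ ζ| ≤ M' := by
    filter_upwards [hηb] with ζ h1 hζ using (h1 hζ).1
  have hQ1 : ∀ᵐ ζ : ℝ × ℝ, ζ ∈ Strip T → |Flux γ ρ u e r w z ξ ζ| ≤ C' * M' := by
    filter_upwards [hηb] with ζ h1 hζ using (h1 hζ).2
  have JS : IntegrableOn (fun ζ => Eta γ ρ u e r w z ξ ζ * dt φ ζ +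
      Flux γ ρ u e r w z ξ ζ * dx φ ζ) (Strip T) :=
    (hφ.integrableOn_dt mη hη1).add (hφ.integrableOn_dx mQ hQ1)
  have Jη : IntegrableOn (fun ζ => φ ζ * Eta γ ρ u e r w z ξ ζ) (Strip T) := by
    refine (hφ.integrableOn_mul mη hη1).congr (Eventually.of_forall fun ζ => ?_)
    exact mul_comm _ _
  -- the combination
  obtain ⟨F, hF⟩ : ∃ F : ℝ × ℝ → ℝ, F = fun ζ =>
      (ρ ζ * en (u ζ) (e ζ) * dt φ ζ +
        (ρ ζ * en (u ζ) (e ζ) * u ζ + pr γ (ρ ζ) (e ζ) * u ζ) * dx φ ζ)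
      - (ρ ζ * u ζ * dt (fun ζ => φ ζ * U ζ) ζ +
        (ρ ζ * u ζ ^ 2 + pr γ (ρ ζ) (e ζ)) * dx (fun ζ => φ ζ * U ζ) ζ)
      + 1 / 2 * (ρ ζ * dt (fun ζ => φ ζ * U ζ * U ζ) ζ +
        ρ ζ * u ζ * dx (fun ζ => φ ζ * U ζ * U ζ) ζ)
      + (dt (fun ζ => φ ζ * P ζ) ζ + dx (fun ζ => φ ζ * P ζ * U ζ) ζ)
      - γ * (ρ ζ * c (Φ ζ) * (dt (fun ζ => φ ζ * G ζ) ζ + u ζ * dx (fun ζ => φ ζ * G ζ) ζ))
      - ρ ζ * ent γ (ρ ζ) (e ζ) * c (Φ ζ) *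
        (dt (fun ζ => φ ζ * G ζ) ζ + u ζ * dx (fun ζ => φ ζ * G ζ) ζ)
      + ρ ζ * c' (Φ ζ) *
        (dt (fun ζ => φ ζ * G ζ) ζ + u ζ * dx (fun ζ => φ ζ * G ζ) ζ) := ⟨_, rfl⟩
  have j2 := J1.sub J2
  have j3 := j2.add (J3.const_mul (1 / 2))
  have j4 := j3.add J4
  have j5 := j4.sub (J5.const_mul γ)
  have j6 := j5.sub J6
  have JF : IntegrableOn F (Strip T) := by
    rw [hF]
    exact j6.add J7
  have IF : 0 ≤ ∫ ζ in Strip T, F ζ := by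
    have h1 : ∫ ζ in Strip T, F ζ = 0 - 0 + 1 / 2 * 0 + 0 - γ * 0 -
        (∫ ζ in Strip T, ρ ζ * ent γ (ρ ζ) (e ζ) * c (Φ ζ) *
          (dt (fun ζ => φ ζ * G ζ) ζ + u ζ * dx (fun ζ => φ ζ * G ζ) ζ)) + 0 := by
      rw [hF]
      refine (integral_add j6 J7).trans ?_
      refine congrArg₂ (· + ·) ?_ I7
      refine (integral_sub j5 J6).trans ?_
      refine congrArg₂ (· - ·) ?_ rfl
      refine (integral_sub j4 (J5.const_mul γ)).trans ?_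
      refine congrArg₂ (· - ·) ?_ ?_
      · refine (integral_add j3 J4).trans ?_
        refine congrArg₂ (· + ·) ?_ I4
        refine (integral_add j2 (J3.const_mul (1 / 2))).trans ?_
        refine congrArg₂ (· + ·) ?_ ?_
        · refine (integral_sub J1 J2).trans ?_
          exact congrArg₂ (· - ·) I1 I2
        · rw [integral_const_mul, I3]
      · rw [integral_const_mul, I5]
    rw [h1]
    linarith
  -- the inequality almost everywhere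
  have hae : ∀ᵐ ζ : ℝ × ℝ, ζ ∈ Strip T →
      -(|L| * C) * (φ ζ * Eta γ ρ u e r w z ξ ζ) ≤
        Eta γ ρ u e r w z ξ ζ * dt φ ζ + Flux γ ρ u e r w z ξ ζ * dx φ ζ - F ζ := by
    obtain ⟨Kφ, hKφ⟩ := hφ.lip
    filter_upwards [hbox, hboxΞ, hξ.ae_comp ha hΦ hΦb (base_pde hγ ha hVs hw hq),
      hξ.ae_comp ha hΦ hΦb hcr, hξ.deriv ha hΦ hΦb, hξ.chain ha hΦ hΦb hw,
      hξ.chain ha hΦ hΦb hq, hKφ.ae_differentiableAt (μ := (volume : Measure (ℝ × ℝ))),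
      hξ.ae_comp ha hΦ hΦb (ae_differentiableAt hw)] with ζ h1 h2 h3 h4 h5 h6 h7 h8 h9 hζ
    obtain ⟨p1, p2⟩ := h3 hζ
    obtain ⟨-, -, x1, x2⟩ := h5 hζ
    obtain ⟨u1, u2, u3⟩ := h6 hζ
    obtain ⟨q1, q2, q3⟩ := h7 hζ
    have hcr' := h4 hζ
    rw [hξ.eq ζ] at hcr'
    have key := rel_pt (φ := φ) (U := U) (P := P) (G := G) hγ ha (h1 hζ) (h2 hζ) p1 p2
      (hcpos (Φ ζ)) hcr' x1 x2 hUdef hPdef hGdef h8 (by rw [hUdef]; exact u1)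
      (by rw [hPdef]; exact q1) (by rw [hUdef]; exact u2) (by rw [hUdef]; exact u3)
      (by rw [hPdef]; exact q2) (by rw [hPdef]; exact q3)
    have hk : -|L| ≤ dx w (ζ.1, ξ ζ) := by
      have h10 := dx_ge (h9 hζ) (T := T) (L := L) ⟨hζ.1, hζ.2⟩ hV.oneSided
      have h11 := le_abs_self L
      linarith
    obtain ⟨r1, r2⟩ := hC _ _ _ _ _ _ (h1 hζ) (h2 hζ)
    have hρr : 0 ≤ ρ ζ / r (ζ.1, ξ ζ) :=
      div_nonneg (ha.le.trans (h1 hζ).1) (ha.le.trans (h2 hζ).1)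
    rw [key, hF, hc']
    obtain ⟨X, hX⟩ : ∃ X, X = ρ ζ / r (ζ.1, ξ ζ) *
      relP γ (ρ ζ) (e ζ) (r (ζ.1, ξ ζ)) (z (ζ.1, ξ ζ)) := ⟨_, rfl⟩
    have hX0 : 0 ≤ X := by
      rw [hX]
      exact mul_nonneg hρr r1
    have hX1 : X ≤ C * Eta γ ρ u e r w z ξ ζ := by
      rw [hX]
      exact r2
    rw [← hX]
    have h12 : φ ζ * -|L| * X ≤ φ ζ * dx w (ζ.1, ξ ζ) * X :=
      mul_le_mul_of_nonneg_right (mul_le_mul_of_nonneg_left hk (hφ0 ζ)) hX0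
    have h13 : φ ζ * |L| * X ≤ φ ζ * |L| * (C * Eta γ ρ u e r w z ξ ζ) :=
      mul_le_mul_of_nonneg_left hX1 (mul_nonneg (hφ0 ζ) (abs_nonneg L))
    have h14 : -(|L| * C) * (φ ζ * Eta γ ρ u e r w z ξ ζ) ≤ φ ζ * dx w (ζ.1, ξ ζ) * X := by
      linarith
    refine h14.trans (le_of_eq ?_)
    ring
  have hfin : ∫ ζ in Strip T, -(|L| * C) * (φ ζ * Eta γ ρ u e r w z ξ ζ) ≤
      ∫ ζ in Strip T, (Eta γ ρ u e r w z ξ ζ * dt φ ζ + Flux γ ρ u e r w z ξ ζ * dx φ ζ - F ζ) := by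
    apply setIntegral_mono_ae_restrict (Jη.const_mul _) (JS.sub JF)
    exact (ae_restrict_iff' (measurableSet_strip T)).2 hae
  rw [integral_const_mul] at hfin
  have hsub : ∫ ζ in Strip T, (Eta γ ρ u e r w z ξ ζ * dt φ ζ +
      Flux γ ρ u e r w z ξ ζ * dx φ ζ - F ζ) =
      (∫ ζ in Strip T, (Eta γ ρ u e r w z ξ ζ * dt φ ζ + Flux γ ρ u e r w z ξ ζ * dx φ ζ)) -
        ∫ ζ in Strip T, F ζ := integral_sub JS JF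
  rw [hsub] at hfin
  linarith

end Helper73.EU
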