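import Pool.Agent.Helper73.EU.LipLaw
import Pool.Agent.Helper73.EU.Pot
import Pool.Agent.Helper73.EU.Bounds

/-!
EU-05. Weights: functions of the potential are transported.

PROOF. `pot_null`: if `N ⊆ ℝ` is a null set, then for a.e. `z`, `Φ z ∉ N`: for each `t` the function
`Φ (t, ·)` is `AntilipschitzWith (1/a)` (from `lo`), so the preimage of `N` is null
(`AntilipschitzWith.hausdorffMeasure_preimage_le`, `hausdorffMeasure_real`); Fubini
(`Measure.measure_prod_null`, measurable hull of `N` first: `toMeasurable`).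
`weight_lip`: let `c` be Lipschitz and bounded. `g z = c (Φ z)` is Lipschitz, so `ψ g` is a Lipschitz
test (`IsLipTest.mul_lip`). For a.e. `z` in the strip `ψ`, `Φ`, are differentiable at `z`, `c` is
differentiable at `Φ z` (Rademacher on `ℝ` and `pot_null`), so
`dt (ψ g) = dt ψ g + ψ c'(Φ) (-(ρ u))`, `dx (ψ g) = dx ψ g + ψ c'(Φ) ρ`, and with `A = ρ s`, `B = ρ u s`
(`s = 1` for the mass law): `A dt (ψ g) + B dx (ψ g) = ρ s c(Φ) (dt ψ + u dx ψ)`: the terms with `c'` cancel.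
Apply `Law.lip`, `LawGe.lip` (the latter for `c ≥ 0`, `ψ ≥ 0`).
General bounded measurable `c`: `C y = ∫ s in 0..y, c s`, `c_n y = (n+1) (C (y + 1/(n+1)) - C y)` is
Lipschitz, `|c_n| ≤ B`, `c_n ≥ 0` if `c ≥ 0`, `c_n → c` a.e. (`LocallyIntegrable.ae_hasDerivAt_integral`),
so `c_n (Φ z) → c (Φ z)` for a.e. `z` (`pot_null`); dominated convergence (integrability as in
`IsLipTest.integrableOn_dt`).
-/

open MeasureTheory Set Filter Topology
open scoped ContDiff NNReal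

namespace Helper73.EU

theorem IsPot.ae_notMem {T a b : ℝ} {ρ m Φ : ℝ × ℝ → ℝ} (ha : 0 < a) (h : IsPot T a b ρ m Φ)
    {N : Set ℝ} (hN : volume N = 0) : ∀ᵐ z : ℝ × ℝ, Φ z ∉ N := by
  obtain ⟨K, hK⟩ := h.lip
  have hNm : MeasurableSet (toMeasurable volume N) := measurableSet_toMeasurable _ _
  have hN0 : volume (toMeasurable volume N) = 0 := by rw [measure_toMeasurable, hN]
  have hE : MeasurableSet (Φ ⁻¹' toMeasurable volume N) := hK.continuous.measurable hNm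
  have hslice : ∀ t : ℝ, volume (Prod.mk t ⁻¹' (Φ ⁻¹' toMeasurable volume N)) = 0 := by
    intro t
    have hanti : AntilipschitzWith (Real.toNNReal (1 / a)) (fun x : ℝ => Φ (t, x)) := by
      apply AntilipschitzWith.of_le_mul_dist
      intro x y
      rw [Real.coe_toNNReal _ (by positivity), Real.dist_eq, Real.dist_eq]
      have hkey : ∀ x y : ℝ, x ≤ y → |x - y| ≤ 1 / a * |Φ (t, x) - Φ (t, y)| := by
        intro x y hxy
        have h1 := h.lo t x y hxy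
        have h2 : |x - y| = y - x := by
          rw [abs_sub_comm, abs_of_nonneg (by linarith)]
        have h3 : Φ (t, y) - Φ (t, x) ≤ |Φ (t, x) - Φ (t, y)| := by
          rw [abs_sub_comm]
          exact le_abs_self _
        rw [h2, one_div, inv_mul_eq_div, le_div_iff₀ ha]
        linarith
      rcases le_total x y with hxy | hxy
      · exact hkey x y hxy
      · rw [abs_sub_comm x y, abs_sub_comm (Φ (t, x))]
        exact hkey y x hxy
    have h1 := hanti.hausdorffMeasure_preimage_le (d := 1) (by norm_num)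
      (toMeasurable volume N)
    rw [hausdorffMeasure_real, hN0, mul_zero] at h1
    exact nonpos_iff_eq_zero.1 h1
  have h0 : volume (Φ ⁻¹' toMeasurable volume N) = 0 := by
    rw [Measure.volume_eq_prod, Measure.measure_prod_null hE]
    exact Eventually.of_forall hslice
  have h2 : ∀ᵐ z : ℝ × ℝ, z ∉ Φ ⁻¹' toMeasurable volume N := measure_eq_zero_iff_ae_notMem.1 h0
  filter_upwards [h2] with z hz hzN
  exact hz (subset_toMeasurable volume N hzN)

/-- Approximation of bounded measurable functions by Lipschitz ones. -/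
private theorem w_approx {B : ℝ} {c : ℝ → ℝ} (hc : Measurable c) (hB : ∀ y, |c y| ≤ B) :
    ∃ cn : ℕ → ℝ → ℝ, (∀ n, ∃ K : ℝ≥0, LipschitzWith K (cn n)) ∧ (∀ n y, |cn n y| ≤ B) ∧
      ((∀ y, 0 ≤ c y) → ∀ n y, 0 ≤ cn n y) ∧
      ∀ᵐ y, Tendsto (fun n => cn n y) atTop (𝓝 (c y)) := by
  have hB0 : 0 ≤ B := (abs_nonneg _).trans (hB 0)
  have hint : ∀ x y : ℝ, IntervalIntegrable c volume x y := by
    intro x y
    refine (intervalIntegrable_const (c := B)).mono_fun hc.aestronglyMeasurable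
      (ae_of_all _ fun z => ?_)
    simp only [Real.norm_eq_abs]
    rw [abs_of_nonneg hB0]
    exact hB z
  obtain ⟨C, hC⟩ : ∃ C : ℝ → ℝ, C = fun y => ∫ s in (0 : ℝ)..y, c s := ⟨_, rfl⟩
  have hdiff : ∀ x y, C y - C x = ∫ s in x..y, c s := by
    intro x y
    rw [hC]
    exact intervalIntegral.integral_interval_sub_left (hint 0 y) (hint 0 x)
  have hLip : ∀ x y, |C y - C x| ≤ B * |y - x| := by
    intro x y
    rw [hdiff]
    exact intervalIntegral.norm_integral_le_of_norm_le_const (f := c) (C := B) fun z _ => hB z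
  refine ⟨fun n y => ((n : ℝ) + 1) * (C (y + 1 / ((n : ℝ) + 1)) - C y), ?_, ?_, ?_, ?_⟩
  · intro n
    have hK : 0 ≤ 2 * ((n : ℝ) + 1) * B := by positivity
    refine ⟨⟨2 * ((n : ℝ) + 1) * B, hK⟩, LipschitzWith.of_dist_le_mul fun x y => ?_⟩
    rw [Real.dist_eq, Real.dist_eq]
    show |((n : ℝ) + 1) * (C (x + 1 / ((n : ℝ) + 1)) - C x) -
      ((n : ℝ) + 1) * (C (y + 1 / ((n : ℝ) + 1)) - C y)| ≤ 2 * ((n : ℝ) + 1) * B * |x - y|
    have h1 := hLip (y + 1 / ((n : ℝ) + 1)) (x + 1 / ((n : ℝ) + 1))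
    have h2 := hLip y x
    have h3 : x + 1 / ((n : ℝ) + 1) - (y + 1 / ((n : ℝ) + 1)) = x - y := by ring
    rw [h3] at h1
    have h4 : ((n : ℝ) + 1) * (C (x + 1 / ((n : ℝ) + 1)) - C x) -
      ((n : ℝ) + 1) * (C (y + 1 / ((n : ℝ) + 1)) - C y) = ((n : ℝ) + 1) *
        ((C (x + 1 / ((n : ℝ) + 1)) - C (y + 1 / ((n : ℝ) + 1))) - (C x - C y)) := by ring
    rw [h4, abs_mul, abs_of_pos (by positivity : (0 : ℝ) < (n : ℝ) + 1)]
    calc ((n : ℝ) + 1) * |C (x + 1 / ((n : ℝ) + 1)) - C (y + 1 / ((n : ℝ) + 1)) - (C x - C y)|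
        ≤ ((n : ℝ) + 1) * (B * |x - y| + B * |x - y|) := by
          gcongr
          exact (abs_sub _ _).trans (add_le_add h1 h2)
      _ = _ := by ring
  · intro n y
    show |((n : ℝ) + 1) * (C (y + 1 / ((n : ℝ) + 1)) - C y)| ≤ B
    have h1 := hLip y (y + 1 / ((n : ℝ) + 1))
    have hn : (0 : ℝ) < (n : ℝ) + 1 := by positivity
    have h2 : |y + 1 / ((n : ℝ) + 1) - y| = 1 / ((n : ℝ) + 1) := by
      rw [add_sub_cancel_left, abs_of_pos (by positivity)]
    rw [h2] at h1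
    rw [abs_mul, abs_of_pos hn]
    calc ((n : ℝ) + 1) * |C (y + 1 / ((n : ℝ) + 1)) - C y|
        ≤ ((n : ℝ) + 1) * (B * (1 / ((n : ℝ) + 1))) := by gcongr
      _ = B := by field_simp
  · intro hc0 n y
    show 0 ≤ ((n : ℝ) + 1) * (C (y + 1 / ((n : ℝ) + 1)) - C y)
    have hn : (0 : ℝ) < (n : ℝ) + 1 := by positivity
    refine mul_nonneg hn.le ?_
    rw [hdiff]
    refine intervalIntegral.integral_nonneg ?_ fun s _ => hc0 s
    have : 0 < 1 / ((n : ℝ) + 1) := by positivity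
    linarith
  · have hloc : LocallyIntegrable c volume := by
      refine (locallyIntegrable_const B).mono hc.aestronglyMeasurable (ae_of_all _ fun z => ?_)
      rw [Real.norm_eq_abs, Real.norm_eq_abs, abs_of_nonneg hB0]
      exact hB z
    filter_upwards [LocallyIntegrable.ae_hasDerivAt_integral hloc] with y hy
    have h1 := hasDerivAt_iff_tendsto_slope_zero.1 (hy 0)
    have h2 : Tendsto (fun n : ℕ => 1 / ((n : ℝ) + 1)) atTop (𝓝[≠] 0) := by
      refine tendsto_nhdsWithin_iff.2 ⟨tendsto_one_div_add_atTop_nhds_zero_nat,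
        Eventually.of_forall fun n => ?_⟩
      have : (0 : ℝ) < 1 / ((n : ℝ) + 1) := by positivity
      exact this.ne'
    refine (h1.comp h2).congr fun n => ?_
    simp only [Function.comp, smul_eq_mul, one_div, inv_inv, hC]

/-- The terms with the derivative of the weight cancel. -/
private theorem w_cancel {T a b : ℝ} {ρ u A B Φ ψ : ℝ × ℝ → ℝ} {c : ℝ → ℝ} (ha : 0 < a)
    (hΦ : IsPot T a b ρ (fun z => ρ z * u z) Φ) (hAB : ∀ z, B z = A z * u z)
    {K : ℝ≥0} (hc : LipschitzWith K c) (hψ : IsLipTest T ψ) :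
    ∀ᵐ z : ℝ × ℝ, z ∈ Strip T → A z * dt (fun z => ψ z * c (Φ z)) z +
      B z * dx (fun z => ψ z * c (Φ z)) z = A z * c (Φ z) * (dt ψ z + u z * dx ψ z) := by
  obtain ⟨K', hK'⟩ := hψ.lip
  have hN : volume {y : ℝ | ¬ DifferentiableAt ℝ c y} = 0 := hc.ae_differentiableAt_real
  filter_upwards [hΦ.deriv, hΦ.ae_notMem ha hN,
    hK'.ae_differentiableAt (μ := (volume : Measure (ℝ × ℝ)))] with z hz1 hz2 hz3 hzT
  obtain ⟨hd, hdt, hdx⟩ := hz1 hzT
  have hcd : DifferentiableAt ℝ c (Φ z) := by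
    by_contra hcon
    exact hz2 hcon
  have hcomp : HasFDerivAt (fun z => c (Φ z)) (deriv c (Φ z) • fderiv ℝ Φ z) z :=
    HasDerivAt.comp_hasFDerivAt z hcd.hasDerivAt hd.hasFDerivAt
  have h1 : dt (fun z => c (Φ z)) z = deriv c (Φ z) * dt Φ z := by
    simp only [dt, hcomp.fderiv]
    simp
  have h2 : dx (fun z => c (Φ z)) z = deriv c (Φ z) * dx Φ z := by
    simp only [dx, hcomp.fderiv]
    simp
  rw [dt_mul hz3 hcomp.differentiableAt, dx_mul hz3 hcomp.differentiableAt, h1, h2, hdt, hdx,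
    hAB]
  ring

/-- The limit. -/
private theorem w_limit {T a b M M' B : ℝ} {ρ u A Φ ψ : ℝ × ℝ → ℝ} {c : ℝ → ℝ} (ha : 0 < a)
    (hΦ : IsPot T a b ρ (fun z => ρ z * u z) Φ) (hA : Measurable A) (hu : Measurable u)
    (hAM : ∀ᵐ z : ℝ × ℝ, z ∈ Strip T → |A z| ≤ M)
    (huM : ∀ᵐ z : ℝ × ℝ, z ∈ Strip T → |u z| ≤ M')
    (hψ : IsLipTest T ψ) {cn : ℕ → ℝ → ℝ}
    (h1 : ∀ n, ∃ K : ℝ≥0, LipschitzWith K (cn n)) (h2 : ∀ n y, |cn n y| ≤ B)
    (h3 : ∀ᵐ y, Tendsto (fun n => cn n y) atTop (𝓝 (c y))) :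
    Tendsto (fun n => ∫ z in Strip T, A z * cn n (Φ z) * (dt ψ z + u z * dx ψ z)) atTop
      (𝓝 (∫ z in Strip T, A z * c (Φ z) * (dt ψ z + u z * dx ψ z))) := by
  have hB0 : 0 ≤ B := (abs_nonneg _).trans (h2 0 0)
  obtain ⟨KΦ, hKΦ⟩ := hΦ.lip
  have hms := measurableSet_strip T
  have i1 : IntegrableOn (fun z => (1 : ℝ) * dt ψ z) (Strip T) :=
    hψ.integrableOn_dt (F := fun _ => 1) (M := 1) measurable_const
      (ae_of_all _ fun z _ => by simp)
  have i2 : IntegrableOn (fun z => (1 : ℝ) * dx ψ z) (Strip T) :=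
    hψ.integrableOn_dx (F := fun _ => 1) (M := 1) measurable_const
      (ae_of_all _ fun z _ => by simp)
  refine tendsto_integral_of_dominated_convergence
    (fun z => |M| * B * (|1 * dt ψ z| + |M'| * |1 * dx ψ z|)) ?_ ?_ ?_ ?_
  · intro n
    obtain ⟨K, hK⟩ := h1 n
    exact ((hA.mul (hK.continuous.measurable.comp hKΦ.continuous.measurable)).mul
      ((measurable_dt ψ).add (hu.mul (measurable_dx ψ)))).aestronglyMeasurable
  · exact ((i1.abs).add ((i2.abs).const_mul |M'|)).const_mul (|M| * B)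
  · intro n
    rw [ae_restrict_iff' hms]
    filter_upwards [hAM, huM] with z hz1 hz2 hzT
    have e1 : |A z| ≤ |M| := (hz1 hzT).trans (le_abs_self _)
    have e2 : |u z| ≤ |M'| := (hz2 hzT).trans (le_abs_self _)
    rw [Real.norm_eq_abs, abs_mul, abs_mul, one_mul, one_mul]
    have e3 : |dt ψ z + u z * dx ψ z| ≤ |dt ψ z| + |M'| * |dx ψ z| := by
      refine (abs_add_le _ _).trans ?_
      rw [abs_mul]
      gcongr
    have e4 : 0 ≤ |dt ψ z| + |M'| * |dx ψ z| := by positivity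
    gcongr
    exact h2 n _
  · rw [ae_restrict_iff' hms]
    have h4 : ∀ᵐ z : ℝ × ℝ, Φ z ∉ {y : ℝ | ¬ Tendsto (fun n => cn n y) atTop (𝓝 (c y))} :=
      hΦ.ae_notMem ha h3
    filter_upwards [h4] with z hz _
    have hz' : Tendsto (fun n => cn n (Φ z)) atTop (𝓝 (c (Φ z))) := by
      by_contra hcon
      exact hz hcon
    exact (tendsto_const_nhds.mul hz').mul tendsto_const_nhds

theorem weight_eq {γ T a b B : ℝ} {ρ u e Φ ψ : ℝ × ℝ → ℝ} {c : ℝ → ℝ} (hγ : 1 < γ) (ha : 0 < a)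
    (hU : IsSol γ T a b ρ u e) (hΦ : IsPot T a b ρ (fun z => ρ z * u z) Φ)
    (hc : Measurable c) (hB : ∀ y, |c y| ≤ B) (hψ : IsLipTest T ψ) :
    ∫ z in Strip T, ρ z * c (Φ z) * (dt ψ z + u z * dx ψ z) = 0 := by
  obtain ⟨M, _, hM⟩ := exists_bound (b := b) hγ ha
  have hρM : ∀ᵐ z : ℝ × ℝ, z ∈ Strip T → |ρ z| ≤ M := by
    filter_upwards [hU.box] with z hz hzT
    exact (hM _ _ _ (hz hzT)).1
  have hρuM : ∀ᵐ z : ℝ × ℝ, z ∈ Strip T → |ρ z * u z| ≤ M := by
    filter_upwards [hU.box] with z hz hzT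
    exact (hM _ _ _ (hz hzT)).2.1
  have huM : ∀ᵐ z : ℝ × ℝ, z ∈ Strip T → |u z| ≤ b := by
    filter_upwards [hU.box] with z hz hzT
    exact (hz hzT).2.2.1
  obtain ⟨KΦ, hKΦ⟩ := hΦ.lip
  obtain ⟨cn, h1, h2, _, h4⟩ := w_approx hc hB
  have hlim := w_limit ha hΦ hU.meas_ρ hU.meas_u hρM huM hψ h1 h2 h4
  refine tendsto_nhds_unique hlim ?_
  have hz : ∀ n, ∫ z in Strip T, ρ z * cn n (Φ z) * (dt ψ z + u z * dx ψ z) = 0 := by
    intro n
    obtain ⟨K, hK⟩ := h1 n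
    have h5 := hU.mass.lip hU.meas_ρ (hU.meas_ρ.mul hU.meas_u) hρM hρuM
      (hψ.mul_lip (hK.comp hKΦ))
    rw [← h5]
    refine setIntegral_congr_ae (measurableSet_strip T) ?_
    filter_upwards [w_cancel (A := ρ) (B := fun z => ρ z * u z) ha hΦ (fun z => rfl) hK hψ]
      with z hz hzT
    exact (hz hzT).symm
  simp only [hz]
  exact tendsto_const_nhds

theorem weight_le {γ T a b B : ℝ} {ρ u e Φ ψ : ℝ × ℝ → ℝ} {c : ℝ → ℝ} (hγ : 1 < γ) (ha : 0 < a)
    (hU : IsSol γ T a b ρ u e) (hΦ : IsPot T a b ρ (fun z => ρ z * u z) Φ)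
    (hc : Measurable c) (hB : ∀ y, |c y| ≤ B) (hc0 : ∀ y, 0 ≤ c y)
    (hψ : IsLipTest T ψ) (hψ0 : ∀ z, 0 ≤ ψ z) :
    ∫ z in Strip T, ρ z * ent γ (ρ z) (e z) * c (Φ z) * (dt ψ z + u z * dx ψ z) ≤ 0 := by
  obtain ⟨M, _, hM⟩ := exists_bound (b := b) hγ ha
  have hAM : ∀ᵐ z : ℝ × ℝ, z ∈ Strip T → |ρ z * ent γ (ρ z) (e z)| ≤ M := by
    filter_upwards [hU.box] with z hz hzT
    exact (hM _ _ _ (hz hzT)).2.2.2.2.2.2.1
  have hBM : ∀ᵐ z : ℝ × ℝ, z ∈ Strip T → |ρ z * u z * ent γ (ρ z) (e z)| ≤ M := by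
    filter_upwards [hU.box] with z hz hzT
    exact (hM _ _ _ (hz hzT)).2.2.2.2.2.2.2
  have huM : ∀ᵐ z : ℝ × ℝ, z ∈ Strip T → |u z| ≤ b := by
    filter_upwards [hU.box] with z hz hzT
    exact (hz hzT).2.2.1
  have hmA : Measurable (fun z => ρ z * ent γ (ρ z) (e z)) :=
    hU.meas_ρ.mul (measurable_ent hU.meas_ρ hU.meas_e)
  have hmB : Measurable (fun z => ρ z * u z * ent γ (ρ z) (e z)) :=
    (hU.meas_ρ.mul hU.meas_u).mul (measurable_ent hU.meas_ρ hU.meas_e)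
  obtain ⟨KΦ, hKΦ⟩ := hΦ.lip
  obtain ⟨cn, h1, h2, h3, h4⟩ := w_approx hc hB
  have hlim := w_limit ha hΦ hmA hU.meas_u hAM huM hψ h1 h2 h4
  refine le_of_tendsto' hlim fun n => ?_
  obtain ⟨K, hK⟩ := h1 n
  have h5 := hU.entropy.lip hmA hmB hAM hBM (hψ.mul_lip (hK.comp hKΦ))
    (fun z => mul_nonneg (hψ0 z) (h3 hc0 n _))
  refine le_trans (le_of_eq ?_) h5
  refine setIntegral_congr_ae (measurableSet_strip T) ?_
  filter_upwards [w_cancel (A := fun z => ρ z * ent γ (ρ z) (e z))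
    (B := fun z => ρ z * u z * ent γ (ρ z) (e z)) ha hΦ (fun z => by ring) hK hψ]
    with z hz hzT
  exact (hz hzT).symm

end Helper73.EU
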