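import Pool.Agent.Helper73.EU.Xi
import Pool.Agent.Helper73.EU.BasePDE
import Pool.Agent.Helper73.EU.Weight

/-!
EU-07. The density of the base is `1/r = c(Φb) q^(-1/γ)`: the entropy is a function of the mass
coordinate.

PROOF. `θ = q^(1/γ)` is locally Lipschitz on the strip (`locLip_comp` with `x ↦ x ^ (1/γ)`, smooth for
`x > 0`, `base_bounds`), and a.e. `dt θ + dx (θ w) = 0`: `dt θ = (1/γ) q^(1/γ-1) dt q`, `base_pde`.
So `Law T θ (θ w)`: for a test `φ`, `∫ dt (φ θ) + dx (φ (θ w)) = 0` (`integral_dt`, `integral_dx`,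
`mul_loc`, product rule). `θ` is between positive constants `θ0 ≤ θ1` on the strip; let
`Ψ` be a potential of `(θ, θ w)` (`exists_isPot`).
Let `id' z = z.2`: it is a potential of `(1, 0)` (up to constants in the slopes, `IsPot T a' b' 1 0 id'`,
`a' = min a 1`, `b' = max b 1`; also `Φb` is one with the same slopes), so `exists_xi` gives a Lipschitz `X` with
`Φb (t, X (t, y)) = y`, and by `IsXi.deriv`: a.e. `r (t, X) * dt X = r (t, X) w (t, X)`, i.e. `dt X = w (t, X)`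
(`X = ξ` for `Φ := id'`, `m = 0`, `n = r w`). Put `D (t, y) = Ψ (t, X (t, y))`, Lipschitz on the plane; a.e. on the strip
(`IsXi.ae_comp` for the differentiability of `Ψ` at `(t, X)`), `dt D = -(θ w)(t, X) + θ (t, X) dt X = 0`.
For a.e. `y` the Lipschitz function `D (·, y)` has derivative zero a.e. on `(0, T)` (`ae_slice'`), so it is
constant on `[0, T]` (`AbsolutelyContinuousOnInterval.const_of_ae_hasDerivAt_zero` or `integral_deriv_eq_sub`), and by continuity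
for every `y`. Put `C y = D (0, y)`. Then `Ψ (t, x) = C (Φb (t, x))` for `t ∈ [0, T]` and all `x`, `C` is
Lipschitz. A.e. on the strip: `C` is differentiable at `Φb z` (`IsPot.ae_notMem`, Rademacher on `ℝ`), chain rule:
`θ z = dx Ψ z = deriv C (Φb z) * r z`. Take `c y = max c0 (min c1 (deriv C y))` with `c0 = θ0 / b`,
`c1 = θ1 / a`: `deriv C (Φb z) = θ z / r z ∈ [c0, c1]`.
-/

open MeasureTheory Set Filter Topology
open scoped ContDiff NNReal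

namespace Helper73.EU

private theorem comp_dt {Ψ X : ℝ × ℝ → ℝ} {z : ℝ × ℝ} (hΨ : DifferentiableAt ℝ Ψ (z.1, X z))
    (hX : DifferentiableAt ℝ X z) : DifferentiableAt ℝ (fun z => Ψ (z.1, X z)) z ∧
      dt (fun z => Ψ (z.1, X z)) z = dt Ψ (z.1, X z) + dt X z * dx Ψ (z.1, X z) := by
  have hg : HasFDerivAt (fun z : ℝ × ℝ => (z.1, X z))
      ((ContinuousLinearMap.fst ℝ ℝ ℝ).prod (fderiv ℝ X z)) z :=
    hasFDerivAt_fst.prodMk hX.hasFDerivAt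
  have h : HasFDerivAt (fun z : ℝ × ℝ => Ψ (z.1, X z))
      ((fderiv ℝ Ψ (z.1, X z)).comp ((ContinuousLinearMap.fst ℝ ℝ ℝ).prod (fderiv ℝ X z))) z :=
    HasFDerivAt.comp (g := Ψ) z hΨ.hasFDerivAt hg
  refine ⟨h.differentiableAt, ?_⟩
  have e : (((1 : ℝ), (0 : ℝ)).1, fderiv ℝ X z (1, 0)) =
      ((1 : ℝ), (0 : ℝ)) + (fderiv ℝ X z (1, 0)) • ((0 : ℝ), (1 : ℝ)) := by
    ext <;> simp
  unfold dt dx
  rw [h.fderiv]
  show fderiv ℝ Ψ (z.1, X z) (((1 : ℝ), (0 : ℝ)).1, fderiv ℝ X z (1, 0)) = _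
  rw [e, map_add, map_smul, smul_eq_mul]

private theorem slice_dt {D : ℝ × ℝ → ℝ} {t y : ℝ} (h : DifferentiableAt ℝ D (t, y)) :
    HasDerivAt (fun s => D (s, y)) (dt D (t, y)) t := by
  have h1 : HasDerivAt (fun s : ℝ => (s, y)) ((1 : ℝ), (0 : ℝ)) t :=
    (hasDerivAt_id t).prodMk (hasDerivAt_const t y)
  exact h.hasFDerivAt.comp_hasDerivAt t h1

private theorem const_time {T : ℝ} (hT : 0 < T) {D : ℝ × ℝ → ℝ} {K : ℝ≥0}
    (hD : LipschitzWith K D)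
    (h : ∀ᵐ z : ℝ × ℝ, z ∈ Strip T → DifferentiableAt ℝ D z ∧ dt D z = 0) :
    ∀ t ∈ Icc 0 T, ∀ y, D (t, y) = D (0, y) := by
  intro t ht
  have hc : Continuous D := hD.continuous
  have h1 : (fun y => D (t, y)) =ᵐ[volume] fun y => D (0, y) := by
    filter_upwards [ae_slice' h] with y hy
    have hlip : LipschitzWith K (fun s => D (s, y)) := by
      refine LipschitzWith.of_dist_le_mul fun s s' => ?_
      refine (hD.dist_le_mul (s, y) (s', y)).trans ?_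
      rw [Prod.dist_eq]
      simp
    have hac : AbsolutelyContinuousOnInterval (fun s => D (s, y)) 0 T :=
      (hlip.lipschitzOnWith (s := uIcc 0 T)).absolutelyContinuousOnInterval
    obtain ⟨C, hC⟩ := hac.const_of_ae_hasDerivAt_zero (by
      have h0 : ∀ᵐ s : ℝ, s ≠ 0 ∧ s ≠ T := by
        have e1 : ∀ᵐ s : ℝ, s ≠ 0 := Measure.ae_ne volume 0
        have e2 : ∀ᵐ s : ℝ, s ≠ T := Measure.ae_ne volume T
        filter_upwards [e1, e2] with s a1 a2 using ⟨a1, a2⟩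
      filter_upwards [hy, h0] with s hs hs0 hsI
      rw [uIcc_of_le hT.le] at hsI
      have hsI' : s ∈ Ioo 0 T :=
        ⟨lt_of_le_of_ne hsI.1 (Ne.symm hs0.1), lt_of_le_of_ne hsI.2 hs0.2⟩
      obtain ⟨d1, d2⟩ := hs hsI'
      have := slice_dt d1
      rwa [d2] at this)
    rw [uIcc_of_le hT.le] at hC
    rw [hC t ht, hC 0 ⟨le_rfl, hT.le⟩]
  have h2 : (fun y => D (t, y)) = fun y => D (0, y) :=
    (Continuous.ae_eq_iff_eq volume (by fun_prop) (by fun_prop)).1 h1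
  intro y
  exact congrFun h2 y

private theorem snd_isPot {T a b : ℝ} (ha : a ≤ 1) (hb : 1 ≤ b) :
    IsPot T a b (fun _ => 1) (fun _ => 0) Prod.snd := by
  refine ⟨⟨1, LipschitzWith.prod_snd⟩, rfl, fun t x y hxy => ?_, fun t x y hxy => ?_, ?_⟩
  · have : 0 ≤ y - x := by linarith
    show a * (y - x) ≤ y - x
    nlinarith
  · have : 0 ≤ y - x := by linarith
    show y - x ≤ b * (y - x)
    nlinarith
  · refine Eventually.of_forall fun z _ => ⟨differentiableAt_snd, ?_, ?_⟩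
    · unfold dt
      rw [fderiv_snd]
      simp
    · unfold dx
      rw [fderiv_snd]
      simp

theorem exists_weight {γ T a b : ℝ} {r w z Φb : ℝ × ℝ → ℝ} (hγ : 1 < γ) (hT : 0 < T) (ha : 0 < a)
    (hV : IsSol γ T a b r w z) (hw : LocallyLipschitzOn (Strip T) w)
    (hq : LocallyLipschitzOn (Strip T) (qq γ r z))
    (hΦb : IsPot T a b r (fun ζ => r ζ * w ζ) Φb) :
    ∃ (c : ℝ → ℝ) (c₀ c₁ : ℝ), Measurable c ∧ 0 < c₀ ∧ (∀ y, c₀ ≤ c y ∧ c y ≤ c₁) ∧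
      ∀ᵐ ζ : ℝ × ℝ, ζ ∈ Strip T → c (Φb ζ) * r ζ = (qq γ r z ζ) ^ (1 / γ) := by
  have hab : a ≤ b := by
    have h1 := hΦb.lo 0 0 1 zero_le_one
    have h2 := hΦb.hi 0 0 1 zero_le_one
    linarith
  have hb : 0 < b := ha.trans_le hab
  have hγ0 : 0 < γ := by linarith
  have hbd := base_bounds hγ ha hV hw hq
  have hP0 : 0 < (γ - 1) * a * a := by
    have : 0 < γ - 1 := by linarith
    positivity
  have hP1 : 0 < (γ - 1) * b * b := by
    have : 0 < γ - 1 := by linarith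
    positivity
  obtain ⟨θ, hθ⟩ : ∃ θ : ℝ × ℝ → ℝ, ∀ ζ, θ ζ = (qq γ r z ζ) ^ (1 / γ) := ⟨_, fun _ => rfl⟩
  obtain ⟨θ₀, hθ₀⟩ : ∃ θ₀ : ℝ, θ₀ = ((γ - 1) * a * a) ^ (1 / γ) := ⟨_, rfl⟩
  obtain ⟨θ₁, hθ₁⟩ : ∃ θ₁ : ℝ, θ₁ = ((γ - 1) * b * b) ^ (1 / γ) := ⟨_, rfl⟩
  have hθ₀p : 0 < θ₀ := by rw [hθ₀]; exact Real.rpow_pos_of_pos hP0 _
  have hθ₁p : 0 < θ₁ := by rw [hθ₁]; exact Real.rpow_pos_of_pos hP1 _
  have hγi : 0 ≤ 1 / γ := by positivity
  have hqpos : ∀ ζ ∈ Strip T, 0 < qq γ r z ζ := fun ζ hζ => hP0.trans_le (hbd ζ hζ).2.1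
  have hθb : ∀ ζ ∈ Strip T, θ₀ ≤ θ ζ ∧ θ ζ ≤ θ₁ := by
    intro ζ hζ
    rw [hθ, hθ₀, hθ₁]
    exact ⟨Real.rpow_le_rpow hP0.le (hbd ζ hζ).2.1 hγi,
      Real.rpow_le_rpow (hqpos ζ hζ).le (hbd ζ hζ).2.2 hγi⟩
  have hmq : Measurable (qq γ r z) := measurable_pr hV.meas_ρ hV.meas_e
  have hmθ : Measurable θ := by
    have : θ = fun ζ => (qq γ r z ζ) ^ (1 / γ) := funext hθ
    rw [this]
    exact hmq.pow_const _
  have hmθw : Measurable (fun ζ => θ ζ * w ζ) := hmθ.mul hV.meas_u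
  have hLθ : LocallyLipschitzOn (Strip T) θ := by
    have : θ = fun ζ => (fun x : ℝ => x ^ (1 / γ)) (qq γ r z ζ) := funext hθ
    rw [this]
    exact locLip_comp hq fun ζ hζ => Real.contDiffAt_rpow_const_of_ne (hqpos ζ hζ).ne'
  have hLθw : LocallyLipschitzOn (Strip T) (fun ζ => θ ζ * w ζ) := locLip_mul hLθ hw
  -- the equation for θ
  have hpde : ∀ᵐ ζ : ℝ × ℝ, ζ ∈ Strip T → dt θ ζ + dx (fun ζ => θ ζ * w ζ) ζ = 0 := by
    filter_upwards [base_pde hγ ha hV hw hq, ae_differentiableAt hq, ae_differentiableAt hw,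
      ae_differentiableAt hLθ] with ζ h1 h2 h3 h4 hζ
    obtain ⟨-, h1⟩ := h1 hζ
    have hq0 := hqpos ζ hζ
    have hf : HasFDerivAt θ ((1 / γ * (qq γ r z ζ) ^ (1 / γ - 1)) • fderiv ℝ (qq γ r z) ζ) ζ := by
      have e : θ = fun ζ => (qq γ r z ζ) ^ (1 / γ) := funext hθ
      rw [e]
      exact (h2 hζ).hasFDerivAt.rpow_const (Or.inl hq0.ne')
    have hdt : dt θ ζ = 1 / γ * (qq γ r z ζ) ^ (1 / γ - 1) * dt (qq γ r z) ζ := by
      unfold dt
      rw [hf.fderiv]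
      simp
    have hdx : dx θ ζ = 1 / γ * (qq γ r z ζ) ^ (1 / γ - 1) * dx (qq γ r z) ζ := by
      unfold dx
      rw [hf.fderiv]
      simp
    rw [dx_mul (h4 hζ) (h3 hζ), hdt, hdx, hθ]
    have hpow : (qq γ r z ζ) ^ (1 / γ) = (qq γ r z ζ) ^ (1 / γ - 1) * qq γ r z ζ := by
      rw [← Real.rpow_add_one hq0.ne']
      congr 1
      ring
    rw [hpow]
    have h5 : dt (qq γ r z) ζ + w ζ * dx (qq γ r z) ζ = -(γ * qq γ r z ζ * dx w ζ) := by linarith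
    have h6 : 1 / γ * γ = 1 := by field_simp
    calc 1 / γ * qq γ r z ζ ^ (1 / γ - 1) * dt (qq γ r z) ζ +
        (1 / γ * qq γ r z ζ ^ (1 / γ - 1) * dx (qq γ r z) ζ * w ζ +
          qq γ r z ζ ^ (1 / γ - 1) * qq γ r z ζ * dx w ζ) =
        1 / γ * qq γ r z ζ ^ (1 / γ - 1) * (dt (qq γ r z) ζ + w ζ * dx (qq γ r z) ζ) +
          qq γ r z ζ ^ (1 / γ - 1) * qq γ r z ζ * dx w ζ := by ring
      _ = -((1 / γ * γ) * (qq γ r z ζ ^ (1 / γ - 1) * qq γ r z ζ * dx w ζ)) +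
          qq γ r z ζ ^ (1 / γ - 1) * qq γ r z ζ * dx w ζ := by rw [h5]; ring
      _ = 0 := by rw [h6]; ring
  have hlaw : Law T θ (fun ζ => θ ζ * w ζ) := by
    intro φ hφ
    have hφl := hφ.isLipTest
    have t1 := hφl.mul_loc hLθ
    have t2 := hφl.mul_loc hLθw
    have i1 := t1.integral_dt
    have i2 := t2.integral_dx
    have one : ∀ᵐ z : ℝ × ℝ, z ∈ Strip T → |(fun _ : ℝ × ℝ => (1 : ℝ)) z| ≤ 1 :=
      Eventually.of_forall fun z _ => by simp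
    have j1 := t1.integrableOn_dt (F := fun _ => (1 : ℝ)) (M := 1) measurable_const one
    have j2 := t2.integrableOn_dx (F := fun _ => (1 : ℝ)) (M := 1) measurable_const one
    simp only [one_mul] at j1 j2
    have h1 : ∫ ζ in Strip T, (dt (fun z => φ z * θ z) ζ + dx (fun z => φ z * (θ z * w z)) ζ)
        = 0 := by
      rw [integral_add j1 j2, i1, i2, add_zero]
    rw [← h1]
    apply setIntegral_congr_ae (measurableSet_strip T)
    have hφd : Differentiable ℝ φ := hφ.smooth.differentiable (by simp)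
    filter_upwards [hpde, ae_differentiableAt hLθ, ae_differentiableAt hLθw] with ζ h1 h2 h3 hζ
    rw [dt_mul (hφd ζ) (h2 hζ), dx_mul (hφd ζ) (h3 hζ)]
    have h4 := h1 hζ
    linear_combination -(φ ζ) * h4
  obtain ⟨Ψ, hΨ⟩ := exists_isPot (M := θ₁ * b) hT hθ₀p hmθ hmθw (b := θ₁)
    (Eventually.of_forall fun ζ hζ => ⟨(hθb ζ hζ).1, (hθb ζ hζ).2, by
      rw [abs_mul, abs_of_pos (hθ₀p.trans_le (hθb ζ hζ).1)]
      exact mul_le_mul (hθb ζ hζ).2 (hbd ζ hζ).1 (abs_nonneg _) hθ₁p.le⟩) hlaw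
  -- the change of variables
  obtain ⟨a', ha'⟩ : ∃ a', a' = min a 1 := ⟨_, rfl⟩
  obtain ⟨b', hb'⟩ : ∃ b', b' = max b 1 := ⟨_, rfl⟩
  have ha'0 : 0 < a' := by rw [ha']; exact lt_min ha one_pos
  have hid : IsPot T a' b' (fun _ => 1) (fun _ => 0) Prod.snd :=
    snd_isPot (by rw [ha']; exact min_le_right _ _) (by rw [hb']; exact le_max_right _ _)
  have hΦ' : IsPot T a' b' r (fun ζ => r ζ * w ζ) Φb :=
    hΦb.mono (by rw [ha']; exact min_le_left _ _) (by rw [hb']; exact le_max_left _ _)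
  obtain ⟨X, hX⟩ := exists_xi ha'0 hid hΦ'
  have hXd := IsXi.deriv ha'0 hid hΦ' hX
  obtain ⟨KX, hKX⟩ := hX.lip
  obtain ⟨KΨ, hKΨ⟩ := hΨ.lip
  have hDl : ∃ K : ℝ≥0, LipschitzWith K (fun z : ℝ × ℝ => Ψ (z.1, X z)) := by
    have h1 : LipschitzWith (max 1 KX) (fun z : ℝ × ℝ => (z.1, X z)) :=
      LipschitzWith.prod_fst.prodMk hKX
    exact ⟨_, hKΨ.comp h1⟩
  obtain ⟨KD, hKD⟩ := hDl
  have hDd : ∀ᵐ z : ℝ × ℝ, z ∈ Strip T → DifferentiableAt ℝ (fun z : ℝ × ℝ => Ψ (z.1, X z)) z ∧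
      dt (fun z : ℝ × ℝ => Ψ (z.1, X z)) z = 0 := by
    filter_upwards [hXd, IsXi.ae_comp ha'0 hid hΦ' hX hΨ.deriv] with ζ h1 h2 hζ
    obtain ⟨x1, x2, -, x3⟩ := h1 hζ
    obtain ⟨p1, p2, p3⟩ := h2 hζ
    obtain ⟨d1, d2⟩ := comp_dt p1 x1
    refine ⟨d1, ?_⟩
    rw [d2, p2, p3]
    have h3 : dt X ζ = w (ζ.1, X ζ) := by
      have h4 : r (ζ.1, X ζ) ≠ 0 := (ha'0.trans_le x2).ne'
      apply mul_left_cancel₀ h4
      rw [x3]
      ring
    rw [h3]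
    ring
  have hDc := const_time hT hKD hDd
  obtain ⟨C, hC⟩ : ∃ C : ℝ → ℝ, ∀ y, C y = Ψ (0, X (0, y)) := ⟨_, fun _ => rfl⟩
  have hCl : LipschitzWith KD C := by
    refine LipschitzWith.of_dist_le_mul fun y y' => ?_
    rw [hC, hC]
    refine (hKD.dist_le_mul (0, y) (0, y')).trans ?_
    rw [Prod.dist_eq]
    simp
  have hΨC : ∀ ζ ∈ Strip T, Ψ ζ = C (Φb ζ) := by
    intro ζ hζ
    have h1 : X (ζ.1, Φb ζ) = ζ.2 := by
      have h2 : Φb (ζ.1, X (ζ.1, Φb ζ)) = Φb (ζ.1, ζ.2) := hX.eq (ζ.1, Φb ζ)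
      rcases le_total (X (ζ.1, Φb ζ)) ζ.2 with h | h
      · have := hΦb.lo ζ.1 _ _ h
        rw [h2, sub_self] at this
        nlinarith
      · have := hΦb.lo ζ.1 _ _ h
        rw [h2, sub_self] at this
        nlinarith
    have h3 := hDc ζ.1 ⟨hζ.1.le, hζ.2.le⟩ (Φb ζ)
    simp only [h1] at h3
    rw [hC]
    exact h3
  have hθC : ∀ᵐ ζ : ℝ × ℝ, ζ ∈ Strip T → θ ζ = deriv C (Φb ζ) * r ζ := by
    have hN : volume {y | ¬ DifferentiableAt ℝ C y} = 0 :=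
      ae_iff.1 (hCl.ae_differentiableAt (μ := (volume : Measure ℝ)))
    filter_upwards [hΦb.ae_notMem ha hN, hΦb.deriv, hΨ.deriv] with ζ h1 h2 h3 hζ
    obtain ⟨p1, -, p3⟩ := h2 hζ
    obtain ⟨q1, -, q3⟩ := h3 hζ
    have hCd : DifferentiableAt ℝ C (Φb ζ) := not_not.1 h1
    have h4 : dx Ψ ζ = dx (fun ζ => C (Φb ζ)) ζ := dx_congr (isOpen_strip T) hΨC hζ
    have h5 : HasFDerivAt (fun ζ => C (Φb ζ)) (deriv C (Φb ζ) • fderiv ℝ Φb ζ) ζ :=
      hCd.hasDerivAt.comp_hasFDerivAt ζ p1.hasFDerivAt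
    have h6 : dx (fun ζ => C (Φb ζ)) ζ = deriv C (Φb ζ) * dx Φb ζ := by
      unfold dx
      rw [h5.fderiv]
      simp
    rw [← q3, h4, h6, p3]
  refine ⟨fun y => max (θ₀ / b) (min (θ₁ / a) (deriv C y)), θ₀ / b, θ₁ / a,
    measurable_const.max (measurable_const.min (measurable_deriv C)), by positivity,
    fun y => ⟨le_max_left _ _, max_le ?_ (min_le_left _ _)⟩, ?_⟩
  · have h1 : θ₀ ≤ θ₁ := by
      rw [hθ₀, hθ₁]
      apply Real.rpow_le_rpow hP0.le _ hγi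
      have : 0 < γ - 1 := by linarith
      have h2 : a * a ≤ b * b := by nlinarith
      nlinarith
    exact div_le_div₀ hθ₁p.le h1 ha hab
  · filter_upwards [hθC, hV.box] with ζ h1 h2 hζ
    obtain ⟨r1, r2, -⟩ := h2 hζ
    have h3 := h1 hζ
    have hr : 0 < r ζ := ha.trans_le r1
    have h4 : deriv C (Φb ζ) = θ ζ / r ζ := by
      rw [h3]
      field_simp
    have h5 : θ₀ / b ≤ deriv C (Φb ζ) := by
      rw [h4]
      exact div_le_div₀ (hθ₀p.le.trans (hθb ζ hζ).1) (hθb ζ hζ).1 hr r2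
    have h6 : deriv C (Φb ζ) ≤ θ₁ / a := by
      rw [h4]
      exact div_le_div₀ hθ₁p.le (hθb ζ hζ).2 ha r1
    show max (θ₀ / b) (min (θ₁ / a) (deriv C (Φb ζ))) * r ζ = _
    rw [min_eq_right h6, max_eq_right h5, ← h3, hθ]

end Helper73.EU
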