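import Pool.Agent.Helper73.EU.Defs

/-!
Project EU: tools. Lipschitz tests, slices, extension of locally Lipschitz functions.
-/

open MeasureTheory Set Filter Topology
open scoped ContDiff NNReal

namespace Helper73.EU

/-- Lipschitz test functions with compact support in the open strip. -/
structure IsLipTest (T : ℝ) (φ : ℝ × ℝ → ℝ) : Prop where
  lip : ∃ K : ℝ≥0, LipschitzWith K φ
  compact : HasCompactSupport φ
  support : tsupport φ ⊆ Strip T

theorem isOpen_strip (T : ℝ) : IsOpen (Strip T) := by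
  have h1 : IsOpen {z : ℝ × ℝ | 0 < z.1} := isOpen_lt continuous_const continuous_fst
  have h2 : IsOpen {z : ℝ × ℝ | z.1 < T} := isOpen_lt continuous_fst continuous_const
  exact h1.inter h2

theorem measurableSet_strip (T : ℝ) : MeasurableSet (Strip T) := (isOpen_strip T).measurableSet

theorem strip_eq (T : ℝ) : Strip T = Ioo 0 T ×ˢ univ := by
  ext z; simp [Strip]

theorem convex_strip (T : ℝ) : Convex ℝ (Strip T) := by
  rw [strip_eq]; exact (convex_Ioo 0 T).prod convex_univ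

theorem measurable_dt (f : ℝ × ℝ → ℝ) : Measurable (dt f) := measurable_fderiv_apply_const ℝ f _

theorem measurable_dx (f : ℝ × ℝ → ℝ) : Measurable (dx f) := measurable_fderiv_apply_const ℝ f _

theorem abs_dt_le {f : ℝ × ℝ → ℝ} {K : ℝ≥0} (h : LipschitzWith K f) (z : ℝ × ℝ) :
    |dt f z| ≤ K := by
  have h1 := (fderiv ℝ f z).le_opNorm (1, 0)
  have h2 := norm_fderiv_le_of_lipschitz ℝ h (x₀ := z)
  simp only [Real.norm_eq_abs] at h1
  have h3 : ‖((1 : ℝ), (0 : ℝ))‖ = 1 := by simp [Prod.norm_def]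
  rw [h3, mul_one] at h1
  exact h1.trans h2

theorem abs_dx_le {f : ℝ × ℝ → ℝ} {K : ℝ≥0} (h : LipschitzWith K f) (z : ℝ × ℝ) :
    |dx f z| ≤ K := by
  have h1 := (fderiv ℝ f z).le_opNorm (0, 1)
  have h2 := norm_fderiv_le_of_lipschitz ℝ h (x₀ := z)
  simp only [Real.norm_eq_abs] at h1
  have h3 : ‖((0 : ℝ), (1 : ℝ))‖ = 1 := by simp [Prod.norm_def]
  rw [h3, mul_one] at h1
  exact h1.trans h2

theorem dt_mul {f g : ℝ × ℝ → ℝ} {z : ℝ × ℝ} (hf : DifferentiableAt ℝ f z)
    (hg : DifferentiableAt ℝ g z) :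
    dt (fun z => f z * g z) z = dt f z * g z + f z * dt g z := by
  have := fderiv_fun_mul hf hg
  simp only [dt, this]
  simp
  ring

theorem dx_mul {f g : ℝ × ℝ → ℝ} {z : ℝ × ℝ} (hf : DifferentiableAt ℝ f z)
    (hg : DifferentiableAt ℝ g z) :
    dx (fun z => f z * g z) z = dx f z * g z + f z * dx g z := by
  have := fderiv_fun_mul hf hg
  simp only [dx, this]
  simp
  ring

/-- Slices in time. -/
theorem ae_slice {T : ℝ} {P : ℝ × ℝ → Prop} (h : ∀ᵐ z : ℝ × ℝ, z ∈ Strip T → P z) :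
    ∀ᵐ t : ℝ, t ∈ Ioo 0 T → ∀ᵐ x : ℝ, P (t, x) := by
  rw [Measure.volume_eq_prod] at h
  filter_upwards [Measure.ae_ae_of_ae_prod h] with t ht htT
  filter_upwards [ht] with x hx
  exact hx ⟨htT.1, htT.2⟩

/-- Slices in space. -/
theorem ae_slice' {T : ℝ} {P : ℝ × ℝ → Prop} (h : ∀ᵐ z : ℝ × ℝ, z ∈ Strip T → P z) :
    ∀ᵐ x : ℝ, ∀ᵐ t : ℝ, t ∈ Ioo 0 T → P (t, x) := by
  rw [Measure.volume_eq_prod] at h
  have h2 : ∀ᵐ z : ℝ × ℝ ∂((volume : Measure ℝ).prod volume), z.swap ∈ Strip T → P z.swap := by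
    have := (Measure.measurePreserving_swap (μ := (volume : Measure ℝ))
      (ν := (volume : Measure ℝ))).quasiMeasurePreserving.ae h
    exact this
  filter_upwards [Measure.ae_ae_of_ae_prod h2] with x hx
  filter_upwards [hx] with t ht htT
  exact ht ⟨htT.1, htT.2⟩

theorem IsTest.isLipTest {T : ℝ} {φ : ℝ × ℝ → ℝ} (h : IsTest T φ) : IsLipTest T φ := by
  refine ⟨?_, h.compact, h.support⟩
  obtain ⟨K, hK⟩ := (h.smooth.of_le (m := 1) (by norm_num)).lipschitzWith_of_hasCompactSupport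
    h.compact (by norm_num)
  exact ⟨K, hK⟩

theorem IsLipTest.bdd {T : ℝ} {φ : ℝ × ℝ → ℝ} (h : IsLipTest T φ) : ∃ M : ℝ, ∀ z, |φ z| ≤ M := by
  obtain ⟨K, hK⟩ := h.lip
  obtain ⟨M, hM⟩ := h.compact.exists_bound_of_continuous hK.continuous
  exact ⟨M, hM⟩

theorem dt_eq_zero_of_notMem {φ : ℝ × ℝ → ℝ} {z : ℝ × ℝ} (hz : z ∉ tsupport φ) :
    dt φ z = 0 := by
  have h : φ =ᶠ[𝓝 z] fun _ => 0 := notMem_tsupport_iff_eventuallyEq.1 hz
  simp [dt, h.fderiv_eq]

theorem dx_eq_zero_of_notMem {φ : ℝ × ℝ → ℝ} {z : ℝ × ℝ} (hz : z ∉ tsupport φ) :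
    dx φ z = 0 := by
  have h : φ =ᶠ[𝓝 z] fun _ => 0 := notMem_tsupport_iff_eventuallyEq.1 hz
  simp [dx, h.fderiv_eq]

/-- A bounded measurable function times a bounded measurable function vanishing off the support
of a test is integrable. -/
theorem integrableOn_aux {T M K : ℝ} {φ F G : ℝ × ℝ → ℝ} (h : IsLipTest T φ)
    (hF : Measurable F) (hFM : ∀ᵐ z : ℝ × ℝ, z ∈ Strip T → |F z| ≤ M)
    (hG : Measurable G) (hGK : ∀ z, |G z| ≤ K) (hG0 : ∀ z, z ∉ tsupport φ → G z = 0) :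
    IntegrableOn (fun z => F z * G z) (Strip T) := by
  have hc : IsCompact (tsupport φ) := h.compact
  have h1 : IntegrableOn (fun z => F z * G z) (tsupport φ) := by
    apply Measure.integrableOn_of_bounded (M := |M| * |K|) hc.measure_lt_top.ne
      (hF.mul hG).aestronglyMeasurable
    rw [ae_restrict_iff' (isClosed_tsupport φ).measurableSet]
    filter_upwards [hFM] with z hz hzs
    rw [Pi.mul_apply, Real.norm_eq_abs, abs_mul]
    exact mul_le_mul ((hz (h.support hzs)).trans (le_abs_self M))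
      ((hGK z).trans (le_abs_self K)) (abs_nonneg _) (abs_nonneg _)
  have h2 : Integrable (fun z => F z * G z) := by
    rw [← integrableOn_iff_integrable_of_support_subset (s := tsupport φ)]
    · exact h1
    · intro z hz
      by_contra hzs
      apply hz
      simp [hG0 z hzs]
  exact h2.integrableOn

theorem IsLipTest.integrableOn_dt {T M : ℝ} {φ F : ℝ × ℝ → ℝ} (h : IsLipTest T φ)
    (hF : Measurable F) (hFM : ∀ᵐ z : ℝ × ℝ, z ∈ Strip T → |F z| ≤ M) :
    IntegrableOn (fun z => F z * dt φ z) (Strip T) := by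
  obtain ⟨K, hK⟩ := h.lip
  exact integrableOn_aux h hF hFM (measurable_dt φ) (abs_dt_le hK)
    (fun z hz => dt_eq_zero_of_notMem hz)

theorem IsLipTest.integrableOn_dx {T M : ℝ} {φ F : ℝ × ℝ → ℝ} (h : IsLipTest T φ)
    (hF : Measurable F) (hFM : ∀ᵐ z : ℝ × ℝ, z ∈ Strip T → |F z| ≤ M) :
    IntegrableOn (fun z => F z * dx φ z) (Strip T) := by
  obtain ⟨K, hK⟩ := h.lip
  exact integrableOn_aux h hF hFM (measurable_dx φ) (abs_dx_le hK)
    (fun z hz => dx_eq_zero_of_notMem hz)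

theorem IsLipTest.integrableOn_mul {T M : ℝ} {φ F : ℝ × ℝ → ℝ} (h : IsLipTest T φ)
    (hF : Measurable F) (hFM : ∀ᵐ z : ℝ × ℝ, z ∈ Strip T → |F z| ≤ M) :
    IntegrableOn (fun z => F z * φ z) (Strip T) := by
  obtain ⟨K, hK⟩ := h.lip
  obtain ⟨M', hM'⟩ := h.bdd
  exact integrableOn_aux h hF hFM hK.continuous.measurable hM'
    (fun z hz => image_eq_zero_of_notMem_tsupport hz)

/-- A locally Lipschitz function on the strip agrees near a compact set with a globally Lipschitz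
function. -/
theorem exists_ext {T : ℝ} {g : ℝ × ℝ → ℝ} (hg : LocallyLipschitzOn (Strip T) g)
    {S : Set (ℝ × ℝ)} (hS : IsCompact S) (hST : S ⊆ Strip T) :
    ∃ (g' : ℝ × ℝ → ℝ) (K : ℝ≥0), LipschitzWith K g' ∧ ∃ O : Set (ℝ × ℝ), IsOpen O ∧ S ⊆ O ∧
      O ⊆ Strip T ∧ ∀ z ∈ O, g' z = g z := by
  obtain ⟨N, hN, hSN, hNT⟩ := exists_compact_between hS (isOpen_strip T) hST
  obtain ⟨K, hK⟩ := (hg.mono hNT).exists_lipschitzOnWith_of_compact hN
  obtain ⟨g', hg', hEq⟩ := hK.extend_real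
  exact ⟨g', K, hg', interior N, isOpen_interior, hSN, interior_subset.trans hNT,
    fun z hz => (hEq (interior_subset hz)).symm⟩

theorem dt_congr {f g : ℝ × ℝ → ℝ} {O : Set (ℝ × ℝ)} (hO : IsOpen O) (h : ∀ z ∈ O, f z = g z)
    {z : ℝ × ℝ} (hz : z ∈ O) : dt f z = dt g z := by
  have : f =ᶠ[𝓝 z] g := eventually_of_mem (hO.mem_nhds hz) h
  simp [dt, this.fderiv_eq]

theorem dx_congr {f g : ℝ × ℝ → ℝ} {O : Set (ℝ × ℝ)} (hO : IsOpen O) (h : ∀ z ∈ O, f z = g z)
    {z : ℝ × ℝ} (hz : z ∈ O) : dx f z = dx g z := by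
  have : f =ᶠ[𝓝 z] g := eventually_of_mem (hO.mem_nhds hz) h
  simp [dx, this.fderiv_eq]

/-- The product of a Lipschitz test with a globally Lipschitz function is a Lipschitz test. -/
theorem IsLipTest.mul_lip {T : ℝ} {φ g : ℝ × ℝ → ℝ} (h : IsLipTest T φ) {K : ℝ≥0}
    (hg : LipschitzWith K g) : IsLipTest T (fun z => φ z * g z) := by
  obtain ⟨C, hC⟩ := h.lip
  obtain ⟨M, hM⟩ := h.bdd
  have hsub : tsupport (fun z => φ z * g z) ⊆ tsupport φ := tsupport_mul_subset_left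
  refine ⟨?_, h.compact.mul_right, hsub.trans h.support⟩
  obtain ⟨G, hG⟩ := (h.compact.isCompact).exists_bound_of_continuousOn hg.continuous.continuousOn
  have hM0 : 0 ≤ M := (abs_nonneg _).trans (hM 0)
  -- key estimate when the first point is in the support
  have key : ∀ z z', z ∈ tsupport φ →
      |φ z * g z - φ z' * g z'| ≤ (C * |G| + M * K) * dist z z' := by
    intro z z' hz
    have e : φ z * g z - φ z' * g z' = (φ z - φ z') * g z + φ z' * (g z - g z') := by ring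
    have h1 : |φ z - φ z'| ≤ C * dist z z' := by
      have := hC.dist_le_mul z z'; rwa [Real.dist_eq] at this
    have h2 : |g z - g z'| ≤ K * dist z z' := by
      have := hg.dist_le_mul z z'; rwa [Real.dist_eq] at this
    have h3 : |g z| ≤ |G| := (hG z hz).trans (le_abs_self G)
    calc |φ z * g z - φ z' * g z'| ≤ |(φ z - φ z') * g z| + |φ z' * (g z - g z')| := by
          rw [e]; exact abs_add_le _ _
      _ = |φ z - φ z'| * |g z| + |φ z'| * |g z - g z'| := by rw [abs_mul, abs_mul]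
      _ ≤ (C * dist z z') * |G| + M * (K * dist z z') := by
          gcongr
          exact hM z'
      _ = _ := by ring
  have hK0 : 0 ≤ (C * |G| + M * K : ℝ) := by positivity
  refine ⟨⟨C * |G| + M * K, hK0⟩, LipschitzWith.of_dist_le_mul fun z z' => ?_⟩
  rw [Real.dist_eq]
  show |φ z * g z - φ z' * g z'| ≤ (C * |G| + M * K) * dist z z'
  by_cases hz : z ∈ tsupport φ
  · exact key z z' hz
  · by_cases hz' : z' ∈ tsupport φ
    · rw [abs_sub_comm, dist_comm]
      exact key z' z hz'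
    · rw [image_eq_zero_of_notMem_tsupport hz, image_eq_zero_of_notMem_tsupport hz']
      simp
      positivity

/-- The product of a Lipschitz test with a locally Lipschitz function is a Lipschitz test. -/
theorem IsLipTest.mul_loc {T : ℝ} {φ g : ℝ × ℝ → ℝ} (h : IsLipTest T φ)
    (hg : LocallyLipschitzOn (Strip T) g) : IsLipTest T (fun z => φ z * g z) := by
  obtain ⟨g', K, hg', O, hO, hSO, hOT, hEq⟩ := exists_ext hg h.compact h.support
  have : (fun z => φ z * g z) = fun z => φ z * g' z := by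
    funext z
    by_cases hz : z ∈ tsupport φ
    · rw [hEq z (hSO hz)]
    · rw [image_eq_zero_of_notMem_tsupport hz]; simp
  rw [this]
  exact h.mul_lip hg'

/-- Rademacher for locally Lipschitz functions on the strip. -/
theorem ae_differentiableAt {T : ℝ} {g : ℝ × ℝ → ℝ} (hg : LocallyLipschitzOn (Strip T) g) :
    ∀ᵐ z : ℝ × ℝ, z ∈ Strip T → DifferentiableAt ℝ g z := by
  have hbox : ∀ n : ℕ, ∀ᵐ z : ℝ × ℝ,
      z ∈ Ioo (1 / ((n : ℝ) + 1)) (T - 1 / ((n : ℝ) + 1)) ×ˢ Ioo (-(n : ℝ)) (n : ℝ) →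
      DifferentiableAt ℝ g z := by
    intro n
    set S : Set (ℝ × ℝ) :=
      Icc (1 / ((n : ℝ) + 1)) (T - 1 / ((n : ℝ) + 1)) ×ˢ Icc (-(n : ℝ)) (n : ℝ) with hSdef
    have hS : IsCompact S := isCompact_Icc.prod isCompact_Icc
    have hpos : (0 : ℝ) < 1 / ((n : ℝ) + 1) := by positivity
    have hST : S ⊆ Strip T := by
      intro z hz
      exact ⟨lt_of_lt_of_le hpos hz.1.1, lt_of_le_of_lt hz.1.2 (by linarith)⟩
    obtain ⟨g', K, hg', O, hO, hSO, hOT, hEq⟩ := exists_ext hg hS hST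
    filter_upwards [hg'.ae_differentiableAt (μ := (volume : Measure (ℝ × ℝ)))] with z hz hzS
    have hzO : z ∈ O := hSO ⟨Ioo_subset_Icc_self hzS.1, Ioo_subset_Icc_self hzS.2⟩
    have : g =ᶠ[𝓝 z] g' :=
      eventually_of_mem (hO.mem_nhds hzO) (fun y hy => (hEq y hy).symm)
    exact this.differentiableAt_iff.2 hz
  have hall := ae_all_iff.2 hbox
  filter_upwards [hall] with z hz hzT
  obtain ⟨n1, hn1⟩ := exists_nat_one_div_lt (show 0 < min z.1 (T - z.1) from
    lt_min hzT.1 (by linarith [hzT.2]))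
  obtain ⟨n2, hn2⟩ := exists_nat_gt |z.2|
  set n := max n1 n2 with hn
  have h1 : 1 / ((n : ℝ) + 1) ≤ 1 / ((n1 : ℝ) + 1) := by
    apply one_div_le_one_div_of_le (by positivity)
    have : (n1 : ℝ) ≤ n := by exact_mod_cast le_max_left n1 n2
    linarith
  have h2 : (n2 : ℝ) ≤ n := by exact_mod_cast le_max_right n1 n2
  apply hz n
  refine ⟨⟨?_, ?_⟩, ⟨?_, ?_⟩⟩
  · exact lt_of_le_of_lt h1 (hn1.trans_le (min_le_left _ _))
  · have := h1.trans_lt (hn1.trans_le (min_le_right _ _))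
    linarith
  · have := abs_lt.1 (hn2.trans_le h2)
    linarith [this.1]
  · exact (abs_lt.1 (hn2.trans_le h2)).2

/-- Integrals of derivatives of tests vanish. -/
theorem integral_fderiv_zero {K : ℝ≥0} {φ : ℝ × ℝ → ℝ} (h : LipschitzWith K φ)
    (hc : HasCompactSupport φ) (v : ℝ × ℝ) : ∫ z : ℝ × ℝ, fderiv ℝ φ z v = 0 := by
  have h1 := LipschitzWith.integral_lineDeriv_mul_eq (μ := (volume : Measure (ℝ × ℝ)))
    (f := fun _ : ℝ × ℝ => (1 : ℝ)) (C := 0) (LipschitzWith.const 1) h hc (-v)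
  have h3 : ∀ x : ℝ × ℝ, lineDeriv ℝ (fun _ : ℝ × ℝ => (1 : ℝ)) x (-v) = 0 := fun x => by
    simp [lineDeriv]
  have h2 : ∫ z : ℝ × ℝ, lineDeriv ℝ φ z v = 0 := by
    simpa [h3] using h1.symm
  rw [← h2]
  apply integral_congr_ae
  filter_upwards [h.ae_differentiableAt (μ := (volume : Measure (ℝ × ℝ)))] with z hz
  rw [hz.lineDeriv_eq_fderiv]

theorem IsLipTest.integral_dt {T : ℝ} {φ : ℝ × ℝ → ℝ} (h : IsLipTest T φ) :
    ∫ z in Strip T, dt φ z = 0 := by
  obtain ⟨K, hK⟩ := h.lip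
  rw [setIntegral_eq_integral_of_forall_compl_eq_zero]
  · exact integral_fderiv_zero hK h.compact (1, 0)
  · intro z hz
    exact dt_eq_zero_of_notMem fun hzs => hz (h.support hzs)

theorem IsLipTest.integral_dx {T : ℝ} {φ : ℝ × ℝ → ℝ} (h : IsLipTest T φ) :
    ∫ z in Strip T, dx φ z = 0 := by
  obtain ⟨K, hK⟩ := h.lip
  rw [setIntegral_eq_integral_of_forall_compl_eq_zero]
  · exact integral_fderiv_zero hK h.compact (0, 1)
  · intro z hz
    exact dx_eq_zero_of_notMem fun hzs => hz (h.support hzs)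

/-- A locally Lipschitz function times another one. -/
theorem locLip_mul {T : ℝ} {f g : ℝ × ℝ → ℝ} (hf : LocallyLipschitzOn (Strip T) f)
    (hg : LocallyLipschitzOn (Strip T) g) : LocallyLipschitzOn (Strip T) (fun z => f z * g z) := by
  intro z hz
  obtain ⟨Kf, t, ht, hKf⟩ := hf hz
  obtain ⟨Kg, u, hu, hKg⟩ := hg hz
  have hcf : ContinuousWithinAt f (Strip T) z := hf.continuousOn z hz
  have hcg : ContinuousWithinAt g (Strip T) z := hg.continuousOn z hz
  have h1 : {y | |f y| < |f z| + 1} ∈ 𝓝[Strip T] z :=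
    hcf.abs.eventually_lt_const (by linarith)
  have h2 : {y | |g y| < |g z| + 1} ∈ 𝓝[Strip T] z :=
    hcg.abs.eventually_lt_const (by linarith)
  set A : ℝ := |f z| + 1
  set B : ℝ := |g z| + 1
  have hA : 0 ≤ A := by positivity
  have hB : 0 ≤ B := by positivity
  refine ⟨⟨Kf * B + A * Kg, by positivity⟩, (t ∩ u) ∩ ({y | |f y| < A} ∩ {y | |g y| < B}),
    inter_mem (inter_mem ht hu) (inter_mem h1 h2), ?_⟩
  apply LipschitzOnWith.of_dist_le_mul
  intro y hy y' hy'
  rw [Real.dist_eq]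
  show |f y * g y - f y' * g y'| ≤ (Kf * B + A * Kg) * dist y y'
  have e : f y * g y - f y' * g y' = (f y - f y') * g y + f y' * (g y - g y') := by ring
  have h3 : |f y - f y'| ≤ Kf * dist y y' := by
    have := hKf.dist_le_mul y hy.1.1 y' hy'.1.1; rwa [Real.dist_eq] at this
  have h4 : |g y - g y'| ≤ Kg * dist y y' := by
    have := hKg.dist_le_mul y hy.1.2 y' hy'.1.2; rwa [Real.dist_eq] at this
  calc |f y * g y - f y' * g y'| ≤ |(f y - f y') * g y| + |f y' * (g y - g y')| := by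
        rw [e]; exact abs_add_le _ _
    _ = |f y - f y'| * |g y| + |f y'| * |g y - g y'| := by rw [abs_mul, abs_mul]
    _ ≤ (Kf * dist y y') * B + A * (Kg * dist y y') := by
        gcongr
        · exact le_of_lt hy.2.2
        · exact le_of_lt hy'.2.1
    _ = _ := by ring

/-- A smooth function of a locally Lipschitz function. -/
theorem locLip_comp {T : ℝ} {f : ℝ × ℝ → ℝ} {g : ℝ → ℝ} (hf : LocallyLipschitzOn (Strip T) f)
    (hg : ∀ z ∈ Strip T, ContDiffAt ℝ 1 g (f z)) :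
    LocallyLipschitzOn (Strip T) (fun z => g (f z)) := by
  intro z hz
  obtain ⟨Kf, t, ht, hKf⟩ := hf hz
  obtain ⟨Kg, u, hu, hKg⟩ := (hg z hz).exists_lipschitzOnWith
  have hcf : ContinuousWithinAt f (Strip T) z := hf.continuousOn z hz
  have h1 : f ⁻¹' u ∈ 𝓝[Strip T] z := hcf hu
  refine ⟨Kg * Kf, t ∩ f ⁻¹' u, inter_mem ht h1, ?_⟩
  exact hKg.comp (hKf.mono inter_subset_left) (fun y hy => hy.2)

/-- A locally integrable function orthogonal to all tests vanishes. -/
theorem ae_zero_of_test {T : ℝ} {F : ℝ × ℝ → ℝ} (hF : LocallyIntegrableOn F (Strip T))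
    (h : ∀ φ, IsTest T φ → ∫ z in Strip T, F z * φ z = 0) :
    ∀ᵐ z : ℝ × ℝ, z ∈ Strip T → F z = 0 := by
  apply (isOpen_strip T).ae_eq_zero_of_integral_contDiff_smul_eq_zero hF
  intro g hg hgc hgs
  have h1 := h g ⟨hg, hgc, hgs⟩
  rw [setIntegral_eq_integral_of_forall_compl_eq_zero] at h1
  · rw [← h1]
    apply integral_congr_ae
    exact Eventually.of_forall fun z => by simp [mul_comm]
  · intro z hz
    rw [image_eq_zero_of_notMem_tsupport fun hzs => hz (hgs hzs)]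
    simp

end Helper73.EU
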