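import Pool.Agent.Helper73.EU.XiA

/-!
EU-03b. Derivatives of the change of variables.

PROOF. `deriv`: a.e. `z ∈ Strip T`: `ξ` differentiable at `z` (Rademacher), `Φ` differentiable at `z` with
`(dt, dx) = (-m, ρ)`, `Φb` differentiable at `Ξ z` with `(-n, r)` (`ae_comp`), chain rule for
`Φb ∘ Ξ = Φ`: `r (Ξ z) * dx ξ z = ρ z`, `-n (Ξ z) + r (Ξ z) * dt ξ z = -m z`; `r (Ξ z) > 0` because
the slopes of `Φb` are at least `a` (or use `dx Φb = r` and `lo`).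
`chain`: `f ∘ Ξ` is locally Lipschitz (compose); a.e. `z`: `f` differentiable at `Ξ z` (`ae_comp` with
`ae_differentiableAt`), `ξ` differentiable at `z`.
-/

open MeasureTheory Set Filter Topology
open scoped ContDiff NNReal

namespace Helper73.EU

/-- The chain rule for the change of variables. -/
private theorem h45_chain {f ξ : ℝ × ℝ → ℝ} {z : ℝ × ℝ} (hf : DifferentiableAt ℝ f (z.1, ξ z))
    (hξ : DifferentiableAt ℝ ξ z) : DifferentiableAt ℝ (fun z => f (z.1, ξ z)) z ∧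
      dt (fun z => f (z.1, ξ z)) z = dt f (z.1, ξ z) + dx f (z.1, ξ z) * dt ξ z ∧
      dx (fun z => f (z.1, ξ z)) z = dx f (z.1, ξ z) * dx ξ z := by
  have h1 : HasFDerivAt (fun z : ℝ × ℝ => (z.1, ξ z))
      ((ContinuousLinearMap.fst ℝ ℝ ℝ).prod (fderiv ℝ ξ z)) z :=
    hasFDerivAt_fst.prodMk hξ.hasFDerivAt
  have h2 : HasFDerivAt (fun z => f (z.1, ξ z))
      ((fderiv ℝ f (z.1, ξ z)).comp ((ContinuousLinearMap.fst ℝ ℝ ℝ).prod (fderiv ℝ ξ z))) z :=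
    HasFDerivAt.comp z (f := fun z : ℝ × ℝ => (z.1, ξ z)) hf.hasFDerivAt h1
  have h3 : ∀ c : ℝ, fderiv ℝ f (z.1, ξ z) (0, c) = c * fderiv ℝ f (z.1, ξ z) (0, 1) := by
    intro c
    have h4 : ((0 : ℝ), c) = c • ((0 : ℝ), (1 : ℝ)) := by
      simp
    rw [h4, map_smul, smul_eq_mul]
  refine ⟨h2.differentiableAt, ?_, ?_⟩
  · unfold dt dx
    rw [h2.fderiv]
    change fderiv ℝ f (z.1, ξ z) ((1 : ℝ), fderiv ℝ ξ z (1, 0)) = _
    have h4 : ((1 : ℝ), fderiv ℝ ξ z (1, 0)) = (1, 0) + (0, fderiv ℝ ξ z (1, 0)) := by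
      simp
    rw [h4, map_add, h3]
    ring
  · unfold dx
    rw [h2.fderiv]
    change fderiv ℝ f (z.1, ξ z) ((0 : ℝ), fderiv ℝ ξ z (0, 1)) = _
    rw [h3]
    ring

/-- The derivative in space of a potential is at least `a`. -/
private theorem h45_dx_ge {T a b : ℝ} {ρ m Φ : ℝ × ℝ → ℝ} (h : IsPot T a b ρ m Φ) {z : ℝ × ℝ}
    (hd : DifferentiableAt ℝ Φ z) : a ≤ dx Φ z := by
  have h1 : HasDerivAt (fun y : ℝ => ((z.1, y) : ℝ × ℝ)) ((0 : ℝ), (1 : ℝ)) z.2 :=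
    (hasDerivAt_const z.2 z.1).prodMk (hasDerivAt_id z.2)
  have h2 : HasDerivAt (fun y : ℝ => Φ (z.1, y)) (fderiv ℝ Φ z (0, 1)) z.2 :=
    HasFDerivAt.comp_hasDerivAt z.2 (f := fun y : ℝ => ((z.1, y) : ℝ × ℝ)) hd.hasFDerivAt h1
  have h3 : HasDerivAt (fun y : ℝ => Φ (z.1, y) - a * y) (fderiv ℝ Φ z (0, 1) - a) z.2 := by
    have h4 := h2.sub ((hasDerivAt_id z.2).const_mul a)
    rw [mul_one] at h4
    exact h4
  have h5 : Monotone (fun y : ℝ => Φ (z.1, y) - a * y) := by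
    intro x y hxy
    have := h.lo z.1 x y hxy
    show Φ (z.1, x) - a * x ≤ Φ (z.1, y) - a * y
    linarith
  have h6 := h3.nonneg_of_monotone h5
  unfold dx
  linarith

private theorem h45_ae_diff {ξ : ℝ × ℝ → ℝ} (h : ∃ K : ℝ≥0, LipschitzWith K ξ) :
    ∀ᵐ z : ℝ × ℝ, DifferentiableAt ℝ ξ z := by
  obtain ⟨K, hK⟩ := h
  exact hK.ae_differentiableAt

theorem IsXi.deriv {T a b : ℝ} {ρ m Φ r n Φb ξ : ℝ × ℝ → ℝ} (ha : 0 < a)
    (h : IsPot T a b ρ m Φ) (hb : IsPot T a b r n Φb) (hξ : IsXi Φ Φb ξ) :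
    ∀ᵐ z : ℝ × ℝ, z ∈ Strip T → DifferentiableAt ℝ ξ z ∧ a ≤ r (z.1, ξ z) ∧
      r (z.1, ξ z) * dx ξ z = ρ z ∧ r (z.1, ξ z) * dt ξ z = n (z.1, ξ z) - m z := by
  filter_upwards [h45_ae_diff hξ.lip, h.deriv, hξ.ae_comp ha h hb hb.deriv] with z h1 h2 h3 hz
  obtain ⟨h4, h5, h6⟩ := h2 hz
  obtain ⟨h7, h8, h9⟩ := h3 hz
  obtain ⟨_, h10, h11⟩ := h45_chain h7 h1
  have he : (fun z : ℝ × ℝ => Φb (z.1, ξ z)) = Φ := funext hξ.eq
  rw [he] at h10 h11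
  have h12 := h45_dx_ge hb h7
  rw [h9] at h10 h11 h12
  rw [h8, h5] at h10
  rw [h6] at h11
  exact ⟨h1, h12, h11.symm, by linarith⟩

theorem IsXi.chain {T a b : ℝ} {ρ m Φ r n Φb ξ f : ℝ × ℝ → ℝ} (ha : 0 < a)
    (h : IsPot T a b ρ m Φ) (hb : IsPot T a b r n Φb) (hξ : IsXi Φ Φb ξ)
    (hf : LocallyLipschitzOn (Strip T) f) :
    ∀ᵐ z : ℝ × ℝ, z ∈ Strip T → DifferentiableAt ℝ (fun z => f (z.1, ξ z)) z ∧
      dt (fun z => f (z.1, ξ z)) z = dt f (z.1, ξ z) + dx f (z.1, ξ z) * dt ξ z ∧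
      dx (fun z => f (z.1, ξ z)) z = dx f (z.1, ξ z) * dx ξ z := by
  filter_upwards [h45_ae_diff hξ.lip, hξ.ae_comp ha h hb (ae_differentiableAt hf)] with z h1 h2 hz
  exact h45_chain (h2 hz) h1

end Helper73.EU
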