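import Pool.Agent.Helper73.EU.Pot

/-!
EU-03a. The change of variables `Ξ (t, x) = (t, ξ (t, x))` with `Φb (t, ξ (t, x)) = Φ (t, x)`.

PROOF. `exists_xi`: for each `t` the function `Φb (t, ·)` is continuous, `a`-expanding, so a bijection of
`ℝ` (limits `± ∞` and intermediate value theorem). Lipschitz:
`a |ξ z - ξ z'| ≤ |Φb (t, ξ z) - Φb (t, ξ z')| ≤ |Φ z - Φ z'| + |Φb (t', ξ z') - Φb (t, ξ z')|
 ≤ (K + K') dist z z'`.
`slope`: for `x ≤ y`, `ξ` is increasing in `x`, `a (ξ y - ξ x) ≤ Φb (t, ξ y) - Φb (t, ξ x) = Φ (t, y) - Φ (t, x) ≤ b (y - x)`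
and `b (ξ y - ξ x) ≥ Φ (t, y) - Φ (t, x) ≥ a (y - x)`.
`ae_comp`: let `ξ'` be the map with the roles of `Φ` and `Φb` exchanged (`exists_xi`), then
`ξ' (t, ξ (t, x)) = x` because `Φ (t, ·)` is injective. If `N` is a null set, `Ξ ⁻¹' N ⊆ Ξ' '' N` and
`Ξ'` is Lipschitz, so the image is null: `LipschitzWith.hausdorffMeasure_image_le` (or
`LipschitzOnWith...`) with `d = 2` and `hausdorffMeasure_prod_real : μH[2] = volume`. Apply to
`N = {z | ¬ (z ∈ Strip T → P z)}` (`ae_iff`); `Ξ z ∈ Strip T ↔ z ∈ Strip T`.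
`locLip`: compose with the Lipschitz map `Ξ`.
-/

open MeasureTheory Set Filter Topology
open scoped ContDiff NNReal

namespace Helper73.EU

/-- The change of variables matching two potentials. -/
structure IsXi (Φ Φb ξ : ℝ × ℝ → ℝ) : Prop where
  lip : ∃ K : ℝ≥0, LipschitzWith K ξ
  eq : ∀ z : ℝ × ℝ, Φb (z.1, ξ z) = Φ z

/-- A potential is expanding in space. -/
private theorem h45_expand {T a b : ℝ} {ρ m Φ : ℝ × ℝ → ℝ} (h : IsPot T a b ρ m Φ) (t x y : ℝ) :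
    a * |y - x| ≤ |Φ (t, y) - Φ (t, x)| := by
  rcases le_total x y with hxy | hxy
  · rw [abs_of_nonneg (sub_nonneg.2 hxy)]
    exact (h.lo t x y hxy).trans (le_abs_self _)
  · rw [abs_sub_comm y x, abs_sub_comm (Φ (t, y)), abs_of_nonneg (sub_nonneg.2 hxy)]
    exact (h.lo t y x hxy).trans (le_abs_self _)

private theorem h45_injective {T a b : ℝ} {ρ m Φ : ℝ × ℝ → ℝ} (ha : 0 < a)
    (h : IsPot T a b ρ m Φ) {t x y : ℝ} (hxy : Φ (t, x) = Φ (t, y)) : x = y := by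
  have h1 := h45_expand h t x y
  rw [hxy, sub_self, abs_zero] at h1
  have h2 : |y - x| = 0 := by
    have := abs_nonneg (y - x)
    nlinarith
  have h3 := abs_eq_zero.1 h2
  linarith

private theorem h45_le {T a b : ℝ} {ρ m Φ : ℝ × ℝ → ℝ} (h : IsPot T a b ρ m Φ) : a ≤ b := by
  have h1 := h.lo 0 0 1 zero_le_one
  have h2 := h.hi 0 0 1 zero_le_one
  linarith

private theorem h45_surjective {T a b : ℝ} {ρ m Φ : ℝ × ℝ → ℝ} (ha : 0 < a)
    (h : IsPot T a b ρ m Φ) (t : ℝ) : Function.Surjective (fun x => Φ (t, x)) := by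
  obtain ⟨K, hK⟩ := h.lip
  have hc : Continuous (fun x => Φ (t, x)) :=
    hK.continuous.comp (continuous_const.prodMk continuous_id)
  refine hc.surjective ?_ ?_
  · refine tendsto_atTop_mono' atTop (f₁ := fun x => Φ (t, 0) + a * x) ?_ ?_
    · filter_upwards [eventually_ge_atTop (0 : ℝ)] with x hx
      have := h.lo t 0 x hx
      rw [sub_zero] at this
      linarith
    · exact tendsto_atTop_add_const_left _ _ (tendsto_id.const_mul_atTop ha)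
  · refine tendsto_atBot_mono' atBot (f₁ := fun x => Φ (t, 0) + a * x) ?_ ?_
    · filter_upwards [eventually_le_atBot (0 : ℝ)] with x hx
      have := h.lo t x 0 hx
      rw [zero_sub] at this
      linarith
    · exact tendsto_atBot_add_const_left _ _ (tendsto_id.const_mul_atBot ha)

/-- The Lipschitz bound for the change of variables. -/
private theorem h45_xi_lip {T a b : ℝ} {ρ m Φ r n Φb ξ : ℝ × ℝ → ℝ} (ha : 0 < a)
    (h : IsPot T a b ρ m Φ) (hb : IsPot T a b r n Φb)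
    (heq : ∀ z : ℝ × ℝ, Φb (z.1, ξ z) = Φ z) : ∃ K : ℝ≥0, LipschitzWith K ξ := by
  obtain ⟨K, hK⟩ := h.lip
  obtain ⟨K', hK'⟩ := hb.lip
  have hKK : 0 ≤ ((K : ℝ) + K') / a := by positivity
  refine ⟨⟨((K : ℝ) + K') / a, hKK⟩, LipschitzWith.of_dist_le_mul fun z z' => ?_⟩
  rw [Real.dist_eq]
  show |ξ z - ξ z'| ≤ ((K : ℝ) + K') / a * dist z z'
  have h1 := h45_expand hb z.1 (ξ z') (ξ z)
  have h2 : |Φb (z.1, ξ z) - Φb (z.1, ξ z')| ≤ (K + K') * dist z z' := by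
    have e : Φb (z.1, ξ z) - Φb (z.1, ξ z') =
        (Φ z - Φ z') + (Φb (z'.1, ξ z') - Φb (z.1, ξ z')) := by
      rw [heq z, heq z']
      ring
    have h3 : |Φ z - Φ z'| ≤ K * dist z z' := by
      have := hK.dist_le_mul z z'
      rwa [Real.dist_eq] at this
    have h4 : |Φb (z'.1, ξ z') - Φb (z.1, ξ z')| ≤ K' * dist z z' := by
      have h5 := hK'.dist_le_mul (z'.1, ξ z') (z.1, ξ z')
      rw [Real.dist_eq] at h5
      refine h5.trans (mul_le_mul_of_nonneg_left ?_ K'.2)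
      rw [Prod.dist_eq, dist_self, dist_comm z'.1 z.1, Prod.dist_eq]
      exact max_le (le_max_left _ _) (dist_nonneg.trans (le_max_left _ _))
    rw [e]
    refine (abs_add_le _ _).trans ?_
    linarith
  have h3 := h1.trans h2
  rw [div_mul_eq_mul_div, le_div_iff₀ ha]
  linarith

theorem exists_xi {T a b : ℝ} {ρ m Φ r n Φb : ℝ × ℝ → ℝ} (ha : 0 < a)
    (h : IsPot T a b ρ m Φ) (hb : IsPot T a b r n Φb) : ∃ ξ : ℝ × ℝ → ℝ, IsXi Φ Φb ξ := by
  have hs : ∀ z : ℝ × ℝ, ∃ y, Φb (z.1, y) = Φ z := fun z => h45_surjective ha hb z.1 (Φ z)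
  choose ξ hξ using hs
  exact ⟨ξ, h45_xi_lip ha h hb hξ, hξ⟩

theorem IsXi.slope {T a b : ℝ} {ρ m Φ r n Φb ξ : ℝ × ℝ → ℝ} (ha : 0 < a)
    (h : IsPot T a b ρ m Φ) (hb : IsPot T a b r n Φb) (hξ : IsXi Φ Φb ξ) (t x y : ℝ)
    (hxy : x ≤ y) :
    a / b * (y - x) ≤ ξ (t, y) - ξ (t, x) ∧ ξ (t, y) - ξ (t, x) ≤ b / a * (y - x) := by
  have hab := h45_le h
  have hb0 : 0 < b := ha.trans_le hab
  have e1 : Φb (t, ξ (t, x)) = Φ (t, x) := hξ.eq (t, x)
  have e2 : Φb (t, ξ (t, y)) = Φ (t, y) := hξ.eq (t, y)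
  have h1 := h.lo t x y hxy
  have h2 := h.hi t x y hxy
  have hle : ξ (t, x) ≤ ξ (t, y) := by
    by_contra hcon
    push Not at hcon
    have h3 := hb.lo t _ _ hcon.le
    rw [e1, e2] at h3
    have h4 : 0 < a * (ξ (t, x) - ξ (t, y)) := mul_pos ha (sub_pos.2 hcon)
    have h5 : 0 ≤ a * (y - x) := mul_nonneg ha.le (sub_nonneg.2 hxy)
    linarith
  have h3 := hb.lo t _ _ hle
  have h4 := hb.hi t _ _ hle
  rw [e1, e2] at h3 h4
  constructor
  · rw [div_mul_eq_mul_div, div_le_iff₀ hb0]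
    linarith
  · rw [div_mul_eq_mul_div, le_div_iff₀ ha]
    linarith

theorem IsXi.ae_comp {T a b : ℝ} {ρ m Φ r n Φb ξ : ℝ × ℝ → ℝ} (ha : 0 < a)
    (h : IsPot T a b ρ m Φ) (hb : IsPot T a b r n Φb) (hξ : IsXi Φ Φb ξ)
    {P : ℝ × ℝ → Prop} (hP : ∀ᵐ z : ℝ × ℝ, z ∈ Strip T → P z) :
    ∀ᵐ z : ℝ × ℝ, z ∈ Strip T → P (z.1, ξ z) := by
  obtain ⟨ξ', hξ'⟩ := exists_xi ha hb h
  obtain ⟨K, hK⟩ := hξ'.lip
  have hL : LipschitzWith (max 1 K) (fun z : ℝ × ℝ => (z.1, ξ' z)) :=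
    LipschitzWith.prodMk LipschitzWith.prod_fst hK
  have hinv : ∀ z : ℝ × ℝ, ξ' (z.1, ξ z) = z.2 := by
    intro z
    refine h45_injective ha h (t := z.1) ?_
    have h1 := hξ'.eq (z.1, ξ z)
    have h2 := hξ.eq z
    rw [h2] at h1
    exact h1
  rw [ae_iff] at hP ⊢
  have hsub : {z : ℝ × ℝ | ¬(z ∈ Strip T → P (z.1, ξ z))} ⊆
      (fun z : ℝ × ℝ => (z.1, ξ' z)) '' {z : ℝ × ℝ | ¬(z ∈ Strip T → P z)} := by
    intro z hz
    refine ⟨(z.1, ξ z), ?_, ?_⟩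
    · intro hcon
      exact hz fun hzT => hcon hzT
    · change (z.1, ξ' (z.1, ξ z)) = z
      rw [hinv z]
  refine measure_mono_null hsub ?_
  have h1 := hL.hausdorffMeasure_image_le (d := 2) (by norm_num)
    {z : ℝ × ℝ | ¬(z ∈ Strip T → P z)}
  rw [hausdorffMeasure_prod_real, hP, mul_zero] at h1
  exact le_antisymm h1 zero_le

theorem IsXi.locLip {T a b : ℝ} {ρ m Φ r n Φb ξ f : ℝ × ℝ → ℝ} (ha : 0 < a)
    (h : IsPot T a b ρ m Φ) (hb : IsPot T a b r n Φb) (hξ : IsXi Φ Φb ξ)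
    (hf : LocallyLipschitzOn (Strip T) f) :
    LocallyLipschitzOn (Strip T) (fun z => f (z.1, ξ z)) := by
  obtain ⟨K, hK⟩ := hξ.lip
  have hL : LipschitzWith (max 1 K) (fun z : ℝ × ℝ => (z.1, ξ z)) :=
    LipschitzWith.prodMk LipschitzWith.prod_fst hK
  intro z hz
  have hz' : ((z.1, ξ z) : ℝ × ℝ) ∈ Strip T := hz
  obtain ⟨Kf, u, hu, hKf⟩ := hf hz'
  have h1 : (fun z : ℝ × ℝ => (z.1, ξ z)) ⁻¹' u ∈ 𝓝[Strip T] z := by
    have h2 : Tendsto (fun z : ℝ × ℝ => (z.1, ξ z)) (𝓝[Strip T] z) (𝓝[Strip T] (z.1, ξ z)) := by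
      refine tendsto_nhdsWithin_of_tendsto_nhds_of_eventually_within _ ?_ ?_
      · exact (hL.continuous.tendsto z).mono_left nhdsWithin_le_nhds
      · filter_upwards [self_mem_nhdsWithin] with y hy
        exact hy
    exact h2 hu
  exact ⟨Kf * max 1 K, _, h1, hKf.comp (hL.lipschitzOnWith) (fun y hy => hy)⟩

end Helper73.EU
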